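import Mathlib

section

/-!
# MP_f44734_an (H-systems): common definitions

`E n = Fin n → ℝ`, Jacobian matrices, minors, Frobenius norm, Japanese bracket, and the abstract
data (`HData`) on which the a priori estimate (Theorem Z) is based.
-/

set_option autoImplicit false
open MeasureTheory Set Filter Topology
open scoped ENNReal

namespace Pool.Agent.Lib.HSys

/-- `ℝⁿ` (with the sup norm; everything euclidean is written out by hand). -/
abbrev E (n : ℕ) := Fin n → ℝ

/-- partial derivative `∂ f / ∂ x_j` at `x`. -/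
noncomputable def pd {n : ℕ} (f : E n → ℝ) (j : Fin n) (x : E n) : ℝ :=
  fderiv ℝ f x (Pi.single j 1)

/-- The Jacobian matrix of `w` at `x`: entry `(i,j)` is `∂ w_i / ∂ x_j`. -/
noncomputable def Jac {n m : ℕ} (w : E n → E m) (x : E n) : Matrix (Fin m) (Fin n) ℝ :=
  Matrix.of fun i j => fderiv ℝ w x (Pi.single j 1) i

/-- The Hessian matrix of `Φ` at `y`: entry `(i,j)` is `∂_i ∂_j Φ`. -/
noncomputable def Hess {n : ℕ} (Φ : E n → ℝ) (y : E n) : Matrix (Fin n) (Fin n) ℝ :=
  Matrix.of fun i j => pd (pd Φ j) i y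

/-- The minor of an `(n+1) × n` matrix obtained by omitting row `i`. -/
noncomputable def mnr {n : ℕ} (P : Matrix (Fin (n + 1)) (Fin n) ℝ) (i : Fin (n + 1)) : ℝ :=
  (P.submatrix i.succAbove id).det

/-- Component `i` of the generalized cross product of the columns of `P` (up to a global sign). -/
noncomputable def cr {n : ℕ} (P : Matrix (Fin (n + 1)) (Fin n) ℝ) (i : Fin (n + 1)) : ℝ :=
  (-1 : ℝ) ^ (i : ℕ) * mnr P i

/-- Frobenius norm. -/
noncomputable def fro {m n : ℕ} (P : Matrix (Fin m) (Fin n) ℝ) : ℝ :=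
  Real.sqrt (∑ a, ∑ b, P a b ^ 2)

/-- Japanese bracket `⟨y⟩ = √(1 + |y|²)`. -/
noncomputable def bra {m : ℕ} (y : E m) : ℝ := Real.sqrt (1 + ∑ i, y i ^ 2)

/-- The abstract data for the a priori estimate.  `v` is the (translated) map, `P` its gradient
matrix, `T s` stands for `limsup_k ∫_{⟨y⟩ > s} |q_k|`, where `q_k` is the covering function of the
`k`-th smooth approximation. `K` is a Lipschitz constant of `H` (for the sup norm) and `M` a bound
of `H`. -/
structure HData (n : ℕ) {α : Type} [MeasurableSpace α] (μ : Measure α) (v : α → E (n + 1))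
    (P : α → Matrix (Fin (n + 1)) (Fin n) ℝ) (T : ℝ → ℝ≥0∞) (s₁ K M c C : ℝ) : Prop where
  meas_v : Measurable v
  meas_P : ∀ i j, Measurable fun x => P x i j
  int_P : Integrable (fun x => fro (P x) ^ n) μ
  T_anti : ∀ s s' : ℝ, s₁ ≤ s → s ≤ s' → T s' ≤ T s
  T_fin : ∀ s : ℝ, s₁ ≤ s → T s ≠ ∞
  /-- the equation, tested with `X(v)` -/
  H1 : ∀ (s b₀ b₁ : ℝ), s₁ ≤ s → ∀ X : E (n + 1) → E (n + 1), ContDiff ℝ (⊤ : ℕ∞) X →
    (∀ y, bra y ≤ s → X y = 0) → (∀ y i, |X y i| ≤ b₀) →
    (∀ y, |∑ i, fderiv ℝ X y (Pi.single i 1) i| ≤ b₁) →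
    (∃ D : ℝ, ∀ y i j, |fderiv ℝ X y (Pi.single j 1) i| ≤ D) →
    ∫ x, fro (P x) ^ (n - 2) *
        ∑ a, ∑ i, ∑ j, P x i a * fderiv ℝ X (v x) (Pi.single j 1) i * P x j a ∂μ
      ≤ (K * b₀ + M * b₁) * (T s).toReal
  /-- global isoperimetric inequality -/
  H2 : ∀ s : ℝ, s₁ ≤ s →
    T s ≤ (∫⁻ x in {x | s ≤ bra (v x)}, ENNReal.ofReal (fro (P x) ^ n) ∂μ) ^ (((n : ℝ) + 1) / n)
  /-- local isoperimetric inequality, summed over unit cubes -/
  H3 : ∀ s : ℝ, s₁ ≤ s →
    T (s + c) ≤ ENNReal.ofReal C *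
      ((∑' a : Fin (n + 1) → ℤ,
        (∫⁻ x in {x | (∀ j, ⌊v x j⌋ = a j) ∧ s ≤ bra (v x)},
          ∑ i, ENNReal.ofReal |mnr (P x) i| ∂μ) ^ (((n : ℝ) + 1) / n))
        + T s ^ (((n : ℝ) + 1) / n))

/-- The hypotheses of the frozen statement on `(u, Du)` (Sobolev part). -/
structure IsSob (n : ℕ) (Ω : Set (E n)) (u : E n → E (n + 1))
    (Du : E n → Matrix (Fin (n + 1)) (Fin n) ℝ) : Prop where
  memu : MemLp u (n : ENNReal) (volume.restrict Ω)
  memDu : ∀ i j, MemLp (fun x => Du x i j) (n : ENNReal) (volume.restrict Ω)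
  weak : ∀ φ : E n → ℝ, ContDiff ℝ (⊤ : ℕ∞) φ → HasCompactSupport φ → tsupport φ ⊆ Ω →
    ∀ (i : Fin (n + 1)) (j : Fin n),
      ∫ x in Ω, u x i * fderiv ℝ φ x (Pi.single j 1) = - ∫ x in Ω, Du x i j * φ x

/-- The weak form of the `H`-system (exactly as in the frozen statement). -/
def IsWeakSol (n : ℕ) (Ω : Set (E n)) (H : E (n + 1) → ℝ) (u : E n → E (n + 1))
    (Du : E n → Matrix (Fin (n + 1)) (Fin n) ℝ) : Prop :=
  ∀ φ : E n → ℝ, ContDiff ℝ (⊤ : ℕ∞) φ → HasCompactSupport φ → tsupport φ ⊆ Ω →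
    ∀ i : Fin (n + 1),
      ∫ x in Ω, Real.sqrt (∑ a, ∑ b, Du x a b ^ 2) ^ (n - 2)
          * ∑ j, Du x i j * fderiv ℝ φ x (Pi.single j 1)
        = ∫ x in Ω, H (u x) * ((-1 : ℝ) ^ (i : ℕ) *
            ((Du x).submatrix i.succAbove id).det) * φ x

/-- Smooth approximations `U k` of `u` on the cube `ball x₀ r` with boundary values `δ`-close
to `a`. -/
structure LocApprox (n : ℕ) (x₀ : E n) (r : ℝ) (u : E n → E (n + 1))
    (Du : E n → Matrix (Fin (n + 1)) (Fin n) ℝ) (a : E (n + 1)) (δ : ℝ)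
    (U : ℕ → E n → E (n + 1)) : Prop where
  rpos : 0 < r
  smooth : ∀ k, ContDiff ℝ (⊤ : ℕ∞) (U k)
  bdry : ∀ k x, ‖x - x₀‖ = r → ∀ i, |U k x i - a i| ≤ δ
  ae_u : ∀ᵐ x ∂(volume.restrict (Metric.ball x₀ r)), Tendsto (fun k => U k x) atTop (𝓝 (u x))
  ae_Du : ∀ᵐ x ∂(volume.restrict (Metric.ball x₀ r)), ∀ i j,
    Tendsto (fun k => Jac (U k) x i j) atTop (𝓝 (Du x i j))
  aesm_u : AEStronglyMeasurable u (volume.restrict (Metric.ball x₀ r))
  memDu : ∀ i j, MemLp (fun x => Du x i j) (n : ENNReal) (volume.restrict (Metric.ball x₀ r))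
  Ln : ∀ i j, Tendsto (fun k => eLpNorm (fun x => Jac (U k) x i j - Du x i j) (n : ENNReal)
    (volume.restrict (Metric.ball x₀ r))) atTop (𝓝 0)

end Pool.Agent.Lib.HSys
end

section

/-!
# Elementary facts on `bra`, `fro`, `Jac`, `mnr`
-/

set_option autoImplicit false
open MeasureTheory Set
open scoped ENNReal

namespace Pool.Agent.Lib.HSys

variable {n m : ℕ}

/-! ### `bra` -/

theorem bra_sq (y : E m) : bra y ^ 2 = 1 + ∑ i, y i ^ 2 :=
  Real.sq_sqrt (by positivity)

theorem one_le_bra (y : E m) : 1 ≤ bra y := by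
  rw [bra, Real.one_le_sqrt]
  have : 0 ≤ ∑ i, y i ^ 2 := by positivity
  linarith

theorem bra_pos (y : E m) : 0 < bra y := lt_of_lt_of_le one_pos (one_le_bra y)

theorem bra_zero : bra (0 : E m) = 1 := by simp [bra]

theorem abs_le_bra (y : E m) (i : Fin m) : |y i| ≤ bra y := by
  apply Real.abs_le_sqrt
  have : y i ^ 2 ≤ ∑ i, y i ^ 2 :=
    Finset.single_le_sum (f := fun i => y i ^ 2) (fun j _ => sq_nonneg _) (Finset.mem_univ i)
  linarith

theorem contDiff_bra {k : WithTop ℕ∞} : ContDiff ℝ k (bra : E m → ℝ) := by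
  unfold bra
  apply ContDiff.sqrt
  · exact contDiff_const.add (ContDiff.sum fun i _ => (contDiff_apply ℝ ℝ i).pow 2)
  · intro y
    have : 0 ≤ ∑ i, y i ^ 2 := by positivity
    positivity

theorem continuous_bra : Continuous (bra : E m → ℝ) := (contDiff_bra (k := 0)).continuous

theorem measurable_bra : Measurable (bra : E m → ℝ) := continuous_bra.measurable

theorem hasFDerivAt_bra (y : E m) :
    HasFDerivAt (bra : E m → ℝ)
      ((1 / bra y) • ∑ i, y i • (ContinuousLinearMap.proj i : E m →L[ℝ] ℝ)) y := by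
  have h1 : HasFDerivAt (fun y : E m => 1 + ∑ i, y i ^ 2)
      (∑ i, (2 * y i) • (ContinuousLinearMap.proj i : E m →L[ℝ] ℝ)) y := by
    have h2 : ∀ i ∈ (Finset.univ : Finset (Fin m)), HasFDerivAt (fun y : E m => y i ^ 2)
        ((2 * y i) • (ContinuousLinearMap.proj i : E m →L[ℝ] ℝ)) y := by
      intro i _
      have h3 : HasFDerivAt (fun y : E m => y i) (ContinuousLinearMap.proj i : E m →L[ℝ] ℝ) y :=
        (ContinuousLinearMap.proj (R := ℝ) (φ := fun _ : Fin m => ℝ) i).hasFDerivAt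
      have := h3.pow 2
      simpa using this
    exact (HasFDerivAt.fun_sum h2).const_add 1
  have hne : (1 + ∑ i, y i ^ 2) ≠ 0 := by
    have : 0 ≤ ∑ i, y i ^ 2 := by positivity
    positivity
  refine (h1.sqrt hne).congr_fderiv ?_
  have hb := bra_pos y
  rw [show Real.sqrt (1 + ∑ i, y i ^ 2) = bra y from rfl, Finset.smul_sum, Finset.smul_sum]
  apply Finset.sum_congr rfl
  intro i _
  rw [smul_smul, smul_smul]
  congr 1
  field_simp

theorem fderiv_bra (y : E m) (j : Fin m) :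
    fderiv ℝ (bra : E m → ℝ) y (Pi.single j 1) = y j / bra y := by
  rw [(hasFDerivAt_bra y).fderiv]
  simp only [smul_apply, sum_apply,
    ContinuousLinearMap.proj_apply, smul_eq_mul, Pi.single_apply]
  simp
  ring

theorem pd_bra (y : E m) (j : Fin m) : pd (bra : E m → ℝ) j y = y j / bra y := fderiv_bra y j

/-! ### `fro` -/

theorem fro_nonneg (P : Matrix (Fin m) (Fin n) ℝ) : 0 ≤ fro P := Real.sqrt_nonneg _

theorem fro_sq (P : Matrix (Fin m) (Fin n) ℝ) : fro P ^ 2 = ∑ a, ∑ b, P a b ^ 2 :=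
  Real.sq_sqrt (by positivity)

theorem abs_entry_le_fro (P : Matrix (Fin m) (Fin n) ℝ) (i : Fin m) (j : Fin n) :
    |P i j| ≤ fro P := by
  apply Real.abs_le_sqrt
  have h1 : P i j ^ 2 ≤ ∑ b, P i b ^ 2 :=
    Finset.single_le_sum (f := fun b => P i b ^ 2) (fun j _ => sq_nonneg _) (Finset.mem_univ j)
  have h2 : ∑ b, P i b ^ 2 ≤ ∑ a, ∑ b, P a b ^ 2 :=
    Finset.single_le_sum (f := fun a => ∑ b, P a b ^ 2)
      (fun j _ => Finset.sum_nonneg fun _ _ => sq_nonneg _) (Finset.mem_univ i)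
  linarith

theorem fro_eq_zero_iff (P : Matrix (Fin m) (Fin n) ℝ) : fro P = 0 ↔ P = 0 := by
  constructor
  · intro h
    ext i j
    have := abs_entry_le_fro P i j
    rw [h] at this
    simpa using this
  · rintro rfl
    simp [fro]

theorem fro_submatrix_le (P : Matrix (Fin (m + 1)) (Fin n) ℝ) (i : Fin (m + 1)) :
    fro (P.submatrix i.succAbove id) ≤ fro P := by
  unfold fro
  apply Real.sqrt_le_sqrt
  rw [Fin.sum_univ_succAbove _ i]
  simp only [Matrix.submatrix_apply, id_eq]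
  have : 0 ≤ ∑ b, P i b ^ 2 := by positivity
  linarith

theorem continuous_fro : Continuous (fro : Matrix (Fin m) (Fin n) ℝ → ℝ) := by
  unfold fro
  fun_prop

theorem continuous_mnr (i : Fin (n + 1)) :
    Continuous (fun P : Matrix (Fin (n + 1)) (Fin n) ℝ => mnr P i) := by
  unfold mnr
  fun_prop

theorem continuous_cr (i : Fin (n + 1)) :
    Continuous (fun P : Matrix (Fin (n + 1)) (Fin n) ℝ => cr P i) := by
  unfold cr
  exact continuous_const.mul (continuous_mnr i)

theorem abs_cr (P : Matrix (Fin (n + 1)) (Fin n) ℝ) (i : Fin (n + 1)) : |cr P i| = |mnr P i| := by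
  rw [cr, abs_mul, abs_pow, abs_neg, abs_one, one_pow, one_mul]

/-- a matrix valued function with measurable entries is measurable (as a function to `Fin m → Fin
n → ℝ`), so `fro`, `mnr`, `cr` of it are measurable. -/
theorem measurable_fro {α : Type*} [MeasurableSpace α] {P : α → Matrix (Fin m) (Fin n) ℝ}
    (hP : ∀ i j, Measurable fun x => P x i j) : Measurable fun x => fro (P x) := by
  unfold fro
  exact (Finset.measurable_sum _ fun i _ => Finset.measurable_sum _ fun j _ =>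
    (hP i j).pow_const 2).sqrt

theorem measurable_mnr {α : Type*} [MeasurableSpace α]
    {P : α → Matrix (Fin (n + 1)) (Fin n) ℝ}
    (hP : ∀ i j, Measurable fun x => P x i j) (i : Fin (n + 1)) :
    Measurable fun x => mnr (P x) i := by
  unfold mnr
  simp only [Matrix.det_apply, Matrix.submatrix_apply, id_eq]
  exact Finset.measurable_sum _ fun σ _ =>
    (Finset.measurable_prod _ fun j _ => hP _ _).const_smul _

theorem measurable_cr {α : Type*} [MeasurableSpace α]
    {P : α → Matrix (Fin (n + 1)) (Fin n) ℝ}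
    (hP : ∀ i j, Measurable fun x => P x i j) (i : Fin (n + 1)) :
    Measurable fun x => cr (P x) i := by
  unfold cr
  exact (measurable_mnr hP i).const_mul _

/-! ### `Jac` -/

theorem Jac_apply (w : E n → E m) (x : E n) (i : Fin m) (j : Fin n) :
    Jac w x i j = fderiv ℝ w x (Pi.single j 1) i := rfl

theorem continuous_Jac_apply {w : E n → E m} (hw : ContDiff ℝ 1 w) (i : Fin m) (j : Fin n) :
    Continuous fun x => Jac w x i j := by
  have h1 : Continuous fun x => fderiv ℝ w x := hw.continuous_fderiv one_ne_zero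
  exact (continuous_apply i).comp (h1.clm_apply continuous_const)

theorem continuous_Jac {w : E n → E m} (hw : ContDiff ℝ 1 w) : Continuous (Jac w) := by
  apply continuous_matrix
  intro i j
  exact continuous_Jac_apply hw i j

/-- the derivative of a component -/
theorem pd_component {w : E n → E m} {x : E n} (hw : DifferentiableAt ℝ w x) (i : Fin m)
    (j : Fin n) : pd (fun x => w x i) j x = Jac w x i j := by
  have h := hasFDerivAt_pi'.1 hw.hasFDerivAt i
  rw [pd, h.fderiv]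
  rfl

/-- the total derivative in terms of the Jacobian matrix -/
theorem fderiv_apply_eq {w : E n → E m} (x e : E n) (i : Fin m) :
    fderiv ℝ w x e i = ∑ j, Jac w x i j * e j := by
  have he : e = ∑ j, e j • (Pi.single j (1 : ℝ) : E n) := by
    ext k
    simp [Finset.sum_apply, Pi.single_apply]
  conv_lhs => rw [he]
  rw [map_sum, Finset.sum_apply]
  apply Finset.sum_congr rfl
  intro j _
  rw [map_smul, Pi.smul_apply, smul_eq_mul, Jac_apply, mul_comm]

theorem fderiv_real_apply_eq {ψ : E n → ℝ} (x e : E n) :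
    fderiv ℝ ψ x e = ∑ j, pd ψ j x * e j := by
  have he : e = ∑ j, e j • (Pi.single j (1 : ℝ) : E n) := by
    ext k
    simp [Finset.sum_apply, Pi.single_apply]
  conv_lhs => rw [he]
  rw [map_sum]
  apply Finset.sum_congr rfl
  intro j _
  rw [map_smul, smul_eq_mul, pd, mul_comm]

/-- chain rule for a real function of a map -/
theorem pd_comp {w : E n → E m} {ψ : E m → ℝ} {x : E n} (hψ : DifferentiableAt ℝ ψ (w x))
    (hw : DifferentiableAt ℝ w x) (j : Fin n) :
    pd (fun x => ψ (w x)) j x = ∑ l, pd ψ l (w x) * Jac w x l j := by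
  have h := (hψ.hasFDerivAt.comp x hw.hasFDerivAt)
  have h2 : fderiv ℝ (fun x => ψ (w x)) x = (fderiv ℝ ψ (w x)).comp (fderiv ℝ w x) := h.fderiv
  rw [pd, h2, ContinuousLinearMap.comp_apply, fderiv_real_apply_eq]
  rfl

/-- chain rule for maps -/
theorem Jac_comp {p : ℕ} {w : E n → E m} {F : E m → E p} {x : E n}
    (hF : DifferentiableAt ℝ F (w x)) (hw : DifferentiableAt ℝ w x) (i : Fin p) (j : Fin n) :
    Jac (fun x => F (w x)) x i j = ∑ l, Jac F (w x) i l * Jac w x l j := by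
  have h := (hF.hasFDerivAt.comp x hw.hasFDerivAt)
  have h2 : fderiv ℝ (fun x => F (w x)) x = (fderiv ℝ F (w x)).comp (fderiv ℝ w x) := h.fderiv
  rw [Jac_apply, h2, ContinuousLinearMap.comp_apply, fderiv_apply_eq]
  rfl

theorem Jac_sub_const (w : E n → E m) (a : E m) (x : E n) :
    Jac (fun x => w x - a) x = Jac w x := by
  ext i j
  rw [Jac_apply, Jac_apply, fderiv_sub_const]

end Pool.Agent.Lib.HSys
end
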