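import Pool.Agent.Lib.MP_f44734_an.Basic

section

/-!
# Loomis-Whitney inequality for nonnegative functions
-/

set_option autoImplicit false
open MeasureTheory Set Filter Topology
open scoped ENNReal Matrix

namespace Pool.Agent.Lib.HSys

/-- Tonelli for the first coordinate. -/
theorem LW_lintegral_cons {n : ℕ} (F : E (n + 1) → ℝ≥0∞) (hF : Measurable F) :
    ∫⁻ y, F y = ∫⁻ t : ℝ, ∫⁻ z : E n, F (Fin.cons t z : E (n + 1)) := by
  have h := (volume_preserving_piFinSuccAbove (fun _ : Fin (n + 1) => ℝ) 0).symm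
  rw [← h.lintegral_comp hF, Measure.volume_eq_prod, lintegral_prod]
  · refine lintegral_congr fun t => lintegral_congr fun z => ?_
    congr 1
    exact Fin.insertNth_zero' t z
  · exact (hF.comp (MeasurableEquiv.measurable _)).aemeasurable

theorem LW_measurable_cons {n : ℕ} :
    Measurable (fun p : ℝ × E n => (Fin.cons p.1 p.2 : E (n + 1))) := by
  refine measurable_pi_iff.mpr fun i => ?_
  refine Fin.cases ?_ (fun j => ?_) i
  · simpa using measurable_fst
  · simp only [Fin.cons_succ]
    exact (measurable_pi_apply j).comp measurable_snd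

/-- II-g -/
theorem loomis_whitney {n : ℕ} (hn : 1 ≤ n) (g : Fin (n + 1) → E n → ℝ≥0∞)
    (hg : ∀ i, Measurable (g i)) :
    ∫⁻ y : E (n + 1), ∏ i, g i (fun j => y (i.succAbove j)) ^ (1 / (n : ℝ)) ≤
      ∏ i, (∫⁻ z, g i z) ^ (1 / (n : ℝ)) := by
  induction n, hn using Nat.le_induction with
  | base =>
    have hm1 : Measurable (fun t : ℝ => g 1 (fun _ => t)) :=
      (hg 1).comp (measurable_pi_iff.mpr fun _ => measurable_id)
    have h1 : ∫⁻ z : E 1, g 1 z = ∫⁻ t : ℝ, g 1 (fun _ => t) := by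
      have h := (volume_preserving_funUnique (Fin 1) ℝ).symm
      exact (h.lintegral_comp (hg 1)).symm
    have hmeas : Measurable (fun y : E 2 => ∏ i, g i (fun j => y (i.succAbove j)) ^
        (1 / ((1 : ℕ) : ℝ))) := by
      refine Finset.measurable_prod _ fun i _ => ?_
      exact ((hg i).comp (measurable_pi_iff.mpr fun j => measurable_pi_apply _)).pow_const _
    rw [LW_lintegral_cons _ hmeas]
    have h2 : ∀ (t : ℝ) (z : E 1), (∏ i : Fin 2, g i (fun j => (Fin.cons t z : E 2)
        (i.succAbove j)) ^ (1 / ((1 : ℕ) : ℝ))) = g 1 (fun _ => t) * g 0 z := by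
      intro t z
      rw [Fin.prod_univ_two]
      simp only [Nat.cast_one, div_one, ENNReal.rpow_one]
      rw [mul_comm]
      congr 1
      · congr 1
        funext j
        have : (1 : Fin 2).succAbove j = 0 := by
          fin_cases j; rfl
        rw [this, Fin.cons_zero]
    simp only [h2]
    rw [lintegral_congr fun t => lintegral_const_mul _ (hg 0)]
    rw [lintegral_mul_const _ hm1, Fin.prod_univ_two, h1]
    simp only [Nat.cast_one, div_one, ENNReal.rpow_one]
    rw [mul_comm]
  | succ n hn ih =>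
    have hn0 : (0 : ℝ) < n := by exact_mod_cast hn
    have hn1 : (0 : ℝ) < (n : ℝ) + 1 := by positivity
    have hmeas : Measurable (fun y : E (n + 2) => ∏ i, g i (fun j => y (i.succAbove j)) ^
        (1 / ((n + 1 : ℕ) : ℝ))) := by
      refine Finset.measurable_prod _ fun i _ => ?_
      exact ((hg i).comp (measurable_pi_iff.mpr fun j => measurable_pi_apply _)).pow_const _
    rw [LW_lintegral_cons _ hmeas]
    have h2 : ∀ (t : ℝ) (z : E (n + 1)), (∏ i : Fin (n + 2), g i (fun j =>
        (Fin.cons t z : E (n + 2)) (i.succAbove j)) ^ (1 / ((n + 1 : ℕ) : ℝ))) =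
        g 0 z ^ (1 / ((n : ℝ) + 1)) * ∏ i : Fin (n + 1),
          g i.succ (Fin.cons t (fun j => z (i.succAbove j))) ^ (1 / ((n : ℝ) + 1)) := by
      intro t z
      rw [Fin.prod_univ_succ]
      push_cast
      congr 1
      refine Finset.prod_congr rfl fun i _ => ?_
      congr 2
      funext j
      refine Fin.cases ?_ (fun j' => ?_) j
      · simp
      · simp
    simp only [h2]
    -- Hölder in `z`
    have hcj : ((n : ℝ) + 1).HolderConjugate (((n : ℝ) + 1) / n) := by
      rw [Real.holderConjugate_iff]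
      constructor
      · linarith
      · field_simp
        ring
    have hGm : ∀ (t : ℝ) (i : Fin (n + 1)), Measurable (fun w : E n => g i.succ (Fin.cons t w)) := by
      intro t i
      exact (hg i.succ).comp (LW_measurable_cons.comp (measurable_const.prodMk measurable_id))
    have hinner : ∀ t : ℝ, ∫⁻ z : E (n + 1), g 0 z ^ (1 / ((n : ℝ) + 1)) * ∏ i : Fin (n + 1),
          g i.succ (Fin.cons t (fun j => z (i.succAbove j))) ^ (1 / ((n : ℝ) + 1)) ≤
        (∫⁻ z, g 0 z) ^ (1 / ((n : ℝ) + 1)) *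
          ∏ i : Fin (n + 1), (∫⁻ w : E n, g i.succ (Fin.cons t w)) ^ (1 / ((n : ℝ) + 1)) := by
      intro t
      have hA : AEMeasurable (fun z : E (n + 1) => g 0 z ^ (1 / ((n : ℝ) + 1))) :=
        ((hg 0).pow_const _).aemeasurable
      have hB : AEMeasurable (fun z : E (n + 1) => ∏ i : Fin (n + 1),
          g i.succ (Fin.cons t (fun j => z (i.succAbove j))) ^ (1 / ((n : ℝ) + 1))) := by
        refine (Finset.measurable_prod _ fun i _ => ?_).aemeasurable
        exact ((hGm t i).comp (measurable_pi_iff.mpr fun j => measurable_pi_apply _)).pow_const _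
      refine (ENNReal.lintegral_mul_le_Lp_mul_Lq volume hcj hA hB).trans ?_
      have e1 : ∀ z : E (n + 1), (g 0 z ^ (1 / ((n : ℝ) + 1))) ^ ((n : ℝ) + 1) = g 0 z := by
        intro z
        rw [← ENNReal.rpow_mul, one_div, inv_mul_cancel₀ hn1.ne', ENNReal.rpow_one]
      have e2 : ∀ z : E (n + 1), (∏ i : Fin (n + 1),
          g i.succ (Fin.cons t (fun j => z (i.succAbove j))) ^ (1 / ((n : ℝ) + 1))) ^
          (((n : ℝ) + 1) / n) = ∏ i : Fin (n + 1),
          (fun w : E n => g i.succ (Fin.cons t w)) (fun j => z (i.succAbove j)) ^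
            (1 / (n : ℝ)) := by
        intro z
        rw [← ENNReal.prod_rpow_of_nonneg (by positivity)]
        refine Finset.prod_congr rfl fun i _ => ?_
        rw [← ENNReal.rpow_mul]
        congr 1
        field_simp
      simp only [e1, e2]
      refine mul_le_mul_right ?_ _
      refine (ENNReal.rpow_le_rpow (ih (fun i w => g i.succ (Fin.cons t w)) (hGm t))
        (by positivity)).trans ?_
      rw [← ENNReal.prod_rpow_of_nonneg (by positivity)]
      refine le_of_eq (Finset.prod_congr rfl fun i _ => ?_)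
      rw [← ENNReal.rpow_mul]
      congr 1
      field_simp
    refine (lintegral_mono hinner).trans ?_
    have hcm : ∀ i : Fin (n + 1), Measurable (fun t : ℝ => ∫⁻ w : E n, g i.succ (Fin.cons t w)) := by
      intro i
      exact Measurable.lintegral_prod_right' ((hg i.succ).comp LW_measurable_cons)
    rw [lintegral_const_mul _ (Finset.measurable_prod _ fun i _ => (hcm i).pow_const _),
      Fin.prod_univ_succ]
    push_cast
    refine mul_le_mul_right ?_ _
    refine (ENNReal.lintegral_prod_norm_pow_le Finset.univ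
      (fun i _ => (hcm i).aemeasurable) ?_ (fun i _ => by positivity)).trans ?_
    · rw [Finset.sum_const, Finset.card_univ, Fintype.card_fin, nsmul_eq_mul]
      push_cast
      field_simp
    · refine le_of_eq (Finset.prod_congr rfl fun i _ => ?_)
      rw [← LW_lintegral_cons _ (hg i.succ)]

end Pool.Agent.Lib.HSys
end

section

section

/-!
# MP_f44734_an: upper semicontinuity of the energy (job H2L)
-/

set_option autoImplicit false
open MeasureTheory Set Filter Topology
open scoped ENNReal Matrix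

namespace Pool.Agent.Lib.HSys

/-! ### dominated convergence with an `L¹`-small perturbation of the majorant -/

theorem limsup1_tendsto_zero {α : Type*} [MeasurableSpace α] {μ : Measure α}
    (h d : ℕ → α → ℝ≥0∞) (g : α → ℝ≥0∞) (C : ℝ≥0∞) (hC : C ≠ ∞)
    (hh : ∀ k, AEMeasurable (h k) μ) (hd : ∀ k, AEMeasurable (d k) μ) (hg : AEMeasurable g μ)
    (hgfin : ∫⁻ x, g x ∂μ ≠ ∞) (hle : ∀ k, ∀ᵐ x ∂μ, h k x ≤ C * (d k x + g x))
    (hd0 : Tendsto (fun k => ∫⁻ x, d k x ∂μ) atTop (𝓝 0))
    (hlim : ∀ᵐ x ∂μ, Tendsto (fun k => h k x) atTop (𝓝 0)) :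
    Tendsto (fun k => ∫⁻ x, h k x ∂μ) atTop (𝓝 0) := by
  have key : ∀ k, ∫⁻ x, h k x ∂μ ≤ C * ∫⁻ x, d k x ∂μ + ∫⁻ x, min (h k x) (C * g x) ∂μ := by
    intro k
    have h1 : ∫⁻ x, h k x ∂μ ≤ ∫⁻ x, (C * d k x + min (h k x) (C * g x)) ∂μ := by
      apply lintegral_mono_ae
      filter_upwards [hle k] with x hx
      rcases le_total (h k x) (C * g x) with h2 | h2
      · rw [min_eq_left h2]
        exact le_add_self
      · rw [min_eq_right h2, ← mul_add]
        exact hx
    refine h1.trans ?_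
    rw [lintegral_add_left' ((hd k).const_mul C), lintegral_const_mul' _ _ hC]
  have hmin : Tendsto (fun k => ∫⁻ x, min (h k x) (C * g x) ∂μ) atTop (𝓝 (∫⁻ _, 0 ∂μ)) := by
    apply tendsto_lintegral_of_dominated_convergence' (fun x => C * g x)
    · intro k
      exact (hh k).min (hg.const_mul C)
    · intro k
      exact Eventually.of_forall fun x => min_le_right _ _
    · rw [lintegral_const_mul' _ _ hC]
      exact ENNReal.mul_ne_top hC hgfin
    · filter_upwards [hlim] with x hx
      exact tendsto_of_tendsto_of_tendsto_of_le_of_le tendsto_const_nhds hx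
        (fun _ => zero_le) (fun _ => min_le_left _ _)
  rw [lintegral_zero] at hmin
  have hCd : Tendsto (fun k => C * ∫⁻ x, d k x ∂μ) atTop (𝓝 0) := by
    have := ENNReal.Tendsto.const_mul (a := C) hd0 (Or.inr hC)
    rwa [mul_zero] at this
  have hsum := hCd.add hmin
  rw [add_zero] at hsum
  exact tendsto_of_tendsto_of_tendsto_of_le_of_le tendsto_const_nhds hsum
    (fun _ => zero_le) key

/-! ### pointwise inequalities -/

theorem limsup1_fro_le_sum {m n : ℕ} (P : Matrix (Fin m) (Fin n) ℝ) :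
    fro P ≤ ∑ i, ∑ j, |P i j| := by
  unfold fro
  apply Real.sqrt_le_iff.2
  refine ⟨by positivity, ?_⟩
  have h1 : ∀ i, ∑ j, P i j ^ 2 ≤ (∑ j, |P i j|) ^ 2 := by
    intro i
    have := Finset.sum_sq_le_sq_sum_of_nonneg (s := Finset.univ) (f := fun j => |P i j|)
      (fun j _ => abs_nonneg _)
    simpa [sq_abs] using this
  calc ∑ i, ∑ j, P i j ^ 2 ≤ ∑ i, (∑ j, |P i j|) ^ 2 := Finset.sum_le_sum fun i _ => h1 i
    _ ≤ (∑ i, ∑ j, |P i j|) ^ 2 :=
      Finset.sum_sq_le_sq_sum_of_nonneg (s := Finset.univ) (f := fun i => ∑ j, |P i j|)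
        (fun i _ => by positivity)

/-- triangle inequality for the Frobenius norm (with the matrix viewed as a vector of
`EuclideanSpace`). -/
theorem limsup1_fro_le_add {m n : ℕ} (P Q : Matrix (Fin m) (Fin n) ℝ) :
    fro P ≤ fro (P - Q) + fro Q := by
  have h : ∀ P : Matrix (Fin m) (Fin n) ℝ,
      fro P = ‖(WithLp.toLp 2 (fun x : Fin m × Fin n => P x.1 x.2) :
        EuclideanSpace ℝ (Fin m × Fin n))‖ := by
    intro P
    rw [EuclideanSpace.norm_eq, fro]
    congr 1
    rw [Fintype.sum_prod_type]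
    simp [sq_abs]
  rw [h, h, h]
  have h2 : (WithLp.toLp 2 (fun x : Fin m × Fin n => P x.1 x.2) :
      EuclideanSpace ℝ (Fin m × Fin n)) =
      WithLp.toLp 2 (fun x : Fin m × Fin n => (P - Q) x.1 x.2) +
      WithLp.toLp 2 (fun x : Fin m × Fin n => Q x.1 x.2) := by
    ext x
    simp
  rw [h2]
  exact norm_add_le _ _

theorem limsup1_abs_mnr_le {n : ℕ} (P : Matrix (Fin (n + 1)) (Fin n) ℝ) (i : Fin (n + 1)) :
    |mnr P i| ≤ (n.factorial : ℝ) * fro P ^ n := by
  have h := Matrix.det_le (A := P.submatrix i.succAbove id) (abv := AbsoluteValue.abs)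
    (x := fro P) (fun a b => abs_entry_le_fro P (i.succAbove a) b)
  simpa [mnr, nsmul_eq_mul] using h

theorem limsup1_pow_fro_le {m n : ℕ} (p : ℕ) (P Q : Matrix (Fin m) (Fin n) ℝ) :
    fro P ^ p ≤ 2 ^ p * (fro (P - Q) ^ p + fro Q ^ p) := by
  have h1 := limsup1_fro_le_add P Q
  have h0 := fro_nonneg P
  have hd := fro_nonneg (P - Q)
  have hq := fro_nonneg Q
  rcases le_total (fro (P - Q)) (fro Q) with h | h
  · calc fro P ^ p ≤ (2 * fro Q) ^ p := by
          apply pow_le_pow_left₀ h0
          linarith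
      _ = 2 ^ p * fro Q ^ p := mul_pow _ _ _
      _ ≤ _ := by
        apply mul_le_mul_of_nonneg_left _ (by positivity)
        have : 0 ≤ fro (P - Q) ^ p := by positivity
        linarith
  · calc fro P ^ p ≤ (2 * fro (P - Q)) ^ p := by
          apply pow_le_pow_left₀ h0
          linarith
      _ = 2 ^ p * fro (P - Q) ^ p := mul_pow _ _ _
      _ ≤ _ := by
        apply mul_le_mul_of_nonneg_left _ (by positivity)
        have : 0 ≤ fro Q ^ p := by positivity
        linarith

/-! ### measurable representatives -/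

theorem LocApprox.exists_measurable {n : ℕ} {u : E n → E (n + 1)}
    {Du : E n → Matrix (Fin (n + 1)) (Fin n) ℝ} {x₀ : E n} {r : ℝ}
    {a : E (n + 1)} {δ : ℝ} {U : ℕ → E n → E (n + 1)} (hL : LocApprox n x₀ r u Du a δ U) :
    ∃ (u' : E n → E (n + 1)) (Du' : E n → Matrix (Fin (n + 1)) (Fin n) ℝ),
      Measurable u' ∧ (∀ i j, Measurable fun x => Du' x i j) ∧
      u =ᵐ[volume.restrict (Metric.ball x₀ r)] u' ∧
      Du =ᵐ[volume.restrict (Metric.ball x₀ r)] Du' ∧ LocApprox n x₀ r u' Du' a δ U := by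
  classical
  obtain ⟨u', hu'm, hu'⟩ := hL.aesm_u
  have hDm : ∀ i j, ∃ g : E n → ℝ, StronglyMeasurable g ∧
      (fun x => Du x i j) =ᵐ[volume.restrict (Metric.ball x₀ r)] g := fun i j =>
    (hL.memDu i j).1
  choose g hgm hg using hDm
  have hDu' : Du =ᵐ[volume.restrict (Metric.ball x₀ r)]
      (fun x => Matrix.of fun i j => g i j x) := by
    have h1 : ∀ᵐ x ∂(volume.restrict (Metric.ball x₀ r)), ∀ i j, Du x i j = g i j x := by
      rw [ae_all_iff]
      intro i
      rw [ae_all_iff]
      intro j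
      exact hg i j
    filter_upwards [h1] with x hx
    ext i j
    exact hx i j
  refine ⟨u', fun x => Matrix.of fun i j => g i j x, hu'm.measurable,
    fun i j => (hgm i j).measurable, hu', hDu', ?_⟩
  constructor
  · exact hL.rpos
  · exact hL.smooth
  · exact hL.bdry
  · filter_upwards [hL.ae_u, hu'] with x hx hx2
    rw [← hx2]
    exact hx
  · filter_upwards [hL.ae_Du, hDu'] with x hx hx2 i j
    have := hx i j
    rw [hx2] at this
    exact this
  · exact hu'm.aestronglyMeasurable
  · intro i j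
    exact (memLp_congr_ae (hg i j)).1 (hL.memDu i j)
  · intro i j
    refine (hL.Ln i j).congr fun k => ?_
    apply eLpNorm_congr_ae
    filter_upwards [hg i j] with x hx
    simp only [Matrix.of_apply]
    rw [hx]

/-! ### `L¹` convergence of `fro ^ n` of the difference -/

theorem LocApprox.tendsto_fro_sub {n : ℕ} (hn : 1 ≤ n) {u : E n → E (n + 1)}
    {Du : E n → Matrix (Fin (n + 1)) (Fin n) ℝ} {x₀ : E n} {r : ℝ}
    {a : E (n + 1)} {δ : ℝ} {U : ℕ → E n → E (n + 1)} (hL : LocApprox n x₀ r u Du a δ U) :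
    Tendsto (fun k => ∫⁻ x in Metric.ball x₀ r,
      ENNReal.ofReal (fro (Jac (U k) x - Du x) ^ n)) atTop (𝓝 0) := by
  have hn0 : (n : ENNReal) ≠ 0 := by
    exact_mod_cast (by omega : n ≠ 0)
  have hnt : (n : ENNReal) ≠ ∞ := ENNReal.natCast_ne_top n
  set μ := volume.restrict (Metric.ball x₀ r) with hμ
  have hmeas : ∀ k i j, AEStronglyMeasurable (fun x => Jac (U k) x i j - Du x i j) μ := by
    intro k i j
    apply AEStronglyMeasurable.sub
    · exact (continuous_Jac_apply ((hL.smooth k).of_le (by exact_mod_cast le_top)) i j).aestronglyMeasurable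
    · exact (hL.memDu i j).1
  have h1 : ∀ k, eLpNorm (fun x => fro (Jac (U k) x - Du x)) (n : ENNReal) μ ≤
      ∑ i, ∑ j, eLpNorm (fun x => Jac (U k) x i j - Du x i j) (n : ENNReal) μ := by
    intro k
    calc eLpNorm (fun x => fro (Jac (U k) x - Du x)) (n : ENNReal) μ
        ≤ eLpNorm (∑ i : Fin (n + 1), ∑ j : Fin n, fun x => |Jac (U k) x i j - Du x i j|)
            (n : ENNReal) μ := by
          apply eLpNorm_mono_real
          intro x
          rw [Real.norm_eq_abs, abs_of_nonneg (fro_nonneg _)]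
          simp only [Finset.sum_apply]
          exact limsup1_fro_le_sum _
      _ ≤ ∑ i : Fin (n + 1), eLpNorm (∑ j : Fin n, fun x => |Jac (U k) x i j - Du x i j|)
            (n : ENNReal) μ := by
          apply eLpNorm_sum_le
          · intro i _
            exact Finset.aestronglyMeasurable_sum _ fun j _ => (hmeas k i j).norm
          · exact_mod_cast hn
      _ ≤ ∑ i : Fin (n + 1), ∑ j : Fin n, eLpNorm (fun x => |Jac (U k) x i j - Du x i j|)
            (n : ENNReal) μ := by
          apply Finset.sum_le_sum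
          intro i _
          apply eLpNorm_sum_le
          · intro j _
            exact (hmeas k i j).norm
          · exact_mod_cast hn
      _ = _ := by
          apply Finset.sum_congr rfl
          intro i _
          apply Finset.sum_congr rfl
          intro j _
          exact eLpNorm_norm (fun x => Jac (U k) x i j - Du x i j)
  have h2 : Tendsto (fun k => ∑ i, ∑ j, eLpNorm (fun x => Jac (U k) x i j - Du x i j)
      (n : ENNReal) μ) atTop (𝓝 0) := by
    have := tendsto_finsetSum (s := (Finset.univ : Finset (Fin (n + 1))))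
      (f := fun i k => ∑ j, eLpNorm (fun x => Jac (U k) x i j - Du x i j) (n : ENNReal) μ)
      (a := fun _ => 0) (fun i _ => by
        have := tendsto_finsetSum (s := (Finset.univ : Finset (Fin n)))
          (f := fun j k => eLpNorm (fun x => Jac (U k) x i j - Du x i j) (n : ENNReal) μ)
          (a := fun _ => 0) (fun j _ => hL.Ln i j)
        simpa using this)
    simpa using this
  have h3 : Tendsto (fun k => eLpNorm (fun x => fro (Jac (U k) x - Du x)) (n : ENNReal) μ)
      atTop (𝓝 0) :=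
    tendsto_of_tendsto_of_tendsto_of_le_of_le tendsto_const_nhds h2 (fun _ => zero_le) h1
  have h4 : ∀ k, ∫⁻ x in Metric.ball x₀ r, ENNReal.ofReal (fro (Jac (U k) x - Du x) ^ n) =
      (eLpNorm (fun x => fro (Jac (U k) x - Du x)) (n : ENNReal) μ) ^ n := by
    intro k
    rw [eLpNorm_eq_lintegral_rpow_enorm_toReal hn0 hnt, ENNReal.toReal_natCast,
      ← ENNReal.rpow_natCast, ← ENNReal.rpow_mul, one_div,
      inv_mul_cancel₀ (by exact_mod_cast (by omega : n ≠ 0)), ENNReal.rpow_one]
    apply lintegral_congr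
    intro x
    rw [Real.enorm_eq_ofReal (fro_nonneg _), ENNReal.rpow_natCast,
      ENNReal.ofReal_pow (fro_nonneg _)]
  have h5 := ENNReal.Tendsto.pow (n := n) h3
  rw [zero_pow (by omega)] at h5
  exact h5.congr fun k => (h4 k).symm

theorem LocApprox.lintegral_fro_ne_top {n : ℕ} (hn : 1 ≤ n) {u : E n → E (n + 1)}
    {Du : E n → Matrix (Fin (n + 1)) (Fin n) ℝ} {x₀ : E n} {r : ℝ}
    {a : E (n + 1)} {δ : ℝ} {U : ℕ → E n → E (n + 1)} (hL : LocApprox n x₀ r u Du a δ U) :
    ∫⁻ x in Metric.ball x₀ r, ENNReal.ofReal (fro (Du x) ^ n) ≠ ∞ := by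
  have hn0 : (n : ENNReal) ≠ 0 := by
    exact_mod_cast (by omega : n ≠ 0)
  have hnt : (n : ENNReal) ≠ ∞ := ENNReal.natCast_ne_top n
  set μ := volume.restrict (Metric.ball x₀ r) with hμ
  have h1 : MemLp (∑ i : Fin (n + 1), ∑ j : Fin n, fun x => |Du x i j|) (n : ENNReal) μ := by
    apply memLp_finsetSum'
    intro i _
    apply memLp_finsetSum'
    intro j _
    exact (hL.memDu i j).norm
  have h2 : eLpNorm (fun x => fro (Du x)) (n : ENNReal) μ ≠ ∞ := by
    refine ne_top_of_le_ne_top h1.2.ne ?_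
    apply eLpNorm_mono_real
    intro x
    rw [Real.norm_eq_abs, abs_of_nonneg (fro_nonneg _)]
    simp only [Finset.sum_apply]
    exact limsup1_fro_le_sum _
  have h4 : ∫⁻ x in Metric.ball x₀ r, ENNReal.ofReal (fro (Du x) ^ n) =
      (eLpNorm (fun x => fro (Du x)) (n : ENNReal) μ) ^ n := by
    rw [eLpNorm_eq_lintegral_rpow_enorm_toReal hn0 hnt, ENNReal.toReal_natCast,
      ← ENNReal.rpow_natCast, ← ENNReal.rpow_mul, one_div,
      inv_mul_cancel₀ (by exact_mod_cast (by omega : n ≠ 0)), ENNReal.rpow_one]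
    apply lintegral_congr
    intro x
    rw [Real.enorm_eq_ofReal (fro_nonneg _), ENNReal.rpow_natCast,
      ENNReal.ofReal_pow (fro_nonneg _)]
  rw [h4]
  exact ENNReal.pow_ne_top h2

/-- general `L¹` convergence of a homogeneous continuous function of the gradient. -/
theorem LocApprox.limsup1_L1 {n : ℕ} (hn : 1 ≤ n) {u : E n → E (n + 1)}
    {Du : E n → Matrix (Fin (n + 1)) (Fin n) ℝ} {x₀ : E n} {r : ℝ}
    {a : E (n + 1)} {δ : ℝ} {U : ℕ → E n → E (n + 1)} (hL : LocApprox n x₀ r u Du a δ U)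
    (Du_meas : ∀ i j, Measurable fun x => Du x i j)
    (f : Matrix (Fin (n + 1)) (Fin n) ℝ → ℝ) (hf : Continuous f) (C : ℝ) (hC : 0 ≤ C)
    (hfb : ∀ P, |f P| ≤ C * fro P ^ n) :
    Tendsto (fun k => ∫⁻ x in Metric.ball x₀ r,
      ENNReal.ofReal |f (Jac (U k) x) - f (Du x)|) atTop (𝓝 0) := by
  have hJm : ∀ k i j, Measurable fun x => Jac (U k) x i j := fun k i j =>
    (continuous_Jac_apply ((hL.smooth k).of_le (by exact_mod_cast le_top)) i j).measurable
  have hfJ : ∀ k, Measurable fun x => f (Jac (U k) x) := by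
    intro k
    have h1 : Continuous fun x => Jac (U k) x :=
      continuous_Jac ((hL.smooth k).of_le (by exact_mod_cast le_top))
    exact (hf.comp h1).measurable
  have hmat : Measurable (fun x => (fun i j => Du x i j : Fin (n + 1) → Fin n → ℝ)) :=
    measurable_pi_lambda _ fun i => measurable_pi_lambda _ fun j => Du_meas i j
  have hfD : Measurable fun x => f (Du x) := by
    have h2 : Measurable (fun M : Fin (n + 1) → Fin n → ℝ => f (Matrix.of M)) := by
      have h3 : Continuous (fun M : Fin (n + 1) → Fin n → ℝ => f (Matrix.of M)) := by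
        apply hf.comp
        exact continuous_matrix fun i j => (continuous_apply j).comp (continuous_apply i)
      exact h3.measurable
    exact h2.comp hmat
  apply limsup1_tendsto_zero (μ := volume.restrict (Metric.ball x₀ r))
    (h := fun k x => ENNReal.ofReal |f (Jac (U k) x) - f (Du x)|)
    (d := fun k x => ENNReal.ofReal (fro (Jac (U k) x - Du x) ^ n))
    (g := fun x => ENNReal.ofReal (fro (Du x) ^ n))
    (C := ENNReal.ofReal (C * (2 ^ n + 1)))
  · exact ENNReal.ofReal_ne_top
  · intro k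
    exact ((hfJ k).sub hfD).norm.ennreal_ofReal.aemeasurable
  · intro k
    have h1 : Measurable fun x => fro (Jac (U k) x - Du x) := by
      apply measurable_fro
      intro i j
      exact (hJm k i j).sub (Du_meas i j)
    exact (h1.pow_const n).ennreal_ofReal.aemeasurable
  · exact ((measurable_fro Du_meas).pow_const n).ennreal_ofReal.aemeasurable
  · exact hL.lintegral_fro_ne_top hn
  · intro k
    apply Eventually.of_forall
    intro x
    show ENNReal.ofReal |f (Jac (U k) x) - f (Du x)| ≤ ENNReal.ofReal (C * (2 ^ n + 1)) *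
      (ENNReal.ofReal (fro (Jac (U k) x - Du x) ^ n) + ENNReal.ofReal (fro (Du x) ^ n))
    have hp1 : 0 ≤ fro (Jac (U k) x - Du x) ^ n := pow_nonneg (fro_nonneg _) _
    have hp2 : 0 ≤ fro (Du x) ^ n := pow_nonneg (fro_nonneg _) _
    rw [← ENNReal.ofReal_add hp1 hp2, ← ENNReal.ofReal_mul (by positivity)]
    apply ENNReal.ofReal_le_ofReal
    have h1 := hfb (Jac (U k) x)
    have h2 := hfb (Du x)
    have h3 := limsup1_pow_fro_le n (Jac (U k) x) (Du x)
    have h4 : |f (Jac (U k) x) - f (Du x)| ≤ |f (Jac (U k) x)| + |f (Du x)| := abs_sub _ _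
    have h5 : C * fro (Jac (U k) x) ^ n ≤
        C * (2 ^ n * (fro (Jac (U k) x - Du x) ^ n + fro (Du x) ^ n)) :=
      mul_le_mul_of_nonneg_left h3 hC
    have h6 : 0 ≤ C * fro (Jac (U k) x - Du x) ^ n := by positivity
    nlinarith
  · exact hL.tendsto_fro_sub hn
  · filter_upwards [hL.ae_Du] with x hx
    have h1 : Tendsto (fun k => Jac (U k) x) atTop (𝓝 (Du x)) :=
      tendsto_pi_nhds.2 fun i => tendsto_pi_nhds.2 fun j => hx i j
    have h2 : Tendsto (fun k => f (Jac (U k) x)) atTop (𝓝 (f (Du x))) :=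
      (hf.tendsto _).comp h1
    have h3 : Tendsto (fun k => |f (Jac (U k) x) - f (Du x)|) atTop (𝓝 0) := by
      have := (h2.sub_const (f (Du x))).abs
      simpa using this
    have h4 := (ENNReal.continuous_ofReal.tendsto 0).comp h3
    simpa [Function.comp_def] using h4

/-- H2L : upper semicontinuity of the energy. -/
theorem energy_limsup {n : ℕ} (hn : 1 ≤ n) {u : E n → E (n + 1)}
    {Du : E n → Matrix (Fin (n + 1)) (Fin n) ℝ} {x₀ : E n} {r : ℝ}
    {a : E (n + 1)} {δ : ℝ} {U : ℕ → E n → E (n + 1)} (hL : LocApprox n x₀ r u Du a δ U)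
    (s : ℝ) :
    limsup (fun k => ∫⁻ x in {x | x ∈ Metric.ball x₀ r ∧ s < bra (U k x - a)},
        ENNReal.ofReal (fro (Jac (U k) x) ^ n)) atTop ≤
      ∫⁻ x in {x | x ∈ Metric.ball x₀ r ∧ s ≤ bra (u x - a)}, ENNReal.ofReal (fro (Du x) ^ n) := by
  obtain ⟨u', Du', hu'm, hDu'm, huu', hDD', hL'⟩ := hL.exists_measurable
  set B := Metric.ball x₀ r with hB
  have hBm : MeasurableSet B := Metric.isOpen_ball.measurableSet
  -- the right hand side for the measurable representatives
  have hR : ∫⁻ x in B, {x | s ≤ bra (u' x - a)}.indicator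
      (fun x => ENNReal.ofReal (fro (Du' x) ^ n)) x ≤
      ∫⁻ x in {x | x ∈ B ∧ s ≤ bra (u x - a)}, ENNReal.ofReal (fro (Du x) ^ n) := by
    calc ∫⁻ x in B, {x | s ≤ bra (u' x - a)}.indicator
          (fun x => ENNReal.ofReal (fro (Du' x) ^ n)) x
        = ∫⁻ x in B, {x | s ≤ bra (u x - a)}.indicator
          (fun x => ENNReal.ofReal (fro (Du x) ^ n)) x := by
          apply lintegral_congr_ae
          filter_upwards [huu', hDD'] with x hx hx2
          simp only [indicator, mem_ofPred_eq]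
          rw [hx, hx2]
      _ ≤ ∫⁻ x in {x | s ≤ bra (u x - a)}, ENNReal.ofReal (fro (Du x) ^ n)
            ∂(volume.restrict B) := lintegral_indicator_le _ _
      _ = _ := by
          rw [Measure.restrict_restrict' hBm]
          congr 2
          ext x
          simp [and_comm]
  refine le_trans ?_ hR
  have hUm : ∀ k, MeasurableSet {x | s < bra (U k x - a)} := by
    intro k
    have h1 : Continuous fun x => bra (U k x - a) :=
      continuous_bra.comp ((hL.smooth k).continuous.sub continuous_const)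
    exact (isOpen_lt continuous_const h1).measurableSet
  have hJm : ∀ k i j, Measurable fun x => Jac (U k) x i j := fun k i j =>
    (continuous_Jac_apply ((hL.smooth k).of_le (by exact_mod_cast le_top)) i j).measurable
  have hGm : Measurable fun x => ENNReal.ofReal (fro (Du' x) ^ n) :=
    ((measurable_fro hDu'm).pow_const n).ennreal_ofReal
  have hdm : ∀ k, Measurable fun x => ENNReal.ofReal |fro (Jac (U k) x) ^ n - fro (Du' x) ^ n| := by
    intro k
    exact (((measurable_fro (hJm k)).pow_const n).sub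
      ((measurable_fro hDu'm).pow_const n)).norm.ennreal_ofReal
  -- Step 1
  have hstep1 : ∀ k, ∫⁻ x in {x | x ∈ B ∧ s < bra (U k x - a)},
      ENNReal.ofReal (fro (Jac (U k) x) ^ n) ≤
      (∫⁻ x in B, {x | s < bra (U k x - a)}.indicator
        (fun x => ENNReal.ofReal (fro (Du' x) ^ n)) x) +
      ∫⁻ x in B, ENNReal.ofReal |fro (Jac (U k) x) ^ n - fro (Du' x) ^ n| := by
    intro k
    have hset : {x | x ∈ B ∧ s < bra (U k x - a)} = {x | s < bra (U k x - a)} ∩ B := by
      ext x
      simp [and_comm]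
    rw [hset, ← Measure.restrict_restrict (hUm k), ← lintegral_indicator (hUm k),
      ← lintegral_add_right _ (hdm k)]
    apply lintegral_mono
    intro x
    beta_reduce
    by_cases h : x ∈ {x | s < bra (U k x - a)}
    · rw [indicator_of_mem h, indicator_of_mem h,
        ← ENNReal.ofReal_add (pow_nonneg (fro_nonneg _) _) (abs_nonneg _)]
      apply ENNReal.ofReal_le_ofReal
      have := le_abs_self (fro (Jac (U k) x) ^ n - fro (Du' x) ^ n)
      linarith
    · rw [indicator_of_notMem h]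
      exact zero_le
  have hzero : Tendsto (fun k => ∫⁻ x in B,
      ENNReal.ofReal |fro (Jac (U k) x) ^ n - fro (Du' x) ^ n|) atTop (𝓝 0) :=
    hL'.limsup1_L1 hn hDu'm (fun P => fro P ^ n) (continuous_fro.pow n) 1 zero_le_one
      (fun P => by
        rw [one_mul, abs_of_nonneg (pow_nonneg (fro_nonneg _) _)])
  -- Step 2
  have hstep2 : limsup (fun k => ∫⁻ x in B, {x | s < bra (U k x - a)}.indicator
        (fun x => ENNReal.ofReal (fro (Du' x) ^ n)) x) atTop ≤
      ∫⁻ x in B, {x | s ≤ bra (u' x - a)}.indicator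
        (fun x => ENNReal.ofReal (fro (Du' x) ^ n)) x := by
    refine (limsup_lintegral_le (fun x => ENNReal.ofReal (fro (Du' x) ^ n)) ?_ ?_ ?_).trans ?_
    · intro k
      exact hGm.indicator (hUm k)
    · intro k
      exact Eventually.of_forall fun x => indicator_le_self _ _ x
    · exact hL'.lintegral_fro_ne_top hn
    · apply lintegral_mono_ae
      filter_upwards [hL'.ae_u] with x hx
      by_cases h : s ≤ bra (u' x - a)
      · rw [indicator_of_mem (by simpa using h)]
        apply limsup_le_of_le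
        · isBoundedDefault
        · exact Eventually.of_forall fun k => indicator_le_self _ _ x
      · rw [indicator_of_notMem (by simpa using h)]
        have h1 : Tendsto (fun k => bra (U k x - a)) atTop (𝓝 (bra (u' x - a))) :=
          (continuous_bra.tendsto _).comp (hx.sub_const a)
        have h2 : ∀ᶠ k in atTop, bra (U k x - a) < s :=
          h1.eventually (gt_mem_nhds (not_le.1 h))
        apply limsup_le_of_le
        · isBoundedDefault
        · filter_upwards [h2] with k hk
          rw [indicator_of_notMem (by simpa using hk.le)]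
  calc limsup (fun k => ∫⁻ x in {x | x ∈ B ∧ s < bra (U k x - a)},
        ENNReal.ofReal (fro (Jac (U k) x) ^ n)) atTop
      ≤ limsup ((fun k => ∫⁻ x in B, {x | s < bra (U k x - a)}.indicator
        (fun x => ENNReal.ofReal (fro (Du' x) ^ n)) x) +
        (fun k => ∫⁻ x in B, ENNReal.ofReal |fro (Jac (U k) x) ^ n - fro (Du' x) ^ n|)) atTop :=
        limsup_le_limsup (Eventually.of_forall fun k => hstep1 k)
    _ = limsup (fun k => ∫⁻ x in B, {x | s < bra (U k x - a)}.indicator
        (fun x => ENNReal.ofReal (fro (Du' x) ^ n)) x) atTop :=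
        ENNReal.limsup_add_of_right_tendsto_zero hzero _
    _ ≤ _ := hstep2

end Pool.Agent.Lib.HSys
end

section

/-!
# MP_f44734_an: upper semicontinuity of the cube sums (job H3L)
-/

set_option autoImplicit false
open MeasureTheory Set Filter Topology
open scoped ENNReal Matrix

namespace Pool.Agent.Lib.HSys

/-! ### inequalities for sums -/

theorem limsup2_tsum_rpow_le {ι : Type*} (δ : ι → ℝ≥0∞) {p : ℝ} (hp : 1 ≤ p) :
    ∑' b, δ b ^ p ≤ (∑' b, δ b) ^ p := by
  have h1 : ∀ x : ℝ≥0∞, x ^ p = x * x ^ (p - 1) := by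
    intro x
    have := ENNReal.rpow_add_of_nonneg (x := x) 1 (p - 1) zero_le_one (by linarith)
    rw [ENNReal.rpow_one] at this
    rw [← this]
    congr 1
    ring
  calc ∑' b, δ b ^ p ≤ ∑' b, δ b * (∑' b, δ b) ^ (p - 1) := by
        apply ENNReal.tsum_le_tsum
        intro b
        rw [h1]
        have hp1 : 0 ≤ p - 1 := by linarith
        gcongr
        exact ENNReal.le_tsum b
    _ = (∑' b, δ b) ^ p := by
        rw [ENNReal.tsum_mul_right, h1 (∑' b, δ b)]

theorem limsup2_sum_bound {m : ℕ} (F : Finset (Fin m → ℤ)) (M L δ : (Fin m → ℤ) → ℝ≥0∞)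
    (h : ∀ b, L b ≤ (∑ e ∈ F, M (b + e)) + δ b) {p : ℝ} (hp : 1 ≤ p) :
    ∑' b, L b ^ p ≤ 2 ^ (p - 1) * ((F.card : ℝ≥0∞) ^ (p - 1) * F.card) * (∑' b, M b ^ p) +
      2 ^ (p - 1) * (∑' b, δ b) ^ p := by
  have hp0 : 0 ≤ p := by linarith
  have h1 : ∀ b, L b ^ p ≤ 2 ^ (p - 1) *
      ((F.card : ℝ≥0∞) ^ (p - 1) * ∑ e ∈ F, M (b + e) ^ p) + 2 ^ (p - 1) * δ b ^ p := by
    intro b
    calc L b ^ p ≤ ((∑ e ∈ F, M (b + e)) + δ b) ^ p := ENNReal.rpow_le_rpow (h b) hp0
      _ ≤ 2 ^ (p - 1) * ((∑ e ∈ F, M (b + e)) ^ p + δ b ^ p) :=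
        ENNReal.rpow_add_le_mul_rpow_add_rpow _ _ hp
      _ ≤ 2 ^ (p - 1) * ((F.card : ℝ≥0∞) ^ (p - 1) * ∑ e ∈ F, M (b + e) ^ p + δ b ^ p) := by
        gcongr
        exact ENNReal.rpow_sum_le_const_mul_sum_rpow F (fun e => M (b + e)) hp
      _ = _ := mul_add _ _ _
  have h2 : ∑' b, ∑ e ∈ F, M (b + e) ^ p = F.card * ∑' b, M b ^ p := by
    rw [Summable.tsum_finsetSum (fun _ _ => ENNReal.summable)]
    rw [Finset.sum_congr rfl (g := fun _ => ∑' b, M b ^ p)]
    · rw [Finset.sum_const, nsmul_eq_mul]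
    · intro e _
      exact (Equiv.addRight e).tsum_eq (fun b => M b ^ p)
  calc ∑' b, L b ^ p ≤ ∑' b, (2 ^ (p - 1) *
      ((F.card : ℝ≥0∞) ^ (p - 1) * ∑ e ∈ F, M (b + e) ^ p) + 2 ^ (p - 1) * δ b ^ p) :=
        ENNReal.tsum_le_tsum h1
    _ = 2 ^ (p - 1) * ((F.card : ℝ≥0∞) ^ (p - 1) * (F.card * ∑' b, M b ^ p)) +
        2 ^ (p - 1) * ∑' b, δ b ^ p := by
        rw [ENNReal.tsum_add, ENNReal.tsum_mul_left, ENNReal.tsum_mul_left, ENNReal.tsum_mul_left,
          h2]
    _ ≤ 2 ^ (p - 1) * ((F.card : ℝ≥0∞) ^ (p - 1) * (F.card * ∑' b, M b ^ p)) +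
        2 ^ (p - 1) * (∑' b, δ b) ^ p := by
        gcongr
        exact limsup2_tsum_rpow_le δ hp
    _ = _ := by ring

/-- each point lies in at most `3 ^ m` of the cubes `b + [0,2]^m`. -/
theorem limsup2_mult {m : ℕ} (t : E m) (Q : Prop) [Decidable Q] (c : ℝ≥0∞)
    [∀ b : Fin m → ℤ, Decidable (Q ∧ ∀ j, t j ∈ Icc (b j : ℝ) ((b j : ℝ) + 2))] :
    (∑' b : Fin m → ℤ, if (Q ∧ ∀ j, t j ∈ Icc (b j : ℝ) ((b j : ℝ) + 2)) then c else 0) ≤
      ((Fintype.piFinset (fun _ : Fin m => Finset.Icc (-2 : ℤ) 0)).card : ℝ≥0∞) * c := by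
  classical
  set G := Fintype.piFinset (fun _ : Fin m => Finset.Icc (-2 : ℤ) 0) with hG
  have h1 : ∀ b : Fin m → ℤ,
      (if (Q ∧ ∀ j, t j ∈ Icc (b j : ℝ) ((b j : ℝ) + 2)) then c else 0) ≤
      ∑ e ∈ G, if b = (fun j => ⌊t j⌋) + e then c else 0 := by
    intro b
    split_ifs with h
    · obtain ⟨_, h⟩ := h
      have hmem : b - (fun j => ⌊t j⌋) ∈ G := by
        rw [hG, Fintype.mem_piFinset]
        intro j
        obtain ⟨h1, h2⟩ := h j
        rw [Finset.mem_Icc]
        simp only [Pi.sub_apply]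
        have h3 : b j ≤ ⌊t j⌋ := Int.le_floor.2 h1
        have h4 : ⌊t j⌋ ≤ b j + 2 := by
          have : t j < ((b j + 2 : ℤ) : ℝ) + 1 := by push_cast; linarith
          exact Int.lt_add_one_iff.1 (Int.floor_lt.2 (by exact_mod_cast this))
        constructor <;> omega
      have h5 := Finset.single_le_sum (s := G)
        (f := fun e => if b = (fun j => ⌊t j⌋) + e then c else 0) (fun _ _ => zero_le) hmem
      refine le_trans (le_of_eq ?_) h5
      simp
    · exact zero_le
  calc _ ≤ ∑' b : Fin m → ℤ, ∑ e ∈ G, (if b = (fun j => ⌊t j⌋) + e then c else 0) :=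
        ENNReal.tsum_le_tsum h1
    _ = ∑ e ∈ G, ∑' b : Fin m → ℤ, (if b = (fun j => ⌊t j⌋) + e then c else 0) :=
        Summable.tsum_finsetSum (fun _ _ => ENNReal.summable)
    _ = ∑ e ∈ G, c := by
        apply Finset.sum_congr rfl
        intro e _
        exact tsum_ite_eq _ _
    _ = _ := by rw [Finset.sum_const, nsmul_eq_mul]

/-! ### the main estimate for measurable representatives -/

section Main

variable {n : ℕ} {u : E n → E (n + 1)} {Du : E n → Matrix (Fin (n + 1)) (Fin n) ℝ} {x₀ : E n}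
  {r : ℝ} {a : E (n + 1)} {δ : ℝ} {U : ℕ → E n → E (n + 1)}

/-- the sum of the absolute values of the minors -/
noncomputable def limsup2J (P : Matrix (Fin (n + 1)) (Fin n) ℝ) : ℝ≥0∞ :=
  ∑ i, ENNReal.ofReal |mnr P i|

theorem limsup2_main (hn : 1 ≤ n) (hL : LocApprox n x₀ r u Du a δ U) (hum : Measurable u)
    (hDm : ∀ i j, Measurable fun x => Du x i j) (s : ℝ) :
    ∃ err : ℕ → ℝ≥0∞, Tendsto err atTop (𝓝 0) ∧ ∀ k,
      ∑' b : Fin (n + 1) → ℤ,
        (∫⁻ x in {x | x ∈ Metric.ball x₀ r ∧ s < bra (U k x - a) ∧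
            ∀ j, U k x j - a j ∈ Icc (b j : ℝ) ((b j : ℝ) + 2)},
          ∑ i, ENNReal.ofReal |mnr (Jac (U k) x) i|) ^ (((n : ℝ) + 1) / n) ≤
      2 ^ (((n : ℝ) + 1) / n - 1) * (((Fintype.piFinset
        (fun _ : Fin (n + 1) => Finset.Icc (-1 : ℤ) 3)).card : ℝ≥0∞) ^ (((n : ℝ) + 1) / n - 1) *
        (Fintype.piFinset (fun _ : Fin (n + 1) => Finset.Icc (-1 : ℤ) 3)).card) *
        (∑' b : Fin (n + 1) → ℤ,
        (∫⁻ x in {x | x ∈ Metric.ball x₀ r ∧ (∀ j, ⌊u x j - a j⌋ = b j) ∧ s ≤ bra (u x - a)},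
          ∑ i, ENNReal.ofReal |mnr (Du x) i|) ^ (((n : ℝ) + 1) / n)) + err k := by
  classical
  set B := Metric.ball x₀ r with hB
  have hBm : MeasurableSet B := Metric.isOpen_ball.measurableSet
  set F := Fintype.piFinset (fun _ : Fin (n + 1) => Finset.Icc (-1 : ℤ) 3) with hF
  set G := Fintype.piFinset (fun _ : Fin (n + 1) => Finset.Icc (-2 : ℤ) 0) with hG
  set p : ℝ := ((n : ℝ) + 1) / n with hp
  have hn0 : (0 : ℝ) < n := by exact_mod_cast hn
  have hp1 : 1 ≤ p := by
    rw [hp, le_div_iff₀ hn0]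
    linarith
  have hUc : ∀ k, Continuous (U k) := fun k => (hL.smooth k).continuous
  have hJm : ∀ k i j, Measurable fun x => Jac (U k) x i j := fun k i j =>
    (continuous_Jac_apply ((hL.smooth k).of_le (by exact_mod_cast le_top)) i j).measurable
  -- measurability
  have hbU : ∀ k, Measurable fun x => bra (U k x - a) := fun k =>
    (continuous_bra.comp ((hUc k).sub continuous_const)).measurable
  have hbu : Measurable fun x => bra (u x - a) :=
    measurable_bra.comp (hum.sub measurable_const)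
  set AK : ℕ → (Fin (n + 1) → ℤ) → Set (E n) := fun k b =>
    {x | s < bra (U k x - a) ∧ ∀ j, U k x j - a j ∈ Icc (b j : ℝ) ((b j : ℝ) + 2)} with hAK
  set A : (Fin (n + 1) → ℤ) → Set (E n) := fun b =>
    {x | (∀ j, ⌊u x j - a j⌋ = b j) ∧ s ≤ bra (u x - a)} with hA
  set Bad : ℕ → Set (E n) := fun k =>
    {x | 1 < ‖U k x - u x‖ ∨ (bra (u x - a) < s ∧ s < bra (U k x - a))} with hBad
  have hAKm : ∀ k b, MeasurableSet (AK k b) := by
    intro k b
    apply MeasurableSet.inter (measurableSet_lt measurable_const (hbU k))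
    have : {x | ∀ j, U k x j - a j ∈ Icc (b j : ℝ) ((b j : ℝ) + 2)} =
        ⋂ j, (fun x => U k x j - a j) ⁻¹' Icc (b j : ℝ) ((b j : ℝ) + 2) := by
      ext x
      simp
    show MeasurableSet {x | ∀ j, U k x j - a j ∈ Icc (b j : ℝ) ((b j : ℝ) + 2)}
    rw [this]
    apply MeasurableSet.iInter
    intro j
    exact (((continuous_apply j).comp (hUc k)).sub continuous_const).measurable measurableSet_Icc
  have hAm : ∀ b, MeasurableSet (A b) := by
    intro b
    apply MeasurableSet.inter _ (measurableSet_le measurable_const hbu)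
    have : {x | ∀ j, ⌊u x j - a j⌋ = b j} =
        ⋂ j, (fun x => ⌊u x j - a j⌋) ⁻¹' {b j} := by
      ext x
      simp
    show MeasurableSet {x | ∀ j, ⌊u x j - a j⌋ = b j}
    rw [this]
    apply MeasurableSet.iInter
    intro j
    exact (((measurable_pi_apply j).comp hum).sub measurable_const).floor
      (measurableSet_singleton _)
  have hBadm : ∀ k, MeasurableSet (Bad k) := by
    intro k
    exact (measurableSet_lt measurable_const ((hUc k).measurable.sub hum).norm).union
      ((measurableSet_lt hbu measurable_const).inter (measurableSet_lt measurable_const (hbU k)))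
  have hJu : Measurable fun x => ∑ i, ENNReal.ofReal |mnr (Du x) i| :=
    Finset.measurable_sum _ fun i _ => (measurable_mnr hDm i).norm.ennreal_ofReal
  have hJU : ∀ k, Measurable fun x => ∑ i, ENNReal.ofReal |mnr (Jac (U k) x) i| := fun k =>
    Finset.measurable_sum _ fun i _ => (measurable_mnr (hJm k) i).norm.ennreal_ofReal
  have hDk : ∀ k, Measurable fun x =>
      ∑ i, ENNReal.ofReal |mnr (Jac (U k) x) i - mnr (Du x) i| := fun k =>
    Finset.measurable_sum _ fun i _ =>
      ((measurable_mnr (hJm k) i).sub (measurable_mnr hDm i)).norm.ennreal_ofReal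
  -- the error function
  set err1 : ℕ → E n → ℝ≥0∞ := fun k x =>
    (∑ i, ENNReal.ofReal |mnr (Jac (U k) x) i - mnr (Du x) i|) +
      (Bad k).indicator (fun x => ∑ i, ENNReal.ofReal |mnr (Du x) i|) x with herr1
  have herr1m : ∀ k, Measurable (err1 k) := fun k => (hDk k).add (hJu.indicator (hBadm k))
  -- integrability of the sum of minors of `Du`
  have hJfin : ∫⁻ x in B, ∑ i, ENNReal.ofReal |mnr (Du x) i| ≠ ∞ := by
    have h1 : ∫⁻ x in B, ∑ i, ENNReal.ofReal |mnr (Du x) i| ≤
        ∫⁻ x in B, ENNReal.ofReal (((n : ℝ) + 1) * n.factorial) *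
          ENNReal.ofReal (fro (Du x) ^ n) := by
      apply lintegral_mono
      intro x
      beta_reduce
      calc ∑ i, ENNReal.ofReal |mnr (Du x) i|
          ≤ ∑ _i : Fin (n + 1), ENNReal.ofReal ((n.factorial : ℝ) * fro (Du x) ^ n) :=
            Finset.sum_le_sum fun i _ => ENNReal.ofReal_le_ofReal (limsup1_abs_mnr_le _ i)
        _ = _ := by
            rw [Finset.sum_const, Finset.card_univ, Fintype.card_fin, nsmul_eq_mul,
              ← ENNReal.ofReal_natCast, ← ENNReal.ofReal_mul (by positivity),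
              ← ENNReal.ofReal_mul (by positivity)]
            congr 1
            push_cast
            ring
    refine ne_top_of_le_ne_top ?_ h1
    rw [lintegral_const_mul' _ _ ENNReal.ofReal_ne_top]
    exact ENNReal.mul_ne_top ENNReal.ofReal_ne_top (hL.lintegral_fro_ne_top hn)
  have herr0 : Tendsto (fun k => ∫⁻ x in B, err1 k x) atTop (𝓝 0) := by
    have h1 : ∀ k, ∫⁻ x in B, err1 k x =
        (∑ i, ∫⁻ x in B, ENNReal.ofReal |mnr (Jac (U k) x) i - mnr (Du x) i|) +
        ∫⁻ x in B, (Bad k).indicator (fun x => ∑ i, ENNReal.ofReal |mnr (Du x) i|) x := by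
      intro k
      rw [herr1]
      simp only
      rw [lintegral_add_left (hDk k), lintegral_finsetSum]
      intro i _
      exact ((measurable_mnr (hJm k) i).sub (measurable_mnr hDm i)).norm.ennreal_ofReal
    simp_rw [h1]
    have h2 : Tendsto (fun k => ∑ i, ∫⁻ x in B,
        ENNReal.ofReal |mnr (Jac (U k) x) i - mnr (Du x) i|) atTop (𝓝 0) := by
      have := tendsto_finsetSum (s := (Finset.univ : Finset (Fin (n + 1))))
        (f := fun i k => ∫⁻ x in B, ENNReal.ofReal |mnr (Jac (U k) x) i - mnr (Du x) i|)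
        (a := fun _ => 0) (x := atTop) (fun i _ =>
          hL.limsup1_L1 hn hDm (fun P => mnr P i) (continuous_mnr i) n.factorial
            (by positivity) (fun P => limsup1_abs_mnr_le P i))
      simpa using this
    have h3 : Tendsto (fun k => ∫⁻ x in B,
        (Bad k).indicator (fun x => ∑ i, ENNReal.ofReal |mnr (Du x) i|) x) atTop
        (𝓝 (∫⁻ _ in B, 0)) := by
      apply tendsto_lintegral_of_dominated_convergence
        (fun x => ∑ i, ENNReal.ofReal |mnr (Du x) i|)
      · intro k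
        exact hJu.indicator (hBadm k)
      · intro k
        exact Eventually.of_forall fun x => indicator_le_self _ _ x
      · exact hJfin
      · filter_upwards [hL.ae_u] with x hx
        have h4 : ∀ᶠ k in atTop, ‖U k x - u x‖ < 1 := by
          have := (tendsto_iff_norm_sub_tendsto_zero.1 hx)
          exact this.eventually (gt_mem_nhds zero_lt_one)
        have h5 : ∀ᶠ k in atTop, ¬ (bra (u x - a) < s ∧ s < bra (U k x - a)) := by
          by_cases h : bra (u x - a) < s
          · have h6 : Tendsto (fun k => bra (U k x - a)) atTop (𝓝 (bra (u x - a))) :=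
              (continuous_bra.tendsto _).comp (hx.sub_const a)
            filter_upwards [h6.eventually (gt_mem_nhds h)] with k hk h7
            exact absurd h7.2 (not_lt.2 hk.le)
          · exact Eventually.of_forall fun k h7 => h h7.1
        apply tendsto_const_nhds.congr'
        filter_upwards [h4, h5] with k hk4 hk5
        rw [indicator_of_notMem]
        rintro (h8 | h8)
        · exact absurd h8 (not_lt.2 hk4.le)
        · exact hk5 h8
    rw [lintegral_zero] at h3
    have := h2.add h3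
    rwa [add_zero] at this
  -- the pointwise inequality
  have hpt : ∀ k b x, (AK k b).indicator (fun x => ∑ i, ENNReal.ofReal |mnr (Jac (U k) x) i|) x ≤
      (∑ e ∈ F, (A (b + e)).indicator (fun x => ∑ i, ENNReal.ofReal |mnr (Du x) i|) x) +
        (AK k b).indicator (err1 k) x := by
    intro k b x
    by_cases hx : x ∈ AK k b
    · rw [indicator_of_mem hx, indicator_of_mem hx]
      have h1 : ∑ i, ENNReal.ofReal |mnr (Jac (U k) x) i| ≤
          (∑ i, ENNReal.ofReal |mnr (Du x) i|) +
          ∑ i, ENNReal.ofReal |mnr (Jac (U k) x) i - mnr (Du x) i| := by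
        rw [← Finset.sum_add_distrib]
        apply Finset.sum_le_sum
        intro i _
        rw [← ENNReal.ofReal_add (abs_nonneg _) (abs_nonneg _)]
        apply ENNReal.ofReal_le_ofReal
        have := abs_add_le (mnr (Du x) i) (mnr (Jac (U k) x) i - mnr (Du x) i)
        rwa [add_sub_cancel] at this
      by_cases hbad : x ∈ Bad k
      · rw [herr1]
        simp only
        rw [indicator_of_mem hbad]
        refine h1.trans ?_
        rw [add_comm (∑ i, ENNReal.ofReal |mnr (Du x) i|)]
        exact le_add_self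
      · have hnb : ‖U k x - u x‖ ≤ 1 ∧ ¬ (bra (u x - a) < s ∧ s < bra (U k x - a)) := by
          rw [hBad] at hbad
          simp only [mem_ofPred_eq, not_or, not_lt] at hbad
          exact hbad
        obtain ⟨hxs, hxb⟩ := hx
        have hus : s ≤ bra (u x - a) := by
          by_contra h
          exact hnb.2 ⟨not_le.1 h, hxs⟩
        have hcomp : ∀ j, |U k x j - u x j| ≤ 1 := by
          intro j
          have := norm_le_pi_norm (U k x - u x) j
          rw [Pi.sub_apply, Real.norm_eq_abs] at this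
          exact this.trans hnb.1
        set e : Fin (n + 1) → ℤ := (fun j => ⌊u x j - a j⌋) - b with he
        have heF : e ∈ F := by
          rw [hF, Fintype.mem_piFinset]
          intro j
          obtain ⟨h2, h3⟩ := hxb j
          have h4 := abs_le.1 (hcomp j)
          rw [Finset.mem_Icc, he]
          simp only [Pi.sub_apply]
          have h5 : b j - 1 ≤ ⌊u x j - a j⌋ := by
            apply Int.le_floor.2
            push_cast
            linarith
          have h6 : ⌊u x j - a j⌋ ≤ b j + 3 := by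
            have : u x j - a j < ((b j + 3 : ℤ) : ℝ) + 1 := by push_cast; linarith
            exact Int.lt_add_one_iff.1 (Int.floor_lt.2 (by exact_mod_cast this))
          constructor <;> omega
        have hxA : x ∈ A (b + e) := by
          refine ⟨fun j => ?_, hus⟩
          rw [he]
          simp
        have h7 := Finset.single_le_sum (s := F)
          (f := fun e => (A (b + e)).indicator (fun x => ∑ i, ENNReal.ofReal |mnr (Du x) i|) x)
          (fun _ _ => zero_le) heF
        simp only [indicator_of_mem hxA] at h7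
        refine h1.trans (add_le_add h7 ?_)
        rw [herr1]
        simp only
        exact le_self_add
    · rw [indicator_of_notMem hx]
      exact zero_le
  -- integrated
  have hAKint : ∀ k b, ∫⁻ x in {x | x ∈ B ∧ s < bra (U k x - a) ∧
            ∀ j, U k x j - a j ∈ Icc (b j : ℝ) ((b j : ℝ) + 2)},
          ∑ i, ENNReal.ofReal |mnr (Jac (U k) x) i| =
      ∫⁻ x in B, (AK k b).indicator (fun x => ∑ i, ENNReal.ofReal |mnr (Jac (U k) x) i|) x := by
    intro k b
    have hset : {x | x ∈ B ∧ s < bra (U k x - a) ∧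
            ∀ j, U k x j - a j ∈ Icc (b j : ℝ) ((b j : ℝ) + 2)} = AK k b ∩ B := by
      ext x
      simp only [hAK, mem_ofPred_eq, mem_inter_iff]
      tauto
    rw [hset, ← Measure.restrict_restrict (hAKm k b), ← lintegral_indicator (hAKm k b)]
  have hAint : ∀ b, ∫⁻ x in {x | x ∈ B ∧ (∀ j, ⌊u x j - a j⌋ = b j) ∧ s ≤ bra (u x - a)},
          ∑ i, ENNReal.ofReal |mnr (Du x) i| =
      ∫⁻ x in B, (A b).indicator (fun x => ∑ i, ENNReal.ofReal |mnr (Du x) i|) x := by
    intro b
    have hset : {x | x ∈ B ∧ (∀ j, ⌊u x j - a j⌋ = b j) ∧ s ≤ bra (u x - a)} = A b ∩ B := by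
      ext x
      simp only [hA, mem_ofPred_eq, mem_inter_iff]
      tauto
    rw [hset, ← Measure.restrict_restrict (hAm b), ← lintegral_indicator (hAm b)]
  have hle : ∀ k b, ∫⁻ x in B,
      (AK k b).indicator (fun x => ∑ i, ENNReal.ofReal |mnr (Jac (U k) x) i|) x ≤
      (∑ e ∈ F, ∫⁻ x in B,
        (A (b + e)).indicator (fun x => ∑ i, ENNReal.ofReal |mnr (Du x) i|) x) +
      ∫⁻ x in B, (AK k b).indicator (err1 k) x := by
    intro k b
    rw [← lintegral_finsetSum _ (fun e _ => hJu.indicator (hAm (b + e))),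
      ← lintegral_add_right _ ((herr1m k).indicator (hAKm k b))]
    exact lintegral_mono fun x => hpt k b x
  have hsumδ : ∀ k, ∑' b, ∫⁻ x in B, (AK k b).indicator (err1 k) x ≤
      (G.card : ℝ≥0∞) * ∫⁻ x in B, err1 k x := by
    intro k
    rw [← lintegral_tsum (fun b => ((herr1m k).indicator (hAKm k b)).aemeasurable),
      ← lintegral_const_mul' _ _ (ENNReal.natCast_ne_top _)]
    apply lintegral_mono
    intro x
    have := limsup2_mult (fun j => U k x j - a j) (s < bra (U k x - a)) (err1 k x)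
    refine le_trans (le_of_eq ?_) this
    apply tsum_congr
    intro b
    simp only [indicator, hAK, mem_ofPred_eq]
  refine ⟨fun k => 2 ^ (p - 1) * ((G.card : ℝ≥0∞) * ∫⁻ x in B, err1 k x) ^ p, ?_, ?_⟩
  · have h1 : Tendsto (fun k => (G.card : ℝ≥0∞) * ∫⁻ x in B, err1 k x) atTop (𝓝 0) := by
      have := ENNReal.Tendsto.const_mul (a := (G.card : ℝ≥0∞)) herr0
        (Or.inr (ENNReal.natCast_ne_top _))
      rwa [mul_zero] at this
    have h2 := (ENNReal.continuous_rpow_const (y := p)).tendsto 0 |>.comp h1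
    rw [ENNReal.zero_rpow_of_pos (by linarith)] at h2
    have h3 := ENNReal.Tendsto.const_mul (a := (2 : ℝ≥0∞) ^ (p - 1)) h2
      (Or.inr (ENNReal.rpow_ne_top_of_nonneg (by linarith) ENNReal.ofNat_ne_top))
    rwa [mul_zero] at h3
  · intro k
    have h1 := limsup2_sum_bound F
      (fun b => ∫⁻ x in B, (A b).indicator (fun x => ∑ i, ENNReal.ofReal |mnr (Du x) i|) x)
      (fun b => ∫⁻ x in B,
        (AK k b).indicator (fun x => ∑ i, ENNReal.ofReal |mnr (Jac (U k) x) i|) x)
      (fun b => ∫⁻ x in B, (AK k b).indicator (err1 k) x) (hle k) hp1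
    simp_rw [hAKint, hAint]
    refine h1.trans ?_
    have hpp : 0 ≤ p := by linarith
    gcongr
    exact hsumδ k

end Main

/-- H3L : upper semicontinuity of the cube sums. -/
theorem cubes_limsup {n : ℕ} (hn : 1 ≤ n) : ∃ C : ℝ, 0 < C ∧ ∀ {u : E n → E (n + 1)}
    {Du : E n → Matrix (Fin (n + 1)) (Fin n) ℝ} {x₀ : E n} {r : ℝ}
    {a : E (n + 1)} {δ : ℝ} {U : ℕ → E n → E (n + 1)}, LocApprox n x₀ r u Du a δ U → ∀ s : ℝ,
    limsup (fun k => ∑' b : Fin (n + 1) → ℤ,
        (∫⁻ x in {x | x ∈ Metric.ball x₀ r ∧ s < bra (U k x - a) ∧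
            ∀ j, U k x j - a j ∈ Icc (b j : ℝ) ((b j : ℝ) + 2)},
          ∑ i, ENNReal.ofReal |mnr (Jac (U k) x) i|) ^ (((n : ℝ) + 1) / n)) atTop ≤
      ENNReal.ofReal C * ∑' b : Fin (n + 1) → ℤ,
        (∫⁻ x in {x | x ∈ Metric.ball x₀ r ∧ (∀ j, ⌊u x j - a j⌋ = b j) ∧ s ≤ bra (u x - a)},
          ∑ i, ENNReal.ofReal |mnr (Du x) i|) ^ (((n : ℝ) + 1) / n) := by
  classical
  set F := Fintype.piFinset (fun _ : Fin (n + 1) => Finset.Icc (-1 : ℤ) 3) with hF
  set p : ℝ := ((n : ℝ) + 1) / n with hp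
  have hn0 : (0 : ℝ) < n := by exact_mod_cast hn
  have hp1 : 1 ≤ p := by
    rw [hp, le_div_iff₀ hn0]
    linarith
  set c : ℝ≥0∞ := 2 ^ (p - 1) * ((F.card : ℝ≥0∞) ^ (p - 1) * F.card) with hc
  have hFpos : 0 < F.card := by
    rw [Finset.card_pos]
    exact ⟨fun _ => 0, by rw [hF, Fintype.mem_piFinset]; intro j; simp⟩
  have hctop : c ≠ ∞ := by
    rw [hc]
    apply ENNReal.mul_ne_top
    · exact ENNReal.rpow_ne_top_of_nonneg (by linarith) ENNReal.ofNat_ne_top
    · apply ENNReal.mul_ne_top
      · exact ENNReal.rpow_ne_top_of_nonneg (by linarith) (ENNReal.natCast_ne_top _)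
      · exact ENNReal.natCast_ne_top _
  have hc0 : c ≠ 0 := by
    rw [hc]
    apply mul_ne_zero
    · exact (ENNReal.rpow_pos (by norm_num) ENNReal.ofNat_ne_top).ne'
    · apply mul_ne_zero
      · exact (ENNReal.rpow_pos (by exact_mod_cast hFpos) (ENNReal.natCast_ne_top _)).ne'
      · exact_mod_cast hFpos.ne'
  refine ⟨c.toReal, ENNReal.toReal_pos hc0 hctop, ?_⟩
  intro u Du x₀ r a δ U hL s
  obtain ⟨u', Du', hu'm, hDu'm, huu', hDD', hL'⟩ := hL.exists_measurable
  obtain ⟨err, herr, hmain⟩ := limsup2_main hn hL' hu'm hDu'm s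
  rw [ENNReal.ofReal_toReal hctop]
  -- the right hand side does not depend on the representatives
  have hR : ∀ b : Fin (n + 1) → ℤ,
      ∫⁻ x in {x | x ∈ Metric.ball x₀ r ∧ (∀ j, ⌊u' x j - a j⌋ = b j) ∧ s ≤ bra (u' x - a)},
          ∑ i, ENNReal.ofReal |mnr (Du' x) i| =
      ∫⁻ x in {x | x ∈ Metric.ball x₀ r ∧ (∀ j, ⌊u x j - a j⌋ = b j) ∧ s ≤ bra (u x - a)},
          ∑ i, ENNReal.ofReal |mnr (Du x) i| := by
    intro b
    have hBm : MeasurableSet (Metric.ball x₀ r) := Metric.isOpen_ball.measurableSet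
    have h1 : {x | x ∈ Metric.ball x₀ r ∧ (∀ j, ⌊u' x j - a j⌋ = b j) ∧ s ≤ bra (u' x - a)} =
        {x | (∀ j, ⌊u' x j - a j⌋ = b j) ∧ s ≤ bra (u' x - a)} ∩ Metric.ball x₀ r := by
      ext x
      simp only [mem_ofPred_eq, mem_inter_iff]
      tauto
    have h2 : {x | x ∈ Metric.ball x₀ r ∧ (∀ j, ⌊u x j - a j⌋ = b j) ∧ s ≤ bra (u x - a)} =
        {x | (∀ j, ⌊u x j - a j⌋ = b j) ∧ s ≤ bra (u x - a)} ∩ Metric.ball x₀ r := by
      ext x
      simp only [mem_ofPred_eq, mem_inter_iff]
      tauto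
    rw [h1, h2, ← Measure.restrict_restrict' hBm, ← Measure.restrict_restrict' hBm]
    have h3 : ({x | (∀ j, ⌊u' x j - a j⌋ = b j) ∧ s ≤ bra (u' x - a)} : Set (E n))
        =ᵐ[volume.restrict (Metric.ball x₀ r)]
        {x | (∀ j, ⌊u x j - a j⌋ = b j) ∧ s ≤ bra (u x - a)} := by
      filter_upwards [huu'] with x hx
      show ((∀ j, ⌊u' x j - a j⌋ = b j) ∧ s ≤ bra (u' x - a)) =
        ((∀ j, ⌊u x j - a j⌋ = b j) ∧ s ≤ bra (u x - a))
      rw [hx]
    rw [Measure.restrict_congr_set h3]
    apply lintegral_congr_ae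
    apply ae_restrict_of_ae
    filter_upwards [hDD'] with x hx
    rw [hx]
  simp_rw [hR] at hmain
  refine (limsup_le_limsup (Eventually.of_forall fun k => hmain k)).trans ?_
  have h4 := ENNReal.limsup_add_of_right_tendsto_zero herr (fun _ : ℕ => c *
    ∑' b : Fin (n + 1) → ℤ,
        (∫⁻ x in {x | x ∈ Metric.ball x₀ r ∧ (∀ j, ⌊u x j - a j⌋ = b j) ∧ s ≤ bra (u x - a)},
          ∑ i, ENNReal.ofReal |mnr (Du x) i|) ^ (((n : ℝ) + 1) / n))
  rw [limsup_const] at h4
  exact le_of_eq h4

end Pool.Agent.Lib.HSys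
end
end
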