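import Pool.Agent.Lib.MP_f44734_an.Basic
import Pool.Agent.Lib.MP_f44734_an.Limsup2

section

/-!
# Graph decomposition of a `C¹` map `ℝⁿ → ℝⁿ⁺¹` over a coordinate hyperplane
-/

set_option autoImplicit false
open MeasureTheory Set Filter Topology
open scoped ENNReal Matrix NNReal

namespace Pool.Agent.Lib.HSys

/-- The projection of `w` along coordinate `i`. -/
private def gProj {n : ℕ} (w : E n → E (n + 1)) (i : Fin (n + 1)) (x : E n) : E n :=
  fun l => w x (i.succAbove l)

private lemma gProj_contDiff {n : ℕ} {w : E n → E (n + 1)} (hw : ContDiff ℝ 1 w)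
    (i : Fin (n + 1)) : ContDiff ℝ 1 (gProj w i) := by
  unfold gProj
  rw [contDiff_pi]
  intro l
  exact contDiff_pi.1 hw (i.succAbove l)

private lemma fderiv_gProj {n : ℕ} {w : E n → E (n + 1)} (hw : ContDiff ℝ 1 w)
    (i : Fin (n + 1)) (x e : E n) (l : Fin n) :
    fderiv ℝ (gProj w i) x e l = fderiv ℝ w x e (i.succAbove l) := by
  have h1 : HasFDerivAt w (fderiv ℝ w x) x := (hw.differentiable one_ne_zero x).hasFDerivAt
  have h2 : HasFDerivAt (gProj w i) (fderiv ℝ (gProj w i) x) x :=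
    ((gProj_contDiff hw i).differentiable one_ne_zero x).hasFDerivAt
  have h3 := hasFDerivAt_pi'.1 h1 (i.succAbove l)
  have h4 := hasFDerivAt_pi'.1 h2 l
  have h5 := h3.unique h4
  exact (DFunLike.congr_fun h5 e).symm

private lemma det_fderiv_gProj {n : ℕ} {w : E n → E (n + 1)} (hw : ContDiff ℝ 1 w)
    (i : Fin (n + 1)) (x : E n) : (fderiv ℝ (gProj w i) x).det = mnr (Jac w x) i := by
  rw [ContinuousLinearMap.det, ← LinearMap.det_toMatrix', mnr]
  congr 1
  ext l j
  rw [LinearMap.toMatrix'_apply]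
  simp only [Matrix.submatrix_apply, id_eq, Jac_apply]
  rw [← fderiv_gProj hw i]
  congr 2

private lemma exists_pieces {n : ℕ} {w : E n → E (n + 1)} (hw : ContDiff ℝ 1 w)
    (i : Fin (n + 1)) :
    ∃ t : ℕ → Set (E n), Pairwise (Function.onFun Disjoint t) ∧ (∀ k, MeasurableSet (t k)) ∧
      {x | mnr (Jac w x) i ≠ 0} ⊆ ⋃ k, t k ∧
      ∀ k, InjOn (gProj w i) ({x | mnr (Jac w x) i ≠ 0} ∩ t k) := by
  classical
  set D : Set (E n) := {x | mnr (Jac w x) i ≠ 0} with hD
  have hder : ∀ x ∈ D, HasFDerivWithinAt (gProj w i) (fderiv ℝ (gProj w i) x) D x := fun x _ =>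
    ((gProj_contDiff hw i).differentiable one_ne_zero x).hasFDerivAt.hasFDerivWithinAt
  let r : (E n →L[ℝ] E n) → ℝ≥0 := fun A =>
    if h : ∃ B : E n ≃L[ℝ] E n, (B : E n →L[ℝ] E n) = A ∧ ‖(B.symm : E n →L[ℝ] E n)‖₊ ≠ 0 then
      ‖(h.choose.symm : E n →L[ℝ] E n)‖₊⁻¹ / 2 else 1
  have hr : ∀ A, r A ≠ 0 := by
    intro A
    simp only [r]
    split_ifs with h
    · have := h.choose_spec.2
      positivity
    · exact one_ne_zero
  obtain ⟨t, A, h1, h2, h3, h4, h5⟩ :=
    exists_partition_approximatesLinearOn_of_hasFDerivWithinAt (gProj w i) D _ hder r hr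
  refine ⟨t, h1, h2, h3, fun k => ?_⟩
  by_cases hne : D.Nonempty
  · obtain ⟨y, hy, hAy⟩ := h5 hne k
    have hdet : (A k).det ≠ 0 := by
      rw [hAy, det_fderiv_gProj hw]
      exact hy
    -- the invertible map
    let B : E n ≃L[ℝ] E n := (A k).toContinuousLinearEquivOfDetNeZero hdet
    have hB : (B : E n →L[ℝ] E n) = A k :=
      ContinuousLinearMap.coe_toContinuousLinearEquivOfDetNeZero _ _
    by_cases hsub : Subsingleton (E n)
    · intro a _ b _ _
      exact Subsingleton.elim a b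
    have hnt : Nontrivial (E n) := not_subsingleton_iff_nontrivial.1 hsub
    have hex : ∃ B : E n ≃L[ℝ] E n, (B : E n →L[ℝ] E n) = A k ∧
        ‖(B.symm : E n →L[ℝ] E n)‖₊ ≠ 0 := by
      refine ⟨B, hB, ?_⟩
      have := B.norm_symm_pos
      rw [← NNReal.coe_ne_zero, coe_nnnorm]
      exact this.ne'
    have hrk : r (A k) = ‖(hex.choose.symm : E n →L[ℝ] E n)‖₊⁻¹ / 2 := by
      simp only [r]
      rw [dif_pos hex]
    have happ := h4 k
    rw [← hex.choose_spec.1] at happ
    refine happ.injOn (Or.inr ?_)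
    rw [hex.choose_spec.1, hrk]
    apply NNReal.half_lt_self
    exact inv_ne_zero hex.choose_spec.2
  · rw [Set.not_nonempty_iff_eq_empty] at hne
    rw [hne, Set.empty_inter]
    exact Set.injOn_empty _

/-- II-d -/
theorem graph_decomp {n : ℕ} (hn : 1 ≤ n) (w : E n → E (n + 1)) (hw : ContDiff ℝ 1 w)
    (hc : HasCompactSupport w) (i : Fin (n + 1)) :
    ∃ (S : ℕ → Set (E n)) (h : ℕ → E n → ℝ) (σ : ℕ → ℝ),
      (∀ k, MeasurableSet (S k)) ∧ (∀ k, Measurable (h k)) ∧ (∀ k, σ k = 1 ∨ σ k = -1) ∧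
      (∀ k, ∀ z ∈ S k, ∃ x ∈ tsupport w, w x = i.insertNth (α := fun _ => ℝ) (h k z) z) ∧
      (∀ Ψ : E (n + 1) → ℝ≥0∞, Measurable Ψ →
        ∫⁻ x, Ψ (w x) * ENNReal.ofReal |mnr (Jac w x) i| =
          ∑' k, ∫⁻ z in S k, Ψ (i.insertNth (α := fun _ => ℝ) (h k z) z)) ∧
      (∀ Ψ : E (n + 1) → ℝ, Measurable Ψ → (∃ C, ∀ y, |Ψ y| ≤ C) →
        ∫ x, Ψ (w x) * mnr (Jac w x) i =
          ∑' k, σ k * ∫ z in S k, Ψ (i.insertNth (α := fun _ => ℝ) (h k z) z)) := by
  classical
  obtain ⟨t, ht1, ht2, ht3, ht4⟩ := exists_pieces hw i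
  have hmc : Continuous fun x => mnr (Jac w x) i := (continuous_mnr i).comp (continuous_Jac hw)
  -- the pieces with sign
  let D : ℕ × Bool → Set (E n) := fun p => t p.1 ∩
    (if p.2 then {x | 0 < mnr (Jac w x) i} else {x | mnr (Jac w x) i < 0})
  let s : ℕ × Bool → ℝ := fun p => if p.2 then 1 else -1
  have hDm : ∀ p, MeasurableSet (D p) := by
    rintro ⟨k, b⟩
    cases b
    · exact (ht2 k).inter (measurableSet_lt hmc.measurable measurable_const)
    · exact (ht2 k).inter (measurableSet_lt measurable_const hmc.measurable)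
  have hDsub : ∀ p, D p ⊆ {x | mnr (Jac w x) i ≠ 0} ∩ t p.1 := by
    rintro ⟨k, b⟩ x ⟨hx1, hx2⟩
    cases b
    · exact ⟨(show mnr (Jac w x) i < 0 from hx2).ne, hx1⟩
    · exact ⟨(show 0 < mnr (Jac w x) i from hx2).ne', hx1⟩
  have hDinj : ∀ p, InjOn (gProj w i) (D p) := fun p => (ht4 p.1).mono (hDsub p)
  have hDdisj : Pairwise (Function.onFun Disjoint D) := by
    rintro ⟨k, b⟩ ⟨l, c⟩ hne
    by_cases hkl : k = l
    · subst hkl
      have hbc : b ≠ c := fun h => hne (by rw [h])
      rw [Function.onFun, Set.disjoint_left]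
      intro x hx1 hx2
      cases b <;> cases c
      · exact hbc rfl
      · exact lt_asymm (show mnr (Jac w x) i < 0 from hx1.2)
          (show 0 < mnr (Jac w x) i from hx2.2)
      · exact lt_asymm (show mnr (Jac w x) i < 0 from hx2.2)
          (show 0 < mnr (Jac w x) i from hx1.2)
      · exact hbc rfl
    · exact Disjoint.mono Set.inter_subset_left Set.inter_subset_left (ht1 hkl)
  have hDunion : ⋃ p, D p = {x | mnr (Jac w x) i ≠ 0} := by
    apply Set.Subset.antisymm
    · apply Set.iUnion_subset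
      intro p x hx
      exact (hDsub p hx).1
    · intro x hx
      obtain ⟨k, hk⟩ := Set.mem_iUnion.1 (ht3 hx)
      rw [Set.mem_iUnion]
      rcases lt_or_gt_of_ne (show mnr (Jac w x) i ≠ 0 from hx) with h | h
      · exact ⟨(k, false), hk, h⟩
      · exact ⟨(k, true), hk, h⟩
  have hder : ∀ p, ∀ x ∈ D p,
      HasFDerivWithinAt (gProj w i) (fderiv ℝ (gProj w i) x) (D p) x := fun p x _ =>
    ((gProj_contDiff hw i).differentiable one_ne_zero x).hasFDerivAt.hasFDerivWithinAt
  have hDs : ∀ p, ∀ x ∈ D p, |mnr (Jac w x) i| * s p = mnr (Jac w x) i := by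
    rintro ⟨k, b⟩ x ⟨_, hx2⟩
    cases b
    · have h1 : mnr (Jac w x) i < 0 := hx2
      have h2 : s (k, false) = -1 := rfl
      rw [abs_of_neg h1, h2]; ring
    · have h1 : 0 < mnr (Jac w x) i := hx2
      have h2 : s (k, true) = 1 := rfl
      rw [abs_of_pos h1, h2]; ring
  -- the heights
  have hex : ∀ p, ∃ g' : E n → ℝ, Measurable g' ∧ ∀ x ∈ D p, g' (gProj w i x) = w x i := by
    intro p
    have hemb := measurableEmbedding_of_fderivWithin (hDm p) (hder p) (hDinj p)
    have hmeas : Measurable (fun x : D p => w x.1 i) :=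
      ((continuous_apply i).comp hw.continuous).measurable.comp measurable_subtype_coe
    obtain ⟨g', hg1, hg2⟩ := hemb.exists_measurable_extend hmeas (fun _ => ⟨0⟩)
    refine ⟨g', hg1, fun x hx => ?_⟩
    exact congrFun hg2 ⟨x, hx⟩
  choose h hh1 hh2 using hex
  have hins : ∀ p, ∀ x ∈ D p,
      i.insertNth (α := fun _ => ℝ) (h p (gProj w i x)) (gProj w i x) = w x := by
    intro p x hx
    rw [hh2 p x hx]
    exact Fin.insertNth_self_removeNth i (w x)
  have hzero : ∀ x, x ∉ tsupport w → mnr (Jac w x) i = 0 := by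
    intro x hcon
    have h2 : w =ᶠ[𝓝 x] 0 := notMem_tsupport_iff_eventuallyEq.1 hcon
    have h3 : fderiv ℝ w x = 0 := by
      rw [h2.fderiv_eq]
      exact fderiv_const_apply 0
    have h4 : Jac w x = 0 := by
      ext a b
      rw [Jac_apply, h3]
      rfl
    rw [h4, mnr, Matrix.submatrix_zero]
    have : Nonempty (Fin n) := ⟨⟨0, hn⟩⟩
    exact Matrix.det_zero
  let e : ℕ × Bool ≃ ℕ := (Equiv.prodComm ℕ Bool).trans Equiv.boolProdNatEquivNat
  have hlin : ∀ Ψ : E (n + 1) → ℝ≥0∞, Measurable Ψ →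
        ∫⁻ x, Ψ (w x) * ENNReal.ofReal |mnr (Jac w x) i| =
          ∑' p, ∫⁻ z in gProj w i '' D p, Ψ (i.insertNth (α := fun _ => ℝ) (h p z) z) := by
    intro Ψ hΨ
    have e1 : ∫⁻ x, Ψ (w x) * ENNReal.ofReal |mnr (Jac w x) i| =
        ∫⁻ x in ⋃ p, D p, Ψ (w x) * ENNReal.ofReal |mnr (Jac w x) i| := by
      rw [← lintegral_indicator (MeasurableSet.iUnion hDm)]
      apply lintegral_congr
      intro x
      by_cases hx : x ∈ ⋃ p, D p
      · rw [Set.indicator_of_mem hx]
      · rw [Set.indicator_of_notMem hx]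
        rw [hDunion] at hx
        simp only [Set.mem_ofPred_eq, not_not] at hx
        rw [hx]
        simp
    rw [e1, lintegral_iUnion hDm hDdisj]
    congr 1
    ext p
    rw [lintegral_image_eq_lintegral_abs_det_fderiv_mul volume (hDm p) (hder p) (hDinj p)]
    apply setLIntegral_congr_fun (hDm p)
    intro x hx
    simp only
    rw [hins p x hx, det_fderiv_gProj hw, mul_comm]
  have hint : ∀ Ψ : E (n + 1) → ℝ, Measurable Ψ → (∃ C, ∀ y, |Ψ y| ≤ C) →
        ∫ x, Ψ (w x) * mnr (Jac w x) i =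
          ∑' p, s p * ∫ z in gProj w i '' D p, Ψ (i.insertNth (α := fun _ => ℝ) (h p z) z) := by
    rintro Ψ hΨ ⟨C, hC⟩
    have hsupp : HasCompactSupport fun x => mnr (Jac w x) i := by
      apply hc.of_isClosed_subset (isClosed_tsupport _)
      apply closure_minimal _ (isClosed_tsupport _)
      intro x hx
      by_contra hcon
      exact hx (hzero x hcon)
    have hm : Integrable (fun x => mnr (Jac w x) i) := hmc.integrable_of_hasCompactSupport hsupp
    have hI : Integrable (fun x => Ψ (w x) * mnr (Jac w x) i) := by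
      apply hm.bdd_mul (c := C) (hΨ.comp hw.continuous.measurable).aestronglyMeasurable
      exact Filter.Eventually.of_forall fun x => hC _
    have e1 : ∫ x, Ψ (w x) * mnr (Jac w x) i =
        ∫ x in ⋃ p, D p, Ψ (w x) * mnr (Jac w x) i := by
      rw [← integral_indicator (MeasurableSet.iUnion hDm)]
      congr 1
      ext x
      by_cases hx : x ∈ ⋃ p, D p
      · rw [Set.indicator_of_mem hx]
      · rw [Set.indicator_of_notMem hx]
        rw [hDunion] at hx
        simp only [Set.mem_ofPred_eq, not_not] at hx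
        rw [hx]
        simp
    rw [e1, integral_iUnion hDm hDdisj hI.integrableOn]
    congr 1
    ext p
    rw [integral_image_eq_integral_abs_det_fderiv_smul volume (hDm p) (hder p) (hDinj p),
      ← integral_const_mul]
    apply setIntegral_congr_fun (hDm p)
    intro x hx
    simp only
    rw [hins p x hx, det_fderiv_gProj hw, smul_eq_mul]
    calc Ψ (w x) * mnr (Jac w x) i = Ψ (w x) * (|mnr (Jac w x) i| * s p) := by rw [hDs p x hx]
      _ = _ := by ring
  refine ⟨fun k => gProj w i '' D (e.symm k), fun k => h (e.symm k), fun k => s (e.symm k),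
    fun k => ?_, fun k => hh1 _, fun k => ?_, ?_, ?_, ?_⟩
  · exact measurable_image_of_fderivWithin (hDm _) (hder _) (hDinj _)
  · simp only [s]
    split_ifs
    · exact Or.inl rfl
    · exact Or.inr rfl
  · rintro k z ⟨x, hx, rfl⟩
    refine ⟨x, ?_, (hins _ x hx).symm⟩
    by_contra hcon
    exact (hDsub _ hx).1 (hzero x hcon)
  · intro Ψ hΨ
    rw [hlin Ψ hΨ]
    exact (Equiv.tsum_eq e.symm _).symm
  · intro Ψ hΨ hb
    rw [hint Ψ hΨ hb]
    exact (Equiv.tsum_eq e.symm _).symm

end Pool.Agent.Lib.HSys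
end

section

/-!
# Local and global isoperimetric inequality from crossing counts
-/

set_option autoImplicit false
set_option linter.unusedVariables false
open MeasureTheory Set Filter Topology
open scoped ENNReal Matrix

namespace Pool.Agent.Lib.HSys

private theorem iso_insertNth_self {n : ℕ} (i : Fin (n + 1)) (y : E (n + 1)) :
    i.insertNth (α := fun _ => ℝ) (y i) (fun j => y (i.succAbove j)) = y :=
  Fin.insertNth_self_removeNth (α := fun _ => ℝ) i y

/-- an a.e. statement on the hyperplane `y_i = 0` holds a.e. -/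
private theorem iso_ae {n : ℕ} (i : Fin (n + 1)) {P : E n → Prop} (h : ∀ᵐ z : E n, P z) :
    ∀ᵐ y : E (n + 1), P (fun j => y (i.succAbove j)) := by
  have h1 := (volume_preserving_piFinSuccAbove (fun _ : Fin (n + 1) => ℝ) i).quasiMeasurePreserving
  have h2 : Measure.QuasiMeasurePreserving (Prod.snd : ℝ × E n → E n) (volume.prod volume)
      volume := Measure.quasiMeasurePreserving_snd
  exact (h2.comp h1).ae h

/-- Fubini for `E (n+1)` along the `i`-th axis -/
private theorem iso_fubini {n : ℕ} (i : Fin (n + 1)) (f : E (n + 1) → ℝ≥0∞)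
    (hf : Measurable f) :
    ∫⁻ y, f y = ∫⁻ z : E n, ∫⁻ t : ℝ, f (i.insertNth (α := fun _ => ℝ) t z) := by
  have h1 := volume_preserving_piFinSuccAbove (fun _ : Fin (n + 1) => ℝ) i
  have h2 := (h1.symm _).lintegral_comp_emb
    (MeasurableEquiv.measurableEmbedding _) f
  rw [← h2]
  rw [Measure.volume_eq_prod, lintegral_prod_symm]
  · rfl
  · exact (hf.comp (MeasurableEquiv.measurable _)).aemeasurable

private theorem iso_measurable_insertNth {n : ℕ} (i : Fin (n + 1)) :
    Measurable fun p : E n × ℝ => i.insertNth (α := fun _ => ℝ) p.2 p.1 := by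
  have := (MeasurableEquiv.piFinSuccAbove (fun _ : Fin (n + 1) => ℝ) i).symm.measurable
  exact this.comp measurable_swap

private theorem iso_core {n : ℕ} (hn : 1 ≤ n) (q : E (n + 1) → ℤ)
    (Q : Fin (n + 1) → E (n + 1) → ℤ) (hQq : ∀ i, Q i =ᵐ[volume] q)
    (S : Set (E (n + 1))) (hS : MeasurableSet S) (g : Fin (n + 1) → E n → ℝ≥0∞)
    (hg : ∀ i, Measurable (g i))
    (h : ∀ i, ∀ᵐ y : E (n + 1), y ∈ S →
      ENNReal.ofReal |(Q i y : ℝ)| ≤ g i (fun j => y (i.succAbove j))) :
    ∫⁻ y in S, ENNReal.ofReal |(q y : ℝ)| ≤ ∏ i, (∫⁻ z, g i z) ^ (1 / (n : ℝ)) := by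
  refine le_trans ?_ (loomis_whitney hn g hg)
  rw [← lintegral_indicator hS]
  apply lintegral_mono_ae
  have hq' : ∀ᵐ y : E (n + 1), ∀ i, Q i y = q y := ae_all_iff.2 hQq
  have h' : ∀ᵐ y : E (n + 1), ∀ i, y ∈ S →
      ENNReal.ofReal |(Q i y : ℝ)| ≤ g i (fun j => y (i.succAbove j)) := ae_all_iff.2 h
  filter_upwards [hq', h'] with y hy1 hy2
  by_cases hyS : y ∈ S
  swap
  · simp [hyS]
  rw [indicator_of_mem hyS]
  have hn0 : (0 : ℝ) < n := by exact_mod_cast hn
  by_cases hq0 : q y = 0
  · simp [hq0]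
  have h1 : (1 : ℝ) ≤ |(q y : ℝ)| := by
    have : (1 : ℤ) ≤ |q y| := Int.one_le_abs hq0
    exact_mod_cast this
  have h1' : (1 : ℝ≥0∞) ≤ ENNReal.ofReal |(q y : ℝ)| := by
    rw [← ENNReal.ofReal_one]
    exact ENNReal.ofReal_le_ofReal h1
  calc ENNReal.ofReal |(q y : ℝ)| = (ENNReal.ofReal |(q y : ℝ)|) ^ (1 : ℝ) := by simp
    _ ≤ (ENNReal.ofReal |(q y : ℝ)|) ^ ((1 / (n : ℝ)) * ((n + 1 : ℕ) : ℝ)) := by
        apply ENNReal.rpow_le_rpow_of_exponent_le h1'
        push_cast
        rw [one_div, inv_mul_eq_div, le_div_iff₀ hn0]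
        linarith
    _ = ∏ _i : Fin (n + 1), (ENNReal.ofReal |(q y : ℝ)|) ^ (1 / (n : ℝ)) := by
        rw [Finset.prod_const, Finset.card_univ, Fintype.card_fin, ENNReal.rpow_mul,
          ENNReal.rpow_natCast]
    _ ≤ ∏ i, g i (fun j => y (i.succAbove j)) ^ (1 / (n : ℝ)) := by
        apply Finset.prod_le_prod' 
        intro i _
        apply ENNReal.rpow_le_rpow _ (by positivity)
        have := hy2 i hyS
        rwa [hy1 i] at this

/-- II-i -/
theorem local_iso {n : ℕ} (hn : 1 ≤ n) (q : E (n + 1) → ℤ) (hq : Measurable q)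
    (hint : Integrable fun y => (q y : ℝ)) (Q : Fin (n + 1) → E (n + 1) → ℤ)
    (hQ : ∀ i, Measurable (Q i)) (hQq : ∀ i, Q i =ᵐ[volume] q)
    (N : Fin (n + 1) → Set (E (n + 1)) → E n → ℝ≥0∞)
    (hN : ∀ i A, MeasurableSet A → Measurable (N i A))
    (hcross : ∀ i, ∀ᵐ z : E n, ∀ s t : ℝ, ∀ A : Set (E (n + 1)),
      (∀ τ ∈ Set.uIcc s t, i.insertNth (α := fun _ => ℝ) τ z ∈ A) →
      ENNReal.ofReal |(Q i (i.insertNth (α := fun _ => ℝ) s z) : ℝ) -
        Q i (i.insertNth (α := fun _ => ℝ) t z)| ≤ N i A z) (a : E (n + 1)) :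
    ∫⁻ y in {y : E (n + 1) | ∀ j, y j ∈ Icc (a j) (a j + 1)}, ENNReal.ofReal |(q y : ℝ)| ≤
      ∏ i, ((∫⁻ z, N i {y | ∀ j, y j ∈ Icc (a j) (a j + 2)} z) +
        ∫⁻ y in {y : E (n + 1) | ∀ j, y j ∈ Icc (a j) (a j + 2)},
          ENNReal.ofReal |(q y : ℝ)|) ^ (1 / (n : ℝ)) := by
  classical
  set A : Set (E (n + 1)) := {y | ∀ j, y j ∈ Icc (a j) (a j + 2)} with hA
  have hmeasBox : ∀ {m : ℕ} (b c : E m), MeasurableSet {y : E m | ∀ j, y j ∈ Icc (b j) (c j)} := by
    intro m b c
    have : {y : E m | ∀ j, y j ∈ Icc (b j) (c j)} = ⋂ j, (fun y : E m => y j) ⁻¹' Icc (b j) (c j) := by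
      ext y; simp
    rw [this]
    exact MeasurableSet.iInter fun j => (measurable_pi_apply j) measurableSet_Icc
  have hAm : MeasurableSet A := hmeasBox a fun j => a j + 2
  have hSm : MeasurableSet {y : E (n + 1) | ∀ j, y j ∈ Icc (a j) (a j + 1)} :=
    hmeasBox a fun j => a j + 1
  -- the functions on the hyperplanes
  set B : Fin (n + 1) → Set (E n) := fun i =>
    {z | ∀ l, z l ∈ Icc (a (i.succAbove l)) (a (i.succAbove l) + 1)} with hB
  have hBm : ∀ i, MeasurableSet (B i) := fun i =>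
    hmeasBox (fun l => a (i.succAbove l)) fun l => a (i.succAbove l) + 1
  have hQm : ∀ i, Measurable fun y => ENNReal.ofReal |(Q i y : ℝ)| := by
    intro i
    have : Measurable fun k : ℤ => ENNReal.ofReal |(k : ℝ)| := measurable_of_countable _
    exact this.comp (hQ i)
  have hqm : Measurable fun y => ENNReal.ofReal |(q y : ℝ)| := by
    have : Measurable fun k : ℤ => ENNReal.ofReal |(k : ℝ)| := measurable_of_countable _
    exact this.comp hq
  set F : Fin (n + 1) → E n → ℝ≥0∞ := fun i z =>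
    ∫⁻ t in Icc (a i) (a i + 2), ENNReal.ofReal |(Q i (i.insertNth (α := fun _ => ℝ) t z) : ℝ)|
    with hF
  have hFm : ∀ i, Measurable (F i) := by
    intro i
    apply Measurable.lintegral_prod_right'
      (f := fun p : E n × ℝ => ENNReal.ofReal |(Q i (i.insertNth (α := fun _ => ℝ) p.2 p.1) : ℝ)|)
    exact (hQm i).comp (iso_measurable_insertNth i)
  set g : Fin (n + 1) → E n → ℝ≥0∞ := fun i => (B i).indicator fun z => N i A z + F i z with hg
  have hgm : ∀ i, Measurable (g i) := fun i =>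
    ((hN i A hAm).add (hFm i)).indicator (hBm i)
  refine le_trans (iso_core hn q Q hQq _ hSm g hgm ?_) ?_
  · -- pointwise bound
    intro i
    filter_upwards [iso_ae i (hcross i)] with y hy hyS
    set z : E n := fun j => y (i.succAbove j) with hz
    have hzB : z ∈ B i := fun l => hyS (i.succAbove l)
    rw [hg]
    simp only
    rw [indicator_of_mem hzB]
    have hyi := hyS i
    have key : ∀ τ ∈ Icc (y i) (y i + 1), ENNReal.ofReal |(Q i y : ℝ)| ≤
        N i A z + ENNReal.ofReal |(Q i (i.insertNth (α := fun _ => ℝ) τ z) : ℝ)| := by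
      intro τ hτ
      have h1 := hy (y i) τ A ?_
      · rw [iso_insertNth_self] at h1
        refine le_trans ?_ (add_le_add_left h1 _)
        rw [← ENNReal.ofReal_add (abs_nonneg _) (abs_nonneg _)]
        apply ENNReal.ofReal_le_ofReal
        have := abs_sub_abs_le_abs_sub (Q i y : ℝ) (Q i (i.insertNth (α := fun _ => ℝ) τ z) : ℝ)
        linarith
      · intro σ hσ
        rw [uIcc_of_le hτ.1] at hσ
        intro j
        rcases Fin.eq_self_or_eq_succAbove i j with rfl | ⟨l, rfl⟩
        · rw [Fin.insertNth_apply_same]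
          exact ⟨hyi.1.trans hσ.1, by linarith [hσ.2, hτ.2, hyi.2]⟩
        · rw [Fin.insertNth_apply_succAbove]
          have := hyS (i.succAbove l)
          exact ⟨this.1, by linarith [this.2]⟩
    have h2 : ENNReal.ofReal |(Q i y : ℝ)| =
        ∫⁻ _τ in Icc (y i) (y i + 1), ENNReal.ofReal |(Q i y : ℝ)| := by
      rw [setLIntegral_const]
      simp
    rw [h2]
    calc ∫⁻ _τ in Icc (y i) (y i + 1), ENNReal.ofReal |(Q i y : ℝ)|
        ≤ ∫⁻ τ in Icc (y i) (y i + 1), (N i A z +
            ENNReal.ofReal |(Q i (i.insertNth (α := fun _ => ℝ) τ z) : ℝ)|) :=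
          setLIntegral_mono' measurableSet_Icc key
      _ = N i A z + ∫⁻ τ in Icc (y i) (y i + 1),
            ENNReal.ofReal |(Q i (i.insertNth (α := fun _ => ℝ) τ z) : ℝ)| := by
          rw [lintegral_add_left measurable_const, setLIntegral_const]
          simp
      _ ≤ N i A z + F i z := by
          gcongr
          apply lintegral_mono_set
          apply Icc_subset_Icc hyi.1
          linarith [hyi.2]
  · -- the integrals
    apply Finset.prod_le_prod'
    intro i _
    apply ENNReal.rpow_le_rpow _ (by positivity)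
    rw [hg]
    simp only
    rw [lintegral_indicator (hBm i), lintegral_add_left (hN i A hAm)]
    apply add_le_add (setLIntegral_le_lintegral _ _)
    have h3 : ∫⁻ y in A, ENNReal.ofReal |(q y : ℝ)| = ∫⁻ y in A, ENNReal.ofReal |(Q i y : ℝ)| := by
      apply lintegral_congr_ae
      apply ae_restrict_of_ae
      filter_upwards [hQq i] with y hy
      rw [hy]
    rw [h3, ← lintegral_indicator hAm, iso_fubini i _ ((hQm i).indicator hAm),
      ← lintegral_indicator (hBm i)]
    apply lintegral_mono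
    intro z
    by_cases hz : z ∈ B i
    swap
    · simp [hz]
    simp only
    rw [indicator_of_mem hz, hF]
    simp only
    rw [← lintegral_indicator measurableSet_Icc]
    apply lintegral_mono
    intro t
    by_cases ht : t ∈ Icc (a i) (a i + 2)
    swap
    · simp [ht]
    have hmem : i.insertNth (α := fun _ => ℝ) t z ∈ A := by
      intro j
      rcases Fin.eq_self_or_eq_succAbove i j with rfl | ⟨l, rfl⟩
      · rw [Fin.insertNth_apply_same]
        exact ht
      · rw [Fin.insertNth_apply_succAbove]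
        have := hz l
        exact ⟨this.1, by linarith [this.2]⟩
    simp only
    rw [indicator_of_mem ht, indicator_of_mem hmem]

/-- II-j -/
theorem global_iso {n : ℕ} (hn : 1 ≤ n) (q : E (n + 1) → ℤ) (hq : Measurable q)
    (hint : Integrable fun y => (q y : ℝ)) (Q : Fin (n + 1) → E (n + 1) → ℤ)
    (hQ : ∀ i, Measurable (Q i)) (hQq : ∀ i, Q i =ᵐ[volume] q)
    (N : Fin (n + 1) → Set (E (n + 1)) → E n → ℝ≥0∞)
    (hN : ∀ i A, MeasurableSet A → Measurable (N i A))
    (hcross : ∀ i, ∀ᵐ z : E n, ∀ s t : ℝ, ∀ A : Set (E (n + 1)),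
      (∀ τ ∈ Set.uIcc s t, i.insertNth (α := fun _ => ℝ) τ z ∈ A) →
      ENNReal.ofReal |(Q i (i.insertNth (α := fun _ => ℝ) s z) : ℝ) -
        Q i (i.insertNth (α := fun _ => ℝ) t z)| ≤ N i A z)
    (hfar : ∀ i, ∀ᵐ z : E n, ∃ R : ℝ, ∀ t, R ≤ |t| → Q i (i.insertNth (α := fun _ => ℝ) t z) = 0)
    (s : ℝ) :
    ∫⁻ y in {y : E (n + 1) | s < bra y}, ENNReal.ofReal |(q y : ℝ)| ≤
      ∏ i, (∫⁻ z, N i {y | s < bra y} z) ^ (1 / (n : ℝ)) := by
  have hSm : MeasurableSet {y : E (n + 1) | s < bra y} :=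
    measurableSet_lt measurable_const measurable_bra
  refine iso_core hn q Q hQq _ hSm _ (fun i => hN i _ hSm) ?_
  intro i
  filter_upwards [iso_ae i (hcross i), iso_ae i (hfar i)] with y hy ⟨R, hR⟩ hyS
  set z : E n := fun j => y (i.succAbove j) with hz
  -- monotonicity of `bra` in `|y i|`
  have hmono : ∀ τ : ℝ, |y i| ≤ |τ| → s < bra (i.insertNth (α := fun _ => ℝ) τ z) := by
    intro τ hτ
    refine lt_of_lt_of_le hyS ?_
    unfold bra
    apply Real.sqrt_le_sqrt
    rw [Fin.sum_univ_succAbove _ i, Fin.sum_univ_succAbove _ i]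
    simp only [Fin.insertNth_apply_same, Fin.insertNth_apply_succAbove]
    have := sq_le_sq.2 hτ
    linarith
  obtain ⟨t, ht1, ht2⟩ : ∃ t : ℝ, R ≤ |t| ∧ ∀ τ ∈ uIcc (y i) t, |y i| ≤ |τ| := by
    rcases le_total 0 (y i) with h0 | h0
    · refine ⟨max (y i) R, (le_max_right _ _).trans (le_abs_self _), fun τ hτ => ?_⟩
      rw [uIcc_of_le (le_max_left _ _)] at hτ
      rw [abs_of_nonneg h0]
      exact hτ.1.trans (le_abs_self _)
    · refine ⟨min (y i) (-R), ?_, fun τ hτ => ?_⟩
      · refine le_trans ?_ (neg_le_abs _)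
        have := min_le_right (y i) (-R)
        linarith
      · rw [uIcc_of_ge (min_le_left _ _)] at hτ
        rw [abs_of_nonpos h0]
        exact (neg_le_neg hτ.2).trans (neg_le_abs _)
  have h1 := hy (y i) t {y | s < bra y} (fun τ hτ => hmono τ (ht2 τ hτ))
  rw [iso_insertNth_self, hR t ht1] at h1
  simpa using h1

end Pool.Agent.Lib.HSys
end

section

/-!
# The null Lagrangian `det Dv`
-/

set_option autoImplicit false
open MeasureTheory Set Filter Topology
open scoped ENNReal Matrix NNReal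

namespace Pool.Agent.Lib.HSys

open Polynomial in
/-- the top coefficient of `t ↦ det (1 + t A)` by finite differences -/
theorem nullLag_diff {n : ℕ} (A : Matrix (Fin n) (Fin n) ℝ) (h : ℝ) :
    ∑ k ∈ Finset.range (n + 1), ((-1 : ℤ) ^ (n - k) * n.choose k) •
      (1 + ((k : ℝ) * h) • A).det = (n.factorial : ℝ) * (h ^ n * A.det) := by
  set P : ℝ[X] := Matrix.det ((X : ℝ[X]) • (h • A).map C +
    (1 : Matrix (Fin n) (Fin n) ℝ).map C) with hP
  have hdeg : P.natDegree ≤ n := by
    have := natDegree_det_X_add_C_le (h • A) (1 : Matrix (Fin n) (Fin n) ℝ)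
    rwa [Fintype.card_fin] at this
  have hcoeff : P.coeff n = h ^ n * A.det := by
    have := coeff_det_X_add_C_card (h • A) (1 : Matrix (Fin n) (Fin n) ℝ)
    rw [Fintype.card_fin, Matrix.det_smul, Fintype.card_fin] at this
    exact this
  have heval : ∀ t : ℝ, P.eval t = (1 + (t * h) • A).det := by
    intro t
    have h1 := (Polynomial.evalRingHom t).map_det ((X : ℝ[X]) • (h • A).map C +
      (1 : Matrix (Fin n) (Fin n) ℝ).map C)
    rw [Polynomial.coe_evalRingHom] at h1
    rw [hP, h1]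
    congr 1
    ext i j
    simp only [RingHom.mapMatrix_apply, Matrix.map_apply, Matrix.add_apply, Matrix.smul_apply,
      smul_eq_mul, coe_evalRingHom, eval_add, eval_mul, eval_X, eval_C]
    ring
  have hdiff : (fwdDiff (1 : ℝ))^[n] P.eval 0 = (n.factorial : ℝ) * P.coeff n := by
    rcases hdeg.lt_or_eq with hlt | heq
    · rw [Polynomial.fwdDiff_iter_eq_zero_of_degree_lt hlt,
        Polynomial.coeff_eq_zero_of_natDegree_lt hlt]
      simp
    · have h2 := Polynomial.fwdDiff_iter_degree_eq_factorial P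
      rw [heq] at h2
      rw [h2, Polynomial.leadingCoeff, heq]
      simp [mul_comm]
  rw [fwdDiff_iter_eq_sum_shift, hcoeff] at hdiff
  rw [← hdiff]
  refine Finset.sum_congr rfl fun k _ => ?_
  rw [heval]
  simp

theorem nullLag_ball {n : ℕ} (v : E n → E n) (hv : ContDiff ℝ 1 v) {C : ℝ≥0}
    (hL : LipschitzWith C v) {R : ℝ} (hR : ∀ x, x ∉ Metric.closedBall (0 : E n) R → v x = 0)
    {t : ℝ} (ht : |t| * C < 1) :
    ∫ x in Metric.closedBall (0 : E n) R, (1 + t • Jac v x).det =
      (volume (Metric.closedBall (0 : E n) R)).toReal := by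
  set B := Metric.closedBall (0 : E n) R with hB
  set F : E n → E n := fun x => x + t • v x with hF
  have hdv : ∀ x, HasFDerivAt v (fderiv ℝ v x) x := fun x =>
    (hv.differentiable one_ne_zero x).hasFDerivAt
  have hdF : ∀ x, HasFDerivAt F (ContinuousLinearMap.id ℝ (E n) + t • fderiv ℝ v x) x := fun x =>
    (hasFDerivAt_id x).add ((hdv x).const_smul t)
  have hnorm : ∀ x, ‖fderiv ℝ v x‖ ≤ C := fun x => norm_fderiv_le_of_lipschitz ℝ hL
  -- the determinant
  have hdet : ∀ (s : ℝ) x, (ContinuousLinearMap.id ℝ (E n) + s • fderiv ℝ v x).det =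
      (1 + s • Jac v x).det := by
    intro s x
    rw [ContinuousLinearMap.det, ← LinearMap.det_toMatrix']
    congr 1
    ext i j
    simp only [LinearMap.toMatrix'_apply, Matrix.add_apply, Matrix.smul_apply, Matrix.one_apply,
      smul_eq_mul, Jac_apply, ContinuousLinearMap.toLinearMap_add, ContinuousLinearMap.coe_id,
      ContinuousLinearMap.toLinearMap_smul, LinearMap.add_apply, LinearMap.id_apply,
      LinearMap.smul_apply, Pi.add_apply, Pi.smul_apply, ContinuousLinearMap.coe_coe]
    rw [Pi.single_apply]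
  have hne : ∀ (s : ℝ), |s| ≤ |t| → ∀ x, (1 + s • Jac v x).det ≠ 0 := by
    intro s hs x h0
    rw [← hdet] at h0
    have h1 : LinearMap.det (ContinuousLinearMap.id ℝ (E n) + s • fderiv ℝ v x :
        E n →L[ℝ] E n).toLinearMap = 0 := h0
    obtain ⟨y, hy, hy0⟩ := (Submodule.ne_bot_iff _).mp
      (bot_lt_iff_ne_bot.mp (LinearMap.bot_lt_ker_of_det_eq_zero h1))
    rw [LinearMap.mem_ker] at hy
    have h2 : y + s • fderiv ℝ v x y = 0 := hy
    have h3 : y = -(s • fderiv ℝ v x y) := eq_neg_of_add_eq_zero_left h2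
    have h4 : ‖y‖ ≤ |s| * (C * ‖y‖) := by
      calc ‖y‖ = ‖-(s • fderiv ℝ v x y)‖ := congrArg norm h3
        _ = ‖s • fderiv ℝ v x y‖ := norm_neg _
        _ = |s| * ‖fderiv ℝ v x y‖ := by rw [norm_smul, Real.norm_eq_abs]
        _ ≤ |s| * (C * ‖y‖) := by
          refine mul_le_mul_of_nonneg_left ?_ (abs_nonneg _)
          exact (ContinuousLinearMap.le_opNorm _ _).trans
            (mul_le_mul_of_nonneg_right (hnorm x) (norm_nonneg _))
    have h5 : 0 < ‖y‖ := norm_pos_iff.mpr hy0
    have h6 : |s| * C < 1 := lt_of_le_of_lt (mul_le_mul_of_nonneg_right hs C.coe_nonneg) ht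
    nlinarith
  have hpos : ∀ x, 0 < (1 + t • Jac v x).det := by
    intro x
    by_contra hcon
    push Not at hcon
    have hcont : ContinuousOn (fun s : ℝ => (1 + (s * t) • Jac v x).det) (Icc 0 1) := by
      apply Continuous.continuousOn
      exact Continuous.matrix_det (by fun_prop)
    have h0 : (0 : ℝ) ∈ Icc ((fun s : ℝ => (1 + (s * t) • Jac v x).det) 1)
        ((fun s : ℝ => (1 + (s * t) • Jac v x).det) 0) := by
      constructor
      · simpa using hcon
      · simp
    obtain ⟨s, hs, hs0⟩ := intermediate_value_Icc' zero_le_one hcont h0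
    refine hne (s * t) ?_ x hs0
    rw [abs_mul]
    have : |s| ≤ 1 := abs_le.mpr ⟨by linarith [hs.1], hs.2⟩
    calc |s| * |t| ≤ 1 * |t| := mul_le_mul_of_nonneg_right this (abs_nonneg _)
      _ = |t| := one_mul _
  -- `F` is a bijection of `B`
  have hinj : Function.Injective F := by
    intro x y hxy
    have h1 : x - y = t • (v y - v x) := by
      have : x + t • v x = y + t • v y := hxy
      rw [smul_sub]
      rw [sub_eq_sub_iff_add_eq_add, this, add_comm]
    have h2 : ‖x - y‖ ≤ |t| * C * ‖x - y‖ := by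
      calc ‖x - y‖ = |t| * ‖v y - v x‖ := by rw [h1, norm_smul, Real.norm_eq_abs]
        _ ≤ |t| * (C * ‖y - x‖) := mul_le_mul_of_nonneg_left
            (by simpa [dist_eq_norm] using hL.dist_le_mul y x) (abs_nonneg _)
        _ = |t| * C * ‖x - y‖ := by rw [norm_sub_rev y x, mul_assoc]
    by_contra hne'
    have h3 : 0 < ‖x - y‖ := norm_pos_iff.mpr (sub_ne_zero.mpr hne')
    nlinarith
  have hout : ∀ x, x ∉ B → F x = x := by
    intro x hx
    show x + t • v x = x
    rw [hR x hx, smul_zero, add_zero]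
  have hsurj : Function.Surjective F := by
    intro y
    have hK : ((‖t‖₊ * C : ℝ≥0)) < 1 := by
      rw [← NNReal.coe_lt_coe]
      push_cast
      simpa using ht
    have hLip : LipschitzWith (‖t‖₊ * C) (fun x => y - t • v x) := by
      refine LipschitzWith.of_dist_le_mul fun x x' => ?_
      rw [dist_eq_norm, dist_eq_norm]
      have : y - t • v x - (y - t • v x') = t • (v x' - v x) := by
        rw [smul_sub]; abel
      rw [this, norm_smul]
      push_cast
      rw [mul_assoc]
      refine mul_le_mul_of_nonneg_left ?_ (norm_nonneg _)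
      have := hL.dist_le_mul x' x
      rw [dist_eq_norm, dist_eq_norm] at this
      rwa [norm_sub_rev x x']
    have hcw : ContractingWith (‖t‖₊ * C) (fun x => y - t • v x) := ⟨hK, hLip⟩
    refine ⟨hcw.fixedPoint, ?_⟩
    have h1 : y - t • v hcw.fixedPoint = hcw.fixedPoint := hcw.fixedPoint_isFixedPt
    show hcw.fixedPoint + t • v hcw.fixedPoint = y
    nth_rewrite 1 [← h1]
    abel
  have himg : F '' B = B := by
    apply Subset.antisymm
    · rintro _ ⟨x, hx, rfl⟩
      by_contra hcon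
      have h1 : F (F x) = F x := hout _ hcon
      have h2 := hinj h1
      rw [h2] at hcon
      exact hcon hx
    · intro y hy
      obtain ⟨x, rfl⟩ := hsurj y
      by_cases hx : x ∈ B
      · exact ⟨x, hx, rfl⟩
      · rw [hout x hx] at hy
        exact absurd hy hx
  have hmeas : MeasurableSet B := Metric.isClosed_closedBall.measurableSet
  have hch := lintegral_abs_det_fderiv_eq_addHaar_image volume hmeas
    (fun x _ => (hdF x).hasFDerivWithinAt) hinj.injOn
  rw [himg] at hch
  rw [← hch, integral_eq_lintegral_of_nonneg_ae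
    (ae_of_all _ fun x => (hpos x).le)]
  · congr 1
    refine lintegral_congr fun x => ?_
    rw [hdet, abs_of_pos (hpos x)]
  · apply Continuous.aestronglyMeasurable
    exact Continuous.matrix_det (continuous_const.add ((continuous_Jac hv).const_smul t))

/-- II-a -/
theorem null_lagrangian {n : ℕ} (hn : 1 ≤ n) (v : E n → E n) (hv : ContDiff ℝ 1 v)
    (hc : HasCompactSupport v) : ∫ x, (Jac v x).det = 0 := by
  obtain ⟨C, hL⟩ := hv.lipschitzWith_of_hasCompactSupport hc one_ne_zero
  obtain ⟨R, hR⟩ := hc.isCompact.isBounded.subset_closedBall (0 : E n)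
  set B := Metric.closedBall (0 : E n) R with hB
  have hR' : ∀ x, x ∉ B → v x = 0 := by
    intro x hx
    by_contra h0
    exact hx (hR (subset_tsupport _ h0))
  have : Nonempty (Fin n) := ⟨⟨0, hn⟩⟩
  have hzero : ∀ x, x ∉ B → (Jac v x).det = 0 := by
    intro x hx
    have h1 : x ∉ tsupport v := fun h => hx (hR h)
    have h2 : fderiv ℝ v x = 0 := by
      by_contra hne
      exact h1 (support_fderiv_subset ℝ hne)
    have h3 : Jac v x = 0 := by
      ext i j
      rw [Jac_apply, h2]
      rfl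
    rw [h3, Matrix.det_zero]
  rw [← setIntegral_eq_integral_of_forall_compl_eq_zero hzero]
  -- the step
  set h : ℝ := 1 / ((n + 1) * (C + 1)) with hh
  have hCnn : (0 : ℝ) ≤ C := C.coe_nonneg
  have hpos : 0 < h := by positivity
  have hk : ∀ k ∈ Finset.range (n + 1), |(k : ℝ) * h| * C < 1 := by
    intro k hk
    have hk' : (k : ℝ) < n + 1 := by exact_mod_cast Finset.mem_range.mp hk
    rw [abs_of_nonneg (by positivity), hh, mul_one_div, div_mul_eq_mul_div, div_lt_one (by positivity)]
    have : (k : ℝ) * C ≤ (n + 1) * C := mul_le_mul_of_nonneg_right hk'.le hCnn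
    have : 0 ≤ (n : ℝ) := Nat.cast_nonneg n
    nlinarith
  have hint : ∀ t : ℝ, IntegrableOn (fun x => (1 + t • Jac v x).det) B := by
    intro t
    apply ContinuousOn.integrableOn_compact (isCompact_closedBall _ _)
    apply Continuous.continuousOn
    exact Continuous.matrix_det (continuous_const.add ((continuous_Jac hv).const_smul t))
  have h1 : ∫ x in B, ∑ k ∈ Finset.range (n + 1), ((-1 : ℤ) ^ (n - k) * n.choose k) •
      (1 + ((k : ℝ) * h) • Jac v x).det = 0 := by
    rw [integral_finsetSum]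
    · have h2 : ∀ k ∈ Finset.range (n + 1), ∫ x in B, ((-1 : ℤ) ^ (n - k) * n.choose k) •
          (1 + ((k : ℝ) * h) • Jac v x).det =
          (((-1 : ℤ) ^ (n - k) * n.choose k : ℤ) : ℝ) * (volume B).toReal := by
        intro k hk'
        simp only [zsmul_eq_mul]
        rw [integral_const_mul, nullLag_ball v hv hL hR' (hk k hk')]
      rw [Finset.sum_congr rfl h2, ← Finset.sum_mul, ← Int.cast_sum]
      have h3 : ∑ k ∈ Finset.range (n + 1), ((-1 : ℤ) ^ (n - k) * n.choose k) = 0 := by
        rw [← Finset.sum_range_reflect]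
        rw [← Int.alternating_sum_range_choose_of_ne (n := n) (by omega)]
        refine Finset.sum_congr rfl fun k hk' => ?_
        have hk'' : k ≤ n := by
          have := Finset.mem_range.mp hk'
          omega
        have e1 : n + 1 - 1 - k = n - k := by omega
        rw [e1, Nat.choose_symm hk'', Nat.sub_sub_self hk'']
      rw [h3]
      simp
    · intro k _
      simp only [zsmul_eq_mul]
      exact (hint _).const_mul _
  simp only [nullLag_diff] at h1
  rw [integral_const_mul] at h1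
  have h2 := (mul_eq_zero.mp h1).resolve_left (by positivity)
  rw [integral_const_mul] at h2
  exact (mul_eq_zero.mp h2).resolve_left (by positivity)

end Pool.Agent.Lib.HSys
end
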