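import Pool.Agent.Lib.MP_f44734_an.Basic
import Pool.Agent.Lib.MP_f44734_an.NullLag

section

/-!
# The cross product of a matrix with one row replaced by a combination of the rows
-/

set_option autoImplicit false
open MeasureTheory Set Filter Topology
open scoped ENNReal Matrix

namespace Pool.Agent.Lib.HSys

/-- Laplace expansion along the first column -/
theorem crRow_det {n : ℕ} (P : Matrix (Fin (n + 1)) (Fin n) ℝ) (y : Fin (n + 1) → ℝ) :
    (Matrix.of fun k => (Fin.cons (y k) (P k) : Fin (n + 1) → ℝ)).det = ∑ k, y k * cr P k := by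
  rw [Matrix.det_succ_column_zero]
  refine Finset.sum_congr rfl fun k _ => ?_
  have h1 : (Matrix.of fun k => (Fin.cons (y k) (P k) : Fin (n + 1) → ℝ)).submatrix
      k.succAbove Fin.succ = P.submatrix k.succAbove id := by
    ext a b
    simp
  rw [h1, cr, mnr]
  simp
  ring

theorem crRow_swap {n : ℕ} (P : Matrix (Fin (n + 1)) (Fin n) ℝ) {i j : Fin (n + 1)}
    (hij : i ≠ j) : cr (P.updateRow i (P j)) j = - cr P i := by
  have h1 := crRow_det (P.updateRow i (P j)) (fun k => if k = i ∨ k = j then 1 else 0)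
  have h2 : (Matrix.of fun k => (Fin.cons ((fun k => if k = i ∨ k = j then (1 : ℝ) else 0) k)
      (P.updateRow i (P j) k) : Fin (n + 1) → ℝ)).det = 0 := by
    refine Matrix.det_zero_of_row_eq hij ?_
    funext b
    simp only [Matrix.of_apply, true_or, or_true, if_true, Matrix.updateRow_self]
    rw [Matrix.updateRow_ne hij.symm]
  rw [h2, Fintype.sum_eq_add i j hij] at h1
  · simp only [true_or, or_true, if_true, one_mul] at h1
    have h3 : cr (P.updateRow i (P j)) i = cr P i := by
      unfold cr mnr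
      congr 2
      ext a b
      simp only [Matrix.submatrix_apply, id_eq]
      rw [Matrix.updateRow_ne (Fin.succAbove_ne i a)]
    rw [h3] at h1
    linarith
  · rintro k ⟨hk1, hk2⟩
    simp [hk1, hk2]

/-- II-b -/
theorem cr_updateRow {n : ℕ} (P : Matrix (Fin (n + 1)) (Fin n) ℝ) (g : Fin (n + 1) → ℝ)
    {i j : Fin (n + 1)} (hij : i ≠ j) :
    cr (P.updateRow i (fun b => ∑ l, g l * P l b)) j = g i * cr P j - g j * cr P i := by
  obtain ⟨i', rfl⟩ := Fin.exists_succAbove_eq hij
  have hsub : ∀ v : Fin n → ℝ, (P.updateRow (j.succAbove i') v).submatrix j.succAbove id =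
      (P.submatrix j.succAbove id).updateRow i' v := by
    intro v
    ext a b
    simp only [Matrix.submatrix_apply, id_eq]
    by_cases ha : a = i'
    · subst ha
      rw [Matrix.updateRow_self, Matrix.updateRow_self]
    · rw [Matrix.updateRow_ne ha, Matrix.updateRow_ne (fun h => ha (Fin.succAbove_right_injective h))]
      rfl
  have hv : (fun b => ∑ l, g l * P l b) = g j • P j +
      ∑ k, g (j.succAbove k) • (P.submatrix j.succAbove id) k := by
    funext b
    rw [Fin.sum_univ_succAbove _ j]
    simp [Finset.sum_apply]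
  have h1 := crRow_swap P (i := j.succAbove i') (j := j) hij
  unfold cr mnr at h1 ⊢
  rw [hsub] at h1
  rw [hsub, hv, Matrix.det_updateRow_add, Matrix.det_updateRow_smul, Matrix.det_updateRow_sum,
    smul_eq_mul]
  linear_combination g j * h1

end Pool.Agent.Lib.HSys
end

section

set_option autoImplicit false
open MeasureTheory Set Filter Topology
open scoped ENNReal Matrix

namespace Pool.Agent.Lib.HSys

private theorem fourier_cont {m : ℕ} (g : E m → ℝ) (hg : Integrable g) (F : ℝ → ℝ)
    (hF : Continuous F) (hF1 : ∀ t, |F t| ≤ 1) :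
    Continuous fun ξ : E m => ∫ y, g y * F (∑ i, ξ i * y i) := by
  refine continuous_of_dominated (bound := fun y => ‖g y‖) ?_ ?_ hg.norm ?_
  · intro ξ
    refine hg.aestronglyMeasurable.mul ?_
    exact (hF.comp (by fun_prop)).aestronglyMeasurable
  · intro ξ
    refine Eventually.of_forall fun y => ?_
    rw [norm_mul, Real.norm_eq_abs (F _)]
    exact mul_le_of_le_one_right (norm_nonneg _) (hF1 _)
  · refine Eventually.of_forall fun y => ?_
    exact continuous_const.mul (hF.comp (by fun_prop))

private theorem fourier_dense (m : ℕ) : Dense {ξ : E m | ∀ i, ξ i ≠ 0} := by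
  have h := dense_pi (Set.univ : Set (Fin m)) (s := fun _ => ({0}ᶜ : Set ℝ))
    (fun i _ => dense_compl_singleton (0 : ℝ))
  refine h.mono fun ξ hξ i => ?_
  exact hξ i (Set.mem_univ i)

/-- II-e -/
theorem ae_zero_of_fourier {m : ℕ} (g : E m → ℝ) (hg : Integrable g)
    (h : ∀ ξ : E m, (∀ i, ξ i ≠ 0) → (∫ y, g y * Real.cos (∑ i, ξ i * y i) = 0 ∧
      ∫ y, g y * Real.sin (∑ i, ξ i * y i) = 0)) : g =ᵐ[volume] 0 := by
  have hcos : ∀ ξ : E m, ∫ y, g y * Real.cos (∑ i, ξ i * y i) = 0 := by
    have := Continuous.ext_on (fourier_dense m)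
      (fourier_cont g hg Real.cos Real.continuous_cos Real.abs_cos_le_one)
      (continuous_const (y := (0 : ℝ))) (fun ξ hξ => (h ξ hξ).1)
    exact fun ξ => congrFun this ξ
  have hsin : ∀ ξ : E m, ∫ y, g y * Real.sin (∑ i, ξ i * y i) = 0 := by
    have := Continuous.ext_on (fourier_dense m)
      (fourier_cont g hg Real.sin Real.continuous_sin Real.abs_sin_le_one)
      (continuous_const (y := (0 : ℝ))) (fun ξ hξ => (h ξ hξ).2)
    exact fun ξ => congrFun this ξ
  have hgm : AEMeasurable g := hg.aestronglyMeasurable.aemeasurable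
  have hgm' : AEMeasurable (fun y => ENNReal.ofReal (-g y)) := hgm.neg.ennreal_ofReal
  set μ₁ : Measure (E m) := volume.withDensity fun y => ENNReal.ofReal (g y) with hμ₁
  set μ₂ : Measure (E m) := volume.withDensity fun y => ENNReal.ofReal (-g y) with hμ₂
  have hfin₁ : IsFiniteMeasure μ₁ := isFiniteMeasure_withDensity_ofReal hg.2
  have hfin₂ : IsFiniteMeasure μ₂ := isFiniteMeasure_withDensity_ofReal hg.neg.2
  have heq : μ₁ = μ₂ := by
    refine Measure.ext_of_charFunDual (funext fun L => ?_)
    rw [charFunDual_apply, charFunDual_apply, hμ₁, hμ₂,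
      integral_withDensity_eq_integral_toReal_smul₀ hgm.ennreal_ofReal
        (Eventually.of_forall fun _ => ENNReal.ofReal_lt_top),
      integral_withDensity_eq_integral_toReal_smul₀ hgm'
        (Eventually.of_forall fun _ => ENNReal.ofReal_lt_top), ← sub_eq_zero]
    have hLc : Continuous fun y : E m => Complex.exp (((L y : ℝ) : ℂ) * Complex.I) := by
      fun_prop
    have hLn : ∀ y : E m, ‖Complex.exp (((L y : ℝ) : ℂ) * Complex.I)‖ ≤ 1 := fun y => by
      rw [Complex.norm_exp_ofReal_mul_I]
    have hi₁ : Integrable fun y : E m => (ENNReal.ofReal (g y)).toReal •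
        Complex.exp (((L y : ℝ) : ℂ) * Complex.I) := by
      refine Integrable.mono hg ?_ (Eventually.of_forall fun y => ?_)
      · exact (hgm.ennreal_ofReal.ennreal_toReal.aestronglyMeasurable).smul
          hLc.aestronglyMeasurable
      · rw [norm_smul, ENNReal.toReal_ofReal', Real.norm_of_nonneg (le_max_right _ _),
          Real.norm_eq_abs]
        calc max (g y) 0 * ‖Complex.exp (((L y : ℝ) : ℂ) * Complex.I)‖ ≤ max (g y) 0 * 1 :=
              mul_le_mul_of_nonneg_left (hLn y) (le_max_right _ _)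
          _ ≤ |g y| := by
              rw [mul_one]; exact max_le (le_abs_self _) (abs_nonneg _)
    have hi₂ : Integrable fun y : E m => (ENNReal.ofReal (-g y)).toReal •
        Complex.exp (((L y : ℝ) : ℂ) * Complex.I) := by
      refine Integrable.mono hg ?_ (Eventually.of_forall fun y => ?_)
      · exact (hgm'.ennreal_toReal.aestronglyMeasurable).smul
          hLc.aestronglyMeasurable
      · rw [norm_smul, ENNReal.toReal_ofReal', Real.norm_of_nonneg (le_max_right _ _),
          Real.norm_eq_abs]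
        calc max (-g y) 0 * ‖Complex.exp (((L y : ℝ) : ℂ) * Complex.I)‖ ≤ max (-g y) 0 * 1 :=
              mul_le_mul_of_nonneg_left (hLn y) (le_max_right _ _)
          _ ≤ |g y| := by
              rw [mul_one]; exact max_le (neg_le_abs _) (abs_nonneg _)
    rw [← integral_sub hi₁ hi₂]
    have hLy : ∀ y : E m, L y = ∑ i, L (Pi.single i 1) * y i := by
      intro y
      conv_lhs => rw [← Finset.univ_sum_single y]
      rw [map_sum]
      refine Finset.sum_congr rfl fun i _ => ?_
      have h1 : (Pi.single i (y i) : E m) = y i • (Pi.single i (1 : ℝ) : E m) := by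
        rw [← Pi.single_smul, smul_eq_mul, mul_one]
      rw [h1, map_smul, smul_eq_mul, mul_comm]
    have hpt : ∀ y : E m, (ENNReal.ofReal (g y)).toReal •
        Complex.exp (((L y : ℝ) : ℂ) * Complex.I) - (ENNReal.ofReal (-g y)).toReal •
        Complex.exp (((L y : ℝ) : ℂ) * Complex.I) =
        ((g y * Real.cos (∑ i, L (Pi.single i 1) * y i) : ℝ) : ℂ) +
          ((g y * Real.sin (∑ i, L (Pi.single i 1) * y i) : ℝ) : ℂ) * Complex.I := by
      intro y
      rw [← sub_smul, ENNReal.toReal_ofReal', ENNReal.toReal_ofReal', ← hLy y]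
      have h2 : max (g y) 0 - max (-g y) 0 = g y := by
        rcases le_total 0 (g y) with h0 | h0
        · rw [max_eq_left h0, max_eq_right (by linarith)]; ring
        · rw [max_eq_right h0, max_eq_left (by linarith)]; ring
      rw [h2, Complex.exp_mul_I, Complex.real_smul, ← Complex.ofReal_cos, ← Complex.ofReal_sin]
      push_cast
      ring
    simp_rw [hpt]
    have hcosI : Integrable fun y : E m => g y * Real.cos (∑ i, L (Pi.single i 1) * y i) := by
      refine Integrable.mono hg ?_ (Eventually.of_forall fun y => ?_)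
      · exact hg.aestronglyMeasurable.mul
          (Real.continuous_cos.comp (by fun_prop)).aestronglyMeasurable
      · rw [norm_mul, Real.norm_eq_abs (Real.cos _)]
        exact mul_le_of_le_one_right (norm_nonneg _) (Real.abs_cos_le_one _)
    have hsinI : Integrable fun y : E m => g y * Real.sin (∑ i, L (Pi.single i 1) * y i) := by
      refine Integrable.mono hg ?_ (Eventually.of_forall fun y => ?_)
      · exact hg.aestronglyMeasurable.mul
          (Real.continuous_sin.comp (by fun_prop)).aestronglyMeasurable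
      · rw [norm_mul, Real.norm_eq_abs (Real.sin _)]
        exact mul_le_of_le_one_right (norm_nonneg _) (Real.abs_sin_le_one _)
    rw [integral_add hcosI.ofReal (hsinI.ofReal.mul_const _), integral_mul_const,
      integral_complex_ofReal, integral_complex_ofReal, hcos, hsin]
    simp
  have hd := (withDensity_eq_iff_of_sigmaFinite hgm.ennreal_ofReal hgm').1 heq
  filter_upwards [hd] with y hy
  simp only [Pi.zero_apply]
  have hy' : ENNReal.ofReal (g y) = ENNReal.ofReal (-g y) := hy
  rcases le_total 0 (g y) with h0 | h0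
  · rw [ENNReal.ofReal_of_nonpos (by linarith : -g y ≤ 0)] at hy'
    exact le_antisymm (ENNReal.ofReal_eq_zero.1 hy') h0
  · rw [ENNReal.ofReal_of_nonpos h0] at hy'
    have := ENNReal.ofReal_eq_zero.1 hy'.symm
    linarith

end Pool.Agent.Lib.HSys
end

section

/-!
# The curl identity
-/

set_option autoImplicit false
open MeasureTheory Set Filter Topology
open scoped ENNReal Matrix

namespace Pool.Agent.Lib.HSys

/-- II-c -/
theorem curl_identity {n : ℕ} (hn : 1 ≤ n) (w : E n → E (n + 1)) (hw : ContDiff ℝ (⊤ : ℕ∞) w)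
    (hc : HasCompactSupport w) (ψ : E (n + 1) → ℝ) (hψ : ContDiff ℝ (⊤ : ℕ∞) ψ)
    (i j : Fin (n + 1)) :
    ∫ x, (pd ψ i (w x) * cr (Jac w x) j - pd ψ j (w x) * cr (Jac w x) i) = 0 := by
  by_cases hij : i = j
  · subst hij
    simp
  have hw1 : ∀ x, DifferentiableAt ℝ w x := fun x => hw.differentiable (by simp) x
  have hψ1 : ∀ y, DifferentiableAt ℝ ψ y := fun y => hψ.differentiable (by simp) y
  let v : E n → E n := fun x l => if j.succAbove l = i then ψ (w x) - ψ 0 else w x (j.succAbove l)
  have hv : ContDiff ℝ (⊤ : ℕ∞) v := by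
    refine contDiff_pi.mpr fun l => ?_
    by_cases h : j.succAbove l = i
    · simp only [v, if_pos h]
      exact (hψ.comp hw).sub contDiff_const
    · simp only [v, if_neg h]
      exact (contDiff_apply ℝ ℝ (j.succAbove l)).comp hw
  have hvc : HasCompactSupport v := by
    refine hc.mono fun x hx => ?_
    rw [Function.mem_support] at hx ⊢
    intro h0
    apply hx
    funext l
    simp only [v, h0, sub_self, Pi.zero_apply, ite_self]
  have h1 := null_lagrangian hn v (hv.of_le (by exact_mod_cast le_top)) hvc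
  have hjac : ∀ x, Jac v x = ((Jac w x).updateRow i
      (fun b => ∑ l, pd ψ l (w x) * Jac w x l b)).submatrix j.succAbove id := by
    intro x
    ext l b
    have hvx : DifferentiableAt ℝ v x := hv.differentiable (by simp) x
    rw [← pd_component hvx, Matrix.submatrix_apply, id_eq]
    by_cases h : j.succAbove l = i
    · rw [h, Matrix.updateRow_self, ← pd_comp (hψ1 _) (hw1 x)]
      have : (fun x => v x l) = fun x => ψ (w x) - ψ 0 := by
        funext x
        simp only [v, if_pos h]
      rw [this, pd, pd, fderiv_sub_const]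
    · rw [Matrix.updateRow_ne h]
      have : (fun x => v x l) = fun x => w x (j.succAbove l) := by
        funext x
        simp only [v, if_neg h]
      rw [this, pd_component (hw1 x)]
  have hpt : ∀ x, pd ψ i (w x) * cr (Jac w x) j - pd ψ j (w x) * cr (Jac w x) i =
      (-1 : ℝ) ^ (j : ℕ) * (Jac v x).det := by
    intro x
    rw [hjac, ← cr_updateRow (Jac w x) (fun l => pd ψ l (w x)) hij]
    rfl
  simp only [hpt]
  rw [integral_const_mul, h1, mul_zero]

end Pool.Agent.Lib.HSys
end

section

/-!
# MP_f44734_an (H-systems): the counting function in direction `i`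
-/

set_option autoImplicit false
open MeasureTheory Set Filter Topology
open scoped ENNReal Matrix

namespace Pool.Agent.Lib.HSys

namespace CountAux

variable {n : ℕ}

/-- removal of the coordinate `i` -/
def rem (i : Fin (n + 1)) (y : E (n + 1)) : E n := fun j => y (i.succAbove j)

/-- insertion of a coordinate -/
abbrev ins (i : Fin (n + 1)) (t : ℝ) (z : E n) : E (n + 1) :=
  i.insertNth (α := fun _ => ℝ) t z

theorem rem_ins (i : Fin (n + 1)) (t : ℝ) (z : E n) : rem i (ins i t z) = z := by
  funext j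
  simp [rem, ins]

theorem ins_same (i : Fin (n + 1)) (t : ℝ) (z : E n) : ins i t z i = t := by
  simp [ins]

theorem ins_rem (i : Fin (n + 1)) (y : E (n + 1)) : ins i (y i) (rem i y) = y := by
  funext j
  rcases Fin.eq_self_or_eq_succAbove i j with rfl | ⟨k, rfl⟩
  · simp [ins]
  · simp [ins, rem]

theorem measurable_rem (i : Fin (n + 1)) : Measurable (rem (n := n) i) :=
  measurable_pi_lambda _ fun _ => measurable_pi_apply _

theorem continuous_rem (i : Fin (n + 1)) : Continuous (rem (n := n) i) :=
  continuous_pi fun _ => continuous_apply _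

theorem continuous_ins (i : Fin (n + 1)) :
    Continuous fun p : ℝ × E n => ins i p.1 p.2 := by
  apply continuous_pi
  intro j
  rcases Fin.eq_self_or_eq_succAbove i j with rfl | ⟨k, rfl⟩
  · simpa [ins] using continuous_fst
  · have h1 : Continuous fun p : ℝ × E n => p.2 k := (continuous_apply k).comp continuous_snd
    simpa [ins] using h1

theorem measurable_ins (i : Fin (n + 1)) :
    Measurable fun p : ℝ × E n => ins i p.1 p.2 := (continuous_ins i).measurable

theorem mp (i : Fin (n + 1)) :
    MeasurePreserving (fun y : E (n + 1) => (y i, rem i y)) volume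
      ((volume : Measure ℝ).prod (volume : Measure (E n))) :=
  volume_preserving_piFinSuccAbove (fun _ : Fin (n + 1) => ℝ) i

theorem mp_symm (i : Fin (n + 1)) :
    MeasurePreserving (fun p : ℝ × E n => ins i p.1 p.2)
      ((volume : Measure ℝ).prod (volume : Measure (E n))) volume :=
  (volume_preserving_piFinSuccAbove (fun _ : Fin (n + 1) => ℝ) i).symm

theorem ae_rem (i : Fin (n + 1)) {p : E n → Prop} (h : ∀ᵐ z, p z) :
    ∀ᵐ y : E (n + 1), p (rem i y) := by
  have h1 : Measure.QuasiMeasurePreserving (fun y : E (n + 1) => rem i y) volume volume := by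
    have h2 := (Measure.quasiMeasurePreserving_snd (μ := (volume : Measure ℝ))
      (ν := (volume : Measure (E n)))).comp (mp (n := n) i).quasiMeasurePreserving
    exact h2
  exact h1.ae h

theorem lintegral_split (i : Fin (n + 1)) {f : E (n + 1) → ℝ≥0∞} (hf : Measurable f) :
    ∫⁻ y, f y = ∫⁻ z : E n, ∫⁻ t : ℝ, f (ins i t z) := by
  rw [← (mp_symm (n := n) i).lintegral_comp hf, lintegral_prod_symm]
  exact (hf.comp (measurable_ins i)).aemeasurable

theorem integral_split (i : Fin (n + 1)) {f : E (n + 1) → ℝ} (hf : Integrable f) :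
    ∫ y, f y = ∫ z : E n, ∫ t : ℝ, f (ins i t z) := by
  have h1 : ∫ y, f y = ∫ p : ℝ × E n, f (ins i p.1 p.2) ∂((volume : Measure ℝ).prod volume) := by
    exact ((volume_preserving_piFinSuccAbove (fun _ : Fin (n + 1) => ℝ) i).symm.integral_comp
      (MeasurableEquiv.measurableEmbedding _) f).symm
  rw [h1, integral_prod_symm]
  exact ((mp_symm i).integrable_comp_emb
    (MeasurableEquiv.measurableEmbedding
      (MeasurableEquiv.piFinSuccAbove (fun _ : Fin (n + 1) => ℝ) i).symm)).mpr hf


/-! ### the counting function -/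

/-- the set of points lying in finitely many of the sets `S k` -/
def good (S : ℕ → Set (E n)) : Set (E n) := {z | {k | z ∈ S k}.Finite}

theorem measurable_good {S : ℕ → Set (E n)} (hS : ∀ k, MeasurableSet (S k)) :
    MeasurableSet (good S) := by
  have h1 : good S = (limsup S atTop)ᶜ := by
    ext z
    rw [mem_compl_iff, Filter.mem_limsup_iff_frequently_mem, Nat.frequently_atTop_iff_infinite]
    exact not_not.symm
  rw [h1]
  exact (MeasurableSet.measurableSet_limsup hS).compl

theorem ae_good {S : ℕ → Set (E n)} (hV : ∑' k, volume (S k) ≠ ∞) :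
    ∀ᵐ z : E n, z ∈ good S := ae_finite_setOfPred_mem hV

theorem mem_fin {S : ℕ → Set (E n)} {z : E n} (hz : z ∈ good S) {k : ℕ} :
    k ∈ Set.Finite.toFinset hz ↔ z ∈ S k := Set.Finite.mem_toFinset _

open Classical in
/-- the terms of the counting function -/
noncomputable def term (S : ℕ → Set (E n)) (h : ℕ → E n → ℝ) (s : ℕ → ℤ) (z : E n) (t : ℝ)
    (k : ℕ) : ℤ := if z ∈ good S ∧ z ∈ S k ∧ t < h k z then s k else 0

/-- the counting function -/
noncomputable def cnt (S : ℕ → Set (E n)) (h : ℕ → E n → ℝ) (s : ℕ → ℤ) (z : E n) (t : ℝ) : ℤ :=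
  ∑' k, term S h s z t k

theorem term_support {S : ℕ → Set (E n)} {h : ℕ → E n → ℝ} {s : ℕ → ℤ} {z : E n} {t : ℝ} :
    (Function.support (term S h s z t)).Finite := by
  by_cases hz : z ∈ good S
  · refine Set.Finite.subset hz fun k hk => ?_
    by_contra hk2
    apply hk
    simp only [Set.mem_ofPred_eq] at hk2
    simp [term, hk2]
  · have : Function.support (term S h s z t) = ∅ := by
      rw [Function.support_eq_empty_iff]
      funext k
      simp [term, hz]
    rw [this]
    exact Set.finite_empty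

theorem cnt_tendsto (S : ℕ → Set (E n)) (h : ℕ → E n → ℝ) (s : ℕ → ℤ) (z : E n) (t : ℝ) :
    Tendsto (fun N => ∑ k ∈ Finset.range N, term S h s z t k) atTop (𝓝 (cnt S h s z t)) :=
  (summable_of_hasFiniteSupport term_support).hasSum.tendsto_sum_nat

theorem cnt_of_not_good {S : ℕ → Set (E n)} {h : ℕ → E n → ℝ} {s : ℕ → ℤ} {z : E n} {t : ℝ}
    (hz : z ∉ good S) : cnt S h s z t = 0 := by
  simp [cnt, term, hz]

open Classical in
theorem cnt_eq {S : ℕ → Set (E n)} {h : ℕ → E n → ℝ} {s : ℕ → ℤ} {z : E n} {t : ℝ}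
    (hz : z ∈ good S) : cnt S h s z t =
      ∑ k ∈ Set.Finite.toFinset hz, if t < h k z then s k else 0 := by
  rw [cnt, tsum_eq_sum (s := Set.Finite.toFinset hz)]
  · apply Finset.sum_congr rfl
    intro k hk
    have hk2 : z ∈ S k := (mem_fin hz).mp hk
    simp [term, hz, hk2]
  · intro k hk
    have hk2 : z ∉ S k := fun h3 => hk ((mem_fin hz).mpr h3)
    simp [term, hk2]

/-- the function `q` on the space -/
noncomputable def qf (i : Fin (n + 1)) (S : ℕ → Set (E n)) (h : ℕ → E n → ℝ) (s : ℕ → ℤ)
    (y : E (n + 1)) : ℤ := cnt S h s (rem i y) (y i)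

theorem qf_ins (i : Fin (n + 1)) (S : ℕ → Set (E n)) (h : ℕ → E n → ℝ) (s : ℕ → ℤ) (t : ℝ)
    (z : E n) : qf i S h s (ins i t z) = cnt S h s z t := by
  rw [qf, rem_ins, ins_same]

theorem measurableSet_term (i : Fin (n + 1)) {S : ℕ → Set (E n)} {h : ℕ → E n → ℝ}
    (hS : ∀ k, MeasurableSet (S k)) (hh : ∀ k, Measurable (h k)) (k : ℕ) :
    MeasurableSet {y : E (n + 1) | rem i y ∈ good S ∧ rem i y ∈ S k ∧ y i < h k (rem i y)} := by
  refine MeasurableSet.inter ?_ (MeasurableSet.inter ?_ ?_)
  · exact (measurable_rem i) (measurable_good hS)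
  · exact (measurable_rem i) (hS k)
  · exact measurableSet_lt (measurable_pi_apply i) ((hh k).comp (measurable_rem i))

theorem measurable_qf (i : Fin (n + 1)) {S : ℕ → Set (E n)} {h : ℕ → E n → ℝ} {s : ℕ → ℤ}
    (hS : ∀ k, MeasurableSet (S k)) (hh : ∀ k, Measurable (h k)) :
    Measurable (qf i S h s) := by
  classical
  refine measurable_of_tendsto_metrizable (f := fun N (y : E (n + 1)) =>
    ∑ k ∈ Finset.range N, term S h s (rem i y) (y i) k) ?_ ?_
  · intro N
    refine Finset.measurable_sum _ fun k _ => ?_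
    exact Measurable.ite (measurableSet_term i hS hh k) measurable_const measurable_const
  · rw [tendsto_pi_nhds]
    intro y
    exact cnt_tendsto S h s (rem i y) (y i)

/-- bound of the jump -/
theorem cnt_sub_le {S : ℕ → Set (E n)} {h : ℕ → E n → ℝ} {s : ℕ → ℤ} (hs : ∀ k, |s k| ≤ 1)
    (i : Fin (n + 1)) {z : E n} (hz : z ∈ good S) {a b : ℝ} {A : Set (E (n + 1))}
    (hA : ∀ τ ∈ Set.uIcc a b, ins i τ z ∈ A) :
    ENNReal.ofReal |(cnt S h s z a : ℝ) - cnt S h s z b| ≤
      ∑' k, (S k).indicator (fun z => A.indicator (fun _ => (1 : ℝ≥0∞)) (ins i (h k z) z)) z := by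
  classical
  rw [cnt_eq hz, cnt_eq hz]
  push_cast
  rw [← Finset.sum_sub_distrib]
  have h1 : |∑ k ∈ Set.Finite.toFinset hz, ((((if a < h k z then s k else 0) : ℤ) : ℝ) -
      (((if b < h k z then s k else 0) : ℤ) : ℝ))| ≤ ∑ k ∈ Set.Finite.toFinset hz,
        (if ins i (h k z) z ∈ A then (1 : ℝ) else 0) := by
    refine (Finset.abs_sum_le_sum_abs _ _).trans (Finset.sum_le_sum fun k _ => ?_)
    have hsk : |(s k : ℝ)| ≤ 1 := by exact_mod_cast hs k
    by_cases hk : ins i (h k z) z ∈ A
    · rw [if_pos hk]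
      split_ifs <;> simp [hsk]
    · rw [if_neg hk]
      have h2 : h k z ∉ Set.uIcc a b := fun h3 => hk (hA _ h3)
      rw [Set.mem_uIcc] at h2
      push Not at h2
      by_cases h3 : a < h k z
      · have h4 : b < h k z := by
          by_contra h5
          exact absurd (h2.1 h3.le) (by linarith [not_lt.mp h5])
        simp [h3, h4]
      · have h4 : ¬ b < h k z := by
          intro h5
          exact absurd (h2.2 h5.le) (by linarith [not_lt.mp h3])
        simp [h3, h4]
  calc _ ≤ ENNReal.ofReal (∑ k ∈ Set.Finite.toFinset hz,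
        (if ins i (h k z) z ∈ A then (1 : ℝ) else 0)) := ENNReal.ofReal_le_ofReal (by
          push_cast at h1
          exact h1)
    _ = ∑ k ∈ Set.Finite.toFinset hz, ENNReal.ofReal
        (if ins i (h k z) z ∈ A then (1 : ℝ) else 0) := by
          rw [ENNReal.ofReal_sum_of_nonneg]
          intro k _
          split_ifs <;> norm_num
    _ = ∑ k ∈ Set.Finite.toFinset hz, (S k).indicator
        (fun z => A.indicator (fun _ => (1 : ℝ≥0∞)) (ins i (h k z) z)) z := by
          apply Finset.sum_congr rfl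
          intro k hk
          have hk2 : z ∈ S k := (mem_fin hz).mp hk
          rw [Set.indicator_of_mem hk2]
          by_cases hk : ins i (h k z) z ∈ A
          · simp [hk]
          · simp [hk]
    _ ≤ _ := ENNReal.sum_le_tsum _


/-! ### analytic part -/

/-- the data coming from the graph decomposition -/
structure Dat (S : ℕ → Set (E n)) (h : ℕ → E n → ℝ) (σ : ℕ → ℝ) (R : ℝ) : Prop where
  hS : ∀ k, MeasurableSet (S k)
  hh : ∀ k, Measurable (h k)
  hσ : ∀ k, σ k = 1 ∨ σ k = -1
  hV : ∑' k, volume (S k) ≠ ∞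
  R0 : 0 < R
  bh : ∀ k, ∀ z ∈ S k, |h k z| < R
  bz : ∀ k, ∀ z ∈ S k, ∀ l, |z l| < R

/-- the total sign -/
noncomputable def Dg (S : ℕ → Set (E n)) (σ : ℕ → ℝ) (z : E n) : ℝ :=
  ∑' k, (S k).indicator (fun _ => σ k) z

theorem Dg_eq {S : ℕ → Set (E n)} {σ : ℕ → ℝ} {z : E n} (hz : z ∈ good S) :
    Dg S σ z = ∑ k ∈ Set.Finite.toFinset hz, σ k := by
  rw [Dg, tsum_eq_sum (s := Set.Finite.toFinset hz)]
  · apply Finset.sum_congr rfl
    intro k hk
    rw [Set.indicator_of_mem ((mem_fin hz).mp hk)]
  · intro k hk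
    rw [Set.indicator_of_notMem (fun h3 => hk ((mem_fin hz).mpr h3))]

section dat

variable {S : ℕ → Set (E n)} {h : ℕ → E n → ℝ} {σ : ℕ → ℝ} {R : ℝ}

theorem Dat.abs_σ (hd : Dat S h σ R) (k : ℕ) : |σ k| = 1 := by
  rcases hd.hσ k with h1 | h1 <;> simp [h1]

theorem Dat.ne_top (hd : Dat S h σ R) (k : ℕ) : volume (S k) ≠ ∞ :=
  ENNReal.ne_top_of_tsum_ne_top hd.hV k

theorem Dat.summable (hd : Dat S h σ R) : Summable fun k => (volume (S k)).toReal :=
  ENNReal.summable_toReal hd.hV

theorem Dat.integrable_ind (hd : Dat S h σ R) {φ : E n → ℝ} (hφ : Measurable φ) {B : ℝ}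
    (hB : ∀ k, ∀ z ∈ S k, |φ z| ≤ B) (k : ℕ) : IntegrableOn φ (S k) := by
  refine Measure.integrableOn_of_bounded (M := B) (hd.ne_top k) hφ.aestronglyMeasurable ?_
  exact (ae_restrict_iff' (hd.hS k)).mpr (Filter.Eventually.of_forall fun z hz => by
    rw [Real.norm_eq_abs]; exact hB k z hz)

theorem Dat.hasSum_D (hd : Dat S h σ R) {φ : E n → ℝ} (hφ : Measurable φ) {B : ℝ}
    (hB : ∀ k, ∀ z ∈ S k, |φ z| ≤ B) :
    HasSum (fun k => σ k * ∫ z in S k, φ z) (∫ z, Dg S σ z * φ z) := by
  have h1 : ∀ k, Integrable (fun z => (S k).indicator (fun z => σ k * φ z) z) := by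
    intro k
    rw [integrable_indicator_iff (hd.hS k)]
    exact (hd.integrable_ind hφ hB k).const_mul _
  have h2 : Summable fun k => ∫ z, ‖(S k).indicator (fun z => σ k * φ z) z‖ := by
    refine Summable.of_nonneg_of_le (fun k => integral_nonneg fun _ => norm_nonneg _)
      (fun k => ?_) (hd.summable.mul_left B)
    have h3 : ∀ z, ‖(S k).indicator (fun z => σ k * φ z) z‖ =
        (S k).indicator (fun z => |φ z|) z := by
      intro z
      by_cases hz : z ∈ S k
      · rw [Set.indicator_of_mem hz, Set.indicator_of_mem hz, Real.norm_eq_abs, abs_mul,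
          hd.abs_σ, one_mul]
      · rw [Set.indicator_of_notMem hz, Set.indicator_of_notMem hz, norm_zero]
    rw [integral_congr_ae (Filter.Eventually.of_forall h3), integral_indicator (hd.hS k)]
    calc ∫ z in S k, |φ z| ≤ ∫ z in S k, B := by
          apply setIntegral_mono_on
          · exact (hd.integrable_ind hφ hB k).abs
          · exact integrableOn_const (hd.ne_top k)
          · exact hd.hS k
          · exact hB k
      _ = B * (volume (S k)).toReal := by
          rw [setIntegral_const, smul_eq_mul, mul_comm]; rfl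
  have h3 := hasSum_integral_of_summable_integral_norm h1 h2
  have h4 : ∀ k, ∫ z, (S k).indicator (fun z => σ k * φ z) z = σ k * ∫ z in S k, φ z := by
    intro k
    rw [integral_indicator (hd.hS k), integral_const_mul]
  have h5 : ∀ z, ∑' k, (S k).indicator (fun z => σ k * φ z) z = Dg S σ z * φ z := by
    intro z
    rw [Dg, ← tsum_mul_right]
    apply tsum_congr
    intro k
    by_cases hz : z ∈ S k
    · rw [Set.indicator_of_mem hz, Set.indicator_of_mem hz]
    · rw [Set.indicator_of_notMem hz, Set.indicator_of_notMem hz, zero_mul]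
  simpa only [h4, h5] using h3

theorem Dat.integrable_D (hd : Dat S h σ R) : Integrable (Dg S σ) := by
  have hm : AEStronglyMeasurable (Dg S σ) := by
    refine aestronglyMeasurable_of_tendsto_ae atTop (f := fun N (z : E n) =>
      ∑ k ∈ Finset.range N, (S k).indicator (fun _ => σ k) z) ?_ ?_
    · intro N
      exact (Finset.measurable_sum _ fun k _ =>
        measurable_const.indicator (hd.hS k)).aestronglyMeasurable
    · filter_upwards [ae_good hd.hV] with z hz
      have h1 : Summable fun k => (S k).indicator (fun _ => σ k) z := by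
        apply summable_of_ne_finset_zero (s := Set.Finite.toFinset hz)
        intro k hk
        rw [Set.indicator_of_notMem (fun h3 => hk ((mem_fin hz).mpr h3))]
      exact h1.hasSum.tendsto_sum_nat
  refine ⟨hm, ?_⟩
  rw [hasFiniteIntegral_iff_enorm]
  calc ∫⁻ z, ‖Dg S σ z‖ₑ ≤ ∫⁻ z, ∑' k, (S k).indicator (fun _ => (1 : ℝ≥0∞)) z := by
        apply lintegral_mono_ae
        filter_upwards [ae_good hd.hV] with z hz
        rw [Dg_eq hz]
        calc ‖∑ k ∈ Set.Finite.toFinset hz, σ k‖ₑ ≤ ∑ k ∈ Set.Finite.toFinset hz, ‖σ k‖ₑ :=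
              enorm_sum_le _ _
          _ = ∑ k ∈ Set.Finite.toFinset hz, (S k).indicator (fun _ => (1 : ℝ≥0∞)) z := by
              apply Finset.sum_congr rfl
              intro k hk
              rw [Set.indicator_of_mem ((mem_fin hz).mp hk), Real.enorm_eq_ofReal_abs, hd.abs_σ,
                ENNReal.ofReal_one]
          _ ≤ _ := ENNReal.sum_le_tsum _
    _ = ∑' k, volume (S k) := by
        rw [lintegral_tsum]
        · apply tsum_congr
          intro k
          rw [lintegral_indicator (hd.hS k)]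
          simp
        · intro k
          exact (measurable_const.indicator (hd.hS k)).aemeasurable
    _ < ∞ := lt_top_iff_ne_top.mpr hd.hV

/-- integer signs -/
noncomputable def sg (i : Fin (n + 1)) (σ : ℕ → ℝ) (k : ℕ) : ℤ :=
  open Classical in if σ k = 1 then (-1) ^ (i : ℕ) else -(-1) ^ (i : ℕ)

theorem Dat.sg_cast (hd : Dat S h σ R) (i : Fin (n + 1)) (k : ℕ) :
    (sg i σ k : ℝ) = (-1) ^ (i : ℕ) * σ k := by
  classical
  rcases hd.hσ k with h1 | h1
  · simp [sg, h1]
  · have h2 : ¬ (-1 : ℝ) = 1 := by norm_num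
    simp [sg, h1, h2]

theorem sg_abs (i : Fin (n + 1)) (k : ℕ) : |sg i σ k| ≤ 1 := by
  classical
  unfold sg
  split_ifs
  · rw [abs_pow]; simp
  · rw [abs_neg, abs_pow]; simp

theorem Dat.cnt_right (hd : Dat S h σ R) {s : ℕ → ℤ} {z : E n} {t : ℝ} (ht : R ≤ t) :
    cnt S h s z t = 0 := by
  classical
  by_cases hz : z ∈ good S
  · rw [cnt_eq hz]
    apply Finset.sum_eq_zero
    intro k hk
    have h1 := (abs_lt.mp (hd.bh k z ((mem_fin hz).mp hk))).2
    rw [if_neg (by linarith)]
  · exact cnt_of_not_good hz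

theorem Dat.cnt_left (hd : Dat S h σ R) {i : Fin (n + 1)} {z : E n} {t : ℝ} (ht : t ≤ -R)
    (hz : z ∈ good S) (hD : Dg S σ z = 0) : cnt S h (sg i σ) z t = 0 := by
  classical
  rw [cnt_eq hz]
  have h1 : (∑ k ∈ Set.Finite.toFinset hz, if t < h k z then sg i σ k else 0) =
      ∑ k ∈ Set.Finite.toFinset hz, sg i σ k := by
    apply Finset.sum_congr rfl
    intro k hk
    have h1 := (abs_lt.mp (hd.bh k z ((mem_fin hz).mp hk))).1
    rw [if_pos (by linarith)]
  rw [h1]
  have h2 : ((∑ k ∈ Set.Finite.toFinset hz, sg i σ k : ℤ) : ℝ) = 0 := by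
    push_cast
    simp only [hd.sg_cast]
    rw [← Finset.mul_sum, ← Dg_eq hz, hD, mul_zero]
  exact_mod_cast h2

theorem Dat.cnt_side (hd : Dat S h σ R) {s : ℕ → ℤ} {z : E n} {t : ℝ} {l : Fin n}
    (hl : R ≤ |z l|) : cnt S h s z t = 0 := by
  classical
  by_cases hz : z ∈ good S
  · rw [cnt_eq hz]
    apply Finset.sum_eq_zero
    intro k hk
    have h1 := hd.bz k z ((mem_fin hz).mp hk) l
    exact absurd h1 (not_lt.mpr hl)
  · exact cnt_of_not_good hz

/-- the boxes over `S k` -/
def box (i : Fin (n + 1)) (S : ℕ → Set (E n)) (R : ℝ) (k : ℕ) : Set (E (n + 1)) :=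
  {y | y i ∈ Ioo (-R) R ∧ rem i y ∈ S k}

theorem Dat.measurable_box (hd : Dat S h σ R) (i : Fin (n + 1)) (k : ℕ) :
    MeasurableSet (box i S R k) :=
  ((measurable_pi_apply i) measurableSet_Ioo).inter ((measurable_rem i) (hd.hS k))

theorem Dat.volume_box (hd : Dat S h σ R) (i : Fin (n + 1)) (k : ℕ) :
    volume (box i S R k) = ENNReal.ofReal (2 * R) * volume (S k) := by
  have h1 := (mp (n := n) i).measure_preimage
    (s := Ioo (-R) R ×ˢ S k) (measurableSet_Ioo.prod (hd.hS k)).nullMeasurableSet
  rw [Measure.prod_prod, Real.volume_Ioo] at h1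
  rw [show (2 * R) = R - -R by ring, ← h1]
  rfl

theorem Dat.tsum_box (hd : Dat S h σ R) (i : Fin (n + 1)) :
    ∑' k, volume (box i S R k) ≠ ∞ := by
  simp only [hd.volume_box]
  rw [ENNReal.tsum_mul_left]
  exact ENNReal.mul_ne_top ENNReal.ofReal_ne_top hd.hV

theorem Dat.integrable_q (hd : Dat S h σ R) (i : Fin (n + 1))
    (hD : ∀ᵐ z, Dg S σ z = 0) : Integrable fun y => (qf i S h (sg i σ) y : ℝ) := by
  classical
  have hm : Measurable fun y => (qf i S h (sg i σ) y : ℝ) :=
    measurable_from_top.comp (measurable_qf i hd.hS hd.hh)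
  refine ⟨hm.aestronglyMeasurable, ?_⟩
  rw [hasFiniteIntegral_iff_enorm]
  calc ∫⁻ y, ‖(qf i S h (sg i σ) y : ℝ)‖ₑ
      ≤ ∫⁻ y, ∑' k, (box i S R k).indicator (fun _ => (1 : ℝ≥0∞)) y := by
        apply lintegral_mono_ae
        filter_upwards [ae_rem i (ae_good hd.hV), ae_rem i hD] with y hz hD
        by_cases h1 : R ≤ y i
        · rw [qf, hd.cnt_right h1]; simp
        by_cases h2 : y i ≤ -R
        · rw [qf, hd.cnt_left h2 hz hD]; simp
        push Not at h1 h2
        rw [qf, cnt_eq hz, Int.cast_sum]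
        calc ‖∑ k ∈ Set.Finite.toFinset hz,
              (((if y i < h k (rem i y) then sg i σ k else 0 : ℤ)) : ℝ)‖ₑ
            ≤ ∑ k ∈ Set.Finite.toFinset hz,
              ‖(((if y i < h k (rem i y) then sg i σ k else 0 : ℤ)) : ℝ)‖ₑ := enorm_sum_le _ _
          _ ≤ ∑ k ∈ Set.Finite.toFinset hz, (box i S R k).indicator (fun _ => (1 : ℝ≥0∞)) y := by
              apply Finset.sum_le_sum
              intro k hk
              have h3 : y ∈ box i S R k := ⟨⟨h2, h1⟩, (mem_fin hz).mp hk⟩
              rw [Set.indicator_of_mem h3, Real.enorm_eq_ofReal_abs]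
              have h4 : |(((if y i < h k (rem i y) then sg i σ k else 0 : ℤ)) : ℝ)| ≤ 1 := by
                have h5 : |(sg i σ k : ℝ)| ≤ 1 := by exact_mod_cast sg_abs i k
                split_ifs
                · exact h5
                · simp
              calc ENNReal.ofReal |(((if y i < h k (rem i y) then sg i σ k else 0 : ℤ)) : ℝ)|
                  ≤ ENNReal.ofReal 1 := ENNReal.ofReal_le_ofReal h4
                _ = 1 := ENNReal.ofReal_one
          _ ≤ _ := ENNReal.sum_le_tsum _
    _ = ∑' k, volume (box i S R k) := by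
        rw [lintegral_tsum]
        · apply tsum_congr
          intro k
          rw [lintegral_indicator (hd.measurable_box i k)]
          simp
        · intro k
          exact (measurable_const.indicator (hd.measurable_box i k)).aemeasurable
    _ < ∞ := lt_top_iff_ne_top.mpr (hd.tsum_box i)

/-- a continuous function is bounded on the cube -/
theorem exists_bound {φ : E (n + 1) → ℝ} (hφ : Continuous φ) (R : ℝ) :
    ∃ B : ℝ, ∀ y : E (n + 1), (∀ j, |y j| ≤ R) → |φ y| ≤ B := by
  have h1 : IsCompact (Metric.closedBall (0 : E (n + 1)) R) := isCompact_closedBall _ _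
  obtain ⟨B, hB⟩ := (h1.image hφ).isBounded.exists_norm_le
  refine ⟨B, fun y hy => ?_⟩
  rcases Nat.eq_zero_or_pos (n + 1) with h0 | _
  · omega
  have hR : 0 ≤ R := (abs_nonneg _).trans (hy 0)
  have hy2 : y ∈ Metric.closedBall (0 : E (n + 1)) R := by
    rw [mem_closedBall_zero_iff, pi_norm_le_iff_of_nonneg hR]
    intro j
    rw [Real.norm_eq_abs]
    exact hy j
  have := hB (φ y) ⟨y, hy2, rfl⟩
  rwa [Real.norm_eq_abs] at this

theorem abs_ins_le (i : Fin (n + 1)) {t : ℝ} {z : E n} {R : ℝ} (ht : |t| ≤ R)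
    (hz : ∀ l, |z l| ≤ R) (j : Fin (n + 1)) : |ins i t z j| ≤ R := by
  rcases Fin.eq_self_or_eq_succAbove i j with rfl | ⟨k, rfl⟩
  · simpa [ins] using ht
  · simpa [ins] using hz k

theorem hasDerivAt_ins {ψ : E (n + 1) → ℝ} (hψ : ContDiff ℝ 1 ψ) (i : Fin (n + 1)) (z : E n)
    (t : ℝ) : HasDerivAt (fun t => ψ (ins i t z)) (pd ψ i (ins i t z)) t := by
  have h1 : HasDerivAt (fun t : ℝ => ins i t z) (Pi.single i (1 : ℝ) : E (n + 1)) t := by
    rw [hasDerivAt_pi]
    intro j
    rcases Fin.eq_self_or_eq_succAbove i j with rfl | ⟨k, rfl⟩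
    · have h0 : HasDerivAt (fun t : ℝ => t) 1 t := hasDerivAt_id t
      simpa [ins] using h0
    · simpa [ins, Pi.single_apply] using hasDerivAt_const t (z k)
  have h2 : HasFDerivAt ψ (fderiv ℝ ψ (ins i t z)) (ins i t z) :=
    (hψ.differentiable one_ne_zero _).hasFDerivAt
  exact h2.comp_hasDerivAt t h1

theorem continuous_pd {ψ : E (n + 1) → ℝ} (hψ : ContDiff ℝ 1 ψ) (i : Fin (n + 1)) :
    Continuous (pd ψ i) :=
  (hψ.continuous_fderiv one_ne_zero).clm_apply continuous_const

/-- the region below the `k`-th graph -/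
def reg (i : Fin (n + 1)) (S : ℕ → Set (E n)) (h : ℕ → E n → ℝ) (R : ℝ) (k : ℕ) :
    Set (E (n + 1)) := {y | (-R < y i ∧ y i < h k (rem i y)) ∧ rem i y ∈ S k}

theorem Dat.measurable_reg (hd : Dat S h σ R) (i : Fin (n + 1)) (k : ℕ) :
    MeasurableSet (reg i S h R k) := by
  refine MeasurableSet.inter (MeasurableSet.inter ?_ ?_) ((measurable_rem i) (hd.hS k))
  · exact measurableSet_lt measurable_const (measurable_pi_apply i)
  · exact measurableSet_lt (measurable_pi_apply i) ((hd.hh k).comp (measurable_rem i))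

theorem Dat.reg_subset (hd : Dat S h σ R) (i : Fin (n + 1)) (k : ℕ) :
    reg i S h R k ⊆ box i S R k := by
  rintro y ⟨⟨h1, h2⟩, h3⟩
  exact ⟨⟨h1, h2.trans (abs_lt.mp (hd.bh k _ h3)).2⟩, h3⟩

theorem Dat.reg_bound (hd : Dat S h σ R) (i : Fin (n + 1)) (k : ℕ) {y : E (n + 1)}
    (hy : y ∈ reg i S h R k) (j : Fin (n + 1)) : |y j| ≤ R := by
  have h1 := hd.reg_subset i k hy
  rw [← ins_rem i y]
  exact abs_ins_le i (abs_le.mpr ⟨h1.1.1.le, h1.1.2.le⟩)
    (fun l => (hd.bz k _ h1.2 l).le) j

theorem Dat.integral_reg (hd : Dat S h σ R) {ψ : E (n + 1) → ℝ} (hψ : ContDiff ℝ 1 ψ)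
    (i : Fin (n + 1)) (k : ℕ) :
    IntegrableOn (pd ψ i) (reg i S h R k) ∧
    ∫ y in reg i S h R k, pd ψ i y =
      (∫ z in S k, ψ (ins i (h k z) z)) - ∫ z in S k, ψ (ins i (-R) z) := by
  obtain ⟨B, hB⟩ := exists_bound (continuous_pd hψ i) R
  obtain ⟨B', hB'⟩ := exists_bound hψ.continuous R
  have hm := hd.measurable_reg i k
  have hfin : volume (reg i S h R k) ≠ ∞ := by
    refine ne_top_of_le_ne_top ?_ (measure_mono (hd.reg_subset i k))
    exact ENNReal.ne_top_of_tsum_ne_top (hd.tsum_box i) k
  have hint : IntegrableOn (pd ψ i) (reg i S h R k) := by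
    refine Measure.integrableOn_of_bounded (M := B) hfin
      (continuous_pd hψ i).aestronglyMeasurable ?_
    exact (ae_restrict_iff' hm).mpr (Filter.Eventually.of_forall fun y hy => by
      rw [Real.norm_eq_abs]; exact hB y (hd.reg_bound i k hy))
  refine ⟨hint, ?_⟩
  rw [← integral_indicator hm, integral_split i (integrable_indicator_iff hm |>.mpr hint)]
  have hme : Measurable fun z : E n => ψ (ins i (h k z) z) :=
    hψ.continuous.measurable.comp ((measurable_ins i).comp ((hd.hh k).prodMk measurable_id))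
  have hme2 : Measurable fun z : E n => ψ (ins i (-R) z) :=
    hψ.continuous.measurable.comp ((measurable_ins i).comp (measurable_const.prodMk measurable_id))
  have hi1 : IntegrableOn (fun z : E n => ψ (ins i (h k z) z)) (S k) := by
    refine Measure.integrableOn_of_bounded (M := B') (hd.ne_top k) hme.aestronglyMeasurable ?_
    exact (ae_restrict_iff' (hd.hS k)).mpr (Filter.Eventually.of_forall fun z hz => by
      rw [Real.norm_eq_abs]
      exact hB' _ (abs_ins_le i (hd.bh k z hz).le fun l => (hd.bz k z hz l).le))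
  have hR := hd.R0
  have hi2 : IntegrableOn (fun z : E n => ψ (ins i (-R) z)) (S k) := by
    refine Measure.integrableOn_of_bounded (M := B') (hd.ne_top k) hme2.aestronglyMeasurable ?_
    exact (ae_restrict_iff' (hd.hS k)).mpr (Filter.Eventually.of_forall fun z hz => by
      rw [Real.norm_eq_abs]
      exact hB' _ (abs_ins_le i (by rw [abs_neg, abs_of_pos hR]) fun l => (hd.bz k z hz l).le))
  rw [← integral_sub hi1 hi2, ← integral_indicator (hd.hS k)]
  apply integral_congr_ae
  refine Filter.Eventually.of_forall fun z => ?_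
  by_cases hz : z ∈ S k
  · simp only [Set.indicator_of_mem hz]
    have h1 : ∀ t : ℝ, (reg i S h R k).indicator (fun y => pd ψ i y) (ins i t z) =
        (Ioo (-R) (h k z)).indicator (fun t => pd ψ i (ins i t z)) t := by
      intro t
      by_cases ht : t ∈ Ioo (-R) (h k z)
      · have h2 : ins i t z ∈ reg i S h R k := by
          refine ⟨?_, ?_⟩
          · rw [ins_same, rem_ins]; exact ht
          · rw [rem_ins]; exact hz
        rw [Set.indicator_of_mem ht, Set.indicator_of_mem h2]
      · have h2 : ins i t z ∉ reg i S h R k := by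
          rintro ⟨h3, -⟩
          rw [ins_same, rem_ins] at h3
          exact ht h3
        rw [Set.indicator_of_notMem ht, Set.indicator_of_notMem h2]
    rw [integral_congr_ae (Filter.Eventually.of_forall h1), integral_indicator measurableSet_Ioo,
      ← integral_Ioc_eq_integral_Ioo,
      ← intervalIntegral.integral_of_le (abs_lt.mp (hd.bh k z hz)).1.le]
    have hc : Continuous fun t => pd ψ i (ins i t z) :=
      (continuous_pd hψ i).comp ((continuous_ins i).comp (continuous_id.prodMk continuous_const))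
    rw [intervalIntegral.integral_eq_sub_of_hasDerivAt (fun t _ => hasDerivAt_ins hψ i z t)
      (hc.intervalIntegrable _ _)]
  · simp only [Set.indicator_of_notMem hz]
    have h1 : ∀ t : ℝ, (reg i S h R k).indicator (fun y => pd ψ i y) (ins i t z) = 0 := by
      intro t
      apply Set.indicator_of_notMem
      rintro ⟨-, h3⟩
      rw [rem_ins] at h3
      exact hz h3
    rw [integral_congr_ae (Filter.Eventually.of_forall h1), integral_zero]

theorem Dat.hasSum_psi (hd : Dat S h σ R) {ψ : E (n + 1) → ℝ} (hψ : ContDiff ℝ 1 ψ)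
    (i : Fin (n + 1)) (hD : ∀ᵐ z, Dg S σ z = 0) :
    HasSum (fun k => σ k * ∫ z in S k, ψ (ins i (h k z) z))
      ((-1) ^ (i : ℕ) * ∫ y, (qf i S h (sg i σ) y : ℝ) * pd ψ i y) := by
  classical
  obtain ⟨B, hB⟩ := exists_bound (continuous_pd hψ i) R
  obtain ⟨B', hB'⟩ := exists_bound hψ.continuous R
  have hR := hd.R0
  -- the part at height `-R`
  have h0 : HasSum (fun k => σ k * ∫ z in S k, ψ (ins i (-R) z)) 0 := by
    have hme2 : Measurable fun z : E n => ψ (ins i (-R) z) :=
      hψ.continuous.measurable.comp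
        ((measurable_ins i).comp (measurable_const.prodMk measurable_id))
    have h1 := hd.hasSum_D (φ := fun z => ψ (ins i (-R) z)) hme2 (B := B') (fun k z hz =>
      hB' _ (abs_ins_le i (by rw [abs_neg, abs_of_pos hR]) fun l => (hd.bz k z hz l).le))
    have h2 : ∫ z, Dg S σ z * ψ (ins i (-R) z) = 0 := by
      rw [← integral_zero (E n) ℝ]
      apply integral_congr_ae
      filter_upwards [hD] with z hz
      rw [hz, zero_mul]
    rwa [h2] at h1
  -- the integrals over the regions
  have h1 : ∀ k, Integrable (fun y => (reg i S h R k).indicator (fun y => σ k * pd ψ i y) y) := by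
    intro k
    rw [integrable_indicator_iff (hd.measurable_reg i k)]
    exact (hd.integral_reg hψ i k).1.const_mul _
  have hfin : ∀ k, volume (box i S R k) ≠ ∞ := fun k =>
    ENNReal.ne_top_of_tsum_ne_top (hd.tsum_box i) k
  have h2 : Summable fun k => ∫ y, ‖(reg i S h R k).indicator (fun y => σ k * pd ψ i y) y‖ := by
    refine Summable.of_nonneg_of_le (fun k => integral_nonneg fun _ => norm_nonneg _)
      (fun k => ?_) ((ENNReal.summable_toReal (hd.tsum_box i)).mul_left |B|)
    have h3 : ∀ y, ‖(reg i S h R k).indicator (fun y => σ k * pd ψ i y) y‖ ≤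
        (box i S R k).indicator (fun _ => |B|) y := by
      intro y
      by_cases hy : y ∈ reg i S h R k
      · rw [Set.indicator_of_mem hy, Set.indicator_of_mem (hd.reg_subset i k hy),
          Real.norm_eq_abs, abs_mul, hd.abs_σ, one_mul]
        exact (hB y (hd.reg_bound i k hy)).trans (le_abs_self B)
      · rw [Set.indicator_of_notMem hy, norm_zero]
        exact Set.indicator_nonneg (fun _ _ => abs_nonneg B) y
    calc ∫ y, ‖(reg i S h R k).indicator (fun y => σ k * pd ψ i y) y‖
        ≤ ∫ y, (box i S R k).indicator (fun _ => |B|) y := by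
          apply integral_mono (h1 k).norm _ h3
          rw [integrable_indicator_iff (hd.measurable_box i k)]
          exact integrableOn_const (hfin k)
      _ = |B| * (volume (box i S R k)).toReal := by
          rw [integral_indicator (hd.measurable_box i k), setIntegral_const, smul_eq_mul,
            mul_comm]
          rfl
  have h3 := hasSum_integral_of_summable_integral_norm h1 h2
  have h4 : ∀ k, ∫ y, (reg i S h R k).indicator (fun y => σ k * pd ψ i y) y =
      σ k * (∫ z in S k, ψ (ins i (h k z) z)) - σ k * ∫ z in S k, ψ (ins i (-R) z) := by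
    intro k
    rw [integral_indicator (hd.measurable_reg i k), integral_const_mul,
      (hd.integral_reg hψ i k).2, mul_sub]
  have h5 : ∫ y, ∑' k, (reg i S h R k).indicator (fun y => σ k * pd ψ i y) y =
      (-1) ^ (i : ℕ) * ∫ y, (qf i S h (sg i σ) y : ℝ) * pd ψ i y := by
    rw [← integral_const_mul]
    apply integral_congr_ae
    filter_upwards [ae_rem i (ae_good hd.hV), ae_rem i hD] with y hz hD
    have e1 : ∀ k, (reg i S h R k).indicator (fun y => σ k * pd ψ i y) y =
        (if -R < y i ∧ y i < h k (rem i y) ∧ rem i y ∈ S k then σ k else 0) * pd ψ i y := by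
      intro k
      by_cases hy : y ∈ reg i S h R k
      · have hy' : -R < y i ∧ y i < h k (rem i y) ∧ rem i y ∈ S k := ⟨hy.1.1, hy.1.2, hy.2⟩
        rw [Set.indicator_of_mem hy, if_pos hy']
      · have hy' : ¬ (-R < y i ∧ y i < h k (rem i y) ∧ rem i y ∈ S k) :=
          fun h6 => hy ⟨⟨h6.1, h6.2.1⟩, h6.2.2⟩
        rw [Set.indicator_of_notMem hy, if_neg hy', zero_mul]
    simp only [e1]
    rw [tsum_mul_right, ← mul_assoc]
    congr 1
    by_cases hy : -R < y i
    · rw [tsum_eq_sum (s := Set.Finite.toFinset hz)]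
      · rw [qf, cnt_eq hz, Int.cast_sum, Finset.mul_sum]
        apply Finset.sum_congr rfl
        intro k hk
        have h7 := (mem_fin hz).mp hk
        by_cases h8 : y i < h k (rem i y)
        · rw [if_pos ⟨hy, h8, h7⟩, if_pos h8, hd.sg_cast, ← mul_assoc, ← mul_pow]
          norm_num
        · rw [if_neg (fun h9 => h8 h9.2.1), if_neg h8]
          simp
      · intro k hk
        rw [if_neg]
        intro h9
        exact hk ((mem_fin hz).mpr h9.2.2)
    · rw [qf, hd.cnt_left (not_lt.mp hy) hz hD]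
      simp [hy]
  rw [h5] at h3
  simp only [h4] at h3
  have h6 := h3.add h0
  simpa using h6

end dat

end CountAux

open CountAux in
/-- II-f -/
theorem exists_count {n : ℕ} (hn : 1 ≤ n) (w : E n → E (n + 1)) (hw : ContDiff ℝ (⊤ : ℕ∞) w)
    (hc : HasCompactSupport w) (i : Fin (n + 1)) :
    ∃ (q : E (n + 1) → ℤ) (N : Set (E (n + 1)) → E n → ℝ≥0∞),
      Measurable q ∧ Integrable (fun y => (q y : ℝ)) ∧
      (∃ R : ℝ, ∀ᵐ y, (∃ j, R < |y j|) → q y = 0) ∧
      (∀ A, MeasurableSet A → Measurable (N A) ∧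
        ∫⁻ z, N A z = ∫⁻ x in w ⁻¹' A, ENNReal.ofReal |mnr (Jac w x) i|) ∧
      (∀ ψ : E (n + 1) → ℝ, ContDiff ℝ 1 ψ →
        ∫ x, ψ (w x) * cr (Jac w x) i = ∫ y, (q y : ℝ) * pd ψ i y) ∧
      (∀ᵐ z : E n, ∀ s t : ℝ, ∀ A : Set (E (n + 1)),
        (∀ τ ∈ Set.uIcc s t, i.insertNth (α := fun _ => ℝ) τ z ∈ A) →
        ENNReal.ofReal |(q (i.insertNth (α := fun _ => ℝ) s z) : ℝ) -
          q (i.insertNth (α := fun _ => ℝ) t z)| ≤ N A z) ∧
      (∀ᵐ z : E n, ∃ R : ℝ, ∀ t, R ≤ |t| → q (i.insertNth (α := fun _ => ℝ) t z) = 0) := by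
  classical
  have hw1 : ContDiff ℝ 1 w := hw.of_le (by exact_mod_cast le_top)
  obtain ⟨S, h, σ, hS, hh, hσ, hx, hΨ, hΨr⟩ := graph_decomp hn w hw1 hc i
  -- a bound for `w`
  obtain ⟨R, hR0, hwR⟩ : ∃ R : ℝ, 0 < R ∧ ∀ x j, |w x j| < R := by
    obtain ⟨C, hC⟩ := hc.exists_bound_of_continuous hw.continuous
    refine ⟨|C| + 1, by positivity, fun x j => ?_⟩
    calc |w x j| ≤ ‖w x‖ := by
          rw [← Real.norm_eq_abs]; exact norm_le_pi_norm (w x) j
      _ ≤ C := hC x
      _ ≤ |C| := le_abs_self C
      _ < |C| + 1 := by linarith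
  have hcontJ : Continuous fun x => mnr (Jac w x) i := (continuous_mnr i).comp (continuous_Jac hw1)
  have hJsupp : HasCompactSupport fun x => mnr (Jac w x) i := by
    refine hc.mono' ?_
    intro x hx
    by_contra hx2
    apply hx
    have h1 : Jac w x = 0 := by
      have h2 : fderiv ℝ w x = 0 := by
        have h3 : x ∉ tsupport (fderiv ℝ w) := fun h4 => hx2 (tsupport_fderiv_subset ℝ h4)
        exact image_eq_zero_of_notMem_tsupport h3
      ext a b
      rw [Jac_apply, h2]
      rfl
    have : Nonempty (Fin n) := ⟨⟨0, hn⟩⟩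
    simp only [h1, mnr]
    rw [Matrix.submatrix_zero]
    exact Matrix.det_zero
  have hV : ∑' k, volume (S k) ≠ ∞ := by
    have h1 := hΨ (fun _ => 1) measurable_const
    simp only [one_mul, setLIntegral_const] at h1
    rw [← h1]
    have h2 : Integrable fun x => mnr (Jac w x) i := hcontJ.integrable_of_hasCompactSupport hJsupp
    have h3 := h2.2
    rw [hasFiniteIntegral_iff_enorm] at h3
    simp only [Real.enorm_eq_ofReal_abs] at h3
    exact h3.ne
  have hd : Dat S h σ R := by
    refine ⟨hS, hh, hσ, hV, hR0, fun k z hz => ?_, fun k z hz l => ?_⟩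
    · obtain ⟨x, -, hx⟩ := hx k z hz
      have h1 := hwR x i
      rw [hx] at h1
      simpa using h1
    · obtain ⟨x, -, hx⟩ := hx k z hz
      have h1 := hwR x (i.succAbove l)
      rw [hx] at h1
      simpa using h1
  -- real version of the decomposition
  have hreal : ∀ Ψ : E (n + 1) → ℝ, Continuous Ψ →
      ∫ x, Ψ (w x) * mnr (Jac w x) i = ∑' k, σ k * ∫ z in S k, Ψ (ins i (h k z) z) := by
    intro Ψ hΨc
    obtain ⟨B, hB⟩ := exists_bound hΨc R
    have hcube : MeasurableSet {y : E (n + 1) | ∀ j, |y j| ≤ R} := by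
      have : {y : E (n + 1) | ∀ j, |y j| ≤ R} = ⋂ j, {y : E (n + 1) | |y j| ≤ R} := by
        ext y; simp
      rw [this]
      exact MeasurableSet.iInter fun j =>
        measurableSet_le ((measurable_pi_apply j).abs) measurable_const
    have h1 := hΨr ({y : E (n + 1) | ∀ j, |y j| ≤ R}.indicator Ψ)
      (hΨc.measurable.indicator hcube) ⟨|B|, fun y => ?_⟩
    · have h2 : ∀ x, {y : E (n + 1) | ∀ j, |y j| ≤ R}.indicator Ψ (w x) = Ψ (w x) := fun x =>
        Set.indicator_of_mem (show w x ∈ {y : E (n + 1) | ∀ j, |y j| ≤ R} from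
          fun j => (hwR x j).le) _
      simp only [h2] at h1
      rw [h1]
      apply tsum_congr
      intro k
      congr 1
      apply setIntegral_congr_fun (hS k)
      intro z hz
      exact Set.indicator_of_mem (show ins i (h k z) z ∈ {y : E (n + 1) | ∀ j, |y j| ≤ R} from
        abs_ins_le i (hd.bh k z hz).le fun l => (hd.bz k z hz l).le) _
    · by_cases hy : y ∈ {y : E (n + 1) | ∀ j, |y j| ≤ R}
      · rw [Set.indicator_of_mem hy]
        exact (hB y hy).trans (le_abs_self B)
      · rw [Set.indicator_of_notMem hy, abs_zero]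
        exact abs_nonneg B
  -- the total sign vanishes
  have hDg : ∀ᵐ z, Dg S σ z = 0 := by
    have hlin : ∀ ξ : E n, ContDiff ℝ (⊤ : ℕ∞) fun y : E (n + 1) =>
        ∑ l, ξ l * y (i.succAbove l) := fun ξ =>
      ContDiff.sum fun l _ => contDiff_const.mul (contDiff_apply ℝ ℝ _)
    have hkey : ∀ (ξ : E n), (∀ l, ξ l ≠ 0) → ∀ (f f' : ℝ → ℝ), ContDiff ℝ (⊤ : ℕ∞) f →
        Continuous f' → (∀ t, HasDerivAt f (f' t) t) → (∀ t, |f' t| ≤ 1) →
        ∫ z, Dg S σ z * f' (∑ l, ξ l * z l) = 0 := by
      intro ξ hξ f f' hf hf' hff hf1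
      have hlc : Continuous fun z : E n => ∑ l, ξ l * z l := by fun_prop
      have h1 := (hd.hasSum_D (φ := fun z => f' (∑ l, ξ l * z l))
        (hf'.comp hlc).measurable (B := 1) (fun k z _ => hf1 _)).tsum_eq
      rw [← h1]
      have h2 := hreal (fun y => f' (∑ l, ξ l * y (i.succAbove l)))
        (hf'.comp (hlin ξ).continuous)
      have h3 : ∀ k, ∀ z : E n, f' (∑ l, ξ l * ins i (h k z) z (i.succAbove l)) =
          f' (∑ l, ξ l * z l) := by
        intro k z
        simp [ins]
      simp only [h3] at h2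
      rw [← h2]
      -- the curl identity
      obtain ⟨l₀⟩ : Nonempty (Fin n) := ⟨⟨0, hn⟩⟩
      have hψ : ContDiff ℝ (⊤ : ℕ∞) fun y : E (n + 1) =>
          f (∑ l, ξ l * y (i.succAbove l)) / ξ l₀ := (hf.comp (hlin ξ)).div_const _
      have h4 := curl_identity hn w hw hc _ hψ i (i.succAbove l₀)
      have h5 : ∀ y : E (n + 1), HasFDerivAt (fun y : E (n + 1) =>
          f (∑ l, ξ l * y (i.succAbove l)) / ξ l₀)
          ((f' (∑ l, ξ l * y (i.succAbove l)) / ξ l₀) • ∑ l, ξ l •
            (ContinuousLinearMap.proj (i.succAbove l) : E (n + 1) →L[ℝ] ℝ)) y := by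
        intro y
        have e1 : HasFDerivAt (fun y : E (n + 1) => ∑ l, ξ l * y (i.succAbove l))
            (∑ l, ξ l • (ContinuousLinearMap.proj (i.succAbove l) : E (n + 1) →L[ℝ] ℝ)) y := by
          apply HasFDerivAt.fun_sum
          intro l _
          exact ((ContinuousLinearMap.proj (R := ℝ) (φ := fun _ : Fin (n + 1) => ℝ)
            (i.succAbove l)).hasFDerivAt (x := y)).const_mul (ξ l)
        have e2 := ((hff (∑ l, ξ l * y (i.succAbove l))).comp_hasFDerivAt y e1).mul_const
          (ξ l₀)⁻¹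
        refine (e2.congr_fderiv ?_).congr_of_eventuallyEq
          (Filter.Eventually.of_forall fun y => ?_)
        · rw [smul_smul]
          congr 1
          ring
        · simp [div_eq_mul_inv]
      have h6 : ∀ y : E (n + 1), pd (fun y : E (n + 1) =>
          f (∑ l, ξ l * y (i.succAbove l)) / ξ l₀) i y = 0 := by
        intro y
        rw [pd, (h5 y).fderiv]
        simp [Pi.single_apply]
      have h7 : ∀ y : E (n + 1), pd (fun y : E (n + 1) =>
          f (∑ l, ξ l * y (i.succAbove l)) / ξ l₀) (i.succAbove l₀) y =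
          f' (∑ l, ξ l * y (i.succAbove l)) := by
        intro y
        rw [pd, (h5 y).fderiv]
        have e3 : ∀ l : Fin n, (i.succAbove l = i.succAbove l₀) ↔ l = l₀ := fun l =>
          Fin.succAbove_right_injective.eq_iff
        simp only [smul_apply, sum_apply,
          ContinuousLinearMap.proj_apply, smul_eq_mul, Pi.single_apply, e3]
        simp only [mul_ite, mul_one, mul_zero, Finset.sum_ite_eq', Finset.sum_ite_eq,
          Finset.mem_univ, if_true]
        field_simp [hξ l₀]
      simp only [h6, h7, zero_mul, zero_sub] at h4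
      rw [integral_neg, neg_eq_zero] at h4
      have h8 : ∀ x, f' (∑ l, ξ l * w x (i.succAbove l)) * cr (Jac w x) i =
          (-1) ^ (i : ℕ) * (f' (∑ l, ξ l * w x (i.succAbove l)) * mnr (Jac w x) i) := by
        intro x
        rw [cr]
        ring
      simp only [h8] at h4
      rw [integral_const_mul] at h4
      rcases mul_eq_zero.mp h4 with h9 | h9
      · exact absurd h9 (pow_ne_zero _ (by norm_num))
      · exact h9
    have h1 := ae_zero_of_fourier (Dg S σ) hd.integrable_D (fun ξ hξ => ⟨?_, ?_⟩)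
    · exact h1
    · exact hkey ξ hξ Real.sin Real.cos Real.contDiff_sin Real.continuous_cos
        Real.hasDerivAt_sin Real.abs_cos_le_one
    · refine hkey ξ hξ (fun t => -Real.cos t) Real.sin Real.contDiff_cos.neg Real.continuous_sin
        (fun t => ?_) Real.abs_sin_le_one
      have h0 := (Real.hasDerivAt_cos t).neg
      rw [neg_neg] at h0
      exact h0
  refine ⟨qf i S h (sg i σ), fun A z => ∑' k, (S k).indicator
    (fun z => A.indicator (fun _ => (1 : ℝ≥0∞)) (ins i (h k z) z)) z,
    measurable_qf i hS hh, hd.integrable_q i hDg, ⟨R, ?_⟩, ?_, ?_, ?_, ?_⟩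
  · filter_upwards [ae_rem i (ae_good hd.hV), ae_rem i hDg] with y hz hD hj
    obtain ⟨j, hj⟩ := hj
    rcases Fin.eq_self_or_eq_succAbove i j with rfl | ⟨l, rfl⟩
    · rcases lt_abs.mp hj with h1 | h1
      · exact hd.cnt_right h1.le
      · exact hd.cnt_left (by linarith) hz hD
    · exact hd.cnt_side (l := l) hj.le
  · intro A hA
    have hm1 : ∀ k, Measurable fun z : E n =>
        (S k).indicator (fun z => A.indicator (fun _ => (1 : ℝ≥0∞)) (ins i (h k z) z)) z := by
      intro k
      refine Measurable.indicator ?_ (hS k)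
      exact (measurable_const.indicator hA).comp
        ((measurable_ins i).comp ((hh k).prodMk measurable_id))
    refine ⟨Measurable.tsum hm1, ?_⟩
    rw [lintegral_tsum fun k => (hm1 k).aemeasurable]
    have h1 := hΨ (A.indicator fun _ => 1) (measurable_const.indicator hA)
    have h2 : ∫⁻ x in w ⁻¹' A, ENNReal.ofReal |mnr (Jac w x) i| =
        ∫⁻ x, A.indicator (fun _ => (1 : ℝ≥0∞)) (w x) * ENNReal.ofReal |mnr (Jac w x) i| := by
      rw [← lintegral_indicator (hw.continuous.measurable hA)]
      apply lintegral_congr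
      intro x
      by_cases hx : w x ∈ A
      · rw [Set.indicator_of_mem (show x ∈ w ⁻¹' A from hx), Set.indicator_of_mem hx, one_mul]
      · rw [Set.indicator_of_notMem (show x ∉ w ⁻¹' A from hx), Set.indicator_of_notMem hx,
          zero_mul]
    rw [h2, h1]
    apply tsum_congr
    intro k
    rw [lintegral_indicator (hS k)]
  · intro ψ hψ
    have h1 := hreal ψ hψ.continuous
    rw [(hd.hasSum_psi hψ i hDg).tsum_eq] at h1
    have h2 : ∀ x, ψ (w x) * cr (Jac w x) i =
        (-1) ^ (i : ℕ) * (ψ (w x) * mnr (Jac w x) i) := by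
      intro x
      rw [cr]
      ring
    simp only [h2]
    rw [integral_const_mul, h1, ← mul_assoc, ← mul_pow]
    norm_num
  · filter_upwards [ae_good hd.hV] with z hz s t A hA
    have h1 := cnt_sub_le (h := h) (s := sg i σ) (sg_abs i) i hz hA
    have h2 := qf_ins i S h (sg i σ) s z
    have h3 := qf_ins i S h (sg i σ) t z
    rw [show (i.insertNth (α := fun _ => ℝ) s z) = ins i s z from rfl,
      show (i.insertNth (α := fun _ => ℝ) t z) = ins i t z from rfl, h2, h3]
    exact h1
  · filter_upwards [ae_good hd.hV, hDg] with z hz hD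
    refine ⟨R, fun t ht => ?_⟩
    rw [show (i.insertNth (α := fun _ => ℝ) t z) = ins i t z from rfl, qf_ins]
    rcases le_abs.mp ht with h1 | h1
    · exact hd.cnt_right h1
    · exact hd.cnt_left (by linarith) hz hD

end Pool.Agent.Lib.HSys
end

section

/-!
# The covering function of a smooth compactly supported map `ℝⁿ → ℝⁿ⁺¹`
-/

set_option autoImplicit false
open MeasureTheory Set Filter Topology
open scoped ENNReal Matrix

namespace Pool.Agent.Lib.HSys

/-! ### The proof -/

private lemma pd_lin {m : ℕ} (f : ℝ → ℝ) (hf : Differentiable ℝ f) (ξ : E m) (j : Fin m)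
    (y : E m) :
    pd (fun y : E m => f (∑ l, ξ l * y l)) j y = deriv f (∑ l, ξ l * y l) * ξ j := by
  have h1 : HasFDerivAt (fun y : E m => ∑ l, ξ l * y l)
      (∑ l, ξ l • (ContinuousLinearMap.proj l : E m →L[ℝ] ℝ)) y := by
    apply HasFDerivAt.fun_sum
    intro l _
    exact ((ContinuousLinearMap.proj (R := ℝ) (φ := fun _ : Fin m => ℝ) l).hasFDerivAt).const_mul _
  have h2 := ((hf (∑ l, ξ l * y l)).hasDerivAt).comp_hasFDerivAt y h1
  rw [pd]
  have h3 : fderiv ℝ (fun y : E m => f (∑ l, ξ l * y l)) y = deriv f (∑ l, ξ l * y l) •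
      (∑ l, ξ l • (ContinuousLinearMap.proj l : E m →L[ℝ] ℝ)) := h2.fderiv
  rw [h3]
  simp only [smul_apply, sum_apply, ContinuousLinearMap.proj_apply, smul_eq_mul,
    Pi.single_apply]
  simp

private lemma cr_zero_of_notMem {n : ℕ} (hn : 1 ≤ n) {w : E n → E (n + 1)}
    (i : Fin (n + 1)) {x : E n} (hx : x ∉ tsupport w) : cr (Jac w x) i = 0 := by
  have h2 : w =ᶠ[𝓝 x] 0 := notMem_tsupport_iff_eventuallyEq.1 hx
  have h3 : fderiv ℝ w x = 0 := by
    rw [h2.fderiv_eq]
    exact fderiv_const_apply 0
  have h4 : Jac w x = 0 := by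
    ext a b
    rw [Jac_apply, h3]
    rfl
  have : Nonempty (Fin n) := ⟨⟨0, hn⟩⟩
  rw [h4, cr, mnr, Matrix.submatrix_zero, Pi.zero_apply, Pi.zero_apply, Matrix.det_zero, mul_zero]

private lemma integrable_comp_mul_cr {n : ℕ} (hn : 1 ≤ n) {w : E n → E (n + 1)}
    (hw : ContDiff ℝ 1 w) (hc : HasCompactSupport w) {g : E (n + 1) → ℝ} (hg : Continuous g)
    (i : Fin (n + 1)) : Integrable fun x => g (w x) * cr (Jac w x) i := by
  have hcont : Continuous fun x => g (w x) * cr (Jac w x) i :=
    (hg.comp hw.continuous).mul ((continuous_cr i).comp (continuous_Jac hw))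
  apply hcont.integrable_of_hasCompactSupport
  apply hc.of_isClosed_subset (isClosed_tsupport _)
  apply closure_minimal _ (isClosed_tsupport _)
  intro x hx
  by_contra hcon
  apply hx
  simp only
  rw [cr_zero_of_notMem hn i hcon, mul_zero]

/-- II-k : the covering function of a smooth compactly supported map `ℝⁿ → ℝⁿ⁺¹`. -/
theorem exists_cover {n : ℕ} (hn : 1 ≤ n) (w : E n → E (n + 1)) (hw : ContDiff ℝ (⊤ : ℕ∞) w)
    (hc : HasCompactSupport w) :
    ∃ q : E (n + 1) → ℝ, Measurable q ∧ Integrable q ∧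
      (∀ Y : E (n + 1) → E (n + 1), ContDiff ℝ 1 Y →
        ∫ x, ∑ i, Y (w x) i * cr (Jac w x) i =
          ∫ y, q y * ∑ i, fderiv ℝ Y y (Pi.single i 1) i) ∧
      (∀ a : E (n + 1), ∫⁻ y in {y : E (n + 1) | ∀ j, y j ∈ Icc (a j) (a j + 1)},
          ENNReal.ofReal |q y| ≤
        ∏ i, ((∫⁻ x in {x | ∀ j, w x j ∈ Icc (a j) (a j + 2)},
            ENNReal.ofReal |mnr (Jac w x) i|) +
          ∫⁻ y in {y : E (n + 1) | ∀ j, y j ∈ Icc (a j) (a j + 2)},
            ENNReal.ofReal |q y|) ^ (1 / (n : ℝ))) ∧
      (∀ s : ℝ, ∫⁻ y in {y : E (n + 1) | s < bra y}, ENNReal.ofReal |q y| ≤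
        ∏ i, (∫⁻ x in {x | s < bra (w x)}, ENNReal.ofReal |mnr (Jac w x) i|) ^
          (1 / (n : ℝ))) := by
  choose Q N hQm hQint hQR hNA hpsi hcross hfar using fun i => exists_count hn w hw hc i
  have hw1 : ContDiff ℝ 1 w := hw.of_le (by exact_mod_cast le_top)
  -- integrability against continuous functions
  have hQg : ∀ i (g : E (n + 1) → ℝ), Continuous g → Integrable fun y => (Q i y : ℝ) * g y := by
    intro i g hg
    obtain ⟨R, hR⟩ := hQR i
    have hcomp : IsCompact (Metric.closedBall (0 : E (n + 1)) (max R 0)) :=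
      isCompact_closedBall _ _
    obtain ⟨C, hC⟩ := hcomp.exists_bound_of_continuousOn hg.continuousOn
    have h1 : Integrable fun y => C * |(Q i y : ℝ)| := (hQint i).abs.const_mul C
    refine h1.mono' ?_ ?_
    · exact ((measurable_from_top.comp (hQm i)).mul hg.measurable).aestronglyMeasurable
    · filter_upwards [hR] with y hy
      by_cases h2 : ∃ j, R < |y j|
      · rw [hy h2]
        simp
      · push Not at h2
        have h3 : y ∈ Metric.closedBall (0 : E (n + 1)) (max R 0) := by
          rw [mem_closedBall_zero_iff, pi_norm_le_iff_of_nonneg (le_max_right _ _)]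
          intro j
          exact (h2 j).trans (le_max_left _ _)
        rw [norm_mul, mul_comm]
        exact mul_le_mul_of_nonneg_right (hC y h3) (norm_nonneg _)
  -- all the counting functions agree
  have hkey : ∀ i j (ξ : E (n + 1)), (∀ l, ξ l ≠ 0) → ∀ f : ℝ → ℝ, ContDiff ℝ (⊤ : ℕ∞) f →
      ∫ y, ((Q i y : ℝ) - Q j y) * deriv (deriv f) (∑ l, ξ l * y l) = 0 := by
    intro i j ξ hξ f hf
    set S : E (n + 1) → ℝ := fun y => ∑ l, ξ l * y l with hS
    have hSc : ContDiff ℝ (⊤ : ℕ∞) S := by
      apply ContDiff.sum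
      intro l _
      exact contDiff_const.mul (contDiff_apply ℝ ℝ l)
    have hdf : ContDiff ℝ (⊤ : ℕ∞) (deriv f) := by
      have := contDiff_infty_iff_deriv.1 hf
      exact this.2
    have hddf : ContDiff ℝ (⊤ : ℕ∞) (deriv (deriv f)) := by
      have := contDiff_infty_iff_deriv.1 hdf
      exact this.2
    have hψ : ContDiff ℝ (⊤ : ℕ∞) (fun y => f (S y)) := hf.comp hSc
    have hpd1 : ∀ l, pd (fun y => f (S y)) l = fun y => deriv f (S y) * ξ l := by
      intro l
      ext y
      exact pd_lin f (hf.differentiable (by simp)) ξ l y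
    have hpd2 : ∀ l k, pd (pd (fun y => f (S y)) l) k =
        fun y => deriv (deriv f) (S y) * ξ k * ξ l := by
      intro l k
      ext y
      rw [hpd1 l]
      have h1 : HasFDerivAt (fun y => deriv f (S y)) (fderiv ℝ (fun y => deriv f (S y)) y) y :=
        ((hdf.comp hSc).differentiable (by simp) y).hasFDerivAt
      have h2 := h1.mul_const (ξ l)
      have h3 := pd_lin (deriv f) (hdf.differentiable (by simp)) ξ k y
      rw [pd] at h3 ⊢
      rw [h2.fderiv, smul_apply, smul_eq_mul]
      rw [show (fun y : E (n + 1) => deriv f (∑ l, ξ l * y l)) = fun y => deriv f (S y) from rfl]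
        at h3
      rw [h3]
      ring
    have hcont1 : ∀ l, ContDiff ℝ 1 (pd (fun y => f (S y)) l) := by
      intro l
      rw [hpd1 l]
      have : ContDiff ℝ (⊤ : ℕ∞) fun y => deriv f (S y) * ξ l := (hdf.comp hSc).mul contDiff_const
      exact this.of_le (by exact_mod_cast le_top)
    have e1 := hpsi i (pd (fun y => f (S y)) j) (hcont1 j)
    have e2 := hpsi j (pd (fun y => f (S y)) i) (hcont1 i)
    have e3 := curl_identity hn w hw hc (fun y => f (S y)) hψ i j
    rw [integral_sub (integrable_comp_mul_cr hn hw1 hc (hcont1 i).continuous j)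
      (integrable_comp_mul_cr hn hw1 hc (hcont1 j).continuous i), e1, e2, hpd2, hpd2] at e3
    have hcd : Continuous fun y => deriv (deriv f) (S y) := hddf.continuous.comp hSc.continuous
    have e4 : ∫ y, (Q j y : ℝ) * (deriv (deriv f) (S y) * ξ j * ξ i) =
        (∫ y, (Q j y : ℝ) * deriv (deriv f) (S y)) * (ξ i * ξ j) := by
      rw [← integral_mul_const]
      congr 1
      ext y
      ring
    have e5 : ∫ y, (Q i y : ℝ) * (deriv (deriv f) (S y) * ξ i * ξ j) =
        (∫ y, (Q i y : ℝ) * deriv (deriv f) (S y)) * (ξ i * ξ j) := by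
      rw [← integral_mul_const]
      congr 1
      ext y
      ring
    rw [e4, e5, ← sub_mul] at e3
    have e6 : (∫ y, (Q j y : ℝ) * deriv (deriv f) (S y)) -
        ∫ y, (Q i y : ℝ) * deriv (deriv f) (S y) = 0 := by
      rcases mul_eq_zero.1 e3 with h | h
      · exact h
      · exact absurd h (mul_ne_zero (hξ i) (hξ j))
    have e7 : ∫ y, ((Q i y : ℝ) - Q j y) * deriv (deriv f) (S y) =
        (∫ y, (Q i y : ℝ) * deriv (deriv f) (S y)) -
          ∫ y, (Q j y : ℝ) * deriv (deriv f) (S y) := by
      rw [← integral_sub (hQg i _ hcd) (hQg j _ hcd)]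
      congr 1
      ext y
      ring
    rw [e7]
    linarith
  have hQQ : ∀ i j, Q i =ᵐ[volume] Q j := by
    intro i j
    have h1 := ae_zero_of_fourier (fun y => (Q i y : ℝ) - Q j y) ((hQint i).sub (hQint j)) (by
      intro ξ hξ
      have hdc : deriv Real.cos = fun x => -Real.sin x := by
        ext x; exact Real.deriv_cos
      have hds : deriv Real.sin = Real.cos := Real.deriv_sin
      have hdns : deriv (fun x => -Real.sin x) = fun x => -Real.cos x := by
        ext x
        rw [deriv.fun_neg, hds]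
      constructor
      · have h2 := hkey i j ξ hξ Real.cos Real.contDiff_cos
        rw [hdc, hdns] at h2
        have h3 : ∫ y, ((Q i y : ℝ) - Q j y) * Real.cos (∑ l, ξ l * y l) =
            -∫ y, ((Q i y : ℝ) - Q j y) * -Real.cos (∑ l, ξ l * y l) := by
          rw [← integral_neg]
          congr 1
          ext y
          ring
        rw [h3, h2, neg_zero]
      · have h2 := hkey i j ξ hξ Real.sin Real.contDiff_sin
        rw [hds, hdc] at h2
        have h3 : ∫ y, ((Q i y : ℝ) - Q j y) * Real.sin (∑ l, ξ l * y l) =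
            -∫ y, ((Q i y : ℝ) - Q j y) * -Real.sin (∑ l, ξ l * y l) := by
          rw [← integral_neg]
          congr 1
          ext y
          ring
        rw [h3, h2, neg_zero])
    filter_upwards [h1] with y hy
    have hy' : (Q i y : ℝ) - Q j y = 0 := hy
    exact_mod_cast sub_eq_zero.1 hy'
  refine ⟨fun y => (Q 0 y : ℝ), measurable_from_top.comp (hQm 0), hQint 0, ?_, ?_, ?_⟩
  · intro Y hY
    have hYi : ∀ i, ContDiff ℝ 1 fun y => Y y i := fun i => contDiff_pi.1 hY i
    have hcd : ∀ i, Continuous fun y => fderiv ℝ Y y (Pi.single i 1) i := fun i =>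
      continuous_Jac_apply hY i i
    rw [integral_finsetSum _ fun i _ => integrable_comp_mul_cr hn hw1 hc (hYi i).continuous i]
    simp only [Finset.mul_sum]
    rw [integral_finsetSum _ fun i _ => hQg 0 _ (hcd i)]
    apply Finset.sum_congr rfl
    intro i _
    rw [hpsi i (fun y => Y y i) (hYi i)]
    apply integral_congr_ae
    filter_upwards [hQQ i 0] with y hy
    rw [hy, pd_component (hY.differentiable one_ne_zero y) i i]
    rfl
  · intro a
    have h1 := local_iso hn (Q 0) (hQm 0) (hQint 0) Q hQm (fun i => hQQ i 0) N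
      (fun i A hA => (hNA i A hA).1) hcross a
    have hA : MeasurableSet {y : E (n + 1) | ∀ j, y j ∈ Icc (a j) (a j + 2)} := by
      have : {y : E (n + 1) | ∀ j, y j ∈ Icc (a j) (a j + 2)} =
          ⋂ j, (fun y : E (n + 1) => y j) ⁻¹' Icc (a j) (a j + 2) := by
        ext y; simp
      rw [this]
      exact MeasurableSet.iInter fun j => (measurable_pi_apply j) measurableSet_Icc
    refine h1.trans (le_of_eq ?_)
    apply Finset.prod_congr rfl
    intro i _
    rw [(hNA i _ hA).2]
    rfl
  · intro s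
    have h1 := global_iso hn (Q 0) (hQm 0) (hQint 0) Q hQm (fun i => hQQ i 0) N
      (fun i A hA => (hNA i A hA).1) hcross hfar s
    have hA : MeasurableSet {y : E (n + 1) | s < bra y} :=
      measurableSet_lt measurable_const measurable_bra
    refine h1.trans (le_of_eq ?_)
    apply Finset.prod_congr rfl
    intro i _
    rw [(hNA i _ hA).2]
    rfl

end Pool.Agent.Lib.HSys
end
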