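import Pool.Agent.Lib.MP_f44734_an.Basic

section

/-!
# Convergence of mollifications in `L^p`
-/

set_option autoImplicit false
open MeasureTheory Set Filter Topology
open scoped ENNReal Matrix

namespace Pool.Agent.Lib.HSys

section MollLpAux

variable {n : ℕ}

private lemma MollLp_int_sub (χ : E n → ℝ) (h1 : ∫ x, χ x = 1) (x : E n) :
    ∫ y, χ (x - y) = 1 := by
  rw [integral_sub_left_eq_self χ volume x, h1]

private lemma MollLp_pointwise (χ : E n → ℝ) (hc : Continuous χ) (h0 : ∀ x, 0 ≤ χ x)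
    (h1 : ∫ x, χ x = 1) (hcs : HasCompactSupport χ) {p : ℝ≥0∞} (hp1 : 1 ≤ p) (hp : p ≠ ∞)
    (f : E n → ℝ) (hf : AEStronglyMeasurable f volume) (x : E n) :
    ‖∫ y, χ (x - y) * f y‖ₑ ^ p.toReal
      ≤ ∫⁻ y, ENNReal.ofReal (χ (x - y)) * ‖f y‖ₑ ^ p.toReal := by
  have hp0 : p ≠ 0 := (lt_of_lt_of_le one_pos hp1).ne'
  have hr : 0 < p.toReal := ENNReal.toReal_pos hp0 hp
  have hcx : Continuous (fun y => χ (x - y)) := hc.comp (continuous_const.sub continuous_id)
  have hmx : Measurable (fun y => ENNReal.ofReal (χ (x - y))) :=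
    ENNReal.measurable_ofReal.comp hcx.measurable
  have hint : Integrable (fun y => χ (x - y)) :=
    (hc.integrable_of_hasCompactSupport hcs).comp_sub_left x
  set ν : Measure (E n) := volume.withDensity (fun y => ENNReal.ofReal (χ (x - y))) with hν
  have hprob : IsProbabilityMeasure ν := by
    constructor
    rw [hν, withDensity_apply _ MeasurableSet.univ, Measure.restrict_univ,
      ← ofReal_integral_eq_lintegral_ofReal hint (Filter.Eventually.of_forall (fun y => h0 _)),
      MollLp_int_sub χ h1 x, ENNReal.ofReal_one]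
  have hfν : AEStronglyMeasurable f ν := hf.mono_ac (withDensity_absolutelyContinuous _ _)
  have key : ∀ g : E n → ℝ≥0∞, AEMeasurable g volume →
      ∫⁻ y, g y ∂ν = ∫⁻ y, ENNReal.ofReal (χ (x - y)) * g y := by
    intro g hg
    rw [hν, lintegral_withDensity_eq_lintegral_mul₀ hmx.aemeasurable hg]
    rfl
  have e1 : ‖∫ y, χ (x - y) * f y‖ₑ ≤ eLpNorm f 1 ν := by
    rw [eLpNorm_one_eq_lintegral_enorm, key _ hf.enorm]
    refine (enorm_integral_le_lintegral_enorm _).trans (le_of_eq ?_)
    refine lintegral_congr (fun y => ?_)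
    rw [enorm_mul, Real.enorm_of_nonneg (h0 _)]
  have e2 : ‖∫ y, χ (x - y) * f y‖ₑ ≤ eLpNorm f p ν :=
    e1.trans (eLpNorm_le_eLpNorm_of_exponent_le hp1 hfν)
  rw [eLpNorm_eq_lintegral_rpow_enorm_toReal hp0 hp, key _ (hf.enorm.pow_const _)] at e2
  calc ‖∫ y, χ (x - y) * f y‖ₑ ^ p.toReal
      ≤ ((∫⁻ y, ENNReal.ofReal (χ (x - y)) * ‖f y‖ₑ ^ p.toReal) ^ (1 / p.toReal)) ^ p.toReal :=
        ENNReal.rpow_le_rpow e2 hr.le
    _ = _ := by
        rw [← ENNReal.rpow_mul, one_div, inv_mul_cancel₀ hr.ne', ENNReal.rpow_one]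

private lemma MollLp_contr (χ : E n → ℝ) (hc : Continuous χ) (h0 : ∀ x, 0 ≤ χ x)
    (h1 : ∫ x, χ x = 1) (hcs : HasCompactSupport χ) {p : ℝ≥0∞} (hp1 : 1 ≤ p) (hp : p ≠ ∞)
    (f : E n → ℝ) (hf : AEStronglyMeasurable f volume) :
    eLpNorm (fun x => ∫ y, χ (x - y) * f y) p volume ≤ eLpNorm f p volume := by
  have hp0 : p ≠ 0 := (lt_of_lt_of_le one_pos hp1).ne'
  have hr : 0 < p.toReal := ENNReal.toReal_pos hp0 hp
  rw [eLpNorm_eq_lintegral_rpow_enorm_toReal hp0 hp, eLpNorm_eq_lintegral_rpow_enorm_toReal hp0 hp]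
  apply ENNReal.rpow_le_rpow _ (by positivity)
  calc ∫⁻ x, ‖∫ y, χ (x - y) * f y‖ₑ ^ p.toReal
      ≤ ∫⁻ x, ∫⁻ y, ENNReal.ofReal (χ (x - y)) * ‖f y‖ₑ ^ p.toReal :=
        lintegral_mono (fun x => MollLp_pointwise χ hc h0 h1 hcs hp1 hp f hf x)
    _ = ∫⁻ y, ∫⁻ x, ENNReal.ofReal (χ (x - y)) * ‖f y‖ₑ ^ p.toReal := by
        apply lintegral_lintegral_swap
        apply AEMeasurable.mul
        · have : Continuous (fun z : E n × E n => χ (z.1 - z.2)) :=
            hc.comp (continuous_fst.sub continuous_snd)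
          exact (ENNReal.measurable_ofReal.comp this.measurable).aemeasurable
        · exact (hf.enorm.pow_const _).comp_snd
    _ = ∫⁻ y, ‖f y‖ₑ ^ p.toReal := by
        refine lintegral_congr (fun y => ?_)
        have hcy : Continuous (fun x => χ (x - y)) := hc.comp (continuous_id.sub continuous_const)
        have hmy : Measurable (fun x => ENNReal.ofReal (χ (x - y))) :=
          ENNReal.measurable_ofReal.comp hcy.measurable
        rw [lintegral_mul_const _ hmy]
        have hint : Integrable (fun x => χ (x - y)) :=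
          (hc.integrable_of_hasCompactSupport hcs).comp_sub_right y
        rw [← ofReal_integral_eq_lintegral_ofReal hint (Filter.Eventually.of_forall (fun y => h0 _)),
          integral_sub_right_eq_self χ y, h1, ENNReal.ofReal_one, one_mul]

end MollLpAux

open scoped Convolution in
/-- LP : mollification converges in `L^p`. -/
theorem exists_mollifier (n : ℕ) : ∃ χ : ℕ → E n → ℝ,
    (∀ k, ContDiff ℝ (⊤ : ℕ∞) (χ k)) ∧ (∀ k x, 0 ≤ χ k x) ∧ (∀ k, ∫ x, χ k x = 1) ∧
    (∀ k, tsupport (χ k) ⊆ Metric.closedBall 0 (1 / ((k : ℝ) + 1))) ∧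
    ∀ (p : ℝ≥0∞), 1 ≤ p → p ≠ ∞ → ∀ f : E n → ℝ, MemLp f p volume →
      Tendsto (fun k => eLpNorm (fun x => (∫ y, χ k (x - y) * f y) - f x) p volume) atTop (𝓝 0) := by
  have hpos : ∀ k : ℕ, (0 : ℝ) < 1 / ((k : ℝ) + 1) := fun k => by positivity
  let φ : ℕ → ContDiffBump (0 : E n) := fun k =>
    ⟨1 / ((k : ℝ) + 1) / 2, 1 / ((k : ℝ) + 1), half_pos (hpos k), half_lt_self (hpos k)⟩
  have hrout : ∀ k, (φ k).rOut = 1 / ((k : ℝ) + 1) := fun k => rfl
  refine ⟨fun k => (φ k).normed volume, fun k => (φ k).contDiff_normed,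
    fun k x => (φ k).nonneg_normed x, fun k => (φ k).integral_normed, ?_, ?_⟩
  · intro k
    rw [(φ k).tsupport_normed_eq]
  · intro p hp1 hp f hf
    have hp0 : p ≠ 0 := (lt_of_lt_of_le one_pos hp1).ne'
    have hr : 0 < p.toReal := ENNReal.toReal_pos hp0 hp
    have hcont : ∀ k, Continuous ((φ k).normed (volume : Measure (E n))) := fun k =>
      ((φ k).contDiff_normed (n := 0) (μ := volume)).continuous
    have hcs : ∀ k, HasCompactSupport ((φ k).normed (volume : Measure (E n))) := fun k =>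
      (φ k).hasCompactSupport_normed
    -- the mollification as a convolution
    have hconv : ∀ (k : ℕ) (u : E n → ℝ) (x : E n),
        ((φ k).normed volume ⋆[ContinuousLinearMap.lsmul ℝ ℝ, volume] u) x
          = ∫ y, (φ k).normed volume (x - y) * u y := by
      intro k u x
      rw [convolution_eq_swap]
      rfl
    have hli : ∀ u : E n → ℝ, MemLp u p volume → LocallyIntegrable u volume := fun u hu =>
      hu.locallyIntegrable hp1
    have hmeas : ∀ (k : ℕ) (u : E n → ℝ), MemLp u p volume →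
        AEStronglyMeasurable (fun x => ∫ y, (φ k).normed volume (x - y) * u y) volume := by
      intro k u hu
      have h := ((hcs k).continuous_convolution_left (ContinuousLinearMap.lsmul ℝ ℝ) (hcont k)
        (hli u hu)).aestronglyMeasurable (μ := volume)
      have he : (fun x => ∫ y, (φ k).normed volume (x - y) * u y)
          = ((φ k).normed volume ⋆[ContinuousLinearMap.lsmul ℝ ℝ, volume] u) := by
        funext x
        rw [hconv]
      rw [he]
      exact h
    have hintg : ∀ (k : ℕ) (u : E n → ℝ), MemLp u p volume → ∀ x,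
        Integrable (fun y => (φ k).normed volume (x - y) * u y) := by
      intro k u hu x
      exact ((hcs k).convolutionExists_left (ContinuousLinearMap.lsmul ℝ ℝ) (hcont k)
        (hli u hu) x).integrable_swap
    rw [ENNReal.tendsto_nhds_zero]
    intro ε hε
    -- `ε₃ = ε / 3`
    have hε3 : ε / 3 ≠ 0 := by
      rw [Ne, ENNReal.div_eq_zero_iff]
      push Not
      exact ⟨hε.ne', by norm_num⟩
    obtain ⟨g, hgcs, hfg, hgc, hgm⟩ := hf.exists_hasCompactSupport_eLpNorm_sub_le hp hε3
    -- the compact set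
    set K' : Set (E n) := Metric.cthickening 1 (tsupport g) with hK'
    have hK'c : IsCompact K' := hgcs.isCompact.cthickening
    set A : ℝ≥0∞ := volume K' ^ (1 / p.toReal) with hA
    have hAtop : A ≠ ∞ := by
      rw [hA]
      exact ENNReal.rpow_ne_top_of_nonneg (by positivity) hK'c.measure_lt_top.ne
    -- choice of δ
    obtain ⟨δ, hδ, hδA⟩ : ∃ δ : ℝ, 0 < δ ∧ ENNReal.ofReal δ * A ≤ ε / 3 := by
      by_cases htop : ε / 3 = ∞
      · exact ⟨1, one_pos, by rw [htop]; exact le_top⟩
      · have hq : ε / 3 / (A + 1) ≠ ∞ := by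
          apply ENNReal.div_ne_top htop
          simp
        have hq0 : ε / 3 / (A + 1) ≠ 0 := by
          rw [Ne, ENNReal.div_eq_zero_iff]
          push Not
          exact ⟨hε3, ENNReal.add_ne_top.mpr ⟨hAtop, ENNReal.one_ne_top⟩⟩
        refine ⟨(ε / 3 / (A + 1)).toReal, ENNReal.toReal_pos hq0 hq, ?_⟩
        rw [ENNReal.ofReal_toReal hq]
        calc ε / 3 / (A + 1) * A ≤ ε / 3 / (A + 1) * (A + 1) := by
              apply mul_le_mul_right
              exact le_self_add
          _ ≤ ε / 3 := by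
              rw [ENNReal.div_mul_cancel (by simp) (ENNReal.add_ne_top.mpr
                ⟨hAtop, ENNReal.one_ne_top⟩)]
    -- uniform continuity of `g`
    have hguc : UniformContinuous g := hgcs.uniformContinuous_of_continuous hgc
    obtain ⟨η, hη, hgη⟩ := Metric.uniformContinuous_iff.mp hguc δ hδ
    have hev : ∀ᶠ k : ℕ in atTop, 1 / ((k : ℝ) + 1) < η :=
      (tendsto_one_div_add_atTop_nhds_zero_nat (𝕜 := ℝ)).eventually (gt_mem_nhds hη)
    filter_upwards [hev] with k hk
    -- decomposition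
    have hdec : (fun x => (∫ y, (φ k).normed volume (x - y) * f y) - f x)
        = (fun x => ∫ y, (φ k).normed volume (x - y) * (f - g) y)
          + ((fun x => (∫ y, (φ k).normed volume (x - y) * g y) - g x) + (g - f)) := by
      funext x
      simp only [Pi.add_apply, Pi.sub_apply, mul_sub]
      rw [integral_sub (hintg k f hf x) (hintg k g hgm x)]
      ring
    have hm1 : AEStronglyMeasurable (fun x => ∫ y, (φ k).normed volume (x - y) * (f - g) y)
        volume := hmeas k (f - g) (hf.sub hgm)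
    have hm2 : AEStronglyMeasurable
        (fun x => (∫ y, (φ k).normed volume (x - y) * g y) - g x) volume :=
      (hmeas k g hgm).sub hgm.1
    have hm3 : AEStronglyMeasurable (g - f) volume := hgm.1.sub hf.1
    have b1 : eLpNorm (fun x => ∫ y, (φ k).normed volume (x - y) * (f - g) y) p volume ≤ ε / 3 :=
      (MollLp_contr _ (hcont k) (fun x => (φ k).nonneg_normed x) (φ k).integral_normed (hcs k)
        hp1 hp _ (hf.sub hgm).1).trans hfg
    have b3 : eLpNorm (g - f) p volume ≤ ε / 3 := by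
      rw [eLpNorm_sub_comm]
      exact hfg
    have b2 : eLpNorm (fun x => (∫ y, (φ k).normed volume (x - y) * g y) - g x) p volume
        ≤ ε / 3 := by
      refine le_trans ?_ hδA
      have hb : ∀ x, ‖(∫ y, (φ k).normed volume (x - y) * g y) - g x‖
          ≤ ‖K'.indicator (fun _ => δ) x‖ := by
        intro x
        by_cases hx : x ∈ K'
        · rw [indicator_of_mem hx, Real.norm_of_nonneg hδ.le, ← hconv, ← dist_eq_norm]
          apply (φ k).dist_normed_convolution_le hgm.1
          intro y hy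
          rw [Metric.mem_ball, hrout] at hy
          exact (hgη (hy.trans hk)).le
        · have hgx : g x = 0 := by
            by_contra h
            exact hx (Metric.self_subset_cthickening _ (subset_tsupport _ h))
          have hz : ∀ y, (φ k).normed volume (x - y) * g y = 0 := by
            intro y
            by_contra h
            have h1 := left_ne_zero_of_mul h
            have h2 := right_ne_zero_of_mul h
            have h3 : x - y ∈ Metric.ball (0 : E n) (φ k).rOut := by
              rw [← (φ k).support_normed_eq (μ := (volume : Measure (E n)))]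
              exact h1
            rw [Metric.mem_ball, dist_zero_right, ← dist_eq_norm, hrout] at h3
            apply hx
            apply Metric.mem_cthickening_of_dist_le x y _ _ (subset_tsupport _ h2)
            refine h3.le.trans ?_
            rw [div_le_one (by positivity)]
            have : (0 : ℝ) ≤ (k : ℝ) := Nat.cast_nonneg k
            linarith
          rw [hgx]
          simp only [hz, integral_zero, sub_zero, norm_zero]
          exact norm_nonneg _
      refine (eLpNorm_mono hb).trans ?_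
      rw [eLpNorm_indicator_const hK'c.measurableSet hp0 hp, Real.enorm_of_nonneg hδ.le]
    rw [hdec]
    calc eLpNorm ((fun x => ∫ y, (φ k).normed volume (x - y) * (f - g) y)
          + ((fun x => (∫ y, (φ k).normed volume (x - y) * g y) - g x) + (g - f))) p volume
        ≤ eLpNorm (fun x => ∫ y, (φ k).normed volume (x - y) * (f - g) y) p volume
          + eLpNorm ((fun x => (∫ y, (φ k).normed volume (x - y) * g y) - g x) + (g - f))
            p volume := eLpNorm_add_le hm1 (hm2.add hm3) hp1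
      _ ≤ ε / 3 + (ε / 3 + ε / 3) := by
          apply add_le_add b1
          exact (eLpNorm_add_le hm2 hm3 hp1).trans (add_le_add b2 b3)
      _ = ε := by
          rw [← add_assoc]
          exact ENNReal.add_thirds ε

end Pool.Agent.Lib.HSys
end

section

section

/-!
# Morrey's inequality on cubes of dimension `m` with exponent `m + 1`
-/

set_option autoImplicit false
open MeasureTheory Set Filter Topology
open scoped ENNReal Matrix

namespace Pool.Agent.Lib.HSys

/-- sum of the absolute values of the partial derivatives -/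
private noncomputable def mg {m : ℕ} (f : E m → ℝ) (z : E m) : ℝ := ∑ j, |pd f j z|

private theorem mg_nonneg {m : ℕ} (f : E m → ℝ) (z : E m) : 0 ≤ mg f z :=
  Finset.sum_nonneg fun _ _ => abs_nonneg _

private theorem continuous_mg {m : ℕ} {f : E m → ℝ} (hf : ContDiff ℝ 1 f) :
    Continuous (mg f) := by
  unfold mg pd
  refine continuous_finsetSum _ fun j _ => ?_
  have h1 : Continuous fun x => fderiv ℝ f x := hf.continuous_fderiv one_ne_zero
  exact (h1.clm_apply continuous_const).abs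

private theorem morrey_line {m : ℕ} {f : E m → ℝ} (hf : ContDiff ℝ 1 f) {x₀ : E m} {r : ℝ}
    {x y : E m} (hx : x ∈ Metric.closedBall x₀ r) (hy : y ∈ Metric.closedBall x₀ r) :
    |f y - f x| ≤ 2 * r * ∫ t in (0 : ℝ)..1, mg f (x + t • (y - x)) := by
  have h1 : ∀ t ∈ Set.uIcc (0 : ℝ) 1, HasDerivAt (fun t : ℝ => f (x + t • (y - x)))
      (fderiv ℝ f (x + t • (y - x)) (y - x)) t := by
    intro t _
    have h2 : HasDerivAt (fun t : ℝ => x + t • (y - x)) (y - x) t := by
      have := ((hasDerivAt_id t).smul_const (y - x)).const_add x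
      simpa using this
    have h3 : HasFDerivAt f (fderiv ℝ f (x + t • (y - x))) (x + t • (y - x)) :=
      (hf.differentiable one_ne_zero _).hasFDerivAt
    exact h3.comp_hasDerivAt t h2
  have hline : Continuous fun t : ℝ => x + t • (y - x) := by fun_prop
  have hcont : Continuous fun t : ℝ => fderiv ℝ f (x + t • (y - x)) (y - x) := by
    have h4 : Continuous fun x => fderiv ℝ f x := hf.continuous_fderiv one_ne_zero
    exact (h4.comp hline).clm_apply continuous_const
  have h5 := intervalIntegral.integral_eq_sub_of_hasDerivAt h1 (hcont.intervalIntegrable _ _)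
  simp only [one_smul, zero_smul, add_zero, add_sub_cancel] at h5
  rw [← h5, ← intervalIntegral.integral_const_mul]
  have h6 : |∫ t in (0 : ℝ)..1, fderiv ℝ f (x + t • (y - x)) (y - x)| ≤
      ∫ t in (0 : ℝ)..1, |fderiv ℝ f (x + t • (y - x)) (y - x)| :=
    intervalIntegral.abs_integral_le_integral_abs zero_le_one
  refine h6.trans ?_
  apply intervalIntegral.integral_mono_on zero_le_one
    (hcont.abs.intervalIntegrable _ _)
    ((continuous_const.mul ((continuous_mg hf).comp hline)).intervalIntegrable _ _)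
  intro t _
  rw [fderiv_real_apply_eq]
  refine (Finset.abs_sum_le_sum_abs _ _).trans ?_
  change _ ≤ 2 * r * ∑ j, |pd f j (x + t • (y - x))|
  rw [Finset.mul_sum]
  apply Finset.sum_le_sum
  intro j _
  rw [abs_mul, mul_comm]
  apply mul_le_mul_of_nonneg_right _ (abs_nonneg _)
  have h7 : |(y - x) j| ≤ ‖y - x‖ := norm_le_pi_norm (y - x) j
  have h8 : ‖y - x‖ ≤ 2 * r := by
    have h9 := dist_triangle_right y x x₀
    rw [Metric.mem_closedBall] at hx hy
    rw [← dist_eq_norm]
    linarith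
  exact h7.trans h8

private theorem morrey_scale {m : ℕ} {F : E m → ℝ} (hF : Continuous F) (hF0 : ∀ z, 0 ≤ F z)
    {x₀ : E m} {r : ℝ} {x : E m} (hx : x ∈ Metric.closedBall x₀ r) {t : ℝ}
    (ht : 0 < t) (ht1 : t ≤ 1) :
    ∫ y in Metric.closedBall x₀ r, F (x + t • (y - x)) ≤
      (t ^ m)⁻¹ * ∫ z in Metric.closedBall x₀ r, F z := by
  set Q := Metric.closedBall x₀ r with hQ
  have hQm : MeasurableSet Q := Metric.isClosed_closedBall.measurableSet
  have hI : Integrable (Q.indicator F) := by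
    rw [integrable_indicator_iff hQm]
    exact hF.continuousOn.integrableOn_compact (isCompact_closedBall x₀ r)
  set c : E m := x - t • x with hc
  have h1 : Integrable fun y => Q.indicator F (c + t • y) :=
    (hI.comp_add_left c).comp_smul ht.ne'
  have h2 : ∫ y, Q.indicator F (c + t • y) = (t ^ m)⁻¹ * ∫ z in Q, F z := by
    have h3 := Measure.integral_comp_smul (μ := (volume : Measure (E m)))
      (fun z => Q.indicator F (c + z)) t
    rw [h3, integral_add_left_eq_self (μ := (volume : Measure (E m))) (Q.indicator F) c,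
      integral_indicator hQm, smul_eq_mul, Module.finrank_fin_fun, abs_of_pos (by positivity)]
  rw [← h2, ← integral_indicator hQm]
  apply integral_mono_of_nonneg
  · exact Eventually.of_forall fun y => Set.indicator_nonneg (fun z _ => hF0 _) _
  · exact h1
  · refine Eventually.of_forall fun y => ?_
    have h4 : x + t • (y - x) = c + t • y := by
      rw [hc, smul_sub]; abel
    by_cases hy : y ∈ Q
    · have h5 : c + t • y ∈ Q := by
        rw [← h4]
        exact (convex_closedBall x₀ r).add_smul_sub_mem hx hy ⟨ht.le, ht1⟩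
      simp only [Set.indicator_of_mem hy, Set.indicator_of_mem h5, h4]
      exact le_rfl
    · simp only [Set.indicator_of_notMem hy]
      exact Set.indicator_nonneg (fun z _ => hF0 _) _

private theorem morrey_holder {m : ℕ} (hm : 1 ≤ m) {h : E m → ℝ} (hh : Continuous h)
    (h0 : ∀ z, 0 ≤ h z) (x₀ : E m) {r : ℝ} (hr : 0 < r) :
    ∫ y in Metric.closedBall x₀ r, h y ≤
      (∫ y in Metric.closedBall x₀ r, h y ^ (m + 1)) ^ (1 / ((m : ℝ) + 1)) *
        ((2 * r) ^ m) ^ ((m : ℝ) / ((m : ℝ) + 1)) := by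
  have hm0 : (0 : ℝ) < m := by exact_mod_cast hm
  set Q := Metric.closedBall x₀ r with hQ
  have hK : IsCompact Q := isCompact_closedBall x₀ r
  have : IsFiniteMeasure (volume.restrict Q) := ⟨by
    rw [Measure.restrict_apply_univ]; exact hK.measure_lt_top⟩
  have hpq : ((m : ℝ) + 1).HolderConjugate (((m : ℝ) + 1) / m) := by
    rw [Real.holderConjugate_iff]
    refine ⟨by linarith, ?_⟩
    field_simp
    ring
  have hb : ∃ B, ∀ y ∈ Q, h y ≤ B := by
    obtain ⟨B, hB⟩ := hK.bddAbove_image hh.continuousOn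
    exact ⟨B, fun y hy => hB ⟨y, hy, rfl⟩⟩
  obtain ⟨B, hB⟩ := hb
  have hmem : MemLp h (ENNReal.ofReal ((m : ℝ) + 1)) (volume.restrict Q) := by
    apply MemLp.of_bound hh.aestronglyMeasurable B
    filter_upwards [ae_restrict_mem hK.measurableSet] with y hy
    rw [Real.norm_eq_abs, abs_of_nonneg (h0 y)]
    exact hB y hy
  have hone : MemLp (fun _ : E m => (1 : ℝ)) (ENNReal.ofReal (((m : ℝ) + 1) / m))
      (volume.restrict Q) := memLp_const _
  have h1 := integral_mul_le_Lp_mul_Lq_of_nonneg hpq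
    (Eventually.of_forall h0 : 0 ≤ᵐ[volume.restrict Q] h)
    (Eventually.of_forall fun _ => zero_le_one :
      0 ≤ᵐ[volume.restrict Q] fun _ : E m => (1 : ℝ)) hmem hone
  simp only [mul_one, Real.one_rpow] at h1
  have h2 : ∫ _ in Q, (1 : ℝ) = (2 * r) ^ m := by
    rw [setIntegral_const, smul_eq_mul, mul_one, Measure.real, hQ,
      Real.volume_pi_closedBall _ hr.le, Fintype.card_fin, ENNReal.toReal_ofReal (by positivity)]
  rw [h2] at h1
  have h3 : (1 : ℝ) / (((m : ℝ) + 1) / m) = (m : ℝ) / ((m : ℝ) + 1) := by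
    rw [one_div_div]
  rw [h3] at h1
  have h4 : ∀ y, h y ^ ((m : ℝ) + 1) = h y ^ (m + 1) := by
    intro y
    rw [← Real.rpow_natCast]
    push_cast
    rfl
  simp only [h4] at h1
  exact h1

/-- one-sided estimate -/
private theorem morrey_avg {m : ℕ} (hm : 1 ≤ m) {f : E m → ℝ} (hf : ContDiff ℝ 1 f)
    (x₀ : E m) {r : ℝ} (hr : 0 < r) {x : E m} (hx : x ∈ Metric.closedBall x₀ r) :
    |(2 * r) ^ m * f x - ∫ y in Metric.closedBall x₀ r, f y| ≤
      2 * r * (((m : ℝ) + 1) * ((2 * r) ^ m) ^ ((m : ℝ) / ((m : ℝ) + 1)) *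
        (∫ y in Metric.closedBall x₀ r, mg f y ^ (m + 1)) ^ (1 / ((m : ℝ) + 1))) := by
  have hm0 : (0 : ℝ) < m := by exact_mod_cast hm
  set Q := Metric.closedBall x₀ r with hQ
  have hK : IsCompact Q := isCompact_closedBall x₀ r
  have : IsFiniteMeasure (volume.restrict Q) := ⟨by
    rw [Measure.restrict_apply_univ]; exact hK.measure_lt_top⟩
  set G := (∫ y in Q, mg f y ^ (m + 1)) ^ (1 / ((m : ℝ) + 1)) with hG
  set W := ((2 * r) ^ m) ^ ((m : ℝ) / ((m : ℝ) + 1)) with hW
  have hcf : Continuous f := hf.continuous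
  have hg := continuous_mg hf
  have h2 : ∫ _ in Q, (1 : ℝ) = (2 * r) ^ m := by
    rw [setIntegral_const, smul_eq_mul, mul_one, Measure.real, hQ,
      Real.volume_pi_closedBall _ hr.le, Fintype.card_fin, ENNReal.toReal_ofReal (by positivity)]
  have hfi : IntegrableOn f Q := hcf.continuousOn.integrableOn_compact hK
  have h3 : (2 * r) ^ m * f x - ∫ y in Q, f y = ∫ y in Q, (f x - f y) := by
    rw [integral_sub (integrable_const _) hfi]
    congr 1
    rw [← h2, ← integral_mul_const]
    simp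
  have hjoint : Continuous fun p : E m × ℝ => mg f (x + p.2 • (p.1 - x)) :=
    hg.comp (by fun_prop)
  have hint : Integrable (Function.uncurry fun (y : E m) (t : ℝ) => mg f (x + t • (y - x)))
      ((volume.restrict Q).prod (volume.restrict (Ioc (0 : ℝ) 1))) := by
    rw [Measure.prod_restrict]
    apply IntegrableOn.mono_set (t := Q ×ˢ Icc (0 : ℝ) 1) _
      (Set.prod_mono le_rfl Ioc_subset_Icc_self)
    exact hjoint.continuousOn.integrableOn_compact (hK.prod isCompact_Icc)
  rw [h3]
  calc |∫ y in Q, (f x - f y)| ≤ ∫ y in Q, |f x - f y| := abs_integral_le_integral_abs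
    _ ≤ ∫ y in Q, 2 * r * ∫ t in Ioc (0 : ℝ) 1, mg f (x + t • (y - x)) := by
        apply setIntegral_mono_on _ _ hK.measurableSet
        · intro y hy
          rw [abs_sub_comm, ← intervalIntegral.integral_of_le zero_le_one]
          exact morrey_line hf hx hy
        · exact ((continuous_const.sub hcf).abs).continuousOn.integrableOn_compact hK
        · exact (hint.integral_prod_left).const_mul _
    _ = 2 * r * ∫ t in Ioc (0 : ℝ) 1, ∫ y in Q, mg f (x + t • (y - x)) := by
        rw [integral_const_mul, integral_integral_swap hint]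
    _ ≤ 2 * r * ∫ t in Ioc (0 : ℝ) 1, t ^ (-((m : ℝ) / ((m : ℝ) + 1))) * (W * G) := by
        apply mul_le_mul_of_nonneg_left _ (by positivity)
        have hexp : (-1 : ℝ) < -((m : ℝ) / ((m : ℝ) + 1)) := by
          rw [neg_lt_neg_iff, div_lt_one (by positivity)]
          linarith
        apply setIntegral_mono_on _ _ measurableSet_Ioc
        · intro t ht
          have h5 := morrey_holder hm (h := fun y => mg f (x + t • (y - x)))
            (hg.comp (by fun_prop)) (fun z => mg_nonneg _ _) x₀ hr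
          refine h5.trans ?_
          have h6 := morrey_scale (F := fun z => mg f z ^ (m + 1)) (hg.pow _)
            (fun z => pow_nonneg (mg_nonneg _ _) _) hx ht.1 ht.2
          have h7 : (∫ y in Q, mg f (x + t • (y - x)) ^ (m + 1)) ^ (1 / ((m : ℝ) + 1)) ≤
              t ^ (-((m : ℝ) / ((m : ℝ) + 1))) * G := by
            refine (Real.rpow_le_rpow ?_ h6 (by positivity)).trans ?_
            · exact integral_nonneg fun z => pow_nonneg (mg_nonneg _ _) _
            · rw [Real.mul_rpow (by have := ht.1; positivity)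
                (integral_nonneg fun z => pow_nonneg (mg_nonneg _ _) _)]
              apply le_of_eq
              congr 1
              rw [← Real.rpow_natCast, ← Real.rpow_neg ht.1.le, ← Real.rpow_mul ht.1.le]
              congr 1
              ring
          calc _ ≤ (t ^ (-((m : ℝ) / ((m : ℝ) + 1))) * G) * W :=
                mul_le_mul_of_nonneg_right h7 (by positivity)
            _ = _ := by ring
        · exact hint.integral_prod_right
        · apply Integrable.mul_const
          exact (intervalIntegral.intervalIntegrable_rpow' hexp).1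
    _ = _ := by
        rw [integral_mul_const, ← intervalIntegral.integral_of_le zero_le_one, integral_rpow]
        · have h8 : -((m : ℝ) / ((m : ℝ) + 1)) + 1 = 1 / ((m : ℝ) + 1) := by
            field_simp
            ring
          rw [h8, Real.one_rpow, Real.zero_rpow (by positivity)]
          field_simp
          ring
        · left
          rw [neg_lt_neg_iff, div_lt_one (by positivity)]
          linarith

/-- MOR : Morrey's inequality on cubes of dimension `m` with exponent `m + 1`. -/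
theorem morrey_cube {m : ℕ} (hm : 1 ≤ m) : ∃ C : ℝ, 0 < C ∧ ∀ f : E m → ℝ, ContDiff ℝ 1 f →
    ∀ (x₀ : E m) (r : ℝ), 0 < r → ∀ x ∈ Metric.closedBall x₀ r, ∀ y ∈ Metric.closedBall x₀ r,
      |f x - f y| ≤ C * r ^ (1 / ((m : ℝ) + 1)) *
        (∫ z in Metric.closedBall x₀ r, (∑ j, |pd f j z|) ^ (m + 1)) ^ (1 / ((m : ℝ) + 1)) := by
  refine ⟨2 * ((m : ℝ) + 1) * 2 ^ (1 / ((m : ℝ) + 1)), by positivity, ?_⟩
  intro f hf x₀ r hr x hx y hy
  have hm0 : (0 : ℝ) < m := by exact_mod_cast hm
  have h1 := morrey_avg hm hf x₀ hr hx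
  have h2 := morrey_avg hm hf x₀ hr hy
  set I := ∫ y in Metric.closedBall x₀ r, f y with hI
  have hGeq : (∫ z in Metric.closedBall x₀ r, (∑ j, |pd f j z|) ^ (m + 1)) =
    ∫ y in Metric.closedBall x₀ r, mg f y ^ (m + 1) := rfl
  rw [hGeq]
  set G := (∫ y in Metric.closedBall x₀ r, mg f y ^ (m + 1)) ^ (1 / ((m : ℝ) + 1)) with hG
  have hpos : 0 < (2 * r) ^ m := by positivity
  have h3 : (2 * r) ^ m * |f x - f y| ≤ (2 * r) ^ m *
      (2 * ((m : ℝ) + 1) * 2 ^ (1 / ((m : ℝ) + 1)) * r ^ (1 / ((m : ℝ) + 1)) * G) := by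
    have h4 : (2 * r) ^ m * |f x - f y| = |((2 * r) ^ m * f x - I) - ((2 * r) ^ m * f y - I)| := by
      rw [← abs_of_pos hpos, ← abs_mul, abs_of_pos hpos]
      congr 1
      ring
    rw [h4]
    refine (abs_sub _ _).trans ((add_le_add h1 h2).trans (le_of_eq ?_))
    have h5 : 2 * r * ((2 * r) ^ m) ^ ((m : ℝ) / ((m : ℝ) + 1)) =
        (2 * r) ^ m * (2 ^ (1 / ((m : ℝ) + 1)) * r ^ (1 / ((m : ℝ) + 1))) := by
      rw [← Real.mul_rpow (by norm_num) hr.le, ← Real.rpow_natCast,
        ← Real.rpow_mul (by positivity), ← Real.rpow_add (by positivity)]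
      nth_rewrite 1 [← Real.rpow_one (2 * r)]
      rw [← Real.rpow_add (by positivity)]
      congr 1
      field_simp
      ring
    calc _ = 2 * ((m : ℝ) + 1) * G * (2 * r * ((2 * r) ^ m) ^ ((m : ℝ) / ((m : ℝ) + 1))) := by ring
      _ = _ := by rw [h5]; ring
  exact le_of_mul_le_mul_left h3 hpos

end Pool.Agent.Lib.HSys
end

section

/-!
# MP_f44734_an (H-systems): smooth approximation of Sobolev maps on a cube
-/

set_option autoImplicit false
open MeasureTheory Set Filter Topology
open scoped ENNReal Matrix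

namespace Pool.Agent.Lib.HSys

/-- the mollification as a convolution -/
private theorem approx_conv_eq {n : ℕ} (χ f : E n → ℝ) :
    (fun x => ∫ y, χ (x - y) * f y) =
      (convolution f χ (ContinuousLinearMap.mul ℝ ℝ) volume) := by
  funext x
  rw [convolution_def]
  apply integral_congr_ae
  filter_upwards with y
  simp [mul_comm]

private theorem approx_smooth {n : ℕ} {χ f : E n → ℝ} (hχ : ContDiff ℝ (⊤ : ℕ∞) χ)
    (hc : HasCompactSupport χ) (hf : LocallyIntegrable f volume) :
    ContDiff ℝ (⊤ : ℕ∞) (fun x => ∫ y, χ (x - y) * f y) := by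
  rw [approx_conv_eq]
  exact hc.contDiff_convolution_right _ hf hχ

private theorem approx_pd {n : ℕ} {χ f : E n → ℝ} (hχ : ContDiff ℝ (⊤ : ℕ∞) χ)
    (hc : HasCompactSupport χ) (hf : LocallyIntegrable f volume) (j : Fin n) (x : E n) :
    pd (fun x => ∫ y, χ (x - y) * f y) j x =
      ∫ y, fderiv ℝ χ (x - y) (Pi.single j 1) * f y := by
  have hχ1 : ContDiff ℝ 1 χ := hχ.of_le (by exact_mod_cast le_top)
  have h1 := hc.hasFDerivAt_convolution_right (ContinuousLinearMap.mul ℝ ℝ) hf hχ1 x
  rw [← approx_conv_eq] at h1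
  rw [pd, h1.fderiv, convolution_precompR_apply _ hf (hc.fderiv ℝ)
    (hχ1.continuous_fderiv one_ne_zero), convolution_def]
  apply integral_congr_ae
  filter_upwards with y
  simp [mul_comm]

/-- The weak identity tested with the mollifier. -/
private theorem approx_weak {n : ℕ} {Ω : Set (E n)} (hΩ : IsOpen Ω)
    {u : E n → E (n + 1)} {Du : E n → Matrix (Fin (n + 1)) (Fin n) ℝ} (hu : IsSob n Ω u Du)
    {χ : E n → ℝ} (hχ : ContDiff ℝ (⊤ : ℕ∞) χ) {δ : ℝ}
    (hs : tsupport χ ⊆ Metric.closedBall 0 δ) {x : E n} (hx : Metric.closedBall x δ ⊆ Ω)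
    (i : Fin (n + 1)) (j : Fin n) :
    ∫ y, fderiv ℝ χ (x - y) (Pi.single j 1) * Ω.indicator (fun y => u y i) y =
      ∫ y, χ (x - y) * Ω.indicator (fun y => Du y i j) y := by
  have hsupp : tsupport (fun y => χ (x - y)) ⊆ Metric.closedBall x δ := by
    apply closure_minimal _ Metric.isClosed_closedBall
    intro y hy
    have h1 : x - y ∈ tsupport χ := subset_tsupport _ hy
    have h2 := hs h1
    rw [mem_closedBall_zero_iff] at h2
    rw [Metric.mem_closedBall, dist_comm, dist_eq_norm]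
    exact h2
  have hcs : HasCompactSupport (fun y => χ (x - y)) :=
    (isCompact_closedBall x δ).of_isClosed_subset (isClosed_tsupport _) hsupp
  have hsm : ContDiff ℝ (⊤ : ℕ∞) (fun y => χ (x - y)) :=
    hχ.comp (contDiff_const.sub contDiff_id)
  have hfd : ∀ y, fderiv ℝ (fun y => χ (x - y)) y (Pi.single j 1) =
      - fderiv ℝ χ (x - y) (Pi.single j 1) := by
    intro y
    have h1 : HasFDerivAt χ (fderiv ℝ χ (x - y)) (x - y) :=
      ((hχ.differentiable (by simp)) (x - y)).hasFDerivAt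
    have h2 : HasFDerivAt (fun y : E n => x - y) (-(ContinuousLinearMap.id ℝ (E n))) y := by
      simpa using (hasFDerivAt_id (𝕜 := ℝ) y).const_sub x
    have h3 := h1.comp y h2
    rw [show (fun y => χ (x - y)) = χ ∘ (fun y => x - y) from rfl, h3.fderiv]
    simp
  have hw := hu.weak (fun y => χ (x - y)) hsm hcs (hsupp.trans hx) i j
  simp_rw [hfd] at hw
  have e1 : ∫ y, fderiv ℝ χ (x - y) (Pi.single j 1) * Ω.indicator (fun y => u y i) y =
      ∫ y in Ω, fderiv ℝ χ (x - y) (Pi.single j 1) * u y i := by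
    rw [← integral_indicator hΩ.measurableSet]
    apply integral_congr_ae
    filter_upwards with y
    by_cases hy : y ∈ Ω <;> simp [hy]
  have e2 : ∫ y, χ (x - y) * Ω.indicator (fun y => Du y i j) y =
      ∫ y in Ω, χ (x - y) * Du y i j := by
    rw [← integral_indicator hΩ.measurableSet]
    apply integral_congr_ae
    filter_upwards with y
    by_cases hy : y ∈ Ω <;> simp [hy]
  rw [e1, e2]
  have e3 : ∫ y in Ω, u y i * -fderiv ℝ χ (x - y) (Pi.single j 1) =
      - ∫ y in Ω, fderiv ℝ χ (x - y) (Pi.single j 1) * u y i := by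
    rw [← integral_neg]
    apply integral_congr_ae
    filter_upwards with y
    ring
  have e4 : ∫ y in Ω, Du y i j * χ (x - y) = ∫ y in Ω, χ (x - y) * Du y i j := by
    apply integral_congr_ae
    filter_upwards with y
    ring
  rw [e3, e4] at hw
  linarith

/-- One subsequence converging almost everywhere for finitely many `L^p` convergent sequences. -/
private theorem approx_subseq {α ι : Type*} [MeasurableSpace α] [Fintype ι] {μ : Measure α}
    {p : ℝ≥0∞} (hp : 1 ≤ p) {f : ℕ → ι → α → ℝ} {g : ι → α → ℝ}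
    (hf : ∀ k i, AEStronglyMeasurable (f k i) μ) (hg : ∀ i, AEStronglyMeasurable (g i) μ)
    (h : ∀ i, Tendsto (fun k => eLpNorm (fun x => f k i x - g i x) p μ) atTop (𝓝 0)) :
    ∃ ns : ℕ → ℕ, StrictMono ns ∧
      ∀ᵐ x ∂μ, ∀ i, Tendsto (fun k => f (ns k) i x) atTop (𝓝 (g i x)) := by
  have hmeas : ∀ k i, AEStronglyMeasurable (fun x => |f k i x - g i x|) μ := by
    intro k i
    have := ((hf k i).sub (hg i)).norm
    simpa [Real.norm_eq_abs] using this
  have h1 : Tendsto (fun k => eLpNorm ((fun x => ∑ i, |f k i x - g i x|) - (0 : α → ℝ)) p μ)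
      atTop (𝓝 0) := by
    have h2 : Tendsto (fun k => ∑ i, eLpNorm (fun x => f k i x - g i x) p μ) atTop
        (𝓝 (∑ i : ι, (0 : ℝ≥0∞))) := tendsto_finsetSum _ fun i _ => h i
    rw [Finset.sum_const_zero] at h2
    refine tendsto_of_tendsto_of_tendsto_of_le_of_le tendsto_const_nhds h2
      (fun k => bot_le) (fun k => ?_)
    simp only [sub_zero]
    have h3 : (fun x => ∑ i, |f k i x - g i x|) = ∑ i, (fun x => |f k i x - g i x|) := by
      funext x; simp
    rw [h3]
    refine (eLpNorm_sum_le (fun i _ => hmeas k i) hp).trans ?_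
    apply Finset.sum_le_sum
    intro i _
    have : eLpNorm (fun x => |f k i x - g i x|) p μ = eLpNorm (fun x => f k i x - g i x) p μ := by
      have := eLpNorm_norm (μ := μ) (p := p) (fun x => f k i x - g i x)
      simpa [Real.norm_eq_abs] using this
    exact this.le
  have h2 := tendstoInMeasure_of_tendsto_eLpNorm (μ := μ) (p := p)
    (f := fun k x => ∑ i, |f k i x - g i x|) (g := 0) (by positivity)
    (fun k => by
      have := Finset.aestronglyMeasurable_fun_sum (Finset.univ : Finset ι)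
        (fun i _ => hmeas k i)
      exact this) aestronglyMeasurable_zero h1
  obtain ⟨ns, hns, hae⟩ := h2.exists_seq_tendsto_ae
  refine ⟨ns, hns, ?_⟩
  filter_upwards [hae] with x hx i
  rw [tendsto_iff_norm_sub_tendsto_zero]
  refine tendsto_of_tendsto_of_tendsto_of_le_of_le tendsto_const_nhds hx
    (fun k => norm_nonneg _) (fun k => ?_)
  simp only [Real.norm_eq_abs]
  exact Finset.single_le_sum (f := fun i => |f (ns k) i x - g i x|) (fun i _ => abs_nonneg _)
    (Finset.mem_univ i)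

/-- APX : smooth approximation of a Sobolev map on a cube compactly contained in `Ω`. -/
theorem exists_approx {n : ℕ} (hn : 1 ≤ n) {Ω : Set (E n)} (hΩ : IsOpen Ω)
    {u : E n → E (n + 1)} {Du : E n → Matrix (Fin (n + 1)) (Fin n) ℝ} (hu : IsSob n Ω u Du)
    {x₀ : E n} {R : ℝ} (hR : 0 < R) (hsub : Metric.closedBall x₀ R ⊆ Ω) :
    ∃ U : ℕ → E n → E (n + 1), (∀ k, ContDiff ℝ (⊤ : ℕ∞) (U k)) ∧
      (∀ᵐ x ∂(volume.restrict (Metric.ball x₀ R)), Tendsto (fun k => U k x) atTop (𝓝 (u x))) ∧
      (∀ᵐ x ∂(volume.restrict (Metric.ball x₀ R)), ∀ i j,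
        Tendsto (fun k => Jac (U k) x i j) atTop (𝓝 (Du x i j))) ∧
      (∀ i, Tendsto (fun k => eLpNorm (fun x => U k x i - u x i) (n : ENNReal)
        (volume.restrict (Metric.ball x₀ R))) atTop (𝓝 0)) ∧
      (∀ i j, Tendsto (fun k => eLpNorm (fun x => Jac (U k) x i j - Du x i j) (n : ENNReal)
        (volume.restrict (Metric.ball x₀ R))) atTop (𝓝 0)) := by
  obtain ⟨χ, hχ, hχ0, hχ1, hχs, hχL⟩ := exists_mollifier n
  have hp1 : (1 : ℝ≥0∞) ≤ (n : ℝ≥0∞) := by exact_mod_cast hn
  have hpt : (n : ℝ≥0∞) ≠ ∞ := ENNReal.natCast_ne_top n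
  have hBΩ : Metric.ball x₀ R ⊆ Ω := Metric.ball_subset_closedBall.trans hsub
  have hcs : ∀ k, HasCompactSupport (χ k) := fun k =>
    (isCompact_closedBall _ _).of_isClosed_subset (isClosed_tsupport _) (hχs k)
  have hui : ∀ i, MemLp (Ω.indicator (fun y => u y i)) (n : ℝ≥0∞) volume := by
    intro i
    rw [memLp_indicator_iff_restrict hΩ.measurableSet]
    exact (ContinuousLinearMap.proj (R := ℝ) (φ := fun _ : Fin (n + 1) => ℝ) i).comp_memLp'
      hu.memu
  have hDi : ∀ i j, MemLp (Ω.indicator (fun y => Du y i j)) (n : ℝ≥0∞) volume := by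
    intro i j
    rw [memLp_indicator_iff_restrict hΩ.measurableSet]
    exact hu.memDu i j
  -- the mollified maps
  set U : ℕ → E n → E (n + 1) := fun k x i => ∫ y, χ k (x - y) * Ω.indicator (fun y => u y i) y
    with hU
  have hUs : ∀ k, ContDiff ℝ (⊤ : ℕ∞) (U k) := by
    intro k
    rw [contDiff_pi]
    intro i
    exact approx_smooth (hχ k) (hcs k) ((hui i).locallyIntegrable hp1)
  obtain ⟨η, hη, hηΩ⟩ : ∃ η > 0, Metric.cthickening η (Metric.closedBall x₀ R) ⊆ Ω :=
    (isCompact_closedBall x₀ R).exists_cthickening_subset_open hΩ hsub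
  obtain ⟨k₀, hk₀⟩ : ∃ k₀ : ℕ, ∀ k ≥ k₀, 1 / ((k : ℝ) + 1) ≤ η := by
    obtain ⟨k₀, hk₀⟩ := exists_nat_one_div_lt hη
    refine ⟨k₀, fun k hk => ?_⟩
    refine le_trans ?_ hk₀.le
    apply one_div_le_one_div_of_le (by positivity)
    have : (k₀ : ℝ) ≤ k := by exact_mod_cast hk
    linarith
  have hJ : ∀ k ≥ k₀, ∀ x ∈ Metric.ball x₀ R, ∀ i j, Jac (U k) x i j =
      ∫ y, χ k (x - y) * Ω.indicator (fun y => Du y i j) y := by
    intro k hk x hx i j
    rw [← pd_component ((hUs k).differentiable (by simp) x) i j]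
    have h1 := approx_pd (hχ k) (hcs k) ((hui i).locallyIntegrable hp1) j x
    rw [show (fun x => U k x i) = (fun x => ∫ y, χ k (x - y) * Ω.indicator (fun y => u y i) y)
      from rfl, h1]
    apply approx_weak hΩ hu (hχ k) (hχs k)
    refine Subset.trans ?_ hηΩ
    intro y hy
    apply Metric.mem_cthickening_of_dist_le y x η _ (Metric.ball_subset_closedBall hx)
    exact (Metric.mem_closedBall.1 hy).trans (hk₀ k hk)
  -- convergence in `L^n` on the ball
  have hLu : ∀ i, Tendsto (fun k => eLpNorm (fun x => U k x i - u x i) (n : ENNReal)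
        (volume.restrict (Metric.ball x₀ R))) atTop (𝓝 0) := by
    intro i
    refine tendsto_of_tendsto_of_tendsto_of_le_of_le tendsto_const_nhds
      (hχL n hp1 hpt _ (hui i)) (fun k => bot_le) (fun k => ?_)
    refine le_trans (le_of_eq ?_) (eLpNorm_mono_measure _
      (Measure.restrict_le_self (s := Metric.ball x₀ R)))
    apply eLpNorm_congr_ae
    filter_upwards [ae_restrict_mem Metric.isOpen_ball.measurableSet] with x hx
    simp [hU, hBΩ hx]
  have hLD : ∀ i j, Tendsto (fun k => eLpNorm (fun x => Jac (U k) x i j - Du x i j) (n : ENNReal)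
        (volume.restrict (Metric.ball x₀ R))) atTop (𝓝 0) := by
    intro i j
    refine tendsto_of_tendsto_of_tendsto_of_le_of_le' tendsto_const_nhds
      (hχL n hp1 hpt _ (hDi i j)) (Eventually.of_forall fun k => bot_le)
      ((eventually_ge_atTop k₀).mono fun k hk => ?_)
    refine le_trans (le_of_eq ?_) (eLpNorm_mono_measure _
      (Measure.restrict_le_self (s := Metric.ball x₀ R)))
    apply eLpNorm_congr_ae
    filter_upwards [ae_restrict_mem Metric.isOpen_ball.measurableSet] with x hx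
    rw [hJ k hk x hx i j]
    simp [hBΩ hx]
  -- a subsequence
  obtain ⟨ns, hns, hae⟩ := approx_subseq (ι := Fin (n + 1) ⊕ (Fin (n + 1) × Fin n))
    (μ := volume.restrict (Metric.ball x₀ R)) (p := n) hp1
    (f := fun k => Sum.elim (fun i x => U k x i) (fun ij x => Jac (U k) x ij.1 ij.2))
    (g := Sum.elim (fun i x => u x i) (fun ij x => Du x ij.1 ij.2))
    (by
      rintro k (i | ij)
      · exact ((continuous_apply i).comp (hUs k).continuous).aestronglyMeasurable
      · exact (continuous_Jac_apply ((hUs k).of_le (by exact_mod_cast le_top))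
          ij.1 ij.2).aestronglyMeasurable)
    (by
      rintro (i | ij)
      · exact ((ContinuousLinearMap.proj (R := ℝ)
          (φ := fun _ : Fin (n + 1) => ℝ) i).comp_memLp' hu.memu).1.mono_set hBΩ
      · exact (hu.memDu ij.1 ij.2).1.mono_set hBΩ)
    (by
      rintro (i | ij)
      · exact hLu i
      · exact hLD ij.1 ij.2)
  refine ⟨fun k => U (ns k), fun k => hUs _, ?_, ?_, fun i => (hLu i).comp hns.tendsto_atTop,
    fun i j => (hLD i j).comp hns.tendsto_atTop⟩
  · filter_upwards [hae] with x hx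
    rw [tendsto_pi_nhds]
    intro i
    exact hx (Sum.inl i)
  · filter_upwards [hae] with x hx i j
    exact hx (Sum.inr (i, j))

end Pool.Agent.Lib.HSys
end

section

set_option autoImplicit false
open MeasureTheory Set Filter Topology
open scoped ENNReal Matrix

namespace Pool.Agent.Lib.HSys

/-- Fubini on a cube, slicing in direction `j`. -/
theorem GoodCube_fubini {m : ℕ} (x₀ : E (m + 1)) {R : ℝ} (hR : 0 < R) (g : E (m + 1) → ℝ≥0∞)
    (hg : Measurable g) (j : Fin (m + 1)) :
    ∫⁻ x in Metric.ball x₀ R, g x = ∫⁻ τ in Metric.ball (x₀ j) R,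
      ∫⁻ z in Metric.ball (fun i => x₀ (j.succAbove i)) R,
        g (j.insertNth (α := fun _ => ℝ) τ z) := by
  have hmp := (volume_preserving_piFinSuccAbove (fun _ : Fin (m + 1) => ℝ) j).symm
  have hme : Measurable ((Metric.ball x₀ R).indicator g) :=
    hg.indicator Metric.isOpen_ball.measurableSet
  rw [← lintegral_indicator Metric.isOpen_ball.measurableSet,
    ← hmp.lintegral_comp hme, Measure.volume_eq_prod]
  rw [lintegral_prod (fun a : ℝ × (Fin m → ℝ) => (Metric.ball x₀ R).indicator g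
    ((MeasurableEquiv.piFinSuccAbove (fun _ => ℝ) j).symm a))
    (hme.comp (MeasurableEquiv.measurable _)).aemeasurable]
  rw [← lintegral_indicator Metric.isOpen_ball.measurableSet]
  apply lintegral_congr
  intro τ
  by_cases hτ : τ ∈ Metric.ball (x₀ j) R
  · rw [indicator_of_mem hτ, ← lintegral_indicator Metric.isOpen_ball.measurableSet]
    apply lintegral_congr
    intro z
    change (Metric.ball x₀ R).indicator g (j.insertNth (α := fun _ => ℝ) τ z) = _
    by_cases hz : z ∈ Metric.ball (fun i => x₀ (j.succAbove i)) R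
    · rw [indicator_of_mem hz, indicator_of_mem]
      rw [Metric.mem_ball, dist_pi_lt_iff hR] at hz ⊢
      rw [Fin.forall_iff_succAbove j]
      simp only [Fin.insertNth_apply_same, Fin.insertNth_apply_succAbove]
      exact ⟨hτ, hz⟩
    · rw [indicator_of_notMem hz, indicator_of_notMem]
      intro h
      apply hz
      rw [Metric.mem_ball, dist_pi_lt_iff hR] at h ⊢
      intro i
      have := h (j.succAbove i)
      simpa using this
  · rw [indicator_of_notMem hτ]
    rw [← lintegral_zero (α := E m) (μ := volume)]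
    apply lintegral_congr
    intro z
    change (Metric.ball x₀ R).indicator g (j.insertNth (α := fun _ => ℝ) τ z) = _
    rw [indicator_of_notMem]
    intro h
    apply hτ
    rw [Metric.mem_ball, dist_pi_lt_iff hR] at h
    have := h j
    simpa using this

/-- the face points -/
noncomputable def GoodCube_fp {m : ℕ} (x₀ : E (m + 1)) (j : Fin (m + 1)) (σ : Bool) (t : ℝ)
    (z : E m) : E (m + 1) :=
  j.insertNth (α := fun _ => ℝ) (x₀ j + (if σ then t else -t)) z

theorem GoodCube_continuous_fp {m : ℕ} (x₀ : E (m + 1)) (j : Fin (m + 1)) (σ : Bool) :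
    Continuous fun p : ℝ × E m => GoodCube_fp x₀ j σ p.1 p.2 := by
  unfold GoodCube_fp
  apply continuous_pi
  rw [Fin.forall_iff_succAbove j]
  constructor
  · simp only [Fin.insertNth_apply_same]
    cases σ <;> simp <;> fun_prop
  · intro i
    simp only [Fin.insertNth_apply_succAbove]
    fun_prop

/-- one face family is bounded by the integral over the cube -/
theorem GoodCube_face_le {m : ℕ} (x₀ : E (m + 1)) {R : ℝ} (hR : 0 < R) (g : E (m + 1) → ℝ≥0∞)
    (hg : Measurable g) (j : Fin (m + 1)) (σ : Bool) :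
    ∫⁻ t in Ioo 0 R, ∫⁻ z in Metric.ball (fun i => x₀ (j.succAbove i)) R,
        g (GoodCube_fp x₀ j σ t z) ≤ ∫⁻ x in Metric.ball x₀ R, g x := by
  rw [GoodCube_fubini x₀ hR g hg j]
  set Φ : ℝ → ℝ≥0∞ := fun τ => ∫⁻ z in Metric.ball (fun i => x₀ (j.succAbove i)) R,
        g (j.insertNth (α := fun _ => ℝ) τ z) with hΦ
  change ∫⁻ t in Ioo 0 R, Φ (x₀ j + (if σ then t else -t)) ≤ ∫⁻ τ in Metric.ball (x₀ j) R, Φ τ
  rw [← lintegral_indicator measurableSet_Ioo,
    ← lintegral_indicator Metric.isOpen_ball.measurableSet]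
  cases σ with
  | true =>
    rw [← lintegral_add_left_eq_self ((Metric.ball (x₀ j) R).indicator Φ) (x₀ j)]
    apply lintegral_mono
    intro t
    by_cases ht : t ∈ Ioo 0 R
    · have h2 : x₀ j + t ∈ Metric.ball (x₀ j) R := by
        rw [Metric.mem_ball, Real.dist_eq]
        rw [abs_lt]
        constructor <;> linarith [ht.1, ht.2]
      simp only [indicator_of_mem ht, indicator_of_mem h2]
      simp
    · simp only [indicator_of_notMem ht]
      exact zero_le
  | false =>
    rw [← lintegral_sub_left_eq_self ((Metric.ball (x₀ j) R).indicator Φ) (x₀ j)]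
    apply lintegral_mono
    intro t
    by_cases ht : t ∈ Ioo 0 R
    · have h2 : x₀ j - t ∈ Metric.ball (x₀ j) R := by
        rw [Metric.mem_ball, Real.dist_eq]
        rw [abs_lt]
        constructor <;> linarith [ht.1, ht.2]
      simp only [indicator_of_mem ht, indicator_of_mem h2]
      simp [sub_eq_add_neg]
    · simp only [indicator_of_notMem ht]
      exact zero_le

/-- selection of a good radius by Fatou's lemma -/
theorem GoodCube_select {R : ℝ} (hR : 0 < R) (G : ℕ → ℝ → ℝ≥0∞) (hG : ∀ k, Measurable (G k))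
    (A : ℝ) (hA : 0 < A) (h : ∀ k, ∫⁻ t in Ioo 0 R, G k t ≤ ENNReal.ofReal A) :
    ∃ r, R / 2 < r ∧ r < R ∧ ∃ κ : ℕ → ℕ, StrictMono κ ∧
      ∀ k, G (κ k) r ≤ ENNReal.ofReal (3 * A / R) := by
  by_contra hcon
  push Not at hcon
  have h1 : ∀ r ∈ Ioo (R / 2) R,
      ENNReal.ofReal (3 * A / R) ≤ liminf (fun k => G k r) atTop := by
    intro r hr
    apply le_liminf_of_le
    · isBoundedDefault
    by_contra hne
    rw [not_eventually] at hne
    obtain ⟨κ, hκ, hκ2⟩ := extraction_of_frequently_atTop hne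
    obtain ⟨k, hk⟩ := hcon r hr.1 hr.2 κ hκ
    exact hκ2 k hk.le
  have h2 : ∫⁻ _ in Ioo (R / 2) R, ENNReal.ofReal (3 * A / R) ≤
      ∫⁻ r in Ioo (R / 2) R, liminf (fun k => G k r) atTop :=
    setLIntegral_mono' measurableSet_Ioo h1
  have h3 : ∫⁻ r in Ioo (R / 2) R, liminf (fun k => G k r) atTop ≤
      liminf (fun k => ∫⁻ r in Ioo (R / 2) R, G k r) atTop := lintegral_liminf_le hG
  have h4 : liminf (fun k => ∫⁻ r in Ioo (R / 2) R, G k r) atTop ≤ ENNReal.ofReal A := by
    refine liminf_le_of_frequently_le' (Frequently.of_forall fun k => ?_)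
    refine le_trans (lintegral_mono_set ?_) (h k)
    intro x hx
    exact ⟨by linarith [hx.1], hx.2⟩
  have h5 := (h2.trans h3).trans h4
  rw [setLIntegral_const, Real.volume_Ioo, ← ENNReal.ofReal_mul (by positivity)] at h5
  rw [ENNReal.ofReal_le_ofReal_iff hA.le] at h5
  have h6 : 3 * A / R * (R - R / 2) = 3 / 2 * A := by
    field_simp
    ring
  rw [h6] at h5
  linarith

theorem GoodCube_contDiff_fp {m : ℕ} (x₀ : E (m + 1)) (j : Fin (m + 1)) (σ : Bool) (t : ℝ) :
    ContDiff ℝ 1 fun z : E m => GoodCube_fp x₀ j σ t z := by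
  unfold GoodCube_fp
  rw [contDiff_pi]
  rw [Fin.forall_iff_succAbove j]
  constructor
  · simp only [Fin.insertNth_apply_same]
    exact contDiff_const
  · intro i
    simp only [Fin.insertNth_apply_succAbove]
    exact contDiff_apply ℝ ℝ i

theorem GoodCube_pd {m : ℕ} (x₀ : E (m + 1)) (j : Fin (m + 1)) (σ : Bool) (t : ℝ)
    (w : E (m + 1) → E (m + 2)) (hw : ContDiff ℝ 1 w) (i : Fin (m + 2)) (z : E m) (l : Fin m) :
    pd (fun z : E m => w (GoodCube_fp x₀ j σ t z) i) l z =
      Jac w (GoodCube_fp x₀ j σ t z) i (j.succAbove l) := by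
  have hf := GoodCube_contDiff_fp x₀ j σ t
  have hwd := hw.differentiable one_ne_zero
  have hfd := hf.differentiable one_ne_zero
  rw [pd_component (w := fun z : E m => w (GoodCube_fp x₀ j σ t z))
    ((hwd _).comp z (hfd z)) i l, Jac_comp (hwd _) (hfd z) i l]
  rw [Fin.sum_univ_succAbove _ j]
  have h1 : Jac (fun z : E m => GoodCube_fp x₀ j σ t z) z j l = 0 := by
    rw [← pd_component (hfd z)]
    unfold GoodCube_fp
    simp only [Fin.insertNth_apply_same]
    rw [pd, fderiv_fun_const]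
    simp
  have h2 : ∀ i : Fin m, Jac (fun z : E m => GoodCube_fp x₀ j σ t z) z (j.succAbove i) l =
      if i = l then 1 else 0 := by
    intro i
    rw [← pd_component (hfd z)]
    unfold GoodCube_fp
    simp only [Fin.insertNth_apply_succAbove]
    rw [pd]
    have : HasFDerivAt (fun z : E m => z i)
      (ContinuousLinearMap.proj (R := ℝ) (φ := fun _ : Fin m => ℝ) i) z :=
        (ContinuousLinearMap.proj (R := ℝ) (φ := fun _ : Fin m => ℝ) i).hasFDerivAt
    rw [this.fderiv]
    simp [Pi.single_apply]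
  rw [h1]
  simp only [h2]
  simp

/-- oscillation on a face -/
theorem GoodCube_osc {m : ℕ} (hm : 1 ≤ m) : ∃ C : ℝ, 0 < C ∧
    ∀ (w : E (m + 1) → E (m + 2)), ContDiff ℝ 1 w → ∀ (x₀ : E (m + 1)) (j : Fin (m + 1))
      (σ : Bool) (r R D : ℝ), 0 < r → r < R → 0 ≤ D →
      ∫⁻ z in Metric.ball (fun i => x₀ (j.succAbove i)) R,
        ENNReal.ofReal (fro (Jac w (GoodCube_fp x₀ j σ r z)) ^ (m + 1)) ≤
          ENNReal.ofReal (D / R) →
      ∀ z ∈ Metric.closedBall (fun i => x₀ (j.succAbove i)) r,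
      ∀ z' ∈ Metric.closedBall (fun i => x₀ (j.succAbove i)) r, ∀ i,
        |w (GoodCube_fp x₀ j σ r z) i - w (GoodCube_fp x₀ j σ r z') i| ≤
          C * D ^ (1 / ((m : ℝ) + 1)) := by
  obtain ⟨C, hC, hmor⟩ := morrey_cube hm
  refine ⟨C * m, by positivity, ?_⟩
  intro w hw x₀ j σ r R D hr hrR hD hint z hz z' hz' i
  set z₀ : E m := fun i => x₀ (j.succAbove i) with hz₀
  have hR : 0 < R := hr.trans hrR
  have hf : ContDiff ℝ 1 (fun z : E m => w (GoodCube_fp x₀ j σ r z) i) :=
    (contDiff_pi.1 (hw.comp (GoodCube_contDiff_fp x₀ j σ r))) i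
  have h1 := hmor _ hf z₀ r hr z hz z' hz'
  refine h1.trans ?_
  have hfro : Continuous fun z : E m => fro (Jac w (GoodCube_fp x₀ j σ r z)) :=
    continuous_fro.comp ((continuous_Jac hw).comp (GoodCube_contDiff_fp x₀ j σ r).continuous)
  have h2 : ∀ z : E m, (∑ l, |pd (fun z : E m => w (GoodCube_fp x₀ j σ r z) i) l z|) ^ (m + 1) ≤
      (m : ℝ) ^ (m + 1) * fro (Jac w (GoodCube_fp x₀ j σ r z)) ^ (m + 1) := by
    intro z
    rw [← mul_pow]
    apply pow_le_pow_left₀ (Finset.sum_nonneg fun _ _ => abs_nonneg _)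
    calc ∑ l, |pd (fun z : E m => w (GoodCube_fp x₀ j σ r z) i) l z|
        ≤ ∑ _l : Fin m, fro (Jac w (GoodCube_fp x₀ j σ r z)) := by
          apply Finset.sum_le_sum
          intro l _
          rw [GoodCube_pd x₀ j σ r w hw i z l]
          exact abs_entry_le_fro _ _ _
      _ = m * fro (Jac w (GoodCube_fp x₀ j σ r z)) := by simp
  have hcomp : IsCompact (Metric.closedBall z₀ r) := isCompact_closedBall _ _
  have h3 : ∫ z in Metric.closedBall z₀ r,
      (∑ l, |pd (fun z : E m => w (GoodCube_fp x₀ j σ r z) i) l z|) ^ (m + 1) ≤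
      (m : ℝ) ^ (m + 1) * (D / R) := by
    have h4 : ∫ z in Metric.closedBall z₀ r,
      (∑ l, |pd (fun z : E m => w (GoodCube_fp x₀ j σ r z) i) l z|) ^ (m + 1) ≤
      ∫ z in Metric.closedBall z₀ r,
        (m : ℝ) ^ (m + 1) * fro (Jac w (GoodCube_fp x₀ j σ r z)) ^ (m + 1) := by
      apply setIntegral_mono_on _ _ hcomp.measurableSet (fun z _ => h2 z)
      · apply ContinuousOn.integrableOn_compact hcomp
        apply Continuous.continuousOn
        have : ∀ l, Continuous fun z => pd (fun z : E m => w (GoodCube_fp x₀ j σ r z) i) l z := by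
          intro l
          unfold pd
          exact (hf.continuous_fderiv one_ne_zero).clm_apply continuous_const
        fun_prop
      · apply ContinuousOn.integrableOn_compact hcomp
        apply Continuous.continuousOn
        fun_prop
    refine h4.trans ?_
    rw [integral_const_mul]
    apply mul_le_mul_of_nonneg_left _ (by positivity)
    rw [integral_eq_lintegral_of_nonneg_ae (Eventually.of_forall fun z => by
      have := fro_nonneg (Jac w (GoodCube_fp x₀ j σ r z))
      positivity) (by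
        apply Continuous.aestronglyMeasurable
        fun_prop)]
    apply ENNReal.toReal_le_of_le_ofReal (by positivity)
    refine le_trans (lintegral_mono_set ?_) hint
    exact Metric.closedBall_subset_ball hrR
  have hnn : 0 ≤ ∫ z in Metric.closedBall z₀ r,
      (∑ l, |pd (fun z : E m => w (GoodCube_fp x₀ j σ r z) i) l z|) ^ (m + 1) := by
    apply setIntegral_nonneg hcomp.measurableSet
    intro z _
    positivity
  have hm1 : (0 : ℝ) < (m : ℝ) + 1 := by positivity
  calc C * r ^ (1 / ((m : ℝ) + 1)) * (∫ z in Metric.closedBall z₀ r,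
        (∑ l, |pd (fun z : E m => w (GoodCube_fp x₀ j σ r z) i) l z|) ^ (m + 1)) ^
          (1 / ((m : ℝ) + 1))
      ≤ C * r ^ (1 / ((m : ℝ) + 1)) * ((m : ℝ) ^ (m + 1) * (D / R)) ^ (1 / ((m : ℝ) + 1)) := by
        apply mul_le_mul_of_nonneg_left _ (by positivity)
        exact Real.rpow_le_rpow hnn h3 (by positivity)
    _ = C * (r * ((m : ℝ) ^ (m + 1) * (D / R))) ^ (1 / ((m : ℝ) + 1)) := by
        rw [Real.mul_rpow hr.le (by positivity)]
        ring
    _ ≤ C * ((m : ℝ) ^ (m + 1) * D) ^ (1 / ((m : ℝ) + 1)) := by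
        apply mul_le_mul_of_nonneg_left _ hC.le
        apply Real.rpow_le_rpow (by positivity) _ (by positivity)
        have : r * ((m : ℝ) ^ (m + 1) * (D / R)) = (r / R) * ((m : ℝ) ^ (m + 1) * D) := by
          field_simp
        rw [this]
        apply mul_le_of_le_one_left (by positivity)
        rw [div_le_one hR]
        exact hrR.le
    _ = C * m * D ^ (1 / ((m : ℝ) + 1)) := by
        rw [Real.mul_rpow (by positivity) hD, ← Real.rpow_natCast, ← Real.rpow_mul (by positivity)]
        have : (((m + 1 : ℕ) : ℝ)) * (1 / ((m : ℝ) + 1)) = 1 := by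
          push_cast
          field_simp
        rw [this, Real.rpow_one]
        ring

/-- bound of the value at a point of a face -/
theorem GoodCube_bdd {m : ℕ} (w : E (m + 1) → E (m + 2)) (x₀ : E (m + 1)) (j : Fin (m + 1))
    (σ : Bool) {r R D B : ℝ} (hr : 0 < r) (hrR : r < R)
    (hint : ∫⁻ z in Metric.ball (fun i => x₀ (j.succAbove i)) R,
        ENNReal.ofReal ((∑ i, |w (GoodCube_fp x₀ j σ r z) i|) ^ (m + 1)) ≤ ENNReal.ofReal B)
    (z : E m) (i : Fin (m + 2))
    (hosc : ∀ z' ∈ Metric.closedBall (fun i => x₀ (j.succAbove i)) r,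
      |w (GoodCube_fp x₀ j σ r z) i - w (GoodCube_fp x₀ j σ r z') i| ≤ D) :
    |w (GoodCube_fp x₀ j σ r z) i| ≤ (|B| + 1) / (2 * r) ^ m + 1 + D := by
  set z₀ : E m := fun i => x₀ (j.succAbove i) with hz₀
  set L : ℝ := (|B| + 1) / (2 * r) ^ m + 1 with hL
  by_contra hcon
  push Not at hcon
  have hL1 : 1 ≤ L := by
    rw [hL]
    have : 0 ≤ (|B| + 1) / (2 * r) ^ m := by positivity
    linarith
  have h1 : ∀ z' ∈ Metric.closedBall z₀ r, ENNReal.ofReal L ≤
      ENNReal.ofReal ((∑ i, |w (GoodCube_fp x₀ j σ r z') i|) ^ (m + 1)) := by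
    intro z' hz'
    apply ENNReal.ofReal_le_ofReal
    have h2 := hosc z' hz'
    have h3 : L ≤ |w (GoodCube_fp x₀ j σ r z') i| := by
      have := abs_sub_abs_le_abs_sub (w (GoodCube_fp x₀ j σ r z) i)
        (w (GoodCube_fp x₀ j σ r z') i)
      linarith
    have h4 : |w (GoodCube_fp x₀ j σ r z') i| ≤ ∑ i, |w (GoodCube_fp x₀ j σ r z') i| :=
      Finset.single_le_sum (f := fun i => |w (GoodCube_fp x₀ j σ r z') i|)
        (fun _ _ => abs_nonneg _) (Finset.mem_univ i)
    have h5 : L ≤ ∑ i, |w (GoodCube_fp x₀ j σ r z') i| := h3.trans h4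
    calc L ≤ ∑ i, |w (GoodCube_fp x₀ j σ r z') i| := h5
      _ ≤ (∑ i, |w (GoodCube_fp x₀ j σ r z') i|) ^ (m + 1) :=
          le_self_pow₀ (hL1.trans h5) (by omega)
  have h6 : ∫⁻ _ in Metric.closedBall z₀ r, ENNReal.ofReal L ≤ ENNReal.ofReal B := by
    refine le_trans (setLIntegral_mono' Metric.isClosed_closedBall.measurableSet h1) ?_
    refine le_trans (lintegral_mono_set ?_) hint
    exact Metric.closedBall_subset_ball hrR
  rw [setLIntegral_const, Real.volume_pi_closedBall _ hr.le,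
    ← ENNReal.ofReal_mul (by positivity)] at h6
  have h7 : ENNReal.ofReal (L * (2 * r) ^ Fintype.card (Fin m)) ≤ ENNReal.ofReal |B| :=
    h6.trans (ENNReal.ofReal_le_ofReal (le_abs_self B))
  rw [ENNReal.ofReal_le_ofReal_iff (abs_nonneg B), Fintype.card_fin, hL] at h7
  have h8 : ((|B| + 1) / (2 * r) ^ m + 1) * (2 * r) ^ m = |B| + 1 + (2 * r) ^ m := by
    field_simp
  rw [h8] at h7
  have : 0 < (2 * r) ^ m := by positivity
  linarith

theorem GoodCube_fp_eq {m : ℕ} (x₀ x : E (m + 1)) (j : Fin (m + 1)) (σ : Bool) (r : ℝ)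
    (h : x j = x₀ j + (if σ then r else -r)) :
    GoodCube_fp x₀ j σ r (fun l => x (j.succAbove l)) = x := by
  unfold GoodCube_fp
  rw [← h]
  exact Fin.insertNth_self_removeNth j x

/-- comparison with the corner `x₀ + (r, ..., r)` -/
theorem GoodCube_corner {m : ℕ} (hm : 1 ≤ m) (w : E (m + 1) → E (m + 2)) (x₀ : E (m + 1))
    {r δ : ℝ} (hr : 0 < r)
    (h : ∀ (j : Fin (m + 1)) (σ : Bool), ∀ z ∈ Metric.closedBall (fun i => x₀ (j.succAbove i)) r,
      ∀ z' ∈ Metric.closedBall (fun i => x₀ (j.succAbove i)) r, ∀ i,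
        |w (GoodCube_fp x₀ j σ r z) i - w (GoodCube_fp x₀ j σ r z') i| ≤ δ)
    (x : E (m + 1)) (hx : ‖x - x₀‖ = r) (i : Fin (m + 2)) :
    |w x i - w (fun l => x₀ l + r) i| ≤ 2 * δ := by
  have key : ∀ (x y : E (m + 1)) (j : Fin (m + 1)) (σ : Bool),
      x j = x₀ j + (if σ then r else -r) → y j = x₀ j + (if σ then r else -r) →
      (∀ l, |x l - x₀ l| ≤ r) → (∀ l, |y l - x₀ l| ≤ r) → |w x i - w y i| ≤ δ := by
    intro x y j σ h1 h2 h3 h4
    have h5 := h j σ (fun l => x (j.succAbove l)) ?_ (fun l => y (j.succAbove l)) ?_ i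
    · rwa [GoodCube_fp_eq x₀ x j σ r h1, GoodCube_fp_eq x₀ y j σ r h2] at h5
    · rw [Metric.mem_closedBall, dist_pi_le_iff hr.le]
      intro l
      exact h3 _
    · rw [Metric.mem_closedBall, dist_pi_le_iff hr.le]
      intro l
      exact h4 _
  have hall : ∀ l, |x l - x₀ l| ≤ r := by
    intro l
    have := norm_le_pi_norm (x - x₀) l
    rw [hx] at this
    exact this
  obtain ⟨j, hj⟩ : ∃ j, |x j - x₀ j| = r := by
    by_contra hcon
    push Not at hcon
    have : ‖x - x₀‖ < r := by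
      rw [pi_norm_lt_iff hr]
      intro l
      exact lt_of_le_of_ne (hall l) (hcon l)
    linarith
  have hcor : ∀ l, |(fun l => x₀ l + r) l - x₀ l| ≤ r := by
    intro l
    simp [abs_of_pos hr]
  have hδ : 0 ≤ δ := by
    have := key (fun l => x₀ l + r) (fun l => x₀ l + r) j true
      (by simp) (by simp) hcor hcor
    simpa using this
  rcases abs_eq hr.le |>.1 hj with h1 | h1
  · have := key x (fun l => x₀ l + r) j true (by simp; linarith) (by simp) hall hcor
    linarith
  · obtain ⟨j', hj'⟩ : ∃ j' : Fin (m + 1), j' ≠ j := by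
      obtain ⟨m', rfl⟩ : ∃ m', m = m' + 1 := ⟨m - 1, by omega⟩
      exact exists_ne j
    set y : E (m + 1) := Function.update (fun l => x₀ l + r) j (x₀ j - r) with hy
    have hyb : ∀ l, |y l - x₀ l| ≤ r := by
      intro l
      by_cases hl : l = j
      · subst hl
        simp [hy, abs_of_pos hr]
      · simp [hy, hl, abs_of_pos hr]
    have h2 := key x y j false (by simp; linarith) (by simp [hy]; ring) hall hyb
    have h3 := key y (fun l => x₀ l + r) j' true (by simp [hy, hj']) (by simp) hyb hcor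
    have h4 := abs_sub_le (w x i) (w y i) (w (fun l => x₀ l + r) i)
    linarith

/-- GC : the good cube. -/
theorem good_cube {n : ℕ} (hn : 2 ≤ n) : ∃ C : ℝ, 0 < C ∧
    ∀ (x₀ : E n) (R : ℝ), 0 < R → ∀ U : ℕ → E n → E (n + 1), (∀ k, ContDiff ℝ 1 (U k)) →
    ∀ ε B : ℝ, 0 < ε →
      (∀ k, ∫⁻ x in Metric.ball x₀ R, ENNReal.ofReal (fro (Jac (U k) x) ^ n) ≤
        ENNReal.ofReal ε) →
      (∀ k, ∫⁻ x in Metric.ball x₀ R, ENNReal.ofReal ((∑ i, |U k x i|) ^ n) ≤
        ENNReal.ofReal B) →
      ∃ r : ℝ, R / 2 < r ∧ r < R ∧ ∃ a : E (n + 1), ∃ κ : ℕ → ℕ, StrictMono κ ∧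
        ∀ k x, ‖x - x₀‖ = r → ∀ i, |U (κ k) x i - a i| ≤ C * ε ^ (1 / (n : ℝ)) := by
  obtain ⟨m, rfl⟩ : ∃ m, n = m + 1 := ⟨n - 1, by omega⟩
  have hm : 1 ≤ m := by omega
  obtain ⟨C, hC, hosc⟩ := GoodCube_osc hm
  set c₀ : ℝ := 12 * ((m : ℝ) + 1) with hc₀
  refine ⟨2 * (C * c₀ ^ (1 / ((m : ℝ) + 1))) + 1, by positivity, ?_⟩
  intro x₀ R hR U hU ε B hε h1 h2
  have hcast : ((m + 1 : ℕ) : ℝ) = (m : ℝ) + 1 := by push_cast; ring
  rw [hcast]
  set a₁ : ℝ≥0∞ := ENNReal.ofReal (1 / ε) with ha₁
  set a₂ : ℝ≥0∞ := ENNReal.ofReal (1 / (|B| + 1)) with ha₂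
  set F : ℕ → E (m + 1) → ℝ≥0∞ := fun k x => ENNReal.ofReal (fro (Jac (U k) x) ^ (m + 1)) with hF
  set W : ℕ → E (m + 1) → ℝ≥0∞ := fun k x => ENNReal.ofReal ((∑ i, |U k x i|) ^ (m + 1)) with hW
  have hFm : ∀ k, Measurable (F k) := by
    intro k
    have : Continuous fun x => fro (Jac (U k) x) := continuous_fro.comp (continuous_Jac (hU k))
    exact (this.pow _).measurable.ennreal_ofReal
  have hWm : ∀ k, Measurable (W k) := by
    intro k
    have h0 : Continuous (U k) := (hU k).continuous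
    have : Continuous fun x => (∑ i, |U k x i|) ^ (m + 1) := by fun_prop
    exact this.measurable.ennreal_ofReal
  set G : ℕ → ℝ → ℝ≥0∞ := fun k t => ∑ j : Fin (m + 1), ∑ σ : Bool,
    ∫⁻ z in Metric.ball (fun i => x₀ (j.succAbove i)) R,
      (a₁ * F k (GoodCube_fp x₀ j σ t z) + a₂ * W k (GoodCube_fp x₀ j σ t z)) with hG
  have hinner : ∀ k j σ, Measurable fun t : ℝ =>
      ∫⁻ z in Metric.ball (fun i => x₀ (Fin.succAbove j i)) R,
      (a₁ * F k (GoodCube_fp x₀ j σ t z) + a₂ * W k (GoodCube_fp x₀ j σ t z)) := by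
    intro k j σ
    apply Measurable.lintegral_prod_right' (f := fun p : ℝ × E m =>
      a₁ * F k (GoodCube_fp x₀ j σ p.1 p.2) + a₂ * W k (GoodCube_fp x₀ j σ p.1 p.2))
    have hmeas := (GoodCube_continuous_fp x₀ j σ).measurable
    exact (((hFm k).comp hmeas).const_mul a₁).add (((hWm k).comp hmeas).const_mul a₂)
  have hGm : ∀ k, Measurable (G k) := by
    intro k
    exact Finset.measurable_fun_sum _ fun j _ => Finset.measurable_fun_sum _ fun σ _ =>
      hinner k j σ
  have hGint : ∀ k, ∫⁻ t in Ioo 0 R, G k t ≤ ENNReal.ofReal (4 * ((m : ℝ) + 1)) := by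
    intro k
    rw [hG]
    simp only
    rw [lintegral_finsetSum _ (fun j _ => Finset.measurable_fun_sum _ fun σ _ => hinner k j σ)]
    have h3 : ∀ (j : Fin (m + 1)) (σ : Bool), ∫⁻ t in Ioo 0 R,
        ∫⁻ z in Metric.ball (fun i => x₀ (j.succAbove i)) R,
      (a₁ * F k (GoodCube_fp x₀ j σ t z) + a₂ * W k (GoodCube_fp x₀ j σ t z)) ≤
        ENNReal.ofReal 2 := by
      intro j σ
      refine (GoodCube_face_le x₀ hR (fun x => a₁ * F k x + a₂ * W k x)
        (((hFm k).const_mul a₁).add ((hWm k).const_mul a₂)) j σ).trans ?_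
      rw [lintegral_add_left ((hFm k).const_mul a₁), lintegral_const_mul _ (hFm k),
        lintegral_const_mul _ (hWm k)]
      have h4 : a₁ * ∫⁻ x in Metric.ball x₀ R, F k x ≤ 1 := by
        calc a₁ * ∫⁻ x in Metric.ball x₀ R, F k x ≤ a₁ * ENNReal.ofReal ε := by
              gcongr
              exact h1 k
          _ = 1 := by
              rw [ha₁, ← ENNReal.ofReal_mul (by positivity), one_div,
                inv_mul_cancel₀ hε.ne', ENNReal.ofReal_one]
      have h5 : a₂ * ∫⁻ x in Metric.ball x₀ R, W k x ≤ 1 := by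
        calc a₂ * ∫⁻ x in Metric.ball x₀ R, W k x ≤ a₂ * ENNReal.ofReal B := by
              gcongr
              exact h2 k
          _ ≤ a₂ * ENNReal.ofReal (|B| + 1) := by
              gcongr
              linarith [le_abs_self B]
          _ = 1 := by
              rw [ha₂, ← ENNReal.ofReal_mul (by positivity), one_div,
                inv_mul_cancel₀ (by positivity), ENNReal.ofReal_one]
      calc _ ≤ (1 : ℝ≥0∞) + 1 := add_le_add h4 h5
        _ = ENNReal.ofReal 2 := by
          rw [ENNReal.ofReal_ofNat]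
          norm_num
    calc ∑ j : Fin (m + 1), ∫⁻ t in Ioo 0 R, ∑ σ : Bool,
          ∫⁻ z in Metric.ball (fun i => x₀ (j.succAbove i)) R,
            (a₁ * F k (GoodCube_fp x₀ j σ t z) + a₂ * W k (GoodCube_fp x₀ j σ t z))
        ≤ ∑ _j : Fin (m + 1), ∑ _σ : Bool, ENNReal.ofReal 2 := by
          apply Finset.sum_le_sum
          intro j _
          rw [lintegral_finsetSum _ (fun σ _ => hinner k j σ)]
          exact Finset.sum_le_sum fun σ _ => h3 j σ
      _ = ENNReal.ofReal (4 * ((m : ℝ) + 1)) := by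
          simp only [Finset.sum_const, Finset.card_univ, Fintype.card_bool, Fintype.card_fin,
            nsmul_eq_mul]
          rw [← ENNReal.ofReal_natCast, ← ENNReal.ofReal_natCast,
            ← ENNReal.ofReal_mul (by positivity), ← ENNReal.ofReal_mul (by positivity)]
          congr 1
          push_cast
          ring
  obtain ⟨r, hr1, hr2, κ₁, hκ₁, hκ₁G⟩ := GoodCube_select hR G hGm (4 * ((m : ℝ) + 1))
    (by positivity) hGint
  have hr : 0 < r := by linarith
  have hc : 3 * (4 * ((m : ℝ) + 1)) / R = c₀ / R := by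
    rw [hc₀]
    ring
  rw [hc] at hκ₁G
  have hface : ∀ k (j : Fin (m + 1)) (σ : Bool),
      ∫⁻ z in Metric.ball (fun i => x₀ (j.succAbove i)) R,
      (a₁ * F (κ₁ k) (GoodCube_fp x₀ j σ r z) + a₂ * W (κ₁ k) (GoodCube_fp x₀ j σ r z)) ≤
        ENNReal.ofReal (c₀ / R) := by
    intro k j σ
    refine le_trans ?_ (hκ₁G k)
    rw [hG]
    simp only
    refine le_trans ?_ (Finset.single_le_sum (f := fun j => ∑ σ : Bool,
      ∫⁻ z in Metric.ball (fun i => x₀ (Fin.succAbove j i)) R,
      (a₁ * F (κ₁ k) (GoodCube_fp x₀ j σ r z) + a₂ * W (κ₁ k) (GoodCube_fp x₀ j σ r z)))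
      (fun _ _ => bot_le) (Finset.mem_univ j))
    exact Finset.single_le_sum (f := fun σ =>
      ∫⁻ z in Metric.ball (fun i => x₀ (Fin.succAbove j i)) R,
      (a₁ * F (κ₁ k) (GoodCube_fp x₀ j σ r z) + a₂ * W (κ₁ k) (GoodCube_fp x₀ j σ r z)))
      (fun _ _ => bot_le) (Finset.mem_univ σ)
  have hFface : ∀ k (j : Fin (m + 1)) (σ : Bool),
      ∫⁻ z in Metric.ball (fun i => x₀ (j.succAbove i)) R, F (κ₁ k) (GoodCube_fp x₀ j σ r z) ≤
        ENNReal.ofReal (c₀ * ε / R) := by
    intro k j σ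
    have hm1 : Measurable fun z : E m => F (κ₁ k) (GoodCube_fp x₀ j σ r z) :=
      (hFm _).comp (GoodCube_contDiff_fp x₀ j σ r).continuous.measurable
    have h3 : a₁ * ∫⁻ z in Metric.ball (fun i => x₀ (j.succAbove i)) R,
        F (κ₁ k) (GoodCube_fp x₀ j σ r z) ≤ ENNReal.ofReal (c₀ / R) := by
      rw [← lintegral_const_mul _ hm1]
      exact le_trans (lintegral_mono fun z => le_self_add) (hface k j σ)
    calc ∫⁻ z in Metric.ball (fun i => x₀ (j.succAbove i)) R, F (κ₁ k) (GoodCube_fp x₀ j σ r z)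
        = ENNReal.ofReal ε * (a₁ * ∫⁻ z in Metric.ball (fun i => x₀ (j.succAbove i)) R,
            F (κ₁ k) (GoodCube_fp x₀ j σ r z)) := by
          rw [← mul_assoc, ha₁, ← ENNReal.ofReal_mul hε.le, mul_one_div_cancel hε.ne',
            ENNReal.ofReal_one, one_mul]
      _ ≤ ENNReal.ofReal ε * ENNReal.ofReal (c₀ / R) := by gcongr
      _ = ENNReal.ofReal (c₀ * ε / R) := by
          rw [← ENNReal.ofReal_mul hε.le]
          congr 1
          ring
  have hWface : ∀ k (j : Fin (m + 1)) (σ : Bool),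
      ∫⁻ z in Metric.ball (fun i => x₀ (j.succAbove i)) R, W (κ₁ k) (GoodCube_fp x₀ j σ r z) ≤
        ENNReal.ofReal (c₀ * (|B| + 1) / R) := by
    intro k j σ
    have hm1 : Measurable fun z : E m => W (κ₁ k) (GoodCube_fp x₀ j σ r z) :=
      (hWm _).comp (GoodCube_contDiff_fp x₀ j σ r).continuous.measurable
    have h3 : a₂ * ∫⁻ z in Metric.ball (fun i => x₀ (j.succAbove i)) R,
        W (κ₁ k) (GoodCube_fp x₀ j σ r z) ≤ ENNReal.ofReal (c₀ / R) := by
      rw [← lintegral_const_mul _ hm1]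
      exact le_trans (lintegral_mono fun z => le_add_self) (hface k j σ)
    have hB : 0 < |B| + 1 := by positivity
    calc ∫⁻ z in Metric.ball (fun i => x₀ (j.succAbove i)) R, W (κ₁ k) (GoodCube_fp x₀ j σ r z)
        = ENNReal.ofReal (|B| + 1) *
          (a₂ * ∫⁻ z in Metric.ball (fun i => x₀ (j.succAbove i)) R,
            W (κ₁ k) (GoodCube_fp x₀ j σ r z)) := by
          rw [← mul_assoc, ha₂, ← ENNReal.ofReal_mul hB.le, mul_one_div_cancel hB.ne',
            ENNReal.ofReal_one, one_mul]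
      _ ≤ ENNReal.ofReal (|B| + 1) * ENNReal.ofReal (c₀ / R) := by gcongr
      _ = ENNReal.ofReal (c₀ * (|B| + 1) / R) := by
          rw [← ENNReal.ofReal_mul hB.le]
          congr 1
          ring
  set δ : ℝ := C * (c₀ * ε) ^ (1 / ((m : ℝ) + 1)) with hδ
  have hosc' : ∀ k (j : Fin (m + 1)) (σ : Bool),
      ∀ z ∈ Metric.closedBall (fun i => x₀ (j.succAbove i)) r,
      ∀ z' ∈ Metric.closedBall (fun i => x₀ (j.succAbove i)) r, ∀ i,
        |U (κ₁ k) (GoodCube_fp x₀ j σ r z) i - U (κ₁ k) (GoodCube_fp x₀ j σ r z') i| ≤ δ := by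
    intro k j σ
    exact hosc (U (κ₁ k)) (hU _) x₀ j σ r R (c₀ * ε) hr hr2 (by positivity) (hFface k j σ)
  set xs : E (m + 1) := fun l => x₀ l + r with hxs
  have hcorner : ∀ k x, ‖x - x₀‖ = r → ∀ i, |U (κ₁ k) x i - U (κ₁ k) xs i| ≤ 2 * δ := by
    intro k x hx i
    exact GoodCube_corner hm (U (κ₁ k)) x₀ hr (hosc' k) x hx i
  set L : ℝ := (|c₀ * (|B| + 1) / R| + 1) / (2 * r) ^ m + 1 + δ with hL
  have hbdd : ∀ k i, |U (κ₁ k) xs i| ≤ L := by
    intro k i
    have h3 : GoodCube_fp x₀ 0 true r (fun l => xs ((0 : Fin (m + 1)).succAbove l)) = xs :=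
      GoodCube_fp_eq x₀ xs 0 true r (by simp [hxs])
    have h4 := GoodCube_bdd (U (κ₁ k)) x₀ 0 true hr hr2 (hWface k 0 true)
      (fun l => xs ((0 : Fin (m + 1)).succAbove l)) i (D := δ) ?_
    · rw [h3] at h4
      exact h4
    · intro z' hz'
      apply hosc' k 0 true _ _ _ hz' i
      rw [Metric.mem_closedBall, dist_pi_le_iff hr.le]
      intro l
      simp [hxs, abs_of_pos hr]
  have hLnn : 0 ≤ L := (abs_nonneg _).trans (hbdd 0 0)
  obtain ⟨a, -, φ, hφ, hφa⟩ := tendsto_subseq_of_bounded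
    (Metric.isBounded_closedBall (x := (0 : E (m + 2))) (r := L))
    (x := fun k => U (κ₁ k) xs) (fun k => by
      rw [Metric.mem_closedBall, dist_pi_le_iff hLnn]
      intro i
      simpa [Real.dist_eq] using hbdd k i)
  have hεp : 0 < ε ^ (1 / ((m : ℝ) + 1)) := by positivity
  obtain ⟨k₀, hk₀⟩ := Metric.tendsto_atTop.1 hφa _ hεp
  refine ⟨r, hr1, hr2, a, fun k => κ₁ (φ (k + k₀)), ?_, ?_⟩
  · intro k k' hkk
    exact hκ₁ (hφ (by omega))
  · intro k x hx i
    have h3 := hcorner (φ (k + k₀)) x hx i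
    have h4 : |U (κ₁ (φ (k + k₀))) xs i - a i| ≤ ε ^ (1 / ((m : ℝ) + 1)) := by
      have h5 := hk₀ (k + k₀) (by omega)
      have h6 := dist_le_pi_dist ((fun k => U (κ₁ k) xs) (φ (k + k₀))) a i
      rw [Real.dist_eq] at h6
      exact h6.trans h5.le
    have h7 := abs_sub_le (U (κ₁ (φ (k + k₀))) x i) (U (κ₁ (φ (k + k₀))) xs i) (a i)
    have h8 : δ = C * c₀ ^ (1 / ((m : ℝ) + 1)) * ε ^ (1 / ((m : ℝ) + 1)) := by
      rw [hδ, Real.mul_rpow (by positivity) hε.le]
      ring
    calc |U (κ₁ (φ (k + k₀))) x i - a i| ≤ 2 * δ + ε ^ (1 / ((m : ℝ) + 1)) := by linarith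
      _ = (2 * (C * c₀ ^ (1 / ((m : ℝ) + 1))) + 1) * ε ^ (1 / ((m : ℝ) + 1)) := by
        rw [h8]
        ring

end Pool.Agent.Lib.HSys
end

section

/-!
# Existence of local approximations
-/

set_option autoImplicit false
open MeasureTheory Set Filter Topology
open scoped ENNReal Matrix

namespace Pool.Agent.Lib.HSys

/-! ### Auxiliary facts -/

theorem locAp_eLpNorm_pow {n : ℕ} (hn : 1 ≤ n) {α : Type*} [MeasurableSpace α] (μ : Measure α)
    {f : α → ℝ} (hf : ∀ x, 0 ≤ f x) :
    (eLpNorm f (n : ENNReal) μ) ^ n = ∫⁻ x, ENNReal.ofReal (f x ^ n) ∂μ := by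
  have hn0 : (n : ENNReal) ≠ 0 := by
    simp only [ne_eq, Nat.cast_eq_zero]; omega
  have hnR : (n : ℝ) ≠ 0 := by
    simp only [ne_eq, Nat.cast_eq_zero]; omega
  rw [eLpNorm_eq_lintegral_rpow_enorm_toReal hn0 (ENNReal.natCast_ne_top n), ENNReal.toReal_natCast,
    ← ENNReal.rpow_natCast, ← ENNReal.rpow_mul, one_div, inv_mul_cancel₀ hnR, ENNReal.rpow_one]
  refine lintegral_congr fun x => ?_
  rw [ENNReal.rpow_natCast, Real.enorm_eq_ofReal (hf x), ENNReal.ofReal_pow (hf x)]

theorem locAp_fro_le_sum {m n : ℕ} (P : Matrix (Fin m) (Fin n) ℝ) :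
    fro P ≤ ∑ a, ∑ b, |P a b| := by
  unfold fro
  apply Real.sqrt_le_iff.2
  refine ⟨Finset.sum_nonneg fun _ _ => Finset.sum_nonneg fun _ _ => abs_nonneg _, ?_⟩
  calc ∑ a, ∑ b, P a b ^ 2 ≤ ∑ a, (∑ b, |P a b|) ^ 2 := by
        apply Finset.sum_le_sum
        intro a _
        calc ∑ b, P a b ^ 2 = ∑ b, |P a b| ^ 2 := by simp only [sq_abs]
          _ ≤ _ := Finset.sum_sq_le_sq_sum_of_nonneg (fun b _ => abs_nonneg _)
    _ ≤ (∑ a, ∑ b, |P a b|) ^ 2 :=
        Finset.sum_sq_le_sq_sum_of_nonneg (fun a _ => Finset.sum_nonneg fun _ _ => abs_nonneg _)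

theorem locAp_aesm_fro {m n : ℕ} {α : Type*} [MeasurableSpace α] {μ : Measure α}
    {P : α → Matrix (Fin m) (Fin n) ℝ} (hP : ∀ i j, AEStronglyMeasurable (fun x => P x i j) μ) :
    AEStronglyMeasurable (fun x => fro (P x)) μ := by
  unfold fro
  apply Real.continuous_sqrt.comp_aestronglyMeasurable
  refine Finset.aestronglyMeasurable_fun_sum _ fun i _ => ?_
  refine Finset.aestronglyMeasurable_fun_sum _ fun j _ => ?_
  exact (hP i j).pow 2

theorem locAp_pointwise {m n : ℕ} (P Q : Matrix (Fin m) (Fin n) ℝ) :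
    fro P ≤ ((m * n : ℕ) : ℝ) * fro Q + ∑ i, ∑ j, |P i j - Q i j| := by
  calc fro P ≤ ∑ i, ∑ j, |P i j| := locAp_fro_le_sum _
    _ ≤ ∑ i : Fin m, ∑ j : Fin n, (fro Q + |P i j - Q i j|) := by
      refine Finset.sum_le_sum fun i _ => Finset.sum_le_sum fun j _ => ?_
      have h2 := abs_entry_le_fro Q i j
      have h3 : |P i j| ≤ |Q i j| + |P i j - Q i j| := by
        have := abs_add_le (Q i j) (P i j - Q i j)
        rwa [add_sub_cancel] at this
      linarith
    _ = ((m * n : ℕ) : ℝ) * fro Q + ∑ i, ∑ j, |P i j - Q i j| := by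
      simp only [Finset.sum_add_distrib, Finset.sum_const, Finset.card_univ, Fintype.card_fin,
        nsmul_eq_mul]
      push_cast
      ring

theorem locAp_grad {m n : ℕ} (hn : 1 ≤ n) {α : Type*} [MeasurableSpace α] (μ : Measure α)
    (P Q : α → Matrix (Fin m) (Fin n) ℝ)
    (hP : ∀ i j, AEStronglyMeasurable (fun x => P x i j) μ)
    (hQ : ∀ i j, AEStronglyMeasurable (fun x => Q x i j) μ) :
    eLpNorm (fun x => fro (P x)) (n : ENNReal) μ ≤
      ENNReal.ofReal (m * n : ℕ) * eLpNorm (fun x => fro (Q x)) (n : ENNReal) μ +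
      ∑ i, ∑ j, eLpNorm (fun x => P x i j - Q x i j) (n : ENNReal) μ := by
  have hn1' : (1 : ENNReal) ≤ (n : ENNReal) := by exact_mod_cast hn
  have hdm : ∀ i j, AEStronglyMeasurable (fun x => |P x i j - Q x i j|) μ := fun i j =>
    ((hP i j).sub (hQ i j)).norm
  have hfm : AEStronglyMeasurable (fun x => fro (Q x)) μ := locAp_aesm_fro hQ
  let F₁ : α → ℝ := ((m * n : ℕ) : ℝ) • (fun x => fro (Q x))
  let F₂ : α → ℝ := ∑ i, ∑ j, (fun x => |P x i j - Q x i j|)
  have hF₂ : AEStronglyMeasurable F₂ μ := Finset.aestronglyMeasurable_sum _ fun i _ =>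
    Finset.aestronglyMeasurable_sum _ fun j _ => hdm i j
  have h1 : eLpNorm (fun x => fro (P x)) (n : ENNReal) μ ≤ eLpNorm (F₁ + F₂) (n : ENNReal) μ := by
    apply eLpNorm_mono_real
    intro x
    rw [Real.norm_eq_abs, abs_of_nonneg (fro_nonneg _)]
    have h := locAp_pointwise (P x) (Q x)
    simp only [F₁, F₂, Pi.add_apply, Pi.smul_apply, smul_eq_mul, Finset.sum_apply]
    exact h
  have h2 : eLpNorm (F₁ + F₂) (n : ENNReal) μ ≤
      eLpNorm F₁ (n : ENNReal) μ + eLpNorm F₂ (n : ENNReal) μ :=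
    eLpNorm_add_le (hfm.const_smul _) hF₂ hn1'
  have h3 : eLpNorm F₁ (n : ENNReal) μ =
      ENNReal.ofReal (m * n : ℕ) * eLpNorm (fun x => fro (Q x)) (n : ENNReal) μ := by
    rw [eLpNorm_const_smul, Real.enorm_eq_ofReal (Nat.cast_nonneg _)]
  have h4 : eLpNorm F₂ (n : ENNReal) μ ≤
      ∑ i, ∑ j, eLpNorm (fun x => P x i j - Q x i j) (n : ENNReal) μ := by
    refine (eLpNorm_sum_le (fun i _ => Finset.aestronglyMeasurable_sum _ fun j _ =>
      hdm i j) hn1').trans (Finset.sum_le_sum fun i _ => ?_)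
    refine (eLpNorm_sum_le (fun j _ => hdm i j) hn1').trans
      (Finset.sum_le_sum fun j _ => ?_)
    exact (eLpNorm_norm (fun x => P x i j - Q x i j)).le
  calc eLpNorm (fun x => fro (P x)) (n : ENNReal) μ ≤ _ := h1
    _ ≤ _ := h2
    _ ≤ _ := by rw [h3]; exact add_le_add le_rfl h4

/-- LA : existence of local approximations. -/
theorem exists_locApprox {n : ℕ} (hn : 2 ≤ n) : ∃ C : ℝ, 0 < C ∧
    ∀ {Ω : Set (E n)}, IsOpen Ω → ∀ {u : E n → E (n + 1)}
      {Du : E n → Matrix (Fin (n + 1)) (Fin n) ℝ}, IsSob n Ω u Du →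
    ∀ (x₀ : E n) (R : ℝ), 0 < R → Metric.closedBall x₀ R ⊆ Ω → ∀ ε : ℝ, 0 < ε →
      (∫⁻ x in Metric.ball x₀ R, ENNReal.ofReal (fro (Du x) ^ n) ≤ ENNReal.ofReal ε) →
      ∃ r : ℝ, R / 2 < r ∧ r < R ∧ ∃ (a : E (n + 1)) (U : ℕ → E n → E (n + 1)),
        LocApprox n x₀ r u Du a (C * ε ^ (1 / (n : ℝ))) U := by
  obtain ⟨C₀, hC₀, hgc⟩ := good_cube hn
  have hn1 : 1 ≤ n := by omega
  -- the number of entries plus one
  set L : ℝ := ((n + 1) * n : ℕ) + 1 with hL
  have hLpos : 0 < L := by positivity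
  refine ⟨C₀ * L, by positivity, ?_⟩
  intro Ω hΩ u Du hu x₀ R hR hsub ε hε hint
  obtain ⟨V, hV, hVu, hVDu, hVuL, hVDuL⟩ := exists_approx hn1 hΩ hu hR hsub
  set μ : Measure (E n) := volume.restrict (Metric.ball x₀ R) with hμ
  have hballΩ : Metric.ball x₀ R ⊆ Ω := Metric.ball_subset_closedBall.trans hsub
  have hμle : μ ≤ volume.restrict Ω := Measure.restrict_mono hballΩ le_rfl
  have hn1' : (1 : ENNReal) ≤ (n : ENNReal) := by exact_mod_cast hn1
  have memDu : ∀ i j, MemLp (fun x => Du x i j) (n : ENNReal) μ :=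
    fun i j => (hu.memDu i j).mono_measure hμle
  have memu : MemLp u (n : ENNReal) μ := hu.memu.mono_measure hμle
  have memui : ∀ i, MemLp (fun x => u x i) (n : ENNReal) μ := by
    intro i
    refine MemLp.mono memu ((continuous_apply i).comp_aestronglyMeasurable memu.1) ?_
    exact Eventually.of_forall fun x => norm_le_pi_norm (u x) i
  have hVc : ∀ k i, Continuous (fun x => V k x i) := fun k i =>
    (continuous_apply i).comp (hV k).continuous
  have hV1 : ∀ k, ContDiff ℝ 1 (V k) := fun k => (hV k).of_le (by exact_mod_cast le_top)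
  have hJc : ∀ k i j, Continuous (fun x => Jac (V k) x i j) := fun k i j =>
    continuous_Jac_apply (hV1 k) i j
  -- the gradient
  have hDufro : eLpNorm (fun x => fro (Du x)) (n : ENNReal) μ ≤
      (ENNReal.ofReal ε) ^ (1 / (n : ℝ)) := by
    have h1 := locAp_eLpNorm_pow hn1 μ (f := fun x => fro (Du x)) (fun x => fro_nonneg _)
    have h2 : (eLpNorm (fun x => fro (Du x)) (n : ENNReal) μ) ^ n ≤ ENNReal.ofReal ε := by
      rw [h1]; exact hint
    rw [one_div, ENNReal.le_rpow_inv_iff (by exact_mod_cast (by omega : 0 < n)),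
      ENNReal.rpow_natCast]
    exact h2
  have hpos : 0 < (ENNReal.ofReal ε) ^ (1 / (n : ℝ)) :=
    ENNReal.rpow_pos (ENNReal.ofReal_pos.2 hε) ENNReal.ofReal_ne_top
  have hsumto : Tendsto (fun k => ∑ i, ∑ j, eLpNorm (fun x => Jac (V k) x i j - Du x i j)
      (n : ENNReal) μ) atTop (𝓝 0) := by
    have : (0 : ENNReal) = ∑ _i : Fin (n + 1), ∑ _j : Fin n, 0 := by simp
    rw [this]
    exact tendsto_finsetSum _ fun i _ => tendsto_finsetSum _ fun j _ => hVDuL i j
  have hev1 : ∀ᶠ k in atTop, ∑ i, ∑ j, eLpNorm (fun x => Jac (V k) x i j - Du x i j)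
      (n : ENNReal) μ < (ENNReal.ofReal ε) ^ (1 / (n : ℝ)) :=
    hsumto.eventually (gt_mem_nhds hpos)
  have hgrad : ∀ k, eLpNorm (fun x => fro (Jac (V k) x)) (n : ENNReal) μ ≤
      ENNReal.ofReal ((n + 1) * n : ℕ) * eLpNorm (fun x => fro (Du x)) (n : ENNReal) μ +
      ∑ i, ∑ j, eLpNorm (fun x => Jac (V k) x i j - Du x i j) (n : ENNReal) μ := fun k =>
    locAp_grad hn1 μ (Jac (V k)) Du (fun i j => (hJc k i j).aestronglyMeasurable)
      (fun i j => (memDu i j).1)
  -- the map itself
  have hBfin : ∑ i, (eLpNorm (fun x => u x i) (n : ENNReal) μ + 1) ≠ ⊤ := by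
    rw [ENNReal.sum_ne_top]
    intro i _
    exact ENNReal.add_ne_top.2 ⟨(memui i).2.ne, ENNReal.one_ne_top⟩
  set B : ENNReal := (∑ i, (eLpNorm (fun x => u x i) (n : ENNReal) μ + 1)) ^ n with hB
  have hBfin' : B ≠ ⊤ := ENNReal.pow_ne_top hBfin
  have hev2 : ∀ᶠ k in atTop, ∀ i, eLpNorm (fun x => V k x i - u x i) (n : ENNReal) μ < 1 := by
    rw [eventually_all]
    intro i
    exact (hVuL i).eventually (gt_mem_nhds one_pos)
  have hmap : ∀ k, (∀ i, eLpNorm (fun x => V k x i - u x i) (n : ENNReal) μ < 1) →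
      ∫⁻ x, ENNReal.ofReal ((∑ i, |V k x i|) ^ n) ∂μ ≤ ENNReal.ofReal B.toReal := by
    intro k hk
    rw [ENNReal.ofReal_toReal hBfin', ← locAp_eLpNorm_pow hn1 μ
      (f := fun x => ∑ i, |V k x i|) (fun x => Finset.sum_nonneg fun _ _ => abs_nonneg _), hB]
    apply pow_le_pow_left'
    have e1 : (fun x => ∑ i, |V k x i|) = ∑ i, (fun x => |V k x i|) := by
      funext x
      simp only [Finset.sum_apply]
    rw [e1]
    refine (eLpNorm_sum_le (fun i _ => (hVc k i).aestronglyMeasurable.norm) hn1').trans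
      (Finset.sum_le_sum fun i _ => ?_)
    calc eLpNorm (fun x => |V k x i|) (n : ENNReal) μ = eLpNorm (fun x => V k x i) (n : ENNReal) μ :=
          eLpNorm_norm (fun x => V k x i)
      _ = eLpNorm ((fun x => u x i) + (fun x => V k x i - u x i)) (n : ENNReal) μ := by
          congr 1
          funext x
          simp
      _ ≤ eLpNorm (fun x => u x i) (n : ENNReal) μ +
          eLpNorm (fun x => V k x i - u x i) (n : ENNReal) μ :=
          eLpNorm_add_le (memui i).1 ((hVc k i).aestronglyMeasurable.sub (memui i).1) hn1'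
      _ ≤ _ := add_le_add le_rfl (hk i).le
  -- drop finitely many indices
  obtain ⟨K, hK⟩ := eventually_atTop.1 (hev1.and hev2)
  have hgood := hgc x₀ R hR (fun k => V (k + K)) (fun k => hV1 _) (L ^ n * ε) B.toReal
    (by positivity) ?_ (fun k => hmap (k + K) (hK (k + K) (by omega)).2)
  swap
  · intro k
    have h1 := (hK (k + K) (by omega)).1
    have h2 := hgrad (k + K)
    have h3 : eLpNorm (fun x => fro (Jac (V (k + K)) x)) (n : ENNReal) μ ≤
        ENNReal.ofReal L * (ENNReal.ofReal ε) ^ (1 / (n : ℝ)) := by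
      calc eLpNorm (fun x => fro (Jac (V (k + K)) x)) (n : ENNReal) μ
          ≤ ENNReal.ofReal ((n + 1) * n : ℕ) * (ENNReal.ofReal ε) ^ (1 / (n : ℝ)) +
            (ENNReal.ofReal ε) ^ (1 / (n : ℝ)) := by
            refine h2.trans (add_le_add ?_ h1.le)
            gcongr
        _ = ENNReal.ofReal L * (ENNReal.ofReal ε) ^ (1 / (n : ℝ)) := by
            rw [hL, ENNReal.ofReal_add (Nat.cast_nonneg _) zero_le_one, ENNReal.ofReal_one]
            ring
    rw [← locAp_eLpNorm_pow hn1 μ (f := fun x => fro (Jac (V (k + K)) x)) (fun x => fro_nonneg _)]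
    calc (eLpNorm (fun x => fro (Jac (V (k + K)) x)) (n : ENNReal) μ) ^ n
        ≤ (ENNReal.ofReal L * (ENNReal.ofReal ε) ^ (1 / (n : ℝ))) ^ n := by
          apply pow_le_pow_left' h3
      _ = ENNReal.ofReal (L ^ n * ε) := by
          rw [mul_pow, ← ENNReal.rpow_natCast (ENNReal.ofReal ε ^ (1 / (n : ℝ))),
            ← ENNReal.rpow_mul, one_div, inv_mul_cancel₀ (by
              simp only [ne_eq, Nat.cast_eq_zero]; omega), ENNReal.rpow_one,
            ENNReal.ofReal_mul (by positivity), ENNReal.ofReal_pow hLpos.le]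
  obtain ⟨r, hr1, hr2, a, κ, hκ, hbd⟩ := hgood
  refine ⟨r, hr1, hr2, a, fun k => V (κ k + K), ?_⟩
  have hsubr : Metric.ball x₀ r ⊆ Metric.ball x₀ R := Metric.ball_subset_ball hr2.le
  have hμr : volume.restrict (Metric.ball x₀ r) ≤ μ := Measure.restrict_mono hsubr le_rfl
  have hκK : Tendsto (fun k => κ k + K) atTop atTop :=
    tendsto_atTop_mono (fun k => Nat.le_add_right _ _) hκ.tendsto_atTop
  refine ⟨by linarith, fun k => hV _, ?_, ?_, ?_, (memu.mono_measure hμr).1,
    fun i j => (memDu i j).mono_measure hμr, ?_⟩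
  · intro k x hx i
    have := hbd k x hx i
    calc |V (κ k + K) x i - a i| ≤ C₀ * (L ^ n * ε) ^ (1 / (n : ℝ)) := this
      _ = C₀ * L * ε ^ (1 / (n : ℝ)) := by
        rw [Real.mul_rpow (by positivity) hε.le, ← Real.rpow_natCast, ← Real.rpow_mul hLpos.le,
          mul_one_div_cancel (by simp only [ne_eq, Nat.cast_eq_zero]; omega), Real.rpow_one]
        ring
  · exact (hVu.filter_mono (ae_mono hμr)).mono fun x hx => hx.comp hκK
  · exact (hVDu.filter_mono (ae_mono hμr)).mono fun x hx i j => (hx i j).comp hκK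
  · intro i j
    refine tendsto_of_tendsto_of_tendsto_of_le_of_le tendsto_const_nhds
      ((hVDuL i j).comp hκK) (fun k => zero_le) (fun k => ?_)
    exact eLpNorm_mono_measure _ hμr

end Pool.Agent.Lib.HSys
end
end
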