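import Pool.Agent.Lib.MP_f44734_an.Basic

section

section

/-!
# D6: lower bound of a determinant from lower bounds of traces
-/

set_option autoImplicit false
open MeasureTheory Set Filter Topology
open scoped ENNReal Matrix

namespace Pool.Agent.Lib.HSys

section DetLowerAux

variable {n : ℕ}

open scoped MatrixOrder in
private theorem detLower_factor {B : Matrix (Fin n) (Fin n) ℝ} (hB : B.PosSemidef) :
    ∃ C : Matrix (Fin n) (Fin n) ℝ, B = Cᵀ * C := by
  obtain ⟨C, hC⟩ := CStarAlgebra.nonneg_iff_eq_star_mul_self.mp hB.nonneg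
  refine ⟨C, ?_⟩
  rw [hC]
  rfl

/-- Cauchy-Schwarz for the sum of absolute values of a row. -/
private theorem detLower_row (M : Matrix (Fin n) (Fin n) ℝ) (l : Fin n) {S : ℝ}
    (h : ∑ j, M l j ^ 2 ≤ S) : ∑ j, |M l j| ≤ Real.sqrt (n * S) := by
  apply Real.le_sqrt_of_sq_le
  have h1 : (∑ j, |M l j|) ^ 2 ≤ (Finset.univ : Finset (Fin n)).card * ∑ j, |M l j| ^ 2 :=
    sq_sum_le_card_mul_sum_sq
  rw [Finset.card_univ, Fintype.card_fin] at h1
  have h2 : ∑ j, |M l j| ^ 2 = ∑ j, M l j ^ 2 :=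
    Finset.sum_congr rfl (fun j _ => sq_abs _)
  rw [h2] at h1
  exact h1.trans (mul_le_mul_of_nonneg_left h (Nat.cast_nonneg n))

private theorem detLower_mulVec (M : Matrix (Fin n) (Fin n) ℝ) (l : Fin n) {S c : ℝ} (hc : 0 ≤ c)
    (h : ∑ j, M l j ^ 2 ≤ S) (x : E n) (hx : ∀ j, |x j| ≤ c) :
    |(M *ᵥ x) l| ≤ c * Real.sqrt (n * S) := by
  have h1 := detLower_row M l h
  have h2 : (M *ᵥ x) l = ∑ j, M l j * x j := rfl
  rw [h2]
  calc |∑ j, M l j * x j| ≤ ∑ j, |M l j * x j| := Finset.abs_sum_le_sum_abs _ _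
    _ ≤ ∑ j, c * |M l j| := by
        refine Finset.sum_le_sum (fun j _ => ?_)
        rw [abs_mul, mul_comm]
        exact mul_le_mul_of_nonneg_right (hx j) (abs_nonneg _)
    _ = c * ∑ j, |M l j| := by rw [Finset.mul_sum]
    _ ≤ c * Real.sqrt (n * S) := mul_le_mul_of_nonneg_left h1 hc

/-- diagonal entries of the inverse of `A + τ` -/
private theorem detLower_inv_diag {A : Matrix (Fin n) (Fin n) ℝ} (hA : A.PosSemidef) {τ : ℝ}
    (hτ : 0 < τ) (hB : (A + τ • (1 : Matrix (Fin n) (Fin n) ℝ)).PosDef) (i : Fin n) :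
    (A + τ • (1 : Matrix (Fin n) (Fin n) ℝ))⁻¹ i i ≤ 1 / τ := by
  set B := A + τ • (1 : Matrix (Fin n) (Fin n) ℝ) with hBdef
  set w : Fin n → ℝ := B⁻¹ *ᵥ Pi.single i 1 with hw
  have hdet : IsUnit B.det := (hB.det_pos.ne').isUnit
  have hBw : B *ᵥ w = Pi.single i 1 := by
    rw [hw, Matrix.mulVec_mulVec, Matrix.mul_nonsing_inv _ hdet, Matrix.one_mulVec]
  have hwi : w i = B⁻¹ i i := by
    rw [hw, Matrix.mulVec_single_one]
    rfl
  have h1 : w ⬝ᵥ (B *ᵥ w) = w i := by
    rw [hBw, dotProduct_single, mul_one]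
  have h2 : w ⬝ᵥ (B *ᵥ w) = w ⬝ᵥ (A *ᵥ w) + τ * (w ⬝ᵥ w) := by
    rw [hBdef, Matrix.add_mulVec, dotProduct_add, Matrix.smul_mulVec, Matrix.one_mulVec,
      dotProduct_smul, smul_eq_mul]
  have h3 : 0 ≤ w ⬝ᵥ (A *ᵥ w) := by
    have := hA.dotProduct_mulVec_nonneg w
    simpa using this
  have h4 : w i ^ 2 ≤ w ⬝ᵥ w := by
    have : w ⬝ᵥ w = ∑ j, w j ^ 2 := Finset.sum_congr rfl (fun j _ => (sq (w j)).symm)
    rw [this]
    exact Finset.single_le_sum (f := fun j => w j ^ 2) (fun j _ => sq_nonneg _)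
      (Finset.mem_univ i)
  have h5 : τ * w i ^ 2 ≤ w i := by
    have := mul_le_mul_of_nonneg_left h4 hτ.le
    linarith
  rw [← hwi]
  rw [le_div_iff₀ hτ]
  by_contra hcon
  push Not at hcon
  have hpos : 0 < w i := by
    by_contra h
    push Not at h
    have : w i * τ ≤ 0 := mul_nonpos_of_nonpos_of_nonneg h hτ.le
    linarith
  nlinarith

end DetLowerAux

/-- D6: lower bound of a determinant from lower bounds of traces. -/
theorem det_lower {n : ℕ} (hn : 1 ≤ n) : ∃ C : ℝ, 0 < C ∧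
    ∀ (A : Matrix (Fin n) (Fin n) ℝ), A.PosSemidef → ∀ D : ℝ, (∀ i j, |A i j| ≤ D) →
    ∀ τ : ℝ, 0 < τ → ∀ N : ℕ, C * Real.sqrt ((D + τ) / τ) ≤ N →
    ∀ κ t : ℝ, 0 ≤ κ → 0 ≤ t →
      (∀ L : Matrix (Fin n) (Fin n) ℝ,
          (∀ x : E n, (∀ l, |x l| ≤ 1) → ∀ l, |(L *ᵥ x) l| ≤ 1 / 4) →
          (∀ x : E n, (∀ l, |(L *ᵥ x) l| ≤ 1 / N) → ∀ l, |x l| ≤ 1 / 4) →
          κ * (L.det ^ 2 * t) ^ (1 / (n : ℝ)) ≤ (Lᵀ * A * L).trace) →
      (κ / n) ^ n * t ≤ (A + τ • (1 : Matrix (Fin n) (Fin n) ℝ)).det := by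
  have hn0 : (0 : ℝ) < n := by exact_mod_cast hn
  have hn1 : (1 : ℝ) ≤ n := by exact_mod_cast hn
  refine ⟨16 * n ^ 2, by positivity, ?_⟩
  intro A hA D hD τ hτ N hN κ t hκ ht hL
  have hD0 : 0 ≤ D := (abs_nonneg _).trans (hD ⟨0, hn⟩ ⟨0, hn⟩)
  set B := A + τ • (1 : Matrix (Fin n) (Fin n) ℝ) with hBdef
  have hτ1 : (τ • (1 : Matrix (Fin n) (Fin n) ℝ)).PosDef := Matrix.PosDef.one.smul hτ
  have hB : B.PosDef := Matrix.PosDef.posSemidef_add hA hτ1
  have hdetpos : 0 < B.det := hB.det_pos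
  have hdet : IsUnit B.det := hdetpos.ne'.isUnit
  have hinv : B⁻¹.PosSemidef := hB.inv.posSemidef
  obtain ⟨C, hC⟩ := detLower_factor hinv
  -- `L₀ = Cᵀ`
  have hCdet : C.det ^ 2 = 1 / B.det := by
    have h := congrArg Matrix.det hC
    rw [Matrix.det_mul, Matrix.det_transpose, Matrix.det_nonsing_inv, Ring.inverse_eq_inv'] at h
    rw [sq, ← h, one_div]
  have hCdet0 : C.det ≠ 0 := by
    intro h0
    rw [h0] at hCdet
    have : (0 : ℝ) < 1 / B.det := by positivity
    rw [← hCdet] at this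
    norm_num at this
  have hCu : IsUnit C.det := hCdet0.isUnit
  have hrow0 : ∀ l, ∑ j, Cᵀ l j ^ 2 ≤ 1 / τ := by
    intro l
    have h1 := detLower_inv_diag hA hτ hB l
    have h2 : B⁻¹ l l = ∑ j, Cᵀ l j ^ 2 := by
      rw [hC, Matrix.mul_apply]
      refine Finset.sum_congr rfl (fun j _ => ?_)
      rw [Matrix.transpose_apply, sq]
    rw [← h2]
    exact h1
  -- `M = (Cᵀ)⁻¹`, `Mᵀ M = B`
  set M := (Cᵀ)⁻¹ with hM
  have hMC : M * Cᵀ = 1 := Matrix.nonsing_inv_mul _ (by rwa [Matrix.det_transpose])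
  have hMB : Mᵀ * M = B := by
    have h1 : B⁻¹ * (Mᵀ * M) = 1 := by
      have h3 : C * Mᵀ = 1 := by
        have := congrArg Matrix.transpose hMC
        rw [Matrix.transpose_mul, Matrix.transpose_transpose, Matrix.transpose_one] at this
        exact this
      have h4 : Cᵀ * M = 1 := Matrix.mul_nonsing_inv _ (by rwa [Matrix.det_transpose])
      rw [hC, Matrix.mul_assoc, ← Matrix.mul_assoc C, h3, Matrix.one_mul, h4]
    have h2 : B * (B⁻¹ * (Mᵀ * M)) = B * 1 := by rw [h1]
    rw [← Matrix.mul_assoc, Matrix.mul_nonsing_inv _ hdet, Matrix.one_mul, Matrix.mul_one] at h2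
    exact h2
  have hrow1 : ∀ l, ∑ j, M l j ^ 2 ≤ n * (D + τ) := by
    intro l
    have h1 : B.trace = ∑ j, ∑ i, M i j ^ 2 := by
      rw [← hMB, Matrix.trace]
      refine Finset.sum_congr rfl (fun j _ => ?_)
      rw [Matrix.diag_apply, Matrix.mul_apply]
      refine Finset.sum_congr rfl (fun i _ => ?_)
      rw [Matrix.transpose_apply, sq]
    have h2 : B.trace ≤ n * (D + τ) := by
      rw [Matrix.trace]
      have : ∀ i ∈ (Finset.univ : Finset (Fin n)), B.diag i ≤ D + τ := by
        intro i _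
        rw [Matrix.diag_apply, hBdef, Matrix.add_apply, Matrix.smul_apply, Matrix.one_apply_eq,
          smul_eq_mul, mul_one]
        have := (le_abs_self _).trans (hD i i)
        linarith
      have h3 := Finset.sum_le_card_nsmul _ _ _ this
      rwa [Finset.card_univ, Fintype.card_fin, nsmul_eq_mul] at h3
    have h3 : ∑ j, M l j ^ 2 ≤ ∑ j, ∑ i, M i j ^ 2 := by
      refine Finset.sum_le_sum (fun j _ => ?_)
      exact Finset.single_le_sum (f := fun i => M i j ^ 2) (fun i _ => sq_nonneg _)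
        (Finset.mem_univ l)
    rw [← h1] at h3
    exact h3.trans h2
  have hratio : 0 < (D + τ) / τ := by positivity
  have hNpos : (0 : ℝ) < N := by
    have : 0 < 16 * (n : ℝ) ^ 2 * Real.sqrt ((D + τ) / τ) := by positivity
    linarith
  set l₀ := Real.sqrt τ / (4 * n) with hl₀
  have hsτ : 0 < Real.sqrt τ := Real.sqrt_pos.mpr hτ
  have hl₀pos : 0 < l₀ := by positivity
  have hcond := hL (l₀ • Cᵀ) ?_ ?_
  · -- conclusion
    have htr : ((l₀ • Cᵀ)ᵀ * A * (l₀ • Cᵀ)).trace ≤ l₀ ^ 2 * n := by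
      have h1 : ((l₀ • Cᵀ)ᵀ * A * (l₀ • Cᵀ)).trace = l₀ ^ 2 * (A * B⁻¹).trace := by
        rw [Matrix.transpose_smul, Matrix.transpose_transpose, Matrix.smul_mul, Matrix.smul_mul,
          Matrix.mul_smul, smul_smul, Matrix.trace_smul, smul_eq_mul, ← sq]
        congr 1
        rw [Matrix.mul_assoc, Matrix.trace_mul_comm, Matrix.mul_assoc, ← hC]
      have h2 : A * B⁻¹ = 1 - τ • B⁻¹ := by
        have h3 : A = B - τ • (1 : Matrix (Fin n) (Fin n) ℝ) := by rw [hBdef]; abel
        conv_lhs => rw [h3]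
        rw [Matrix.sub_mul, Matrix.mul_nonsing_inv _ hdet, Matrix.smul_mul, Matrix.one_mul]
      rw [h1, h2, Matrix.trace_sub, Matrix.trace_one, Matrix.trace_smul, smul_eq_mul,
        Fintype.card_fin]
      have h4 : 0 ≤ B⁻¹.trace := hinv.trace_nonneg
      have h5 : 0 ≤ τ * B⁻¹.trace := mul_nonneg hτ.le h4
      exact mul_le_mul_of_nonneg_left (by linarith) (sq_nonneg _)
    have hdetL : (l₀ • Cᵀ).det ^ 2 * t = (l₀ ^ 2) ^ n * (t / B.det) := by
      rw [Matrix.det_smul, Fintype.card_fin, Matrix.det_transpose, mul_pow, hCdet, ← pow_mul,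
        ← pow_mul, mul_comm n 2]
      ring
    rw [hdetL] at hcond
    have hq : 0 ≤ t / B.det := div_nonneg ht hdetpos.le
    have hrp : ((l₀ ^ 2) ^ n * (t / B.det)) ^ (1 / (n : ℝ)) = l₀ ^ 2 * (t / B.det) ^ (1 / (n : ℝ)) := by
      rw [Real.mul_rpow (by positivity) hq, ← Real.rpow_natCast (l₀ ^ 2) n, ← Real.rpow_mul
        (sq_nonneg _), mul_one_div, div_self hn0.ne', Real.rpow_one]
    rw [hrp] at hcond
    have h6 : κ * (t / B.det) ^ (1 / (n : ℝ)) ≤ n := by
      have h7 : l₀ ^ 2 * (κ * (t / B.det) ^ (1 / (n : ℝ))) ≤ l₀ ^ 2 * n := by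
        calc l₀ ^ 2 * (κ * (t / B.det) ^ (1 / (n : ℝ)))
            = κ * (l₀ ^ 2 * (t / B.det) ^ (1 / (n : ℝ))) := by ring
          _ ≤ _ := hcond
          _ ≤ _ := htr
      exact le_of_mul_le_mul_left h7 (by positivity)
    have h8 : (κ / n) ^ n * (t / B.det) ≤ 1 := by
      have h9 : (κ / n * (t / B.det) ^ (1 / (n : ℝ))) ^ n ≤ 1 := by
        apply pow_le_one₀ (by positivity)
        rw [div_mul_eq_mul_div, div_le_one hn0]
        exact h6
      have h10 : ((t / B.det) ^ (1 / (n : ℝ))) ^ n = t / B.det := by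
        rw [← Real.rpow_natCast, ← Real.rpow_mul hq, one_div_mul_cancel hn0.ne', Real.rpow_one]
      rwa [mul_pow, h10] at h9
    rw [← mul_div_assoc, div_le_one hdetpos] at h8
    exact h8
  · intro x hx l
    have h1 := detLower_mulVec Cᵀ l zero_le_one (hrow0 l) x hx
    have h2 : ((l₀ • Cᵀ) *ᵥ x) l = l₀ * (Cᵀ *ᵥ x) l := by
      rw [Matrix.smul_mulVec, Pi.smul_apply, smul_eq_mul]
    rw [h2, abs_mul, abs_of_pos hl₀pos]
    have h3 : Real.sqrt (n * (1 / τ)) ≤ n / Real.sqrt τ := by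
      rw [Real.sqrt_le_left (by positivity), div_pow, Real.sq_sqrt hτ.le, mul_one_div]
      apply div_le_div_of_nonneg_right _ hτ.le
      nlinarith
    rw [one_mul] at h1
    calc l₀ * |(Cᵀ *ᵥ x) l| ≤ l₀ * (n / Real.sqrt τ) :=
          mul_le_mul_of_nonneg_left (h1.trans h3) hl₀pos.le
      _ = 1 / 4 := by rw [hl₀]; field_simp
  · intro x hx l
    have h2 : x = M *ᵥ (Cᵀ *ᵥ x) := by rw [Matrix.mulVec_mulVec, hMC, Matrix.one_mulVec]
    have h3 : ∀ j, |(Cᵀ *ᵥ x) j| ≤ 1 / N / l₀ := by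
      intro j
      have h4 := hx j
      have h5 : ((l₀ • Cᵀ) *ᵥ x) j = l₀ * (Cᵀ *ᵥ x) j := by
        rw [Matrix.smul_mulVec, Pi.smul_apply, smul_eq_mul]
      rw [h5, abs_mul, abs_of_pos hl₀pos] at h4
      rw [le_div_iff₀ hl₀pos, mul_comm]
      exact h4
    have h4 := detLower_mulVec M l (by positivity) (hrow1 l) (Cᵀ *ᵥ x) h3
    rw [← h2] at h4
    refine h4.trans ?_
    have h5 : Real.sqrt (n * (n * (D + τ))) = n * Real.sqrt (D + τ) := by
      rw [← mul_assoc, ← sq, Real.sqrt_mul (sq_nonneg _), Real.sqrt_sq hn0.le]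
    have h6 : Real.sqrt ((D + τ) / τ) = Real.sqrt (D + τ) / Real.sqrt τ :=
      Real.sqrt_div (by positivity) _
    rw [h5]
    rw [h6] at hN
    have h7 : 1 / N / l₀ * (n * Real.sqrt (D + τ)) =
        (4 * n ^ 2 * (Real.sqrt (D + τ) / Real.sqrt τ)) / N := by
      rw [hl₀]; field_simp
    rw [h7, div_le_iff₀ hNpos]
    linarith

end Pool.Agent.Lib.HSys
end

section

/-!
# Mollification of a convex Lipschitz function at scale one
-/

set_option autoImplicit false
open MeasureTheory Set Filter Topology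
open scoped ENNReal Matrix

namespace Pool.Agent.Lib.HSys

namespace Moll

variable {n : ℕ}

/-- convolution of `φ` with the kernel `κ` -/
noncomputable def cv (φ κ : E n → ℝ) (y : E n) : ℝ := ∫ t, φ t * κ (y - t)

/-- the quadratic form of the Hessian -/
noncomputable def D2 (F : E n → ℝ) (y e : E n) : ℝ := ∑ i, ∑ j, e i * Hess F y i j * e j

lemma cv_eq (φ κ : E n → ℝ) :
    cv φ κ = MeasureTheory.convolution φ κ (ContinuousLinearMap.mul ℝ ℝ) volume := rfl

lemma contDiff_pd {κ : E n → ℝ} (hκ : ContDiff ℝ (⊤ : ℕ∞) κ) (j : Fin n) :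
    ContDiff ℝ (⊤ : ℕ∞) (pd κ j) :=
  (hκ.fderiv_right (m := ((⊤ : ℕ∞) : WithTop ℕ∞)) (by simp)).clm_apply contDiff_const

lemma hasCompactSupport_pd {κ : E n → ℝ} (hc : HasCompactSupport κ) (j : Fin n) :
    HasCompactSupport (pd κ j) := hc.fderiv_apply ℝ _

lemma contDiff_cv {φ κ : E n → ℝ} (hφ : Continuous φ) (hκ : ContDiff ℝ (⊤ : ℕ∞) κ)
    (hc : HasCompactSupport κ) : ContDiff ℝ (⊤ : ℕ∞) (cv φ κ) := by
  rw [cv_eq]
  exact hc.contDiff_convolution_right _ hφ.locallyIntegrable hκ

lemma pd_cv {φ κ : E n → ℝ} (hφ : Continuous φ) (hκ : ContDiff ℝ (⊤ : ℕ∞) κ)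
    (hc : HasCompactSupport κ) (j : Fin n) : pd (cv φ κ) j = cv φ (pd κ j) := by
  funext y
  have h1 : ContDiff ℝ 1 κ := hκ.of_le (by exact_mod_cast le_top)
  have h := hc.hasFDerivAt_convolution_right (ContinuousLinearMap.mul ℝ ℝ)
    (hφ.locallyIntegrable (μ := volume)) h1 y
  rw [pd, cv_eq, h.fderiv, convolution_precompR_apply _ hφ.locallyIntegrable (hc.fderiv ℝ)
    (h1.continuous_fderiv one_ne_zero)]
  rfl

lemma Hess_cv {φ κ : E n → ℝ} (hφ : Continuous φ) (hκ : ContDiff ℝ (⊤ : ℕ∞) κ)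
    (hc : HasCompactSupport κ) (y : E n) (i j : Fin n) :
    Hess (cv φ κ) y i j = cv φ (pd (pd κ j) i) y := by
  rw [Hess, Matrix.of_apply, pd_cv hφ hκ hc, pd_cv hφ (contDiff_pd hκ j) (hasCompactSupport_pd hc j)]

lemma integrable_mul {φ κ : E n → ℝ} (hφ : Continuous φ) (hκ : Continuous κ)
    (hc : HasCompactSupport κ) : Integrable (fun p => φ p * κ p) :=
  (hφ.mul hκ).integrable_of_hasCompactSupport hc.mul_left

lemma integral_pd_eq_zero {κ : E n → ℝ} (hκ : ContDiff ℝ (⊤ : ℕ∞) κ) (hc : HasCompactSupport κ)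
    (j : Fin n) : ∫ p, pd κ j p = 0 := by
  have h := integral_mul_fderiv_eq_neg_fderiv_mul_of_integrable (μ := (volume : Measure (E n)))
    (f := fun _ : E n => (1 : ℝ)) (g := κ) (v := Pi.single j 1) (by simp)
    (by
      have := integrable_mul (φ := fun _ : E n => (1 : ℝ)) continuous_const
        (contDiff_pd hκ j).continuous (hasCompactSupport_pd hc j)
      exact this)
    (integrable_mul continuous_const hκ.continuous hc)
    (fun x _ => differentiableAt_const _)
    (fun x _ => (hκ.differentiable (by simp)).differentiableAt)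
  simpa [pd] using h

/-- the convolution in the other order -/
lemma cv_comm (φ κ : E n → ℝ) (y : E n) : cv φ κ y = ∫ p, φ (y - p) * κ p := by
  have h := integral_sub_left_eq_self (fun t => φ (y - t) * κ t) (volume : Measure (E n)) y
  rw [← h, cv]
  simp only [sub_sub_cancel]

lemma abs_cv_le {φ κ : E n → ℝ} {R : ℝ} (hφ : Continuous φ)
    (hR : ∀ x y, |φ x - φ y| ≤ R * ∑ l, |x l - y l|) (hκ : Continuous κ)
    (hc : HasCompactSupport κ) (h0 : ∫ p, κ p = 0) (y : E n) :
    |cv φ κ y| ≤ R * ∫ p : E n, (∑ l, |p l|) * |κ p| := by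
  have hs : Continuous fun p : E n => φ (y - p) := hφ.comp (continuous_const.sub continuous_id)
  have e1 : cv φ κ y = ∫ p, (φ (y - p) - φ y) * κ p := by
    rw [cv_comm]
    simp only [sub_mul]
    rw [integral_sub (integrable_mul hs hκ hc) (integrable_mul continuous_const hκ hc),
      integral_const_mul, h0, mul_zero, sub_zero]
  rw [e1, ← Real.norm_eq_abs, ← integral_const_mul]
  refine norm_integral_le_of_norm_le ?_ (Eventually.of_forall fun p => ?_)
  · have hcont : Continuous fun p : E n => R * ∑ l, |p l| := by fun_prop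
    have := integrable_mul hcont hκ.abs hc.abs
    refine this.congr (Eventually.of_forall fun p => ?_)
    simp only [mul_assoc]
  · rw [Real.norm_eq_abs, abs_mul, ← mul_assoc]
    refine mul_le_mul_of_nonneg_right ?_ (abs_nonneg _)
    refine (hR _ _).trans (le_of_eq ?_)
    congr 1
    refine Finset.sum_congr rfl fun l _ => ?_
    rw [Pi.sub_apply, sub_sub_cancel_left, abs_neg]

lemma convexOn_cv {φ κ : E n → ℝ} (hφ : Continuous φ) (hconv : ConvexOn ℝ univ φ)
    (hκ : Continuous κ) (hc : HasCompactSupport κ) (h0 : ∀ p, 0 ≤ κ p) :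
    ConvexOn ℝ univ (cv φ κ) := by
  refine ⟨convex_univ, fun x _ y _ a b ha hb hab => ?_⟩
  have hs : ∀ z : E n, Continuous fun p : E n => φ (z - p) := fun z =>
    hφ.comp (continuous_const.sub continuous_id)
  rw [cv_comm, cv_comm, cv_comm, smul_eq_mul, smul_eq_mul, ← integral_const_mul,
    ← integral_const_mul, ← integral_add ((integrable_mul (hs x) hκ hc).const_mul _)
      ((integrable_mul (hs y) hκ hc).const_mul _)]
  refine integral_mono (integrable_mul (hs _) hκ hc)
    (((integrable_mul (hs x) hκ hc).const_mul _).add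
      ((integrable_mul (hs y) hκ hc).const_mul _)) fun p => ?_
  have e : a • x + b • y - p = a • (x - p) + b • (y - p) := by
    have : p = a • p + b • p := by rw [← add_smul, hab, one_smul]
    conv_lhs => rw [this]
    rw [smul_sub, smul_sub]
    abel
  have h := hconv.2 (mem_univ (x - p)) (mem_univ (y - p)) ha hb hab
  rw [← e, smul_eq_mul, smul_eq_mul] at h
  have h2 := mul_le_mul_of_nonneg_right h (h0 p)
  calc φ (a • x + b • y - p) * κ p ≤ (a * φ (x - p) + b * φ (y - p)) * κ p := h2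
    _ = _ := by ring

lemma hasDerivAt_line {F : E n → ℝ} (hF : ContDiff ℝ (⊤ : ℕ∞) F) (y e : E n) (t : ℝ) :
    HasDerivAt (fun t : ℝ => F (y + t • e)) (∑ j, pd F j (y + t • e) * e j) t := by
  have h1 : HasDerivAt (fun t : ℝ => y + t • e) e t := by
    have := ((hasDerivAt_id t).smul_const e).const_add y
    simpa using this
  have h2 := ((hF.differentiable (by simp)).differentiableAt (x := y + t • e)).hasFDerivAt
  have h3 := h2.comp_hasDerivAt t h1
  rw [fderiv_real_apply_eq] at h3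
  exact h3

lemma hasDerivAt_line2 {F : E n → ℝ} (hF : ContDiff ℝ (⊤ : ℕ∞) F) (y e : E n) (t : ℝ) :
    HasDerivAt (fun t : ℝ => ∑ j, pd F j (y + t • e) * e j) (D2 F (y + t • e) e) t := by
  have h1 : HasDerivAt (fun t : ℝ => ∑ j, pd F j (y + t • e) * e j)
      (∑ j, (∑ i, pd (pd F j) i (y + t • e) * e i) * e j) t :=
    HasDerivAt.fun_sum fun j _ => (hasDerivAt_line (contDiff_pd hF j) y e t).mul_const (e j)
  convert h1 using 1
  rw [D2, Finset.sum_comm]
  refine Finset.sum_congr rfl fun j _ => ?_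
  rw [Finset.sum_mul]
  refine Finset.sum_congr rfl fun i _ => ?_
  rw [Hess, Matrix.of_apply]
  ring

lemma D2_nonneg {F : E n → ℝ} (hF : ContDiff ℝ (⊤ : ℕ∞) F) (hconv : ConvexOn ℝ univ F)
    (y e : E n) : 0 ≤ D2 F y e := by
  have hg : ConvexOn ℝ univ (fun t : ℝ => F (y + t • e)) := by
    refine ⟨convex_univ, fun s _ t _ a b ha hb hab => ?_⟩
    have h := hconv.2 (mem_univ (y + s • e)) (mem_univ (y + t • e)) ha hb hab
    have e1 : a • (y + s • e) + b • (y + t • e) = y + (a • s + b • t) • e := by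
      have : y = a • y + b • y := by rw [← add_smul, hab, one_smul]
      conv_rhs => rw [this]
      simp only [smul_add, add_smul, smul_smul, smul_eq_mul]
      abel
    rw [e1] at h
    exact h
  have hd : ∀ t, HasDerivAt (fun t : ℝ => F (y + t • e)) (∑ j, pd F j (y + t • e) * e j) t :=
    hasDerivAt_line hF y e
  have hmono : Monotone (fun t : ℝ => ∑ j, pd F j (y + t • e) * e j) := by
    have h := hg.monotoneOn_deriv (fun t _ => (hd t).differentiableAt)
    have e1 : deriv (fun t : ℝ => F (y + t • e)) = fun t => ∑ j, pd F j (y + t • e) * e j :=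
      funext fun t => (hd t).deriv
    rw [e1, monotoneOn_univ] at h
    exact h
  have h2 := hmono.deriv_nonneg (x := 0)
  rw [(hasDerivAt_line2 hF y e 0).deriv, zero_smul, add_zero] at h2
  exact h2

lemma hess_symm {F : E n → ℝ} (hF : ContDiff ℝ (⊤ : ℕ∞) F) (y : E n) (i j : Fin n) :
    Hess F y i j = Hess F y j i := by
  have hd : Differentiable ℝ (fderiv ℝ F) :=
    (hF.fderiv_right (m := ((⊤ : ℕ∞) : WithTop ℕ∞)) (by simp)).differentiable (by simp)
  have key : ∀ i j : Fin n, Hess F y i j =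
      fderiv ℝ (fderiv ℝ F) y (Pi.single i 1) (Pi.single j 1) := by
    intro i j
    rw [Hess, Matrix.of_apply, pd]
    have h := (hd y).hasFDerivAt.clm_apply (hasFDerivAt_const (Pi.single j (1 : ℝ) : E n) y)
    have h2 : fderiv ℝ (pd F j) y = _ := h.fderiv
    rw [h2]
    simp
  rw [key, key]
  have hs : IsSymmSndFDerivAt ℝ F y :=
    hF.contDiffAt.isSymmSndFDerivAt (by
      simp only [minSmoothness_of_isRCLikeNormedField]
      exact WithTop.coe_le_coe.mpr (le_top : (2 : ℕ∞) ≤ ⊤))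
  exact hs _ _

lemma posSemidef_of_convex {F : E n → ℝ} (hF : ContDiff ℝ (⊤ : ℕ∞) F)
    (hconv : ConvexOn ℝ univ F) (y : E n) : (Hess F y).PosSemidef := by
  refine Matrix.PosSemidef.of_dotProduct_mulVec_nonneg ?_ fun x => ?_
  · ext i j
    rw [Matrix.conjTranspose_apply, star_trivial]
    exact hess_symm hF y j i
  · have h := D2_nonneg hF hconv y x
    rw [star_trivial]
    have e : x ⬝ᵥ (Hess F y *ᵥ x) = D2 F y x := by
      unfold D2
      rw [dotProduct]
      refine Finset.sum_congr rfl fun i _ => ?_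
      rw [Matrix.mulVec, dotProduct, Finset.mul_sum]
      exact Finset.sum_congr rfl fun j _ => by ring
    rw [e]
    exact h

lemma second_diff_le {F : E n → ℝ} (hF : ContDiff ℝ (⊤ : ℕ∞) F) (y e : E n) (Q : ℝ)
    (hQ : ∀ τ ∈ Icc (-1 : ℝ) 1, D2 F (y + τ • e) e ≤ Q) :
    F (y + e) + F (y - e) - 2 * F y ≤ Q := by
  set G : ℝ → ℝ := fun t => Q * t ^ 2 / 2 - F (y + t • e) with hG
  have hd1 : ∀ t, HasDerivAt G (Q * t - ∑ j, pd F j (y + t • e) * e j) t := by
    intro t
    have h1 : HasDerivAt (fun t : ℝ => Q * t ^ 2 / 2) (Q * t) t := by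
      refine (((hasDerivAt_pow 2 t).const_mul Q).div_const 2).congr_deriv ?_
      norm_num
      ring
    exact h1.sub (hasDerivAt_line hF y e t)
  have hd2 : ∀ t, HasDerivAt (fun t => Q * t - ∑ j, pd F j (y + t • e) * e j)
      (Q - D2 F (y + t • e) e) t := by
    intro t
    have h1 : HasDerivAt (fun t : ℝ => Q * t) Q t := by
      simpa using (hasDerivAt_id t).const_mul Q
    exact h1.sub (hasDerivAt_line2 hF y e t)
  have hder : deriv G = fun t => Q * t - ∑ j, pd F j (y + t • e) * e j :=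
    funext fun t => (hd1 t).deriv
  have hconv : ConvexOn ℝ (Icc (-1 : ℝ) 1) G := by
    refine convexOn_of_deriv2_nonneg' (convex_Icc _ _)
      (fun t _ => (hd1 t).differentiableAt.differentiableWithinAt) ?_ ?_
    · rw [hder]
      exact fun t _ => (hd2 t).differentiableAt.differentiableWithinAt
    · intro t ht
      rw [Function.iterate_succ_apply, Function.iterate_one, hder, (hd2 t).deriv]
      linarith [hQ t ht]
  have h := hconv.2 (show (-1 : ℝ) ∈ Icc (-1 : ℝ) 1 by simp) (show (1 : ℝ) ∈ Icc (-1 : ℝ) 1 by simp)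
    (show (0 : ℝ) ≤ 1 / 2 by norm_num) (show (0 : ℝ) ≤ 1 / 2 by norm_num) (by norm_num)
  simp only [hG, smul_eq_mul] at h
  norm_num at h
  rw [← sub_eq_add_neg] at h
  linarith

/-- translation of the kernel -/
lemma cv_translate (φ κ : E n → ℝ) (y a : E n) : cv φ (fun p => κ (p + a)) y = cv φ κ (y + a) := by
  rw [cv, cv]
  congr 1
  funext t
  rw [sub_add_eq_add_sub]

/-- the second difference of a convolution -/
lemma cv_second_diff {φ κ : E n → ℝ} (hφ : Continuous φ) (hκ : Continuous κ)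
    (hc : HasCompactSupport κ) (y e : E n) :
    cv φ κ (y + e) + cv φ κ (y - e) - 2 * cv φ κ y =
      ∫ t, (φ (t + e) + φ (t - e) - 2 * φ t) * κ (y - t) := by
  have hκy : Continuous fun t => κ (y - t) := hκ.comp (continuous_const.sub continuous_id)
  have hcy : HasCompactSupport fun t => κ (y - t) := by
    have := hc.comp_homeomorph (Homeomorph.subLeft y)
    exact this
  have h1 : ∀ a : E n, cv φ κ (y + a) = ∫ t, φ (t + a) * κ (y - t) := by
    intro a
    rw [cv, ← integral_add_right_eq_self _ a]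
    congr 1
    funext t
    rw [add_sub_add_right_eq_sub]
  have h2 : ∀ a : E n, Integrable fun t => φ (t + a) * κ (y - t) := fun a =>
    integrable_mul (φ := fun t => φ (t + a)) (hφ.comp (continuous_id.add continuous_const)) hκy hcy
  have e0 : cv φ κ y = ∫ t, φ t * κ (y - t) := rfl
  have h20 : Integrable fun t => φ t * κ (y - t) := integrable_mul hφ hκy hcy
  have e3 : ∫ t, ((φ (t + e) * κ (y - t) + φ (t + -e) * κ (y - t)) - 2 * (φ t * κ (y - t))) =
      ((∫ t, φ (t + e) * κ (y - t)) + ∫ t, φ (t + -e) * κ (y - t)) -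
        2 * ∫ t, φ t * κ (y - t) := by
    have a1 := integral_sub ((h2 e).add (h2 (-e))) (h20.const_mul 2)
    have a2 := integral_add (h2 e) (h2 (-e))
    rw [← integral_const_mul, ← a2]
    exact a1
  rw [sub_eq_add_neg y e, h1, h1, e0, ← e3]
  congr 1
  funext t
  rw [← sub_eq_add_neg]
  ring

end Moll

namespace Moll

variable {n : ℕ}

lemma continuous_of_lip {φ : E n → ℝ} {R : ℝ}
    (hR : ∀ x y, |φ x - φ y| ≤ R * ∑ l, |x l - y l|) : Continuous φ := by
  rw [continuous_iff_continuousAt]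
  intro y
  rw [ContinuousAt, tendsto_iff_norm_sub_tendsto_zero]
  refine squeeze_zero (fun _ => norm_nonneg _) (fun x => hR x y) ?_
  have hcont : Continuous fun x : E n => R * ∑ l, |x l - y l| := by fun_prop
  have h := hcont.tendsto y
  simpa using h

lemma R_nonneg {φ : E n → ℝ} {R : ℝ}
    (hR : ∀ x y, |φ x - φ y| ≤ R * ∑ l, |x l - y l|) (j : Fin n) : 0 ≤ R := by
  have h := (abs_nonneg _).trans (hR (Pi.single j 1) 0)
  have e : ∑ l, |(Pi.single j (1 : ℝ) : E n) l - (0 : E n) l| = 1 := by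
    rw [Finset.sum_eq_single j]
    · simp
    · intro l _ hl
      simp [Pi.single_eq_of_ne hl]
    · intro h
      exact absurd (Finset.mem_univ j) h
  rwa [e, mul_one] at h

lemma diff_nonneg {φ : E n → ℝ} (hconv : ConvexOn ℝ univ φ) (t e : E n) :
    0 ≤ φ (t + e) + φ (t - e) - 2 * φ t := by
  have h := hconv.2 (mem_univ (t + e)) (mem_univ (t - e)) (show (0 : ℝ) ≤ 1 / 2 by norm_num)
    (show (0 : ℝ) ≤ 1 / 2 by norm_num) (by norm_num)
  have e1 : (1 / 2 : ℝ) • (t + e) + (1 / 2 : ℝ) • (t - e) = t := by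
    rw [← smul_add, add_add_sub_cancel, ← two_smul ℝ t, smul_smul]
    norm_num
  rw [e1, smul_eq_mul, smul_eq_mul] at h
  linarith

lemma D2_sub_translate {F Φ Ψ : E n → ℝ} (hF : ContDiff ℝ (⊤ : ℕ∞) F)
    (hΦ : ContDiff ℝ (⊤ : ℕ∞) Φ) (hΨ : ContDiff ℝ (⊤ : ℕ∞) Ψ) (a : E n)
    (h : ∀ z, F z = Φ z - Ψ (z + a)) (y e : E n) :
    D2 F y e = D2 Φ y e - D2 Ψ (y + a) e := by
  have d1 : ∀ t : ℝ, ∑ j, pd F j (y + t • e) * e j =
      ∑ j, pd Φ j (y + t • e) * e j - ∑ j, pd Ψ j ((y + a) + t • e) * e j := by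
    intro t
    refine (hasDerivAt_line hF y e t).unique ?_
    have h1 := (hasDerivAt_line hΦ y e t).sub (hasDerivAt_line hΨ (y + a) e t)
    have e1 : (fun t : ℝ => F (y + t • e)) =
        (fun t : ℝ => Φ (y + t • e)) - fun t : ℝ => Ψ ((y + a) + t • e) := by
      funext t
      rw [Pi.sub_apply, h, add_right_comm]
    rw [e1]
    exact h1
  have d2 : D2 F (y + (0 : ℝ) • e) e =
      D2 Φ (y + (0 : ℝ) • e) e - D2 Ψ ((y + a) + (0 : ℝ) • e) e := by
    refine (hasDerivAt_line2 hF y e 0).unique ?_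
    have h1 := (hasDerivAt_line2 hΦ y e 0).sub (hasDerivAt_line2 hΨ (y + a) e 0)
    have e1 : (fun t : ℝ => ∑ j, pd F j (y + t • e) * e j) =
        (fun t : ℝ => ∑ j, pd Φ j (y + t • e) * e j) -
          fun t : ℝ => ∑ j, pd Ψ j ((y + a) + t • e) * e j := by
      funext t
      rw [Pi.sub_apply]
      exact d1 t
    rw [e1]
    exact h1
  simpa using d2

end Moll

open Moll in
/-- D5: mollification of a convex Lipschitz function at scale one. -/
theorem mollify_convex (n : ℕ) : ∃ C : ℝ, 0 < C ∧ ∀ φ : E n → ℝ, ConvexOn ℝ univ φ →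
    ∀ R : ℝ, (∀ x y, |φ x - φ y| ≤ R * ∑ l, |x l - y l|) →
    ∃ Φ : E n → ℝ, ContDiff ℝ (⊤ : ℕ∞) Φ ∧ (∀ y j, |pd Φ j y| ≤ C * R) ∧
      (∀ y i j, |Hess Φ y i j| ≤ C * R) ∧ (∀ y, (Hess Φ y).PosSemidef) ∧
      ∀ b y e : E n, (∀ l, b l ≤ y l ∧ y l ≤ b l + 1) → (∀ l, |e l| ≤ 1 / 4) →
        ∫ p in {p : E n | ∀ l, b l + 1 / 4 ≤ p l ∧ p l ≤ b l + 3 / 4},
            (φ (p + e) + φ (p - e) - 2 * φ p) ≤
          ∑ i, ∑ j, e i * Hess Φ y i j * e j := by
  let b1 : ContDiffBump (0 : E n) := ⟨1, 2, one_pos, by norm_num⟩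
  let b2 : ContDiffBump (0 : E n) := ⟨3, 4, by norm_num, by norm_num⟩
  obtain ⟨χ₁, hχ₁⟩ : ∃ χ : E n → ℝ, χ = b1 := ⟨_, rfl⟩
  obtain ⟨χ₂, hχ₂⟩ : ∃ χ : E n → ℝ, χ = b2 := ⟨_, rfl⟩
  have hs1 : ContDiff ℝ (⊤ : ℕ∞) χ₁ := by rw [hχ₁]; exact b1.contDiff
  have hs2 : ContDiff ℝ (⊤ : ℕ∞) χ₂ := by rw [hχ₂]; exact b2.contDiff
  have hc1 : HasCompactSupport χ₁ := by rw [hχ₁]; exact b1.hasCompactSupport
  have hc2 : HasCompactSupport χ₂ := by rw [hχ₂]; exact b2.hasCompactSupport
  have h01 : ∀ p, 0 ≤ χ₁ p := fun p => by rw [hχ₁]; exact b1.nonneg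
  have h02 : ∀ p, 0 ≤ χ₂ p := fun p => by rw [hχ₂]; exact b2.nonneg
  have h11 : ∀ p, χ₁ p ≤ 1 := fun p => by rw [hχ₁]; exact b1.le_one
  have hone1 : ∀ p : E n, ‖p‖ ≤ 1 → χ₁ p = 1 := fun p hp => by
    rw [hχ₁]; exact b1.one_of_mem_closedBall (by rw [mem_closedBall_zero_iff]; exact hp)
  have hone2 : ∀ p : E n, ‖p‖ ≤ 3 → χ₂ p = 1 := fun p hp => by
    rw [hχ₂]; exact b2.one_of_mem_closedBall (by rw [mem_closedBall_zero_iff]; exact hp)
  have hzero1 : ∀ p : E n, 2 ≤ ‖p‖ → χ₁ p = 0 := fun p hp => by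
    rw [hχ₁]; exact b1.zero_of_le_dist (by rw [dist_zero_right]; exact hp)
  obtain ⟨I1, hI1⟩ : ∃ I : Fin n → ℝ, I = fun j => ∫ p : E n, (∑ l, |p l|) * |pd χ₂ j p| :=
    ⟨_, rfl⟩
  obtain ⟨I2, hI2⟩ : ∃ I : Fin n → Fin n → ℝ,
      I = fun i j => ∫ p : E n, (∑ l, |p l|) * |pd (pd χ₂ j) i p| := ⟨_, rfl⟩
  have hI10 : ∀ j, 0 ≤ I1 j := fun j => by
    rw [hI1]
    exact integral_nonneg fun p => by positivity
  have hI20 : ∀ i j, 0 ≤ I2 i j := fun i j => by
    rw [hI2]
    exact integral_nonneg fun p => by positivity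
  have hS1 : 0 ≤ ∑ j, I1 j := Finset.sum_nonneg fun j _ => hI10 j
  have hS2 : 0 ≤ ∑ i, ∑ j, I2 i j :=
    Finset.sum_nonneg fun i _ => Finset.sum_nonneg fun j _ => hI20 i j
  refine ⟨1 + (∑ j, I1 j + ∑ i, ∑ j, I2 i j), by linarith, fun φ hconv R hR => ?_⟩
  have hφ : Continuous φ := continuous_of_lip hR
  have hΦ := contDiff_cv hφ hs2 hc2
  have hΨ := contDiff_cv hφ hs1 hc1
  refine ⟨cv φ χ₂, hΦ, fun y j => ?_, fun y i j => ?_,
    posSemidef_of_convex hΦ (convexOn_cv hφ hconv hs2.continuous hc2 h02), ?_⟩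
  · have hR0 := R_nonneg hR j
    rw [pd_cv hφ hs2 hc2]
    refine (abs_cv_le hφ hR (contDiff_pd hs2 j).continuous (hasCompactSupport_pd hc2 j)
      (integral_pd_eq_zero hs2 hc2 j) y).trans ?_
    rw [mul_comm]
    refine mul_le_mul_of_nonneg_right ?_ hR0
    have h1 : I1 j ≤ ∑ j, I1 j := Finset.single_le_sum (fun j _ => hI10 j) (Finset.mem_univ j)
    have h2 : I1 j = ∫ p : E n, (∑ l, |p l|) * |pd χ₂ j p| := by rw [hI1]
    rw [← h2]
    linarith
  · have hR0 := R_nonneg hR j
    rw [Hess_cv hφ hs2 hc2]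
    refine (abs_cv_le hφ hR (contDiff_pd (contDiff_pd hs2 j) i).continuous
      (hasCompactSupport_pd (hasCompactSupport_pd hc2 j) i)
      (integral_pd_eq_zero (contDiff_pd hs2 j) (hasCompactSupport_pd hc2 j) i) y).trans ?_
    rw [mul_comm]
    refine mul_le_mul_of_nonneg_right ?_ hR0
    have h1 : I2 i j ≤ ∑ j, I2 i j :=
      Finset.single_le_sum (fun j _ => hI20 i j) (Finset.mem_univ j)
    have h3 : ∑ j, I2 i j ≤ ∑ i, ∑ j, I2 i j :=
      Finset.single_le_sum (f := fun i => ∑ j, I2 i j)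
        (fun i _ => Finset.sum_nonneg fun j _ => hI20 i j) (Finset.mem_univ i)
    have h2 : I2 i j = ∫ p : E n, (∑ l, |p l|) * |pd (pd χ₂ j) i p| := by rw [hI2]
    rw [← h2]
    linarith
  · intro b y e hb he
    have hen : ‖e‖ ≤ 1 / 4 := (pi_norm_le_iff_of_nonneg (by norm_num)).mpr he
    -- the second derivative of `cv φ χ₁` on the segment
    have step1 : ∀ τ ∈ Icc (-1 : ℝ) 1, D2 (cv φ χ₁) (y + τ • e) e ≤ D2 (cv φ χ₂) y e := by
      intro τ hτ
      have hτe : ‖τ • e‖ ≤ 1 / 4 := by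
        rw [norm_smul, Real.norm_eq_abs]
        have h1 : |τ| ≤ 1 := abs_le.mpr hτ
        nlinarith [norm_nonneg e, abs_nonneg τ]
      have hst : ContDiff ℝ (⊤ : ℕ∞) fun p : E n => χ₁ (p + τ • e) :=
        hs1.comp (contDiff_id.add contDiff_const)
      have hct : HasCompactSupport fun p : E n => χ₁ (p + τ • e) :=
        hc1.comp_homeomorph (Homeomorph.addRight (τ • e))
      have hks : ContDiff ℝ (⊤ : ℕ∞) fun p : E n => χ₂ p - χ₁ (p + τ • e) := hs2.sub hst
      have hkc : HasCompactSupport fun p : E n => χ₂ p - χ₁ (p + τ • e) := hc2.sub hct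
      have hk0 : ∀ p : E n, 0 ≤ χ₂ p - χ₁ (p + τ • e) := by
        intro p
        rcases le_total 2 ‖p + τ • e‖ with h | h
        · rw [hzero1 _ h, sub_zero]
          exact h02 p
        · have h3 : ‖p‖ ≤ 3 := by
            have h4 : p = (p + τ • e) - τ • e := (add_sub_cancel_right _ _).symm
            rw [h4]
            refine (norm_sub_le _ _).trans ?_
            linarith
          rw [hone2 p h3]
          linarith [h11 (p + τ • e)]
      have hF := contDiff_cv hφ hks hkc
      have hD := D2_sub_translate hF hΦ hΨ (τ • e) (fun z => by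
        rw [← cv_translate, cv, cv, cv]
        have a1 : Integrable fun t => φ t * χ₂ (z - t) :=
          integrable_mul hφ (hs2.continuous.comp (continuous_const.sub continuous_id))
            (hc2.comp_homeomorph (Homeomorph.subLeft z))
        have a2 : Integrable fun t => φ t * χ₁ (z - t + τ • e) :=
          integrable_mul hφ (hst.continuous.comp (continuous_const.sub continuous_id))
            (hct.comp_homeomorph (Homeomorph.subLeft z))
        rw [← integral_sub a1 a2]
        congr 1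
        funext t
        ring) y e
      have hnn := D2_nonneg hF (convexOn_cv hφ hconv hks.continuous hkc hk0) y e
      rw [hD] at hnn
      linarith
    have step2 := second_diff_le hΨ y e _ step1
    rw [cv_second_diff hφ hs1.continuous hc1] at step2
    refine le_trans ?_ step2
    have hmeas : MeasurableSet {p : E n | ∀ l, b l + 1 / 4 ≤ p l ∧ p l ≤ b l + 3 / 4} := by
      have : {p : E n | ∀ l, b l + 1 / 4 ≤ p l ∧ p l ≤ b l + 3 / 4} =
          Set.univ.pi fun l => Icc (b l + 1 / 4) (b l + 3 / 4) := by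
        ext p
        rw [Set.mem_univ_pi]
        rfl
      rw [this]
      exact MeasurableSet.univ_pi fun _ => measurableSet_Icc
    have hint : Integrable fun t => (φ (t + e) + φ (t - e) - 2 * φ t) * χ₁ (y - t) :=
      integrable_mul (φ := fun t => φ (t + e) + φ (t - e) - 2 * φ t)
        (((hφ.comp (continuous_id.add continuous_const)).add
          (hφ.comp (continuous_id.sub continuous_const))).sub (continuous_const.mul hφ))
        (hs1.continuous.comp (continuous_const.sub continuous_id))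
        (hc1.comp_homeomorph (Homeomorph.subLeft y))
    have hcongr : ∫ p in {p : E n | ∀ l, b l + 1 / 4 ≤ p l ∧ p l ≤ b l + 3 / 4},
        (φ (p + e) + φ (p - e) - 2 * φ p) =
        ∫ p in {p : E n | ∀ l, b l + 1 / 4 ≤ p l ∧ p l ≤ b l + 3 / 4},
        (φ (p + e) + φ (p - e) - 2 * φ p) * χ₁ (y - p) := by
      refine setIntegral_congr_fun hmeas fun p hp => ?_
      have h1 : χ₁ (y - p) = 1 := by
        apply hone1
        refine (pi_norm_le_iff_of_nonneg (by norm_num)).mpr fun l => ?_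
        rw [Pi.sub_apply, Real.norm_eq_abs, abs_le]
        have h2 := hp l
        have h3 := hb l
        constructor <;> linarith [h2.1, h2.2, h3.1, h3.2]
      change _ = _ * _
      rw [h1, mul_one]
    rw [hcongr]
    exact setIntegral_le_integral hint (Eventually.of_forall fun t =>
      mul_nonneg (diff_nonneg hconv t e) (h01 _))

end Pool.Agent.Lib.HSys
end

section

/-!
# Semi-discrete optimal transport: existence of the heights
-/

set_option autoImplicit false
open MeasureTheory Set Filter Topology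
open scoped ENNReal Matrix

namespace Pool.Agent.Lib.HSys

private theorem semi_K_eq {n : ℕ} (R : ℝ) :
    {ξ : E n | ∀ l, |ξ l| ≤ R} = Set.Icc (fun _ => -R) (fun _ => R) := by
  ext ξ
  simp only [Set.mem_ofPred_eq, Set.mem_Icc, Pi.le_def, abs_le]
  exact forall_and

private theorem semi_vol {n : ℕ} {R : ℝ} (hR : 0 < R) :
    volume.real {ξ : E n | ∀ l, |ξ l| ≤ R} = (2 * R) ^ n := by
  rw [semi_K_eq, Measure.real, Real.volume_Icc_pi_toReal (by intro i; simp; linarith)]
  simp
  ring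

private theorem semi_compact {n : ℕ} (R : ℝ) : IsCompact {ξ : E n | ∀ l, |ξ l| ≤ R} := by
  rw [semi_K_eq]; exact isCompact_Icc

/-- the linear function -/
private noncomputable def semiA {n : ℕ} {ι : Type} (z : ι → E n) (j : ι) (ξ : E n) : ℝ :=
  ∑ l, z j l * ξ l

private theorem semiA_cont {n : ℕ} {ι : Type} (z : ι → E n) (j : ι) :
    Continuous (semiA z j) := by
  unfold semiA
  fun_prop

private theorem semiA_int {n : ℕ} {ι : Type} (z : ι → E n) (j : ι) (R : ℝ) :
    ∫ ξ in {ξ : E n | ∀ l, |ξ l| ≤ R}, semiA z j ξ = 0 := by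
  have h1 : ∫ ξ in {ξ : E n | ∀ l, |ξ l| ≤ R}, semiA z j ξ =
      ∫ ξ in {ξ : E n | ∀ l, |ξ l| ≤ R}, semiA z j (-ξ) := by
    rw [← integral_indicator (semi_compact R).measurableSet,
      ← integral_indicator (semi_compact R).measurableSet,
      ← integral_neg_eq_self]
    congr 1
    ext ξ
    simp only [indicator, Set.mem_ofPred_eq, Pi.neg_apply, abs_neg]
  have h2 : ∀ ξ : E n, semiA z j (-ξ) = - semiA z j ξ := by
    intro ξ
    simp [semiA]
  simp only [h2] at h1
  rw [integral_neg] at h1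
  linarith

/-- the max of the affine functions -/
private noncomputable def semiP {n : ℕ} {ι : Type} [Fintype ι] [Nonempty ι] (z : ι → E n)
    (h : ι → ℝ) (ξ : E n) : ℝ :=
  Finset.univ.sup' Finset.univ_nonempty fun j => semiA z j ξ - h j

private theorem semiP_cont {n : ℕ} {ι : Type} [Fintype ι] [Nonempty ι] (z : ι → E n) :
    Continuous (Function.uncurry (semiP z)) := by
  unfold semiP
  refine Continuous.finset_sup'_apply (s := Finset.univ) Finset.univ_nonempty ?_
  intro j _
  exact ((semiA_cont z j).comp continuous_snd).sub ((continuous_apply j).comp continuous_fst)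

private theorem semiP_cont' {n : ℕ} {ι : Type} [Fintype ι] [Nonempty ι] (z : ι → E n)
    (h : ι → ℝ) : Continuous (semiP z h) :=
  (semiP_cont z).comp (Continuous.prodMk continuous_const continuous_id)

/-- the functional -/
private noncomputable def semiF {n : ℕ} {ι : Type} [Fintype ι] [Nonempty ι] (z : ι → E n)
    (f : ι → ℝ) (R : ℝ) (h : ι → ℝ) : ℝ :=
  (∫ ξ in {ξ : E n | ∀ l, |ξ l| ≤ R}, semiP z h ξ) + ∑ j, f j * h j

private theorem semiF_cont {n : ℕ} {ι : Type} [Fintype ι] [Nonempty ι] (z : ι → E n)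
    (f : ι → ℝ) (R : ℝ) : Continuous (semiF z f R) := by
  unfold semiF
  apply Continuous.add
  · exact continuous_parametric_integral_of_continuous (semiP_cont z) (semi_compact R)
  · fun_prop

private theorem semiP_int {n : ℕ} {ι : Type} [Fintype ι] [Nonempty ι] (z : ι → E n)
    (R : ℝ) (h : ι → ℝ) : IntegrableOn (semiP z h) {ξ : E n | ∀ l, |ξ l| ≤ R} :=
  (semiP_cont' z h).continuousOn.integrableOn_compact (semi_compact R)

private theorem semiF_shift {n : ℕ} {ι : Type} [Fintype ι] [Nonempty ι] (z : ι → E n)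
    (f : ι → ℝ) {R : ℝ} (hR : 0 < R) (hsum : ∑ j, f j = (2 * R) ^ n) (h : ι → ℝ) (c : ℝ) :
    semiF z f R (fun j => h j - c) = semiF z f R h := by
  have h1 : ∀ ξ, semiP z (fun j => h j - c) ξ = semiP z h ξ + c := by
    intro ξ
    unfold semiP
    rw [Finset.sup'_add]
    congr 1
    ext j
    ring
  unfold semiF
  simp only [h1]
  rw [integral_add (semiP_int z R h) ((continuous_const).continuousOn.integrableOn_compact
    (semi_compact R)), setIntegral_const, semi_vol hR, ← hsum]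
  simp only [mul_sub, Finset.sum_sub_distrib, ← Finset.sum_mul, smul_eq_mul]
  ring

private theorem semi_min {n : ℕ} {ι : Type} [Fintype ι] [Nonempty ι] (z : ι → E n) (f : ι → ℝ)
    (hf : ∀ j, 0 < f j) (R : ℝ) (hR : 0 < R) (hsum : ∑ j, f j = (2 * R) ^ n) :
    ∃ h : ι → ℝ, ∀ h', semiF z f R h ≤ semiF z f R h' := by
  set L : ℝ := ∑ j, |semiF z f R 0| / f j with hL
  have hL0 : 0 ≤ L := Finset.sum_nonneg fun j _ => div_nonneg (abs_nonneg _) (hf j).le
  have hLj : ∀ j, |semiF z f R 0| ≤ L * f j := by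
    intro j
    have : |semiF z f R 0| / f j ≤ L :=
      Finset.single_le_sum (f := fun j => |semiF z f R 0| / f j)
        (fun j _ => div_nonneg (abs_nonneg _) (hf j).le) (Finset.mem_univ j)
    rwa [div_le_iff₀ (hf j)] at this
  obtain ⟨h, hh, hmin⟩ := (isCompact_Icc (a := (0 : ι → ℝ)) (b := fun _ => L)).exists_isMinOn
    ⟨0, by simp [Pi.le_def, hL0]⟩ (semiF_cont z f R).continuousOn
  refine ⟨h, fun h' => ?_⟩
  obtain ⟨j₀, -, hj₀⟩ := Finset.exists_min_image Finset.univ h' Finset.univ_nonempty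
  rw [← semiF_shift z f hR hsum h' (h' j₀)]
  set g : ι → ℝ := fun j => h' j - h' j₀ with hg
  have hg0 : ∀ j, 0 ≤ g j := fun j => sub_nonneg.2 (hj₀ j (Finset.mem_univ j))
  by_cases hb : ∀ j, g j ≤ L
  · exact hmin ⟨hg0, hb⟩
  · push Not at hb
    obtain ⟨j, hj⟩ := hb
    have h0 : semiF z f R h ≤ semiF z f R 0 := hmin ⟨le_refl _, fun _ => hL0⟩
    refine h0.trans ?_
    have h1 : f j * g j ≤ semiF z f R g := by
      unfold semiF
      have h2 : (0 : ℝ) ≤ ∫ ξ in {ξ : E n | ∀ l, |ξ l| ≤ R}, semiP z g ξ := by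
        rw [← semiA_int z j₀ R]
        apply integral_mono ((semiA_cont z j₀).continuousOn.integrableOn_compact (semi_compact R))
          (semiP_int z R g)
        intro ξ
        have h9 := Finset.le_sup' (fun j => semiA z j ξ - g j) (Finset.mem_univ j₀)
        have h10 : g j₀ = 0 := sub_self _
        have h11 : semiA z j₀ ξ - g j₀ ≤ semiP z g ξ := h9
        rw [h10, sub_zero] at h11
        exact h11
      have h3 : f j * g j ≤ ∑ j, f j * g j :=
        Finset.single_le_sum (f := fun j => f j * g j)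
          (fun j _ => mul_nonneg (hf j).le (hg0 j)) (Finset.mem_univ j)
      linarith
    have h4 : L * f j ≤ f j * g j := by
      rw [mul_comm]
      exact mul_le_mul_of_nonneg_left hj.le (hf j).le
    exact (le_abs_self _).trans ((hLj j).trans (h4.trans h1))

/-- D1: existence of the heights (finite dimensional convex minimisation). -/
theorem semidiscrete {n : ℕ} {ι : Type} [Fintype ι] [Nonempty ι] (z : ι → E n) (f : ι → ℝ)
    (hf : ∀ j, 0 < f j) (R : ℝ) (hR : 0 < R) (hsum : ∑ j, f j = (2 * R) ^ n) :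
    ∃ h : ι → ℝ, ∀ j, f j ≤ volume.real {ξ : E n | (∀ l, |ξ l| ≤ R) ∧
      ∀ k, (∑ l, z k l * ξ l) - h k ≤ (∑ l, z j l * ξ l) - h j} := by
  classical
  obtain ⟨h, hh⟩ := semi_min z f hf R hR hsum
  refine ⟨h, fun j => ?_⟩
  -- the enlarged cells
  set C : ℝ → Set (E n) := fun t => {ξ : E n | (∀ l, |ξ l| ≤ R) ∧
      ∀ k, semiA z k ξ - h k ≤ semiA z j ξ - h j + t} with hC
  have hCc : ∀ t, IsCompact (C t) := by
    intro t
    have : C t = {ξ : E n | ∀ l, |ξ l| ≤ R} ∩ ⋂ k, {ξ | semiA z k ξ - h k ≤ semiA z j ξ - h j + t} := by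
      ext ξ; simp [hC]
    rw [this]
    apply (semi_compact R).inter_right
    apply isClosed_iInter
    intro k
    exact isClosed_le ((semiA_cont z k).sub continuous_const)
      (((semiA_cont z j).sub continuous_const).add continuous_const)
  have hCm : ∀ t, MeasurableSet (C t) := fun t => (hCc t).measurableSet
  have hKfin : volume {ξ : E n | ∀ l, |ξ l| ≤ R} ≠ ∞ := (semi_compact R).measure_lt_top.ne
  have hCfin : ∀ t, volume (C t) ≠ ∞ := fun t => (hCc t).measure_lt_top.ne
  have key : ∀ t : ℝ, 0 < t → f j ≤ volume.real (C t) := by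
    intro t ht
    set h' := Function.update h j (h j - t) with hh'
    have h1 := hh h'
    have h2 : ∀ ξ ∈ {ξ : E n | ∀ l, |ξ l| ≤ R}, semiP z h' ξ ≤
        semiP z h ξ + t * (C t).indicator (fun _ => (1 : ℝ)) ξ := by
      intro ξ hξ
      unfold semiP
      apply Finset.sup'_le
      intro k _
      by_cases hkj : k = j
      · subst hkj
        rw [hh', Function.update_self]
        by_cases hm : ξ ∈ C t
        · rw [indicator_of_mem hm]
          have := Finset.le_sup' (fun j => semiA z j ξ - h j) (Finset.mem_univ k)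
          linarith
        · rw [indicator_of_notMem hm, mul_zero, add_zero]
          have : ∃ k', semiA z k ξ - h k + t < semiA z k' ξ - h k' := by
            by_contra hcon
            push Not at hcon
            exact hm ⟨hξ, hcon⟩
          obtain ⟨k', hk'⟩ := this
          have h3 := Finset.le_sup' (fun j => semiA z j ξ - h j) (Finset.mem_univ k')
          linarith
      · rw [hh', Function.update_of_ne hkj]
        have h3 := Finset.le_sup' (fun j => semiA z j ξ - h j) (Finset.mem_univ k)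
        have h4 : 0 ≤ t * (C t).indicator (fun _ => (1 : ℝ)) ξ :=
          mul_nonneg ht.le (indicator_nonneg (fun _ _ => zero_le_one) _)
        linarith
    have hI : IntegrableOn (fun ξ => t * (C t).indicator (fun _ => (1 : ℝ)) ξ)
        {ξ : E n | ∀ l, |ξ l| ≤ R} := by
      apply Integrable.const_mul
      rw [integrable_indicator_iff (hCm t)]
      exact integrableOn_const (by
        rw [Measure.restrict_apply (hCm t)]
        exact ((measure_mono inter_subset_left).trans_lt (hCc t).measure_lt_top).ne) 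
    have h5 : ∫ ξ in {ξ : E n | ∀ l, |ξ l| ≤ R}, semiP z h' ξ ≤
        (∫ ξ in {ξ : E n | ∀ l, |ξ l| ≤ R}, semiP z h ξ) + t * volume.real (C t) := by
      have h6 : ∫ ξ in {ξ : E n | ∀ l, |ξ l| ≤ R}, t * (C t).indicator (fun _ => (1 : ℝ)) ξ =
          t * volume.real (C t) := by
        rw [integral_const_mul, setIntegral_indicator (hCm t), setIntegral_const]
        have : {ξ : E n | ∀ l, |ξ l| ≤ R} ∩ C t = C t := by
          apply inter_eq_right.2
          intro ξ hξ
          exact hξ.1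
        rw [this]
        simp
      rw [← h6, ← integral_add (semiP_int z R h) hI]
      exact setIntegral_mono_on (semiP_int z R h') ((semiP_int z R h).add hI)
        (semi_compact R).measurableSet h2
    have h7 : ∑ k, f k * h' k = (∑ k, f k * h k) - t * f j := by
      rw [← Finset.add_sum_erase Finset.univ (fun k => f k * h' k) (Finset.mem_univ j),
        ← Finset.add_sum_erase Finset.univ (fun k => f k * h k) (Finset.mem_univ j)]
      have : ∑ k ∈ Finset.univ.erase j, f k * h' k = ∑ k ∈ Finset.univ.erase j, f k * h k := by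
        apply Finset.sum_congr rfl
        intro k hk
        rw [hh', Function.update_of_ne (Finset.ne_of_mem_erase hk)]
      rw [this, hh', Function.update_self]
      ring
    unfold semiF at h1
    rw [h7] at h1
    have h8 : t * f j ≤ t * volume.real (C t) := by linarith
    exact le_of_mul_le_mul_left h8 ht
  -- the limit
  have hanti : Antitone fun m : ℕ => C (1 / ((m : ℝ) + 1)) := by
    intro m m' hmm ξ hξ
    refine ⟨hξ.1, fun k => (hξ.2 k).trans ?_⟩
    have : 1 / ((m' : ℝ) + 1) ≤ 1 / ((m : ℝ) + 1) := by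
      apply one_div_le_one_div_of_le (by positivity)
      have : (m : ℝ) ≤ m' := by exact_mod_cast hmm
      linarith
    linarith
  have hlim := tendsto_measure_iInter_atTop (μ := (volume : Measure (E n)))
    (s := fun m : ℕ => C (1 / ((m : ℝ) + 1))) (fun m => (hCm _).nullMeasurableSet) hanti
    ⟨0, hCfin _⟩
  have hinter : (⋂ m : ℕ, C (1 / ((m : ℝ) + 1))) = {ξ : E n | (∀ l, |ξ l| ≤ R) ∧
      ∀ k, (∑ l, z k l * ξ l) - h k ≤ (∑ l, z j l * ξ l) - h j} := by
    ext ξ
    simp only [mem_iInter, hC, Set.mem_ofPred_eq]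
    constructor
    · intro hξ
      refine ⟨(hξ 0).1, fun k => ?_⟩
      have h1 : Tendsto (fun m : ℕ => semiA z j ξ - h j + 1 / ((m : ℝ) + 1)) atTop
          (𝓝 (semiA z j ξ - h j + 0)) :=
        tendsto_const_nhds.add tendsto_one_div_add_atTop_nhds_zero_nat
      have h2 := ge_of_tendsto' h1 (fun m => (hξ m).2 k)
      simpa [semiA] using h2
    · intro hξ m
      refine ⟨hξ.1, fun k => ?_⟩
      have h1 := hξ.2 k
      have h2 : (0 : ℝ) ≤ 1 / ((m : ℝ) + 1) := by positivity
      simp only [semiA]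
      linarith
  rw [hinter] at hlim
  have hlim2 : Tendsto (fun m : ℕ => volume.real (C (1 / ((m : ℝ) + 1)))) atTop
      (𝓝 (volume.real {ξ : E n | (∀ l, |ξ l| ≤ R) ∧
      ∀ k, (∑ l, z k l * ξ l) - h k ≤ (∑ l, z j l * ξ l) - h j})) := by
    unfold Measure.real
    apply (ENNReal.tendsto_toReal _).comp hlim
    exact ((measure_mono (fun ξ hξ => hξ.1)).trans_lt (semi_compact R).measure_lt_top).ne
  exact ge_of_tendsto' hlim2 (fun m => key _ (by positivity))

end Pool.Agent.Lib.HSys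
end

section

/-!
# D3: subgradients of a convex function are bounded by the averaged second difference
-/

set_option autoImplicit false
open MeasureTheory Set Filter Topology
open scoped ENNReal Matrix

namespace Pool.Agent.Lib.HSys

theorem subgrad_cube_eq {n : ℕ} (r : ℝ) :
    {y : E n | ∀ l, |y l| ≤ r} = Set.Icc (fun _ => -r) (fun _ => r) := by
  ext ξ
  simp only [mem_ofPred_eq, Set.mem_Icc, Pi.le_def, abs_le]
  exact ⟨fun h => ⟨fun l => (h l).1, fun l => (h l).2⟩, fun h l => ⟨h.1 l, h.2 l⟩⟩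

theorem subgrad_cube_compact {n : ℕ} (r : ℝ) : IsCompact {y : E n | ∀ l, |y l| ≤ r} := by
  rw [subgrad_cube_eq]; exact isCompact_Icc

theorem subgrad_cube_volume {n : ℕ} (r : ℝ) (hr : 0 ≤ r) :
    volume.real {y : E n | ∀ l, |y l| ≤ r} = (2 * r) ^ n := by
  rw [subgrad_cube_eq, measureReal_def, Real.volume_Icc_pi, ENNReal.toReal_prod]
  have : r - -r = 2 * r := by ring
  simp only [this]
  rw [Finset.prod_const, ENNReal.toReal_ofReal (by positivity)]
  simp

/-- a nonnegative convex function on the cube of radius `3/4` is bounded by its integral over the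
unit cube. -/
theorem subgrad_pointwise {n : ℕ} (g : E n → ℝ) (hg : ConvexOn ℝ univ g) (hgc : Continuous g)
    (hg0 : ∀ y, 0 ≤ g y) (x : E n) (hx : ∀ l, |x l| ≤ 3 / 4) :
    g x ≤ 2 ^ n * ∫ y in {y : E n | ∀ l, |y l| ≤ 1}, g y := by
  set Q : Set (E n) := {y : E n | ∀ l, |y l| ≤ 1} with hQ
  set S : Set (E n) := {y : E n | ∀ l, |y l| ≤ 1 / 4} with hS
  have hQc : IsCompact Q := subgrad_cube_compact 1
  have hSc : IsCompact S := subgrad_cube_compact (1 / 4)
  have hQint : IntegrableOn g Q := hgc.continuousOn.integrableOn_compact hQc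
  have h1 : ∫ h in S, g (x + h) ≤ ∫ y in Q, g y := by
    set T : Set (E n) := {y | y - x ∈ S} with hT
    have hTQ : T ⊆ Q := by
      intro y hy l
      have h1 : |y l - x l| ≤ 1 / 4 := hy l
      have h2 := hx l
      have h3 : y l = (y l - x l) + x l := by ring
      rw [h3]
      calc |(y l - x l) + x l| ≤ |y l - x l| + |x l| := abs_add_le _ _
        _ ≤ 1 := by linarith
    have hTm : MeasurableSet T := hSc.measurableSet.preimage (by fun_prop)
    calc ∫ h in S, g (x + h) = ∫ h, S.indicator (fun h => g (x + h)) h :=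
          (integral_indicator hSc.measurableSet).symm
      _ = ∫ h, T.indicator g (x + h) := by
          congr 1
          ext h
          by_cases hh : h ∈ S
          · have : x + h ∈ T := by simpa [hT] using hh
            rw [indicator_of_mem hh, indicator_of_mem this]
          · have : x + h ∉ T := by simpa [hT] using hh
            rw [indicator_of_notMem hh, indicator_of_notMem this]
      _ = ∫ y, T.indicator g y := integral_add_left_eq_self (fun y => T.indicator g y) x
      _ = ∫ y in T, g y := integral_indicator hTm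
      _ ≤ ∫ y in Q, g y := setIntegral_mono_set hQint (Eventually.of_forall hg0)
          (LE.le.eventuallyLE hTQ)
  have h2 : ∫ h in S, g (x - h) ≤ ∫ y in Q, g y := by
    set T : Set (E n) := {y | x - y ∈ S} with hT
    have hTQ : T ⊆ Q := by
      intro y hy l
      have h1 : |x l - y l| ≤ 1 / 4 := hy l
      have h2 := hx l
      have h3 : y l = x l - (x l - y l) := by ring
      rw [h3]
      calc |x l - (x l - y l)| ≤ |x l| + |x l - y l| := abs_sub _ _
        _ ≤ 1 := by linarith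
    have hTm : MeasurableSet T := hSc.measurableSet.preimage (by fun_prop)
    calc ∫ h in S, g (x - h) = ∫ h, S.indicator (fun h => g (x - h)) h :=
          (integral_indicator hSc.measurableSet).symm
      _ = ∫ h, T.indicator g (x - h) := by
          congr 1
          ext h
          by_cases hh : h ∈ S
          · have : x - h ∈ T := by simpa [hT] using hh
            rw [indicator_of_mem hh, indicator_of_mem this]
          · have : x - h ∉ T := by simpa [hT] using hh
            rw [indicator_of_notMem hh, indicator_of_notMem this]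
      _ = ∫ y, T.indicator g y := integral_sub_left_eq_self (fun y => T.indicator g y) _ x
      _ = ∫ y in T, g y := integral_indicator hTm
      _ ≤ ∫ y in Q, g y := setIntegral_mono_set hQint (Eventually.of_forall hg0)
          (LE.le.eventuallyLE hTQ)
  have hi1 : IntegrableOn (fun h => g (x + h)) S :=
    (hgc.comp (by fun_prop)).continuousOn.integrableOn_compact hSc
  have hi2 : IntegrableOn (fun h => g (x - h)) S :=
    (hgc.comp (by fun_prop)).continuousOn.integrableOn_compact hSc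
  have h3 : (1 / 2) ^ n * g x ≤ ∫ h in S, (1 / 2 * g (x + h) + 1 / 2 * g (x - h)) := by
    have h4 : ∫ _h in S, g x = (1 / 2) ^ n * g x := by
      rw [setIntegral_const, subgrad_cube_volume _ (by norm_num), smul_eq_mul]
      norm_num
    rw [← h4]
    apply setIntegral_mono_on
    · exact (integrableOn_const_iff).2 (Or.inr hSc.measure_lt_top)
    · exact (hi1.const_mul _).add (hi2.const_mul _)
    · exact hSc.measurableSet
    · intro h _
      have := hg.2 (mem_univ (x + h)) (mem_univ (x - h)) (by norm_num : (0 : ℝ) ≤ 1 / 2)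
        (by norm_num : (0 : ℝ) ≤ 1 / 2) (by norm_num)
      have he : (1 / 2 : ℝ) • (x + h) + (1 / 2 : ℝ) • (x - h) = x := by
        ext l
        simp only [Pi.add_apply, Pi.smul_apply, Pi.sub_apply, smul_eq_mul]
        ring
      rw [he] at this
      simpa only [smul_eq_mul] using this
  have h4 : ∫ h in S, (1 / 2 * g (x + h) + 1 / 2 * g (x - h)) =
      1 / 2 * (∫ h in S, g (x + h)) + 1 / 2 * ∫ h in S, g (x - h) := by
    rw [integral_add (hi1.const_mul _) (hi2.const_mul _), integral_const_mul,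
      integral_const_mul]
  have h5 : (1 / 2) ^ n * g x ≤ ∫ y in Q, g y := by
    rw [h4] at h3
    linarith
  have h6 : g x = 2 ^ n * ((1 / 2) ^ n * g x) := by
    rw [← mul_assoc, ← mul_pow]
    norm_num
  rw [h6]
  exact mul_le_mul_of_nonneg_left h5 (by positivity)

/-- D3: bound of subgradients by the averaged second difference. -/
theorem subgrad_bound {n : ℕ} (φ : E n → ℝ) (hφ : ConvexOn ℝ univ φ) (p₀ x q : E n)
    (hp₀ : ∀ y, φ 0 + ∑ l, p₀ l * y l ≤ φ y) (hx : ∀ l, |x l| ≤ 1 / 2)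
    (hq : ∀ y, φ x + ∑ l, q l * (y l - x l) ≤ φ y) :
    ∑ l, |q l - p₀ l| ≤
      2 ^ (n + 1) * ∫ y in {y : E n | ∀ l, |y l| ≤ 1}, (φ y + φ (-y) - 2 * φ 0) := by
  have hφc : Continuous φ := by
    have := hφ.continuousOn isOpen_univ
    exact continuousOn_univ.1 this
  set Q : Set (E n) := {y : E n | ∀ l, |y l| ≤ 1} with hQ
  have hQc : IsCompact Q := subgrad_cube_compact 1
  let g : E n → ℝ := fun y => φ y - φ 0 - ∑ l, p₀ l * y l
  have hgc : Continuous g := by fun_prop
  have hg0 : ∀ y, 0 ≤ g y := fun y => by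
    have := hp₀ y
    simp only [g]
    linarith
  have hg : ConvexOn ℝ univ g := by
    refine ⟨convex_univ, ?_⟩
    intro y _ z _ a b ha hb hab
    have h1 := hφ.2 (mem_univ y) (mem_univ z) ha hb hab
    have h2 : ∑ l, p₀ l * (a • y + b • z) l = a * ∑ l, p₀ l * y l + b * ∑ l, p₀ l * z l := by
      rw [Finset.mul_sum, Finset.mul_sum, ← Finset.sum_add_distrib]
      apply Finset.sum_congr rfl
      intro l _
      simp only [Pi.add_apply, Pi.smul_apply, smul_eq_mul]
      ring
    have h3 : φ 0 = a * φ 0 + b * φ 0 := by rw [← add_mul, hab, one_mul]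
    simp only [g, smul_eq_mul] at h1 ⊢
    rw [h2]
    linarith
  -- the second difference in terms of `g`
  have hI : ∫ y in Q, (φ y + φ (-y) - 2 * φ 0) = 2 * ∫ y in Q, g y := by
    have h1 : ∫ y in Q, (φ y + φ (-y) - 2 * φ 0) = ∫ y in Q, (g y + g (-y)) := by
      congr 1
      ext y
      simp only [g, Pi.neg_apply, mul_neg, Finset.sum_neg_distrib]
      ring
    have h2 : ∫ y in Q, g (-y) = ∫ y in Q, g y := by
      rw [← integral_indicator hQc.measurableSet, ← integral_indicator hQc.measurableSet]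
      rw [← integral_neg_eq_self (fun y => Q.indicator g y)]
      congr 1
      ext y
      by_cases hy : y ∈ Q
      · have : -y ∈ Q := fun l => by simpa using hy l
        rw [indicator_of_mem hy, indicator_of_mem this]
      · have : -y ∉ Q := fun h => hy fun l => by simpa using h l
        rw [indicator_of_notMem hy, indicator_of_notMem this]
    have hi1 : IntegrableOn g Q := hgc.continuousOn.integrableOn_compact hQc
    have hi2 : IntegrableOn (fun y => g (-y)) Q :=
      (hgc.comp continuous_neg).continuousOn.integrableOn_compact hQc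
    rw [h1, integral_add hi1 hi2, h2]
    ring
  rw [hI]
  -- the test point
  let y : E n := fun l => x l + SignType.sign (q l - p₀ l) / 4
  have hy : ∀ l, |y l| ≤ 3 / 4 := by
    intro l
    have h1 : |((SignType.sign (q l - p₀ l) : SignType) : ℝ)| ≤ 1 := by
      rcases lt_trichotomy (q l - p₀ l) 0 with h | h | h
      · simp [sign_neg h]
      · simp [h]
      · simp [sign_pos h]
    calc |y l| ≤ |x l| + |((SignType.sign (q l - p₀ l) : SignType) : ℝ) / 4| := abs_add_le _ _
      _ ≤ 1 / 2 + 1 / 4 := by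
          apply add_le_add (hx l)
          rw [abs_div, abs_of_pos (by norm_num : (0 : ℝ) < 4)]
          linarith
      _ = 3 / 4 := by norm_num
  have h1 := subgrad_pointwise g hg hgc hg0 y hy
  have h2 : 1 / 4 * ∑ l, |q l - p₀ l| ≤ g y := by
    have h3 := hq y
    have h4 := hp₀ x
    have h5 : ∑ l, q l * (y l - x l) - ∑ l, p₀ l * y l + ∑ l, p₀ l * x l =
        1 / 4 * ∑ l, |q l - p₀ l| := by
      rw [Finset.mul_sum, ← Finset.sum_sub_distrib, ← Finset.sum_add_distrib]
      apply Finset.sum_congr rfl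
      intro l _
      have h6 : (q l - p₀ l) * ((SignType.sign (q l - p₀ l) : SignType) : ℝ) = |q l - p₀ l| :=
        self_mul_sign _
      rw [← h6]
      simp only [y]
      ring
    simp only [g]
    linarith
  have h7 : (2 : ℝ) ^ (n + 1) * (2 * ∫ y in Q, g y) = 4 * (2 ^ n * ∫ y in Q, g y) := by
    ring
  rw [h7]
  linarith

end Pool.Agent.Lib.HSys
end
end

section

/-!
# Radial tests (two consequences of the tested equation `H1`)
-/

set_option autoImplicit false
open MeasureTheory Set Filter Topology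
open scoped ENNReal Matrix

namespace Pool.Agent.Lib.HSys

/-! ### the smooth step -/

theorem radial_step_deriv_nonneg (t : ℝ) : 0 ≤ deriv Real.smoothTransition t :=
  Real.smoothTransition.monotone.deriv_nonneg

theorem radial_step_differentiable : Differentiable ℝ Real.smoothTransition :=
  (Real.smoothTransition.contDiff (n := 1)).differentiable (by norm_num)

theorem radial_step_deriv_cont : Continuous (deriv Real.smoothTransition) :=
  (Real.smoothTransition.contDiff (n := 1)).continuous_deriv (by norm_num)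

theorem radial_step_deriv_of_lt {t : ℝ} (ht : t < 0) : deriv Real.smoothTransition t = 0 := by
  have h : Real.smoothTransition =ᶠ[𝓝 t] fun _ => (0 : ℝ) := by
    filter_upwards [Iio_mem_nhds ht] with s hs
    exact Real.smoothTransition.zero_of_nonpos (le_of_lt hs)
  rw [h.deriv_eq]; simp

theorem radial_step_deriv_of_gt {t : ℝ} (ht : 1 < t) : deriv Real.smoothTransition t = 0 := by
  have h : Real.smoothTransition =ᶠ[𝓝 t] fun _ => (1 : ℝ) := by
    filter_upwards [Ioi_mem_nhds ht] with s hs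
    exact Real.smoothTransition.one_of_one_le (le_of_lt hs)
  rw [h.deriv_eq]; simp

theorem radial_step_bound : ∃ D : ℝ, 0 < D ∧ ∀ t, deriv Real.smoothTransition t ≤ D := by
  obtain ⟨B, hB⟩ := (isCompact_Icc (a := (0 : ℝ)) (b := 1)).exists_bound_of_continuousOn
    radial_step_deriv_cont.continuousOn
  refine ⟨|B| + 1, by positivity, fun t => ?_⟩
  by_cases h0 : t < 0
  · rw [radial_step_deriv_of_lt h0]; positivity
  by_cases h1 : 1 < t
  · rw [radial_step_deriv_of_gt h1]; positivity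
  push Not at h0 h1
  have := hB t ⟨h0, h1⟩
  have h2 := le_abs_self (deriv Real.smoothTransition t)
  have h3 := le_abs_self B
  rw [Real.norm_eq_abs] at this
  linarith

/-! ### radial vector fields -/

/-- the radial field `X(y) = (a(⟨y⟩)/⟨y⟩) y` -/
noncomputable def radX (a : ℝ → ℝ) {m : ℕ} (y : E m) : E m := fun i => a (bra y) / bra y * y i

theorem radX_contDiff {a : ℝ → ℝ} (ha : ContDiff ℝ (⊤ : ℕ∞) a) {m : ℕ} :
    ContDiff ℝ (⊤ : ℕ∞) (radX a : E m → E m) := by
  rw [contDiff_pi]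
  intro i
  unfold radX
  exact ((ha.comp contDiff_bra).div contDiff_bra (fun y => (bra_pos y).ne')).mul
    (contDiff_apply ℝ ℝ i)

theorem radX_fderiv {a : ℝ → ℝ} (ha : ContDiff ℝ (⊤ : ℕ∞) a) {m : ℕ} (y : E m) (i j : Fin m) :
    fderiv ℝ (radX a) y (Pi.single j 1) i =
      deriv a (bra y) * (y i / bra y) * (y j / bra y) +
        a (bra y) / bra y * ((if i = j then 1 else 0) - y i * y j / bra y ^ 2) := by
  have hb := bra_pos y
  have hda : HasDerivAt a (deriv a (bra y)) (bra y) :=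
    (ha.differentiable (by simp)).differentiableAt.hasDerivAt
  have h1 : HasFDerivAt (fun y : E m => bra y) (fderiv ℝ (bra : E m → ℝ) y) y :=
    (hasFDerivAt_bra y).differentiableAt.hasFDerivAt
  have h2 : HasFDerivAt (fun y : E m => a (bra y)) (deriv a (bra y) • fderiv ℝ (bra : E m → ℝ) y) y :=
    hda.comp_hasFDerivAt y h1
  have h3 : HasFDerivAt (fun y : E m => y i) (ContinuousLinearMap.proj i : E m →L[ℝ] ℝ) y :=
    (ContinuousLinearMap.proj (R := ℝ) (φ := fun _ : Fin m => ℝ) i).hasFDerivAt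
  have hX : DifferentiableAt ℝ (radX a : E m → E m) y :=
    (radX_contDiff ha).differentiable (by simp) |>.differentiableAt
  have h4 : fderiv ℝ (radX a) y (Pi.single j 1) i = pd (fun y : E m => radX a y i) j y :=
    (pd_component hX i j).symm
  rw [h4]
  have h5 : HasFDerivAt (fun y : E m => (bra y)⁻¹) (-(bra y ^ 2)⁻¹ • fderiv ℝ (bra : E m → ℝ) y) y := by
    have := (hasDerivAt_inv hb.ne').comp_hasFDerivAt y h1
    exact this
  have h6 := (h2.mul h5).mul h3
  have h7 : (fun y : E m => radX a y i) = fun y : E m => a (bra y) * (bra y)⁻¹ * y i := by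
    funext z
    simp only [radX, div_eq_mul_inv]
  have h8 : HasFDerivAt (fun y : E m => a (bra y) * (bra y)⁻¹ * y i) _ y := h6
  rw [pd, h7, h8.fderiv]
  simp only [add_apply, smul_apply, smul_eq_mul, Pi.mul_apply,
    ContinuousLinearMap.proj_apply, fderiv_bra, Pi.single_apply]
  split_ifs with hij
  · subst hij
    field_simp
    ring
  · field_simp
    ring

/-- the quadratic form of the radial field -/
theorem radX_form {a : ℝ → ℝ} (ha : ContDiff ℝ (⊤ : ℕ∞) a) {m n : ℕ} (y : E m)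
    (P : Matrix (Fin m) (Fin n) ℝ) :
    ∑ b, ∑ i, ∑ j, P i b * fderiv ℝ (radX a) y (Pi.single j 1) i * P j b =
      deriv a (bra y) * ((∑ b, (∑ i, y i * P i b) ^ 2) / bra y ^ 2) +
        a (bra y) / bra y * (fro P ^ 2 - (∑ b, (∑ i, y i * P i b) ^ 2) / bra y ^ 2) := by
  have hb := bra_pos y
  have key : ∀ b, ∑ i, ∑ j, P i b * fderiv ℝ (radX a) y (Pi.single j 1) i * P j b =
      deriv a (bra y) * ((∑ i, y i * P i b) ^ 2 / bra y ^ 2) +
        a (bra y) / bra y * (∑ i, P i b ^ 2 - (∑ i, y i * P i b) ^ 2 / bra y ^ 2) := by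
    intro b
    have h1 : ∀ i j, P i b * fderiv ℝ (radX a) y (Pi.single j 1) i * P j b =
        (deriv a (bra y) / bra y ^ 2 - a (bra y) / bra y ^ 3) * ((y i * P i b) * (y j * P j b)) +
          a (bra y) / bra y * (if i = j then P i b * P j b else 0) := by
      intro i j
      rw [radX_fderiv ha]
      split_ifs with hij
      · field_simp
        ring
      · field_simp
        ring
    simp_rw [h1, Finset.sum_add_distrib, ← Finset.mul_sum, Finset.sum_ite_eq,
      Finset.mem_univ, if_true, ← Finset.sum_mul]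
    have h2 : ∑ i, P i b * P i b = ∑ i, P i b ^ 2 := Finset.sum_congr rfl fun i _ => by ring
    rw [h2]
    field_simp
    ring
  simp_rw [key, Finset.sum_add_distrib, ← Finset.mul_sum, Finset.sum_sub_distrib, ← Finset.sum_div]
  rw [fro_sq, Finset.sum_comm]

theorem radX_r_nonneg {m n : ℕ} (y : E m) (P : Matrix (Fin m) (Fin n) ℝ) :
    0 ≤ (∑ b, (∑ i, y i * P i b) ^ 2) / bra y ^ 2 := by positivity

theorem radX_r_le {m n : ℕ} (y : E m) (P : Matrix (Fin m) (Fin n) ℝ) :
    (∑ b, (∑ i, y i * P i b) ^ 2) / bra y ^ 2 ≤ fro P ^ 2 * (1 - 1 / bra y ^ 2) := by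
  have hb := bra_pos y
  have h1 : ∑ b, (∑ i, y i * P i b) ^ 2 ≤ (∑ i, y i ^ 2) * fro P ^ 2 := by
    rw [fro_sq, Finset.sum_comm, Finset.mul_sum]
    exact Finset.sum_le_sum fun b _ => Finset.sum_mul_sq_le_sq_mul_sq _ _ _
  have h2 : ∑ i, y i ^ 2 = bra y ^ 2 - 1 := by rw [bra_sq]; ring
  rw [h2] at h1
  rw [div_le_iff₀ (by positivity)]
  calc _ ≤ _ := h1
    _ = _ := by field_simp

/-- `κ |P|² ≤` form -/
theorem radX_form_ge {a : ℝ → ℝ} (ha : ContDiff ℝ (⊤ : ℕ∞) a) {m n : ℕ} (y : E m)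
    (P : Matrix (Fin m) (Fin n) ℝ) {κ : ℝ} (h1 : κ ≤ deriv a (bra y)) (h2 : κ ≤ a (bra y) / bra y)
    : κ * fro P ^ 2 ≤
      ∑ b, ∑ i, ∑ j, P i b * fderiv ℝ (radX a) y (Pi.single j 1) i * P j b := by
  rw [radX_form ha]
  have hr0 := radX_r_nonneg y P
  have hr1 := radX_r_le y P
  have hb := bra_pos y
  have h3 : fro P ^ 2 * (1 - 1 / bra y ^ 2) ≤ fro P ^ 2 := by
    have : 0 ≤ fro P ^ 2 * (1 / bra y ^ 2) := by positivity
    linarith
  set r := (∑ b, (∑ i, y i * P i b) ^ 2) / bra y ^ 2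
  have h4 := mul_le_mul_of_nonneg_right h1 hr0
  have h5 := mul_le_mul_of_nonneg_right h2 (by linarith : 0 ≤ fro P ^ 2 - r)
  linarith

theorem radX_form_ge' {a : ℝ → ℝ} (ha : ContDiff ℝ (⊤ : ℕ∞) a) {m n : ℕ} (y : E m)
    (P : Matrix (Fin m) (Fin n) ℝ) (h1 : 0 ≤ deriv a (bra y)) (h2 : 0 ≤ a (bra y))
    : a (bra y) * fro P ^ 2 / bra y ^ 3 ≤
      ∑ b, ∑ i, ∑ j, P i b * fderiv ℝ (radX a) y (Pi.single j 1) i * P j b := by
  rw [radX_form ha]
  have hr0 := radX_r_nonneg y P
  have hr1 := radX_r_le y P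
  have hb := bra_pos y
  set r := (∑ b, (∑ i, y i * P i b) ^ 2) / bra y ^ 2
  have h4 : 0 ≤ deriv a (bra y) * r := mul_nonneg h1 hr0
  have h6 : fro P ^ 2 / bra y ^ 2 ≤ fro P ^ 2 - r := by
    have : fro P ^ 2 * (1 - 1 / bra y ^ 2) = fro P ^ 2 - fro P ^ 2 / bra y ^ 2 := by ring
    linarith
  have h5 := mul_le_mul_of_nonneg_left h6 (div_nonneg h2 hb.le : 0 ≤ a (bra y) / bra y)
  have h7 : a (bra y) * fro P ^ 2 / bra y ^ 3 = a (bra y) / bra y * (fro P ^ 2 / bra y ^ 2) := by
    field_simp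
  linarith

/-- divergence -/
theorem radX_div {a : ℝ → ℝ} (ha : ContDiff ℝ (⊤ : ℕ∞) a) {m : ℕ} (y : E m) :
    ∑ i, fderiv ℝ (radX a) y (Pi.single i 1) i =
      deriv a (bra y) * (1 - 1 / bra y ^ 2) +
        a (bra y) / bra y * (m - (1 - 1 / bra y ^ 2)) := by
  have hb := bra_pos y
  have h2 : ∑ i, y i ^ 2 = bra y ^ 2 - 1 := by rw [bra_sq]; ring
  have h1 : ∀ i, fderiv ℝ (radX a) y (Pi.single i 1) i =
      deriv a (bra y) / bra y ^ 2 * y i ^ 2 + (a (bra y) / bra y) -
        a (bra y) / bra y / bra y ^ 2 * y i ^ 2 := by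
    intro i
    rw [radX_fderiv ha, if_pos rfl]
    field_simp
    ring
  simp_rw [h1, Finset.sum_sub_distrib, Finset.sum_add_distrib, ← Finset.mul_sum, h2]
  simp only [Finset.sum_const, Finset.card_univ, Fintype.card_fin, nsmul_eq_mul]
  field_simp
  ring

theorem radX_abs_le {a : ℝ → ℝ} {m : ℕ} (y : E m) (h : 0 ≤ a (bra y)) (i : Fin m) :
    |radX a y i| ≤ a (bra y) := by
  have hb := bra_pos y
  rw [radX, abs_mul, abs_of_nonneg (div_nonneg h hb.le), div_mul_eq_mul_div, div_le_iff₀ hb]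
  exact mul_le_mul_of_nonneg_left (abs_le_bra y i) h

theorem radX_fderiv_le {a : ℝ → ℝ} (ha : ContDiff ℝ (⊤ : ℕ∞) a) {m : ℕ} (y : E m) {A A' : ℝ}
    (h : |a (bra y)| ≤ A) (h' : |deriv a (bra y)| ≤ A') (i j : Fin m) :
    |fderiv ℝ (radX a) y (Pi.single j 1) i| ≤ A' + A * 2 := by
  have hb := one_le_bra y
  have hb0 := bra_pos y
  rw [radX_fderiv ha]
  have hi : |y i / bra y| ≤ 1 := by
    rw [abs_div, abs_of_pos hb0, div_le_one hb0]; exact abs_le_bra y i
  have hj : |y j / bra y| ≤ 1 := by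
    rw [abs_div, abs_of_pos hb0, div_le_one hb0]; exact abs_le_bra y j
  have hA : 0 ≤ A := (abs_nonneg _).trans h
  have hA' : 0 ≤ A' := (abs_nonneg _).trans h'
  have h1 : |deriv a (bra y) * (y i / bra y) * (y j / bra y)| ≤ A' := by
    rw [abs_mul, abs_mul]
    calc |deriv a (bra y)| * |y i / bra y| * |y j / bra y| ≤ A' * 1 * 1 := by gcongr
      _ = A' := by ring
  have h2 : |a (bra y) / bra y| ≤ A := by
    rw [abs_div, abs_of_pos hb0, div_le_iff₀ hb0]
    nlinarith
  have h3 : |(if i = j then (1 : ℝ) else 0) - y i * y j / bra y ^ 2| ≤ 2 := by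
    have h4 : |(if i = j then (1 : ℝ) else 0)| ≤ 1 := by split_ifs <;> simp
    have h5 : |y i * y j / bra y ^ 2| ≤ 1 := by
      have : y i * y j / bra y ^ 2 = (y i / bra y) * (y j / bra y) := by field_simp
      rw [this, abs_mul]
      exact mul_le_one₀ hi (abs_nonneg _) hj
    calc _ ≤ _ := abs_sub _ _
      _ ≤ 1 + 1 := add_le_add h4 h5
      _ = 2 := by norm_num
  calc _ ≤ _ := abs_add_le _ _
    _ ≤ A' + |a (bra y) / bra y| * |(if i = j then (1 : ℝ) else 0) - y i * y j / bra y ^ 2| := by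
        rw [← abs_mul]; gcongr
    _ ≤ A' + A * 2 := by gcongr

/-! ### using `H1` -/

theorem H1_form_measurable {n : ℕ} {α : Type} [MeasurableSpace α]
    {v : α → E (n + 1)} {P : α → Matrix (Fin (n + 1)) (Fin n) ℝ}
    (hv : Measurable v) (hP : ∀ i j, Measurable fun x => P x i j)
    {X : E (n + 1) → E (n + 1)} (hX : ContDiff ℝ (⊤ : ℕ∞) X) :
    Measurable fun x => ∑ a, ∑ i, ∑ j, P x i a * fderiv ℝ X (v x) (Pi.single j 1) i * P x j a := by
  refine Finset.measurable_sum _ fun a _ => Finset.measurable_sum _ fun i _ =>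
    Finset.measurable_sum _ fun j _ => ((hP i a).mul ?_).mul (hP j a)
  have h1 : Continuous fun y => fderiv ℝ X y (Pi.single j 1) i :=
    (continuous_apply i).comp ((hX.continuous_fderiv (by simp)).clm_apply continuous_const)
  exact h1.measurable.comp hv

theorem H1_form_integrable {n : ℕ} (hn : 2 ≤ n) {α : Type} [MeasurableSpace α] {μ : Measure α}
    {v : α → E (n + 1)} {P : α → Matrix (Fin (n + 1)) (Fin n) ℝ}
    (hv : Measurable v) (hP : ∀ i j, Measurable fun x => P x i j)
    (hint : Integrable (fun x => fro (P x) ^ n) μ)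
    {X : E (n + 1) → E (n + 1)} (hX : ContDiff ℝ (⊤ : ℕ∞) X)
    (hD : ∃ D : ℝ, ∀ y i j, |fderiv ℝ X y (Pi.single j 1) i| ≤ D) :
    Integrable (fun x => fro (P x) ^ (n - 2) *
      ∑ a, ∑ i, ∑ j, P x i a * fderiv ℝ X (v x) (Pi.single j 1) i * P x j a) μ := by
  obtain ⟨D, hD⟩ := hD
  have hm := ((measurable_fro hP).pow_const (n - 2)).mul (H1_form_measurable hv hP hX)
  refine (hint.const_mul ((n : ℝ) * ((n + 1 : ℕ) * ((n + 1 : ℕ) * D)))).mono
    hm.aestronglyMeasurable (Eventually.of_forall fun x => ?_)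
  have hf := fro_nonneg (P x)
  have hD0 : 0 ≤ D := (abs_nonneg _).trans (hD (v x) 0 0)
  have h1 : |∑ a, ∑ i, ∑ j, P x i a * fderiv ℝ X (v x) (Pi.single j 1) i * P x j a| ≤
      (n : ℝ) * ((n + 1 : ℕ) * ((n + 1 : ℕ) * (D * fro (P x) ^ 2))) := by
    refine (Finset.abs_sum_le_sum_abs _ _).trans ?_
    refine (Finset.sum_le_card_nsmul _ _ _ fun a _ => ?_).trans_eq (by
      rw [Finset.card_univ, Fintype.card_fin, nsmul_eq_mul])
    refine (Finset.abs_sum_le_sum_abs _ _).trans ?_
    refine (Finset.sum_le_card_nsmul _ _ _ fun i _ => ?_).trans_eq (by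
      rw [Finset.card_univ, Fintype.card_fin, nsmul_eq_mul])
    refine (Finset.abs_sum_le_sum_abs _ _).trans ?_
    refine (Finset.sum_le_card_nsmul _ _ _ fun j _ => ?_).trans_eq (by
      rw [Finset.card_univ, Fintype.card_fin, nsmul_eq_mul])
    rw [abs_mul, abs_mul]
    calc |P x i a| * |fderiv ℝ X (v x) (Pi.single j 1) i| * |P x j a|
        ≤ fro (P x) * D * fro (P x) := by
          gcongr
          · exact abs_entry_le_fro _ _ _
          · exact hD _ _ _
          · exact abs_entry_le_fro _ _ _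
      _ = D * fro (P x) ^ 2 := by ring
  have h2 : fro (P x) ^ n = fro (P x) ^ (n - 2) * fro (P x) ^ 2 := by
    rw [← pow_add]; congr 1; omega
  rw [Real.norm_eq_abs, Real.norm_eq_abs, abs_mul, abs_of_nonneg (pow_nonneg hf _),
    abs_of_nonneg (by positivity : 0 ≤ (n : ℝ) * ((n + 1 : ℕ) * ((n + 1 : ℕ) * D)) * fro (P x) ^ n),
    h2]
  calc fro (P x) ^ (n - 2) * _ ≤ fro (P x) ^ (n - 2) *
      ((n : ℝ) * ((n + 1 : ℕ) * ((n + 1 : ℕ) * (D * fro (P x) ^ 2)))) := by gcongr
    _ = _ := by ring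

/-- from an integral bound to a lintegral bound -/
theorem H1_lint {α : Type} [MeasurableSpace α] {μ : Measure α} {f g : α → ℝ} {S : Set α}
    (hS : MeasurableSet S) (hg : Integrable g μ) (hg0 : ∀ x, 0 ≤ g x) (hfg : ∀ x ∈ S, f x ≤ g x)
    {B : ℝ} {t : ℝ≥0∞} (ht : t ≠ ∞) (hB : ∫ x, g x ∂μ ≤ B * t.toReal) :
    ∫⁻ x in S, ENNReal.ofReal (f x) ∂μ ≤ ENNReal.ofReal B * t := by
  calc ∫⁻ x in S, ENNReal.ofReal (f x) ∂μ ≤ ∫⁻ x in S, ENNReal.ofReal (g x) ∂μ :=
        setLIntegral_mono' hS fun x hx => ENNReal.ofReal_le_ofReal (hfg x hx)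
    _ ≤ ∫⁻ x, ENNReal.ofReal (g x) ∂μ := setLIntegral_le_lintegral _ _
    _ = ENNReal.ofReal (∫ x, g x ∂μ) :=
        (ofReal_integral_eq_lintegral_ofReal hg (Eventually.of_forall hg0)).symm
    _ ≤ ENNReal.ofReal (B * t.toReal) := ENNReal.ofReal_le_ofReal hB
    _ = ENNReal.ofReal B * t := by
        rw [ENNReal.ofReal_mul' ENNReal.toReal_nonneg, ENNReal.ofReal_toReal ht]

/-- RT1 : radial test on a dyadic shell -/
theorem radial_dyadic {n : ℕ} (hn : 2 ≤ n) : ∃ C₁ : ℝ, 0 < C₁ ∧
    ∀ {K M c C : ℝ}, 0 ≤ K → 0 ≤ M → ∀ {α : Type} [MeasurableSpace α] {μ : Measure α}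
    {v : α → E (n + 1)} {P : α → Matrix (Fin (n + 1)) (Fin n) ℝ} {T : ℝ → ℝ≥0∞} {s₁ : ℝ},
    HData n μ v P T s₁ K M c C → ∀ l : ℝ, s₁ ≤ l → 1 ≤ l →
      ∫⁻ x in {x | 2 * l ≤ bra (v x) ∧ bra (v x) ≤ 16 * l}, ENNReal.ofReal (fro (P x) ^ n) ∂μ ≤
        ENNReal.ofReal (C₁ * (K + M) * l) * T l := by
  obtain ⟨D, hD0, hD⟩ := radial_step_bound
  refine ⟨257 * (2 * D + 1 + 2 * (n + 1)), by positivity, ?_⟩
  intro K M c C hK hM α _ μ v P T s₁ h l hl hl1
  have hl0 : 0 < l := by linarith
  set a : ℝ → ℝ := fun s => Real.smoothTransition (s / l - 1) * Real.arctan (s / l) with ha_def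
  have ha : ContDiff ℝ (⊤ : ℕ∞) a := by
    rw [ha_def]
    exact (Real.smoothTransition.contDiff.comp ((contDiff_id.div_const l).sub contDiff_const)).mul
      (Real.contDiff_arctan.comp (contDiff_id.div_const l))
  have hderiv : ∀ s, deriv a s = deriv Real.smoothTransition (s / l - 1) * (1 / l) *
      Real.arctan (s / l) + Real.smoothTransition (s / l - 1) * (1 / l / (1 + (s / l) ^ 2)) := by
    intro s
    have h1 : HasDerivAt (fun s : ℝ => s / l - 1) (1 / l) s :=
      ((hasDerivAt_id s).div_const l).sub_const 1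
    have h1' : HasDerivAt (fun s : ℝ => s / l) (1 / l) s := (hasDerivAt_id s).div_const l
    have h2 := (radial_step_differentiable (s / l - 1)).hasDerivAt.comp s h1
    have h3 := (Real.hasDerivAt_arctan (s / l)).comp s h1'
    have h4 : deriv a s = _ := (h2.mul h3).deriv
    rw [h4]
    simp only [Function.comp_apply]
    ring
  have ha0 : ∀ s, s ≤ l → a s = 0 := by
    intro s hs
    have : s / l - 1 ≤ 0 := by
      have := (div_le_one hl0).2 hs
      linarith
    simp only [ha_def, Real.smoothTransition.zero_of_nonpos this, zero_mul]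
  have hat : ∀ s : ℝ, 0 ≤ s → 0 ≤ Real.arctan (s / l) ∧ Real.arctan (s / l) ≤ 2 := by
    intro s hs
    refine ⟨Real.arctan_nonneg.2 (by positivity), ?_⟩
    have := Real.arctan_lt_pi_div_two (s / l)
    have := Real.pi_le_four
    linarith
  have hapos : ∀ s : ℝ, 0 ≤ s → 0 ≤ a s := fun s hs =>
    mul_nonneg (Real.smoothTransition.nonneg _) (hat s hs).1
  have hale : ∀ s : ℝ, 0 ≤ s → a s ≤ 2 := by
    intro s hs
    calc a s ≤ 1 * 2 := mul_le_mul (Real.smoothTransition.le_one _) (hat s hs).2 (hat s hs).1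
          zero_le_one
      _ = 2 := by norm_num
  have hd0 : ∀ s : ℝ, 0 ≤ s → 0 ≤ deriv a s := by
    intro s hs
    rw [hderiv]
    have h1 := radial_step_deriv_nonneg (s / l - 1)
    have h2 := Real.smoothTransition.nonneg (s / l - 1)
    have h3 := (hat s hs).1
    positivity
  have hl1' : 1 / l ≤ 1 := by rw [div_le_one hl0]; exact hl1
  have hdle : ∀ s : ℝ, 0 ≤ s → deriv a s ≤ 2 * D + 1 := by
    intro s hs
    rw [hderiv]
    have h1 := radial_step_deriv_nonneg (s / l - 1)
    have h2 := Real.smoothTransition.nonneg (s / l - 1)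
    have h3 := hat s hs
    have h4 : deriv Real.smoothTransition (s / l - 1) * (1 / l) * Real.arctan (s / l) ≤ D * 1 * 2 := by
      have := hD (s / l - 1)
      have h0 : 0 ≤ 1 / l := by positivity
      gcongr
      exact h3.2
    have h5 : Real.smoothTransition (s / l - 1) * (1 / l / (1 + (s / l) ^ 2)) ≤ 1 * 1 := by
      have h6 : 1 / l / (1 + (s / l) ^ 2) ≤ 1 := by
        rw [div_le_iff₀ (by positivity)]
        nlinarith [sq_nonneg (s / l)]
      exact mul_le_mul (Real.smoothTransition.le_one _) h6 (by positivity) zero_le_one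
    linarith
  have hlow : ∀ s : ℝ, 2 * l ≤ s → s ≤ 16 * l →
      1 / (257 * l) ≤ deriv a s ∧ 1 / (257 * l) ≤ a s / s := by
    intro s h1 h2
    have hs0 : 0 < s := by linarith
    have h3 : 2 ≤ s / l := by rw [le_div_iff₀ hl0]; exact h1
    have h4 : s / l ≤ 16 := by rw [div_le_iff₀ hl0]; exact h2
    have h5 : Real.smoothTransition (s / l - 1) = 1 :=
      Real.smoothTransition.one_of_one_le (by linarith)
    constructor
    · rw [hderiv, h5]
      have h6 := radial_step_deriv_nonneg (s / l - 1)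
      have h7 := (hat s hs0.le).1
      have h8 : 1 / (257 * l) ≤ 1 * (1 / l / (1 + (s / l) ^ 2)) := by
        rw [one_mul, div_div]
        apply one_div_le_one_div_of_le (by positivity)
        have : (s / l) ^ 2 ≤ 16 ^ 2 := by gcongr
        nlinarith
      have h9 : 0 ≤ deriv Real.smoothTransition (s / l - 1) * (1 / l) * Real.arctan (s / l) := by
        positivity
      linarith
    · have h6 : 1 / 2 ≤ Real.arctan (s / l) := by
        have h7 : Real.arctan 1 ≤ Real.arctan (s / l) :=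
          Real.arctan_strictMono.monotone (by linarith)
        rw [Real.arctan_one] at h7
        have := Real.pi_gt_three
        linarith
      have h8 : a s = Real.arctan (s / l) := by simp only [ha_def, h5, one_mul]
      rw [h8, le_div_iff₀ hs0, div_mul_eq_mul_div, one_mul, div_le_iff₀ (by positivity)]
      nlinarith
  have hX : ContDiff ℝ (⊤ : ℕ∞) (radX a : E (n + 1) → E (n + 1)) := radX_contDiff ha
  have hDD : ∃ D : ℝ, ∀ (y : E (n + 1)) i j, |fderiv ℝ (radX a) y (Pi.single j 1) i| ≤ D :=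
    ⟨(2 * D + 1) + 2 * 2, fun y i j => radX_fderiv_le ha y
      (by rw [abs_of_nonneg (hapos _ (bra_pos y).le)]; exact hale _ (bra_pos y).le)
      (by rw [abs_of_nonneg (hd0 _ (bra_pos y).le)]; exact hdle _ (bra_pos y).le) i j⟩
  have hdiv : ∀ y : E (n + 1), |∑ i, fderiv ℝ (radX a) y (Pi.single i 1) i| ≤
      2 * D + 1 + 2 * (n + 1) := by
    intro y
    have hb := one_le_bra y
    have hb0 := bra_pos y
    rw [radX_div ha]
    have h1 : 0 ≤ 1 - 1 / bra y ^ 2 ∧ 1 - 1 / bra y ^ 2 ≤ 1 := by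
      constructor
      · have : 1 / bra y ^ 2 ≤ 1 := by
          rw [div_le_one (by positivity)]; nlinarith
        linarith
      · have : 0 ≤ 1 / bra y ^ 2 := by positivity
        linarith
    have h2 := hd0 _ hb0.le
    have h3 := hdle _ hb0.le
    have h4 : 0 ≤ a (bra y) / bra y := div_nonneg (hapos _ hb0.le) hb0.le
    have h5 : a (bra y) / bra y ≤ 2 := by
      rw [div_le_iff₀ hb0]
      have := hale _ hb0.le
      nlinarith
    have h6 : (0 : ℝ) ≤ ((n + 1 : ℕ) : ℝ) - (1 - 1 / bra y ^ 2) := by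
      push_cast
      have : (0 : ℝ) ≤ n := by positivity
      linarith
    have h7 : ((n + 1 : ℕ) : ℝ) - (1 - 1 / bra y ^ 2) ≤ n + 1 := by
      push_cast; linarith
    rw [abs_of_nonneg (add_nonneg (mul_nonneg h2 h1.1) (mul_nonneg h4 h6))]
    have h8 : deriv a (bra y) * (1 - 1 / bra y ^ 2) ≤ (2 * D + 1) * 1 :=
      mul_le_mul h3 h1.2 h1.1 (by positivity)
    have h9 : a (bra y) / bra y * (((n + 1 : ℕ) : ℝ) - (1 - 1 / bra y ^ 2)) ≤ 2 * (n + 1) :=
      mul_le_mul h5 h7 h6 (by norm_num)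
    linarith
  have hH1 := h.H1 l 2 (2 * D + 1 + 2 * (n + 1)) hl (radX a) hX
    (fun y hy => by
      funext i
      simp [radX, ha0 _ hy])
    (fun y i => (radX_abs_le y (hapos _ (bra_pos y).le) i).trans (hale _ (bra_pos y).le))
    hdiv hDD
  have hInt := H1_form_integrable hn h.meas_v h.meas_P h.int_P hX hDD
  have hform0 : ∀ x, 0 ≤ ∑ b, ∑ i, ∑ j,
      P x i b * fderiv ℝ (radX a) (v x) (Pi.single j 1) i * P x j b := by
    intro x
    have hb0 := bra_pos (v x)
    refine le_trans ?_ (radX_form_ge' ha (v x) (P x) (hd0 _ hb0.le) (hapos _ hb0.le))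
    have := hapos _ hb0.le
    positivity
  have hS : MeasurableSet {x | 2 * l ≤ bra (v x) ∧ bra (v x) ≤ 16 * l} := by
    have h1 : Measurable fun x => bra (v x) := measurable_bra.comp h.meas_v
    exact (measurableSet_le measurable_const h1).inter (measurableSet_le h1 measurable_const)
  refine H1_lint hS (hInt.const_mul (257 * l)) (fun x => ?_) (fun x hx => ?_)
    (h.T_fin l hl) ?_
  · have := hform0 x
    have := fro_nonneg (P x)
    positivity
  · have hb0 := bra_pos (v x)
    obtain ⟨h1, h2⟩ := hlow _ hx.1 hx.2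
    have h3 := radX_form_ge ha (v x) (P x) h1 h2
    have h4 : fro (P x) ^ n = fro (P x) ^ (n - 2) * fro (P x) ^ 2 := by
      rw [← pow_add]; congr 1; omega
    have h5 : fro (P x) ^ 2 ≤ 257 * l * ∑ b, ∑ i, ∑ j,
        P x i b * fderiv ℝ (radX a) (v x) (Pi.single j 1) i * P x j b := by
      have h6 : fro (P x) ^ 2 = 257 * l * (1 / (257 * l) * fro (P x) ^ 2) := by
        field_simp
      rw [h6]
      exact mul_le_mul_of_nonneg_left h3 (by positivity)
    rw [h4]
    have h7 := mul_le_mul_of_nonneg_left h5 (pow_nonneg (fro_nonneg (P x)) (n - 2))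
    linarith
  · rw [integral_const_mul]
    have h1 : K * 2 + M * (2 * D + 1 + 2 * (n + 1)) ≤ (2 * D + 1 + 2 * (n + 1)) * (K + M) := by
      have : 0 ≤ K * (2 * D + 1 + 2 * n) := by positivity
      nlinarith
    have h2 := mul_le_mul_of_nonneg_right h1 (ENNReal.toReal_nonneg (a := T l))
    have h3 := mul_le_mul_of_nonneg_left (hH1.trans h2) (by positivity : 0 ≤ 257 * l)
    linarith

/-- RT2 : radial test at close levels near `1` -/
theorem radial_level {n : ℕ} (hn : 2 ≤ n) : ∃ C₂ : ℝ, 0 < C₂ ∧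
    ∀ {K M c C : ℝ}, 0 ≤ K → 0 ≤ M → ∀ {α : Type} [MeasurableSpace α] {μ : Measure α}
    {v : α → E (n + 1)} {P : α → Matrix (Fin (n + 1)) (Fin n) ℝ} {T : ℝ → ℝ≥0∞} {s₁ : ℝ},
    HData n μ v P T s₁ K M c C → ∀ r r' : ℝ, s₁ ≤ 1 + r → 0 < r → r < r' → r' ≤ 1 →
      ∫⁻ x in {x | 1 + r' ≤ bra (v x)}, ENNReal.ofReal (fro (P x) ^ n / bra (v x) ^ 3) ∂μ ≤
        ENNReal.ofReal (C₂ * (K + M) * (1 + r' / (r' - r))) * T (1 + r) := by
  obtain ⟨D, hD0, hD⟩ := radial_step_bound
  refine ⟨3 * D + (n + 1), by positivity, ?_⟩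
  intro K M c C hK hM α _ μ v P T s₁ h r r' hr hr0 hrr hr1
  have hd : 0 < r' - r := by linarith
  have hr'0 : 0 < r' := by linarith
  set a : ℝ → ℝ := fun s => Real.smoothTransition ((s - (1 + r)) / (r' - r)) with ha_def
  have ha : ContDiff ℝ (⊤ : ℕ∞) a := by
    rw [ha_def]
    exact Real.smoothTransition.contDiff.comp ((contDiff_id.sub contDiff_const).div_const _)
  have hderiv : ∀ s, deriv a s =
      deriv Real.smoothTransition ((s - (1 + r)) / (r' - r)) * (1 / (r' - r)) := by
    intro s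
    have h1 : HasDerivAt (fun s : ℝ => (s - (1 + r)) / (r' - r)) (1 / (r' - r)) s :=
      ((hasDerivAt_id s).sub_const _).div_const _
    exact ((radial_step_differentiable ((s - (1 + r)) / (r' - r))).hasDerivAt.comp s h1).deriv
  have ha0 : ∀ s, s ≤ 1 + r → a s = 0 := by
    intro s hs
    exact Real.smoothTransition.zero_of_nonpos (div_nonpos_of_nonpos_of_nonneg (by linarith) hd.le)
  have hapos : ∀ s : ℝ, 0 ≤ a s := fun s => Real.smoothTransition.nonneg _
  have hale : ∀ s : ℝ, a s ≤ 1 := fun s => Real.smoothTransition.le_one _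
  have hd0 : ∀ s : ℝ, 0 ≤ deriv a s := by
    intro s
    rw [hderiv]
    have h1 := radial_step_deriv_nonneg ((s - (1 + r)) / (r' - r))
    positivity
  have hdle : ∀ s : ℝ, deriv a s ≤ D / (r' - r) := by
    intro s
    rw [hderiv, mul_one_div]
    exact div_le_div_of_nonneg_right (hD _) hd.le
  have hX : ContDiff ℝ (⊤ : ℕ∞) (radX a : E (n + 1) → E (n + 1)) := radX_contDiff ha
  have hDD : ∃ D : ℝ, ∀ (y : E (n + 1)) i j, |fderiv ℝ (radX a) y (Pi.single j 1) i| ≤ D :=
    ⟨D / (r' - r) + 1 * 2, fun y i j => radX_fderiv_le ha y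
      (by rw [abs_of_nonneg (hapos _)]; exact hale _)
      (by rw [abs_of_nonneg (hd0 _)]; exact hdle _) i j⟩
  have hdiv : ∀ y : E (n + 1), |∑ i, fderiv ℝ (radX a) y (Pi.single i 1) i| ≤
      (3 * D + (n + 1)) * (1 + r' / (r' - r)) := by
    intro y
    have hb := one_le_bra y
    have hb0 := bra_pos y
    rw [radX_div ha]
    have h1 : 0 ≤ 1 - 1 / bra y ^ 2 ∧ 1 - 1 / bra y ^ 2 ≤ 1 := by
      constructor
      · have : 1 / bra y ^ 2 ≤ 1 := by
          rw [div_le_one (by positivity)]; nlinarith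
        linarith
      · have : 0 ≤ 1 / bra y ^ 2 := by positivity
        linarith
    have h2 := hd0 (bra y)
    have h4 : 0 ≤ a (bra y) / bra y := div_nonneg (hapos _) hb0.le
    have h5 : a (bra y) / bra y ≤ 1 := by
      rw [div_le_iff₀ hb0]
      have := hale (bra y)
      nlinarith
    have h6 : (0 : ℝ) ≤ ((n + 1 : ℕ) : ℝ) - (1 - 1 / bra y ^ 2) := by
      push_cast
      have : (0 : ℝ) ≤ n := by positivity
      linarith
    have h7 : ((n + 1 : ℕ) : ℝ) - (1 - 1 / bra y ^ 2) ≤ n + 1 := by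
      push_cast; linarith
    have h10 : 0 ≤ r' / (r' - r) := by positivity
    rw [abs_of_nonneg (add_nonneg (mul_nonneg h2 h1.1) (mul_nonneg h4 h6))]
    have h8 : deriv a (bra y) * (1 - 1 / bra y ^ 2) ≤ 3 * D * (r' / (r' - r)) := by
      by_cases hbr : bra y ≤ 1 + r'
      · have h11 : 1 - 1 / bra y ^ 2 ≤ 3 * r' := by
          have h12 : 1 - 1 / bra y ^ 2 ≤ bra y ^ 2 - 1 := by
            have h13 : (bra y ^ 2 - 1) - (1 - 1 / bra y ^ 2) = (bra y ^ 2 - 1) ^ 2 / bra y ^ 2 := by
              field_simp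
            have h14 : 0 ≤ (bra y ^ 2 - 1) ^ 2 / bra y ^ 2 := by positivity
            linarith
          have h15 : bra y ^ 2 ≤ (1 + r') ^ 2 := by gcongr
          nlinarith
        calc deriv a (bra y) * (1 - 1 / bra y ^ 2) ≤ D / (r' - r) * (3 * r') :=
              mul_le_mul (hdle _) h11 h1.1 (by positivity)
          _ = _ := by ring
      · push Not at hbr
        have h11 : 1 < (bra y - (1 + r)) / (r' - r) := by
          rw [lt_div_iff₀ hd]; linarith
        rw [hderiv, radial_step_deriv_of_gt h11]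
        simp only [zero_mul]
        positivity
    have h9 : a (bra y) / bra y * (((n + 1 : ℕ) : ℝ) - (1 - 1 / bra y ^ 2)) ≤ 1 * (n + 1) :=
      mul_le_mul h5 h7 h6 (by norm_num)
    have h16 : 0 ≤ (n + 1 : ℝ) * (r' / (r' - r)) := by positivity
    nlinarith
  have hH1 := h.H1 (1 + r) 1 ((3 * D + (n + 1)) * (1 + r' / (r' - r))) hr (radX a) hX
    (fun y hy => by
      funext i
      simp [radX, ha0 _ hy])
    (fun y i => (radX_abs_le y (hapos _) i).trans (hale _))
    hdiv hDD
  have hInt := H1_form_integrable hn h.meas_v h.meas_P h.int_P hX hDD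
  have hform0 : ∀ x, 0 ≤ ∑ b, ∑ i, ∑ j,
      P x i b * fderiv ℝ (radX a) (v x) (Pi.single j 1) i * P x j b := by
    intro x
    have hb0 := bra_pos (v x)
    refine le_trans ?_ (radX_form_ge' ha (v x) (P x) (hd0 _) (hapos _))
    have := hapos (bra (v x))
    positivity
  have hS : MeasurableSet {x | 1 + r' ≤ bra (v x)} := by
    have h1 : Measurable fun x => bra (v x) := measurable_bra.comp h.meas_v
    exact measurableSet_le measurable_const h1
  refine H1_lint hS hInt (fun x => ?_) (fun x hx => ?_) (h.T_fin _ hr) ?_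
  · have := hform0 x
    have := fro_nonneg (P x)
    positivity
  · have hb0 := bra_pos (v x)
    have hx' : 1 + r' ≤ bra (v x) := hx
    have h3 := radX_form_ge' ha (v x) (P x) (hd0 _) (hapos _)
    have h1 : a (bra (v x)) = 1 := by
      apply Real.smoothTransition.one_of_one_le
      rw [le_div_iff₀ hd]; linarith
    rw [h1, one_mul] at h3
    have h4 : fro (P x) ^ n = fro (P x) ^ (n - 2) * fro (P x) ^ 2 := by
      rw [← pow_add]; congr 1; omega
    rw [h4, mul_div_assoc]
    exact mul_le_mul_of_nonneg_left h3 (pow_nonneg (fro_nonneg (P x)) (n - 2))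
  · have h10 : 0 ≤ r' / (r' - r) := by positivity
    have h1 : K * 1 + M * ((3 * D + (n + 1)) * (1 + r' / (r' - r))) ≤
        (3 * D + (n + 1)) * (K + M) * (1 + r' / (r' - r)) := by
      have h11 : 1 ≤ (3 * D + (n + 1)) * (1 + r' / (r' - r)) := by
        have h12 : (1 : ℝ) ≤ 3 * D + (n + 1) := by
          have : (0 : ℝ) ≤ n := by positivity
          linarith
        have h13 : 1 ≤ 1 + r' / (r' - r) := by linarith
        nlinarith
      nlinarith
    exact hH1.trans (mul_le_mul_of_nonneg_right h1 ENNReal.toReal_nonneg)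

end Pool.Agent.Lib.HSys
end
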