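import Pool.Agent.Lib.MP_f44734_an.Basic
import Pool.Agent.Lib.MP_f44734_an.Radial

section

/-!
# Matrix arithmetic-geometric mean inequality and the bound of minors
-/

set_option autoImplicit false
open MeasureTheory Set Filter Topology
open scoped ENNReal Matrix

namespace Pool.Agent.Lib.HSys

/-- arithmetic-geometric mean inequality for the eigenvalues of a positive semidefinite matrix. -/
private lemma AMGM_psd {n : ℕ} (hn : 1 ≤ n) (M : Matrix (Fin n) (Fin n) ℝ) (hM : M.PosSemidef) :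
    M.det ^ (1 / (n : ℝ)) ≤ M.trace / n := by
  have hn' : (0 : ℝ) < (n : ℝ) := by
    have : (1 : ℝ) ≤ (n : ℝ) := by exact_mod_cast hn
    linarith
  have hH := hM.isHermitian
  have hnn : ∀ i, 0 ≤ hH.eigenvalues i := hM.eigenvalues_nonneg
  have h := Real.geom_mean_le_arith_mean_weighted (Finset.univ : Finset (Fin n))
    (fun _ => 1 / (n : ℝ)) hH.eigenvalues (fun i _ => by positivity)
    (by rw [Finset.sum_const, Finset.card_univ, Fintype.card_fin, nsmul_eq_mul]; field_simp)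
    (fun i _ => hnn i)
  rw [Real.finsetProd_rpow _ _ (fun i _ => hnn i)] at h
  have hdet : M.det = ∏ i, hH.eigenvalues i := by
    have := hH.det_eq_prod_eigenvalues
    simpa using this
  have htr : M.trace = ∑ i, hH.eigenvalues i := by
    have := hH.trace_eq_sum_eigenvalues
    simpa using this
  rw [← hdet] at h
  rw [htr, Finset.sum_div]
  refine h.trans (le_of_eq ?_)
  refine Finset.sum_congr rfl (fun i _ => ?_)
  ring

private lemma AMGM_trace {n : ℕ} (P : Matrix (Fin n) (Fin n) ℝ) : (Pᵀ * P).trace = fro P ^ 2 := by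
  rw [fro_sq, Matrix.trace]
  simp only [Matrix.diag_apply, Matrix.mul_apply, Matrix.transpose_apply]
  rw [Finset.sum_comm]
  refine Finset.sum_congr rfl (fun i _ => Finset.sum_congr rfl (fun j _ => ?_))
  ring

private lemma AMGM_det {n : ℕ} (hn : 1 ≤ n) (P : Matrix (Fin n) (Fin n) ℝ) :
    |P.det| ^ (1 / (n : ℝ)) ≤ fro P := by
  have hn1 : (1 : ℝ) ≤ (n : ℝ) := by exact_mod_cast hn
  have hn' : (0 : ℝ) < (n : ℝ) := by linarith
  have hM : (Pᵀ * P).PosSemidef := by
    have := Matrix.posSemidef_conjTranspose_mul_self P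
    rwa [Matrix.conjTranspose_eq_transpose_of_trivial] at this
  have h := AMGM_psd hn _ hM
  rw [AMGM_trace, Matrix.det_mul, Matrix.det_transpose] at h
  have h1 : (P.det * P.det) ^ (1 / (n : ℝ)) = (|P.det| ^ (1 / (n : ℝ))) ^ 2 := by
    rw [← abs_mul_abs_self, Real.mul_rpow (abs_nonneg _) (abs_nonneg _)]
    ring
  rw [h1] at h
  have h2 : (|P.det| ^ (1 / (n : ℝ))) ^ 2 ≤ fro P ^ 2 := by
    refine h.trans ?_
    rw [div_le_iff₀ hn']
    nlinarith [sq_nonneg (fro P)]
  exact (abs_le_of_sq_le_sq' h2 (fro_nonneg P)).2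

/-- AM: arithmetic-geometric inequality -/
theorem amgm_matrix {n : ℕ} (hn : 2 ≤ n) (B P : Matrix (Fin n) (Fin n) ℝ) (hB : B.PosSemidef) :
    B.det ^ (1 / (n : ℝ)) * |P.det| ≤ fro P ^ (n - 2) * (Pᵀ * B * P).trace := by
  have hn1 : (1 : ℝ) ≤ (n : ℝ) := by exact_mod_cast (by omega : 1 ≤ n)
  have hn' : (0 : ℝ) < (n : ℝ) := by linarith
  have hM : (Pᵀ * B * P).PosSemidef := by
    have := hB.conjTranspose_mul_mul_same P
    rwa [Matrix.conjTranspose_eq_transpose_of_trivial] at this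
  have h := AMGM_psd (by omega : 1 ≤ n) _ hM
  rw [Matrix.det_mul, Matrix.det_mul, Matrix.det_transpose] at h
  have hBd : 0 ≤ B.det := hB.det_nonneg
  set d : ℝ := |P.det| ^ (1 / (n : ℝ)) with hd
  set b : ℝ := B.det ^ (1 / (n : ℝ)) with hb
  have hd0 : 0 ≤ d := Real.rpow_nonneg (abs_nonneg _) _
  have hb0 : 0 ≤ b := Real.rpow_nonneg hBd _
  have hdn : d ^ n = |P.det| := by
    rw [hd, ← Real.rpow_natCast, ← Real.rpow_mul (abs_nonneg _), one_div,
      inv_mul_cancel₀ hn'.ne', Real.rpow_one]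
  have h1 : (P.det * B.det * P.det) ^ (1 / (n : ℝ)) = b * d ^ 2 := by
    have e : P.det * B.det * P.det = B.det * (|P.det| * |P.det|) := by
      rw [abs_mul_abs_self]; ring
    rw [e, Real.mul_rpow hBd (by positivity), Real.mul_rpow (abs_nonneg _) (abs_nonneg _)]
    ring
  rw [h1] at h
  have htr : 0 ≤ (Pᵀ * B * P).trace := hM.trace_nonneg
  have h2 : b * d ^ 2 ≤ (Pᵀ * B * P).trace := by
    refine h.trans ?_
    rw [div_le_iff₀ hn']
    nlinarith
  have hfd : d ≤ fro P := AMGM_det (by omega) P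
  calc b * |P.det| = (b * d ^ 2) * d ^ (n - 2) := by
        rw [← hdn, mul_assoc, ← pow_add]
        congr 2
        omega
    _ ≤ (Pᵀ * B * P).trace * fro P ^ (n - 2) :=
        mul_le_mul h2 (pow_le_pow_left₀ hd0 hfd _) (pow_nonneg hd0 _) htr
    _ = fro P ^ (n - 2) * (Pᵀ * B * P).trace := mul_comm _ _

/-- AM2: Hadamard type bound -/
theorem abs_mnr_le {n : ℕ} (hn : 1 ≤ n) (P : Matrix (Fin (n + 1)) (Fin n) ℝ) (i : Fin (n + 1)) :
    |mnr P i| ≤ fro P ^ n := by
  have hn1 : (1 : ℝ) ≤ (n : ℝ) := by exact_mod_cast hn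
  have hn' : (0 : ℝ) < (n : ℝ) := by linarith
  unfold mnr
  set Q := P.submatrix i.succAbove id with hQ
  have hdn : (|Q.det| ^ (1 / (n : ℝ))) ^ n = |Q.det| := by
    rw [← Real.rpow_natCast, ← Real.rpow_mul (abs_nonneg _), one_div,
      inv_mul_cancel₀ hn'.ne', Real.rpow_one]
  rw [← hdn]
  apply pow_le_pow_left₀ (Real.rpow_nonneg (abs_nonneg _) _)
  exact (AMGM_det hn Q).trans (fro_submatrix_le P i)

end Pool.Agent.Lib.HSys
end

section

section

/-!
# D2: the conjugate potential of the semidiscrete optimal transport problem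
-/

set_option autoImplicit false
open MeasureTheory Set Filter Topology
open scoped ENNReal Matrix

namespace Pool.Agent.Lib.HSys

/-- a hyperplane with a nonzero normal is a null set -/
theorem otPot_hyperplane_null {n : ℕ} (a : E n) (ha : a ≠ 0) (c : ℝ) :
    volume {ξ : E n | ∑ l, a l * ξ l = c} = 0 := by
  let s : AffineSubspace ℝ (E n) :=
    { carrier := {ξ | ∑ l, a l * ξ l = c}
      smul_vsub_vadd_mem' := by
        intro t p₁ p₂ p₃ h₁ h₂ h₃
        simp only [mem_ofPred_eq] at h₁ h₂ h₃ ⊢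
        have : ∑ l, a l * (t • (p₁ -ᵥ p₂) +ᵥ p₃) l =
            t * (∑ l, a l * p₁ l - ∑ l, a l * p₂ l) + ∑ l, a l * p₃ l := by
          rw [← Finset.sum_sub_distrib, Finset.mul_sum, ← Finset.sum_add_distrib]
          apply Finset.sum_congr rfl
          intro l _
          simp only [vsub_eq_sub, vadd_eq_add, Pi.add_apply, Pi.smul_apply, Pi.sub_apply,
            smul_eq_mul]
          ring
        rw [this, h₁, h₂, h₃]
        ring }
  have hs : s ≠ ⊤ := by
    intro htop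
    have hmem : ∀ ξ : E n, ∑ l, a l * ξ l = c := by
      intro ξ
      have : ξ ∈ s := by rw [htop]; exact AffineSubspace.mem_top ℝ (E n) ξ
      exact this
    have h0 : c = 0 := by
      have := hmem 0
      simpa using this.symm
    apply ha
    ext l
    have := hmem (Pi.single l 1)
    simp only [Pi.single_apply, mul_ite, mul_one, mul_zero, Finset.sum_ite_eq',
      Finset.mem_univ, if_true] at this
    rw [this, h0]
    rfl
  have := Measure.addHaar_affineSubspace (volume : Measure (E n)) s hs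
  exact this

/-- D2: the conjugate potential. -/
theorem ot_potential {n : ℕ} {ι : Type} [Fintype ι] [Nonempty ι] (z : ι → E n)
    (hz : Function.Injective z) (f : ι → ℝ)
    (hf : ∀ j, 0 < f j) (R : ℝ) (hR : 0 < R) (hsum : ∑ j, f j = (2 * R) ^ n) :
    ∃ φ : E n → ℝ, ConvexOn ℝ univ φ ∧ (∀ x y, |φ x - φ y| ≤ R * ∑ l, |x l - y l|) ∧
      (∀ x, ∃ p : E n, ∀ y, φ x + ∑ l, p l * (y l - x l) ≤ φ y) ∧
      ∃ C : ι → Set (E n), (∀ j, MeasurableSet (C j)) ∧
        (Pairwise fun j k => volume (C j ∩ C k) = 0) ∧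
        (∀ j, f j ≤ volume.real (C j)) ∧ (∀ j, ∀ ξ ∈ C j, ∀ l, |ξ l| ≤ R) ∧
        ∀ j, ∀ ξ ∈ C j, ∀ y, φ (z j) + ∑ l, ξ l * (y l - z j l) ≤ φ y := by
  obtain ⟨h, hh⟩ := semidiscrete z f hf R hR hsum
  -- the cube
  let K : Set (E n) := {ξ | ∀ l, |ξ l| ≤ R}
  have hKeq : K = Set.Icc (fun _ => -R) (fun _ => R) := by
    ext ξ
    simp only [K, mem_ofPred_eq, Set.mem_Icc, Pi.le_def, abs_le]
    exact ⟨fun h => ⟨fun l => (h l).1, fun l => (h l).2⟩, fun h l => ⟨h.1 l, h.2 l⟩⟩
  have hK : IsCompact K := by rw [hKeq]; exact isCompact_Icc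
  have hKne : K.Nonempty := ⟨0, fun l => by simp [hR.le]⟩
  -- the maximum of the affine functions
  let ψ : E n → ℝ := fun ξ => Finset.univ.sup' Finset.univ_nonempty
    (fun k => (∑ l, z k l * ξ l) - h k)
  have hψc : Continuous ψ := by
    apply Continuous.finset_sup'_apply
    intro k _
    fun_prop
  have hψge : ∀ ξ k, (∑ l, z k l * ξ l) - h k ≤ ψ ξ := fun ξ k =>
    Finset.le_sup' (fun k => (∑ l, z k l * ξ l) - h k) (Finset.mem_univ k)
  have hmax : ∀ y : E n, ∃ ξ ∈ K, ∀ η ∈ K, (∑ l, y l * η l) - ψ η ≤ (∑ l, y l * ξ l) - ψ ξ := by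
    intro y
    have hc : Continuous fun ξ : E n => (∑ l, y l * ξ l) - ψ ξ := by fun_prop
    obtain ⟨ξ, hξ, hmax⟩ := hK.exists_isMaxOn hKne hc.continuousOn
    exact ⟨ξ, hξ, fun η hη => hmax hη⟩
  choose m hmK hm using hmax
  let φ : E n → ℝ := fun y => (∑ l, y l * m y l) - ψ (m y)
  have hφ : ∀ y, ∀ η ∈ K, (∑ l, y l * η l) - ψ η ≤ φ y := fun y η hη => hm y η hη
  have hsub : ∀ x y, φ x + ∑ l, m x l * (y l - x l) ≤ φ y := by
    intro x y
    have h1 := hφ y (m x) (hmK x)
    have h2 : ∑ l, m x l * (y l - x l) = ∑ l, y l * m x l - ∑ l, x l * m x l := by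
      rw [← Finset.sum_sub_distrib]
      apply Finset.sum_congr rfl
      intro l _
      ring
    rw [h2]
    simp only [φ] at h1 ⊢
    linarith
  have hlip : ∀ x y, φ x - φ y ≤ R * ∑ l, |x l - y l| := by
    intro x y
    have h1 := hsub x y
    have h2 : ∑ l, m x l * (x l - y l) ≤ R * ∑ l, |x l - y l| := by
      rw [Finset.mul_sum]
      apply Finset.sum_le_sum
      intro l _
      calc m x l * (x l - y l) ≤ |m x l * (x l - y l)| := le_abs_self _
        _ = |m x l| * |x l - y l| := abs_mul _ _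
        _ ≤ R * |x l - y l| := mul_le_mul_of_nonneg_right (hmK x l) (abs_nonneg _)
    have h3 : ∑ l, m x l * (y l - x l) = - ∑ l, m x l * (x l - y l) := by
      rw [← Finset.sum_neg_distrib]
      apply Finset.sum_congr rfl
      intro l _
      ring
    linarith
  refine ⟨φ, ?_, ?_, fun x => ⟨m x, hsub x⟩, ?_⟩
  · -- convexity
    refine ⟨convex_univ, ?_⟩
    intro x _ y _ a b ha hb hab
    set w : E n := a • x + b • y with hw
    have h1 := hsub w x
    have h2 := hsub w y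
    have h3 : a * ∑ l, m w l * (x l - w l) + b * ∑ l, m w l * (y l - w l) = 0 := by
      rw [Finset.mul_sum, Finset.mul_sum, ← Finset.sum_add_distrib]
      apply Finset.sum_eq_zero
      intro l _
      have : w l = a * x l + b * y l := by simp [hw]
      rw [this]
      have hb' : b = 1 - a := by linarith
      subst hb'
      ring
    have h4 : φ w = a * φ w + b * φ w := by rw [← add_mul, hab, one_mul]
    simp only [smul_eq_mul]
    have h5 := mul_le_mul_of_nonneg_left h1 ha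
    have h6 := mul_le_mul_of_nonneg_left h2 hb
    linarith
  · -- Lipschitz
    intro x y
    rw [abs_le]
    constructor
    · have := hlip y x
      have h2 : ∑ l, |y l - x l| = ∑ l, |x l - y l| :=
        Finset.sum_congr rfl fun l _ => abs_sub_comm _ _
      rw [h2] at this
      linarith
    · exact hlip x y
  · refine ⟨fun j => {ξ : E n | (∀ l, |ξ l| ≤ R) ∧
      ∀ k, (∑ l, z k l * ξ l) - h k ≤ (∑ l, z j l * ξ l) - h j}, ?_, ?_, hh, ?_, ?_⟩
    · intro j
      apply IsClosed.measurableSet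
      have heq : {ξ : E n | (∀ l, |ξ l| ≤ R) ∧
          ∀ k, (∑ l, z k l * ξ l) - h k ≤ (∑ l, z j l * ξ l) - h j} =
          (⋂ l, {ξ : E n | |ξ l| ≤ R}) ∩
          ⋂ k, {ξ : E n | (∑ l, z k l * ξ l) - h k ≤ (∑ l, z j l * ξ l) - h j} := by
        ext ξ
        simp
      beta_reduce
      rw [heq]
      apply IsClosed.inter
      · apply isClosed_iInter
        intro l
        exact isClosed_le (by fun_prop) continuous_const
      · apply isClosed_iInter
        intro k
        exact isClosed_le (by fun_prop) (by fun_prop)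
    · intro j k hjk
      refine measure_mono_null ?_ (otPot_hyperplane_null (z j - z k)
        (sub_ne_zero.2 fun h => hjk (hz h)) (h j - h k))
      rintro ξ ⟨h1, h2⟩
      have h3 := h1.2 k
      have h4 := h2.2 j
      have h5 : (∑ l, z k l * ξ l) - h k = (∑ l, z j l * ξ l) - h j := le_antisymm h3 h4
      have h6 : ∑ l, (z j - z k) l * ξ l = ∑ l, z j l * ξ l - ∑ l, z k l * ξ l := by
        rw [← Finset.sum_sub_distrib]
        apply Finset.sum_congr rfl
        intro l _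
        simp only [Pi.sub_apply]
        ring
      simp only [mem_ofPred_eq]
      rw [h6]
      linarith
    · intro j ξ hξ
      exact hξ.1
    · intro j ξ hξ y
      have h1 : ψ ξ = (∑ l, z j l * ξ l) - h j := by
        apply le_antisymm _ (hψge ξ j)
        apply Finset.sup'_le
        intro k _
        exact hξ.2 k
      have h2 : φ (z j) ≤ h j := by
        have := hψge (m (z j)) j
        simp only [φ]
        linarith
      have h3 := hφ y ξ hξ.1
      have h4 : ∑ l, ξ l * (y l - z j l) = ∑ l, y l * ξ l - ∑ l, z j l * ξ l := by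
        rw [← Finset.sum_sub_distrib]
        apply Finset.sum_congr rfl
        intro l _
        ring
      rw [h4]
      linarith

end Pool.Agent.Lib.HSys
end

section

/-!
# The Serre type test
-/

set_option autoImplicit false
open MeasureTheory Set Filter Topology
open scoped ENNReal Matrix

namespace Pool.Agent.Lib.HSys

/-- the cutoff `η(⟨y⟩/l)` -/
noncomputable def serreEta (l : ℝ) {m : ℕ} (y : E m) : ℝ :=
  Real.smoothTransition ((bra y / l - 2) / 2)

/-- the gradient of `Φ` in the variables different from `i` -/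
noncomputable def serreG {n : ℕ} (i : Fin (n + 1)) (Φ : E n → ℝ) (j : Fin n) (y : E (n + 1)) : ℝ :=
  pd Φ j (fun k => y (i.succAbove k))

/-- the test field -/
noncomputable def serreX {n : ℕ} (l : ℝ) (i : Fin (n + 1)) (Φ : E n → ℝ) (y : E (n + 1)) :
    E (n + 1) :=
  i.insertNth (α := fun _ => ℝ) 0 (fun j => serreEta l y * serreG i Φ j y)

theorem serreX_same {n : ℕ} (l : ℝ) (i : Fin (n + 1)) (Φ : E n → ℝ) (y : E (n + 1)) :
    serreX l i Φ y i = 0 := by
  simp [serreX]

theorem serreX_succAbove {n : ℕ} (l : ℝ) (i : Fin (n + 1)) (Φ : E n → ℝ) (y : E (n + 1))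
    (j : Fin n) : serreX l i Φ y (i.succAbove j) = serreEta l y * serreG i Φ j y := by
  simp [serreX]

theorem serreEta_contDiff {l : ℝ} {m : ℕ} : ContDiff ℝ (⊤ : ℕ∞) (serreEta l : E m → ℝ) :=
  Real.smoothTransition.contDiff.comp
    (((contDiff_bra.div_const l).sub contDiff_const).div_const 2)

theorem serreEta_pd {l : ℝ} {m : ℕ} (y : E m) (j : Fin m) :
    pd (serreEta l) j y =
      deriv Real.smoothTransition ((bra y / l - 2) / 2) * (1 / (2 * l)) * (y j / bra y) := by
  have h1 : HasFDerivAt (fun y : E m => (bra y / l - 2) / 2)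
      ((2 : ℝ)⁻¹ • (l⁻¹ • fderiv ℝ (bra : E m → ℝ) y)) y := by
    have h2 : HasFDerivAt (bra : E m → ℝ) (fderiv ℝ (bra : E m → ℝ) y) y :=
      (hasFDerivAt_bra y).differentiableAt.hasFDerivAt
    have h3 := ((h2.const_mul l⁻¹).sub_const 2).const_mul (2 : ℝ)⁻¹
    refine h3.congr_of_eventuallyEq (Eventually.of_forall fun z => ?_)
    simp only [div_eq_mul_inv]; ring
  have h2 := (radial_step_differentiable ((bra y / l - 2) / 2)).hasDerivAt.comp_hasFDerivAt y h1
  have h3 : pd (serreEta l) j y = (deriv Real.smoothTransition ((bra y / l - 2) / 2) •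
      ((2 : ℝ)⁻¹ • (l⁻¹ • fderiv ℝ (bra : E m → ℝ) y))) (Pi.single j 1) := by
    rw [pd]
    have h4 : HasFDerivAt (serreEta l : E m → ℝ) _ y := h2
    rw [h4.fderiv]
  rw [h3]
  simp only [smul_apply, smul_eq_mul, fderiv_bra]
  rw [mul_assoc]
  congr 1
  rw [one_div, mul_inv]
  ring

theorem serreG_contDiff {n : ℕ} (i : Fin (n + 1)) {Φ : E n → ℝ} (hΦ : ContDiff ℝ (⊤ : ℕ∞) Φ)
    (j : Fin n) : ContDiff ℝ (⊤ : ℕ∞) (serreG i Φ j) := by
  have h1 : ContDiff ℝ (⊤ : ℕ∞) (pd Φ j) :=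
    (hΦ.fderiv_right (m := (⊤ : ℕ∞)) (by simp)).clm_apply contDiff_const
  exact h1.comp (contDiff_pi.2 fun k => contDiff_apply ℝ ℝ (i.succAbove k))

theorem serreG_pd {n : ℕ} (i : Fin (n + 1)) {Φ : E n → ℝ} (hΦ : ContDiff ℝ (⊤ : ℕ∞) Φ)
    (j : Fin n) (y : E (n + 1)) (p : Fin (n + 1)) :
    pd (serreG i Φ j) p y =
      ∑ k, Hess Φ (fun k => y (i.succAbove k)) k j * (if i.succAbove k = p then 1 else 0) := by
  have h1 : ContDiff ℝ (⊤ : ℕ∞) (pd Φ j) :=
    (hΦ.fderiv_right (m := (⊤ : ℕ∞)) (by simp)).clm_apply contDiff_const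
  have hw : ContDiff ℝ (⊤ : ℕ∞) (fun y : E (n + 1) => fun k => y (i.succAbove k)) :=
    contDiff_pi.2 fun k => contDiff_apply ℝ ℝ (i.succAbove k)
  have h2 := pd_comp (ψ := pd Φ j) (w := fun y : E (n + 1) => fun k => y (i.succAbove k)) (x := y)
    (h1.differentiable (by simp)).differentiableAt (hw.differentiable (by simp)).differentiableAt p
  have h3 : pd (serreG i Φ j) p y = _ := h2
  rw [h3]
  refine Finset.sum_congr rfl fun k _ => ?_
  have h4 : Jac (fun y : E (n + 1) => fun k => y (i.succAbove k)) y k p =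
      if i.succAbove k = p then 1 else 0 := by
    rw [← pd_component (hw.differentiable (by simp)).differentiableAt, pd]
    have h5 : HasFDerivAt (fun y : E (n + 1) => y (i.succAbove k))
        (ContinuousLinearMap.proj (i.succAbove k) : E (n + 1) →L[ℝ] ℝ) y :=
      (ContinuousLinearMap.proj (R := ℝ) (φ := fun _ : Fin (n + 1) => ℝ) _).hasFDerivAt
    rw [h5.fderiv]
    simp [Pi.single_apply]
  rw [h4]
  rfl

theorem serreX_contDiff {n : ℕ} {l : ℝ} (i : Fin (n + 1)) {Φ : E n → ℝ}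
    (hΦ : ContDiff ℝ (⊤ : ℕ∞) Φ) : ContDiff ℝ (⊤ : ℕ∞) (serreX l i Φ) := by
  rw [contDiff_pi]
  intro p
  obtain rfl | ⟨j, rfl⟩ := Fin.eq_self_or_eq_succAbove i p
  · simp_rw [serreX_same]
    exact contDiff_const
  · simp_rw [serreX_succAbove]
    exact serreEta_contDiff.mul (serreG_contDiff i hΦ j)

theorem serreX_fderiv_same {n : ℕ} {l : ℝ} (i : Fin (n + 1)) {Φ : E n → ℝ}
    (hΦ : ContDiff ℝ (⊤ : ℕ∞) Φ) (y : E (n + 1)) (q : Fin (n + 1)) :
    fderiv ℝ (serreX l i Φ) y (Pi.single q 1) i = 0 := by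
  have h1 := pd_component (x := y)
    ((serreX_contDiff (l := l) i hΦ).differentiable (by simp)).differentiableAt i q
  rw [Jac_apply] at h1
  rw [← h1, pd]
  simp_rw [serreX_same]
  simp

theorem serreX_fderiv_succAbove {n : ℕ} {l : ℝ} (i : Fin (n + 1)) {Φ : E n → ℝ}
    (hΦ : ContDiff ℝ (⊤ : ℕ∞) Φ) (y : E (n + 1)) (q : Fin (n + 1)) (j : Fin n) :
    fderiv ℝ (serreX l i Φ) y (Pi.single q 1) (i.succAbove j) =
      pd (serreEta l) q y * serreG i Φ j y + serreEta l y * pd (serreG i Φ j) q y := by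
  have h1 := pd_component (x := y)
    ((serreX_contDiff (l := l) i hΦ).differentiable (by simp)).differentiableAt (i.succAbove j) q
  rw [Jac_apply] at h1
  rw [← h1, pd]
  simp_rw [serreX_succAbove]
  have h2 : DifferentiableAt ℝ (serreEta l : E (n + 1) → ℝ) y :=
    (serreEta_contDiff.differentiable (by simp)).differentiableAt
  have h3 : DifferentiableAt ℝ (serreG i Φ j) y :=
    ((serreG_contDiff i hΦ j).differentiable (by simp)).differentiableAt
  rw [fderiv_fun_mul h2 h3]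
  simp only [add_apply, smul_apply, smul_eq_mul, pd]
  ring

/-- the quadratic form of the test field -/
theorem serreX_form {n : ℕ} {l : ℝ} (i : Fin (n + 1)) {Φ : E n → ℝ}
    (hΦ : ContDiff ℝ (⊤ : ℕ∞) Φ) (y : E (n + 1)) (P : Matrix (Fin (n + 1)) (Fin n) ℝ) :
    ∑ b, ∑ p, ∑ q, P p b * fderiv ℝ (serreX l i Φ) y (Pi.single q 1) p * P q b =
      ∑ b, (∑ j, P (i.succAbove j) b * serreG i Φ j y) * (∑ q, pd (serreEta l) q y * P q b) +
        serreEta l y * ((P.submatrix i.succAbove id)ᵀ * Hess Φ (fun j => y (i.succAbove j)) *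
            P.submatrix i.succAbove id).trace := by
  rw [Matrix.trace, Finset.mul_sum, ← Finset.sum_add_distrib]
  refine Finset.sum_congr rfl fun b _ => ?_
  rw [Fin.sum_univ_succAbove _ i]
  have h0 : ∑ q, P i b * fderiv ℝ (serreX l i Φ) y (Pi.single q 1) i * P q b = 0 := by
    refine Finset.sum_eq_zero fun q _ => ?_
    rw [serreX_fderiv_same i hΦ]; ring
  rw [h0, zero_add]
  simp only [Matrix.diag_apply, Matrix.mul_apply, Matrix.transpose_apply, Matrix.submatrix_apply,
    id_eq]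
  rw [Finset.sum_mul, Finset.mul_sum, ← Finset.sum_add_distrib]
  refine Finset.sum_congr rfl fun j _ => ?_
  have h1 : ∀ q, P (i.succAbove j) b *
      fderiv ℝ (serreX l i Φ) y (Pi.single q 1) (i.succAbove j) * P q b =
      P (i.succAbove j) b * serreG i Φ j y * (pd (serreEta l) q y * P q b) +
        serreEta l y * P (i.succAbove j) b * (pd (serreG i Φ j) q y * P q b) := by
    intro q
    rw [serreX_fderiv_succAbove i hΦ]
    ring
  simp_rw [h1]
  rw [Finset.sum_add_distrib, ← Finset.mul_sum, ← Finset.mul_sum]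
  congr 1
  have h2 : ∑ q, pd (serreG i Φ j) q y * P q b =
      ∑ k, P (i.succAbove k) b * Hess Φ (fun k => y (i.succAbove k)) k j := by
    simp_rw [serreG_pd i hΦ, Finset.sum_mul]
    rw [Finset.sum_comm]
    refine Finset.sum_congr rfl fun k _ => ?_
    rw [Finset.sum_eq_single (i.succAbove k)]
    · rw [if_pos rfl]; ring
    · intro q _ hq
      rw [if_neg (Ne.symm hq)]; ring
    · simp
  rw [h2]
  ring

/-- SER : the Serre type test -/
theorem serre_test {n : ℕ} (hn : 2 ≤ n) : ∃ C₃ : ℝ, 0 < C₃ ∧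
    ∀ {K M c C : ℝ}, 0 ≤ K → 0 ≤ M → ∀ {α : Type} [MeasurableSpace α] {μ : Measure α}
    {v : α → E (n + 1)} {P : α → Matrix (Fin (n + 1)) (Fin n) ℝ} {T : ℝ → ℝ≥0∞} {s₁ : ℝ},
    HData n μ v P T s₁ K M c C → ∀ l : ℝ, s₁ ≤ l → 1 ≤ l →
    ∀ (i : Fin (n + 1)) (Φ : E n → ℝ) (R : ℝ), ContDiff ℝ (⊤ : ℕ∞) Φ → (∀ y j, |pd Φ j y| ≤ R) →
      (∀ y j k, |Hess Φ y j k| ≤ R) → (∀ y, (Hess Φ y).PosSemidef) →
      ∫⁻ x in {x | 4 * l ≤ bra (v x)}, ENNReal.ofReal (fro (P x) ^ (n - 2) *
          (((P x).submatrix i.succAbove id)ᵀ * Hess Φ (fun j => v x (i.succAbove j)) *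
            (P x).submatrix i.succAbove id).trace) ∂μ ≤
        ENNReal.ofReal (C₃ * (K + M) * R) * T l := by
  obtain ⟨D, hD0, hD⟩ := radial_step_bound
  obtain ⟨C₁, hC₁, hrad⟩ := radial_dyadic hn
  refine ⟨(1 + n * (D + 1)) + n * (n * (n + 1)) * (D / 2) * C₁, by positivity, ?_⟩
  intro K M c C hK hM α _ μ v P T s₁ h l hl hl1 i Φ R hΦ hg hH hpos
  have hl0 : 0 < l := by linarith
  have hR0 : 0 ≤ R := (abs_nonneg _).trans (hg 0 ⟨0, by omega⟩)
  have hη0 : ∀ y : E (n + 1), 0 ≤ serreEta l y := fun y => Real.smoothTransition.nonneg _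
  have hη1 : ∀ y : E (n + 1), serreEta l y ≤ 1 := fun y => Real.smoothTransition.le_one _
  have hG : ∀ (y : E (n + 1)) j, |serreG i Φ j y| ≤ R := fun y j => hg _ j
  have hηd : ∀ (y : E (n + 1)) q, |pd (serreEta l) q y| ≤ D / (2 * l) := by
    intro y q
    have hb0 := bra_pos y
    rw [serreEta_pd, abs_mul, abs_mul, abs_of_nonneg (radial_step_deriv_nonneg _),
      abs_of_pos (by positivity : 0 < 1 / (2 * l))]
    have h1 : |y q / bra y| ≤ 1 := by
      rw [abs_div, abs_of_pos hb0, div_le_one hb0]; exact abs_le_bra y q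
    calc _ ≤ D * (1 / (2 * l)) * 1 := by
          gcongr
          exact hD _
      _ = _ := by ring
  have hηd1 : D / (2 * l) ≤ D := by
    rw [div_le_iff₀ (by positivity)]
    nlinarith
  have hGd : ∀ (y : E (n + 1)) j q, |pd (serreG i Φ j) q y| ≤ R := by
    intro y j q
    rw [serreG_pd i hΦ]
    obtain rfl | ⟨k, rfl⟩ := Fin.eq_self_or_eq_succAbove i q
    · rw [Finset.sum_eq_zero]
      · simpa using hR0
      · intro k _
        rw [if_neg (Fin.succAbove_ne _ _)]; ring
    · rw [Finset.sum_eq_single k]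
      · rw [if_pos rfl, mul_one]; exact hH _ _ _
      · intro k' _ hk'
        rw [if_neg (fun h => hk' (Fin.succAbove_right_injective h)), mul_zero]
      · simp
  have hentry : ∀ (y : E (n + 1)) j q,
      |pd (serreEta l) q y * serreG i Φ j y + serreEta l y * pd (serreG i Φ j) q y| ≤
        (D + 1) * R := by
    intro y j q
    calc _ ≤ |pd (serreEta l) q y * serreG i Φ j y| + |serreEta l y * pd (serreG i Φ j) q y| :=
          abs_add_le _ _
      _ = |pd (serreEta l) q y| * |serreG i Φ j y| + |serreEta l y| * |pd (serreG i Φ j) q y| := by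
          rw [abs_mul, abs_mul]
      _ ≤ D * R + 1 * R := by
          gcongr
          · exact (hηd y q).trans hηd1
          · exact hG y j
          · rw [abs_of_nonneg (hη0 y)]; exact hη1 y
          · exact hGd y j q
      _ = (D + 1) * R := by ring
  have hX : ContDiff ℝ (⊤ : ℕ∞) (serreX l i Φ) := serreX_contDiff i hΦ
  have hDD : ∃ D : ℝ, ∀ (y : E (n + 1)) p q, |fderiv ℝ (serreX l i Φ) y (Pi.single q 1) p| ≤ D := by
    refine ⟨(D + 1) * R, fun y p q => ?_⟩
    obtain rfl | ⟨j, rfl⟩ := Fin.eq_self_or_eq_succAbove i p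
    · rw [serreX_fderiv_same _ hΦ, abs_zero]; positivity
    · rw [serreX_fderiv_succAbove i hΦ]
      exact hentry y j q
  have hdiv : ∀ y : E (n + 1), |∑ p, fderiv ℝ (serreX l i Φ) y (Pi.single p 1) p| ≤
      n * ((D + 1) * R) := by
    intro y
    rw [Fin.sum_univ_succAbove _ i, serreX_fderiv_same i hΦ, zero_add]
    refine (Finset.abs_sum_le_sum_abs _ _).trans ?_
    refine (Finset.sum_le_card_nsmul _ _ _ fun j _ => ?_).trans_eq (by
      rw [Finset.card_univ, Fintype.card_fin, nsmul_eq_mul])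
    rw [serreX_fderiv_succAbove i hΦ]
    exact hentry y j _
  have hX0 : ∀ y : E (n + 1), bra y ≤ 2 * l → serreX l i Φ y = 0 := by
    intro y hy
    have h1 : serreEta l y = 0 := by
      apply Real.smoothTransition.zero_of_nonpos
      have : bra y / l ≤ 2 := by rw [div_le_iff₀ hl0]; exact hy
      linarith
    funext p
    obtain rfl | ⟨j, rfl⟩ := Fin.eq_self_or_eq_succAbove i p
    · rw [serreX_same]; rfl
    · rw [serreX_succAbove, h1, zero_mul]; rfl
  have hXb : ∀ (y : E (n + 1)) p, |serreX l i Φ y p| ≤ R := by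
    intro y p
    obtain rfl | ⟨j, rfl⟩ := Fin.eq_self_or_eq_succAbove i p
    · rw [serreX_same, abs_zero]; exact hR0
    · rw [serreX_succAbove, abs_mul, abs_of_nonneg (hη0 y)]
      calc _ ≤ 1 * R := mul_le_mul (hη1 y) (hG y j) (abs_nonneg _) zero_le_one
        _ = R := one_mul R
  have hs2 : s₁ ≤ 2 * l := by linarith
  have hH1 := h.H1 (2 * l) R (n * ((D + 1) * R)) hs2 (serreX l i Φ) hX hX0 hXb hdiv hDD
  have hInt := H1_form_integrable hn h.meas_v h.meas_P h.int_P hX hDD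
  have hmb : Measurable fun x => bra (v x) := measurable_bra.comp h.meas_v
  set S : Set α := {x | 2 * l ≤ bra (v x) ∧ bra (v x) ≤ 16 * l} with hS_def
  have hS : MeasurableSet S :=
    (measurableSet_le measurable_const hmb).inter (measurableSet_le hmb measurable_const)
  set κ : ℝ := n * (n * (n + 1)) * (R * (D / (2 * l))) with hκ_def
  have hκ0 : 0 ≤ κ := by positivity
  have hIntS : Integrable (S.indicator fun x => κ * fro (P x) ^ n) μ :=
    (h.int_P.const_mul κ).indicator hS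
  have hpow : ∀ x, fro (P x) ^ n = fro (P x) ^ (n - 2) * fro (P x) ^ 2 := by
    intro x
    rw [← pow_add]; congr 1; omega
  have htr : ∀ x, 0 ≤ (((P x).submatrix i.succAbove id)ᵀ * Hess Φ (fun j => v x (i.succAbove j)) *
            (P x).submatrix i.succAbove id).trace := by
    intro x
    have h1 := (hpos (fun j => v x (i.succAbove j))).conjTranspose_mul_mul_same
      ((P x).submatrix i.succAbove id)
    rw [Matrix.conjTranspose_eq_transpose_of_trivial] at h1
    exact h1.trace_nonneg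
  -- the main pointwise inequality
  have hpt : ∀ x, fro (P x) ^ (n - 2) * (serreEta l (v x) *
      (((P x).submatrix i.succAbove id)ᵀ * Hess Φ (fun j => v x (i.succAbove j)) *
            (P x).submatrix i.succAbove id).trace) ≤
      fro (P x) ^ (n - 2) *
        ∑ a, ∑ p, ∑ q, P x p a * fderiv ℝ (serreX l i Φ) (v x) (Pi.single q 1) p * P x q a +
      S.indicator (fun x => κ * fro (P x) ^ n) x := by
    intro x
    have hf := fro_nonneg (P x)
    rw [serreX_form i hΦ, mul_add]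
    have hcross : -(S.indicator (fun x => κ * fro (P x) ^ n) x) ≤ fro (P x) ^ (n - 2) *
        ∑ b, (∑ j, P x (i.succAbove j) b * serreG i Φ j (v x)) *
          (∑ q, pd (serreEta l) q (v x) * P x q b) := by
      by_cases hx : x ∈ S
      · rw [indicator_of_mem hx, hpow]
        have h1 : |∑ b, (∑ j, P x (i.succAbove j) b * serreG i Φ j (v x)) *
          (∑ q, pd (serreEta l) q (v x) * P x q b)| ≤ κ * fro (P x) ^ 2 := by
          refine (Finset.abs_sum_le_sum_abs _ _).trans ?_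
          refine (Finset.sum_le_card_nsmul _ _ (n * (fro (P x) * R) *
            ((n + 1) * (D / (2 * l) * fro (P x)))) fun b _ => ?_).trans_eq (by
            rw [Finset.card_univ, Fintype.card_fin, nsmul_eq_mul, hκ_def]; ring)
          rw [abs_mul]
          refine mul_le_mul ?_ ?_ (abs_nonneg _) (by positivity)
          · refine (Finset.abs_sum_le_sum_abs _ _).trans ?_
            refine (Finset.sum_le_card_nsmul _ _ _ fun j _ => ?_).trans_eq (by
              rw [Finset.card_univ, Fintype.card_fin, nsmul_eq_mul])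
            rw [abs_mul]
            exact mul_le_mul (abs_entry_le_fro _ _ _) (hG _ _) (abs_nonneg _) hf
          · refine (Finset.abs_sum_le_sum_abs _ _).trans ?_
            refine (Finset.sum_le_card_nsmul _ _ (D / (2 * l) * fro (P x)) fun q _ => ?_).trans_eq
              (by rw [Finset.card_univ, Fintype.card_fin, nsmul_eq_mul]; push_cast; ring)
            rw [abs_mul]
            exact mul_le_mul (hηd _ _) (abs_entry_le_fro _ _ _) (abs_nonneg _) (by positivity)
        have h2 := (abs_le.1 h1).1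
        have h3 := mul_le_mul_of_nonneg_left h2 (pow_nonneg hf (n - 2))
        linarith
      · rw [indicator_of_notMem hx]
        have h1 : ∀ q, pd (serreEta l) q (v x) = 0 := by
          intro q
          rw [serreEta_pd]
          have h2 : ¬ (2 * l ≤ bra (v x) ∧ bra (v x) ≤ 16 * l) := hx
          have h3 : deriv Real.smoothTransition ((bra (v x) / l - 2) / 2) = 0 := by
            by_cases h4 : 2 * l ≤ bra (v x)
            · have h5 : 16 * l < bra (v x) := by
                by_contra h6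
                exact h2 ⟨h4, not_lt.1 h6⟩
              apply radial_step_deriv_of_gt
              have : 16 < bra (v x) / l := by rw [lt_div_iff₀ hl0]; exact h5
              linarith
            · apply radial_step_deriv_of_lt
              have : bra (v x) / l < 2 := by rw [div_lt_iff₀ hl0]; exact not_le.1 h4
              linarith
          rw [h3]; ring
        simp [h1]
    linarith
  refine H1_lint (measurableSet_le measurable_const hmb) (hInt.add hIntS) (fun x => ?_)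
    (fun x hx => ?_) (h.T_fin l hl) ?_
  · refine le_trans ?_ (hpt x)
    have := hη0 (v x)
    have := htr x
    have := fro_nonneg (P x)
    positivity
  · have h1 : serreEta l (v x) = 1 := by
      apply Real.smoothTransition.one_of_one_le
      have : 4 ≤ bra (v x) / l := by rw [le_div_iff₀ hl0]; exact hx
      linarith
    have h2 := hpt x
    rw [h1, one_mul] at h2
    exact h2
  · have h1 : ∫ x, (fun x => fro (P x) ^ (n - 2) *
        ∑ a, ∑ p, ∑ q, P x p a * fderiv ℝ (serreX l i Φ) (v x) (Pi.single q 1) p * P x q a) x +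
        (S.indicator (fun x => κ * fro (P x) ^ n)) x ∂μ = _ := integral_add hInt hIntS
    have h2 : ∫ x, S.indicator (fun x => κ * fro (P x) ^ n) x ∂μ =
        κ * ∫ x in S, fro (P x) ^ n ∂μ := by
      rw [integral_indicator hS, integral_const_mul]
    have h3 : ∫ x in S, fro (P x) ^ n ∂μ ≤ (C₁ * (K + M) * l) * (T l).toReal := by
      rw [integral_eq_lintegral_of_nonneg_ae (Eventually.of_forall fun x =>
        pow_nonneg (fro_nonneg _) _) (h.int_P.1.restrict)]
      have h4 := hrad hK hM h l hl hl1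
      have h5 : (0 : ℝ) ≤ C₁ * (K + M) * l := by positivity
      rw [← ENNReal.toReal_ofReal h5, ← ENNReal.toReal_mul]
      exact ENNReal.toReal_mono (ENNReal.mul_ne_top ENNReal.ofReal_ne_top (h.T_fin l hl)) h4
    have h6 : (T (2 * l)).toReal ≤ (T l).toReal :=
      ENNReal.toReal_mono (h.T_fin l hl) (h.T_anti l (2 * l) hl (by linarith))
    have hT0 := ENNReal.toReal_nonneg (a := T l)
    simp only [Pi.add_apply] at *
    rw [h1, h2]
    have h7 : (K * R + M * (n * ((D + 1) * R))) * (T (2 * l)).toReal ≤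
        ((1 + n * (D + 1)) * (K + M) * R) * (T l).toReal := by
      refine mul_le_mul ?_ h6 ENNReal.toReal_nonneg (by positivity)
      have h8 : 0 ≤ K * (n * (D + 1)) * R + M * R := by positivity
      nlinarith
    have h9 : κ * ∫ x in S, fro (P x) ^ n ∂μ ≤
        (n * (n * (n + 1)) * (D / 2) * C₁ * (K + M) * R) * (T l).toReal := by
      calc _ ≤ κ * ((C₁ * (K + M) * l) * (T l).toReal) := mul_le_mul_of_nonneg_left h3 hκ0
        _ = _ := by
          rw [hκ_def]
          field_simp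
    have h10 := add_le_add (hH1.trans h7) h9
    refine h10.trans_eq ?_
    ring

end Pool.Agent.Lib.HSys
end

section

/-!
# D4: a convex function with second differences bounded below on fine grids
-/

set_option autoImplicit false
open MeasureTheory Set Filter Topology
open scoped ENNReal Matrix

namespace Pool.Agent.Lib.HSys

theorem grid_volume_Icc {n : ℕ} (a : E n) (r : ℝ) :
    volume (Set.Icc a (fun l => a l + r)) = ENNReal.ofReal r ^ n := by
  rw [Real.volume_Icc_pi]
  have : ∀ i, a i + r - a i = r := fun i => by ring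
  simp only [this]
  rw [Finset.prod_const]
  simp

theorem grid_volume_cube {n : ℕ} (r : ℝ) :
    volume {y : E n | ∀ l, |y l| ≤ r} = ENNReal.ofReal (2 * r) ^ n := by
  rw [subgrad_cube_eq]
  have : (fun _ : Fin n => r) = fun l => (fun _ : Fin n => -r) l + 2 * r := by
    ext l
    ring
  rw [this, grid_volume_Icc]

theorem grid_det_ne_zero {n : ℕ} (N : ℕ)
    (L : Matrix (Fin n) (Fin n) ℝ)
    (hL2 : ∀ x : E n, (∀ l, |(L *ᵥ x) l| ≤ 1 / N) → ∀ l, |x l| ≤ 1 / 4) : L.det ≠ 0 := by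
  intro h
  obtain ⟨v, hv, hLv⟩ := Matrix.exists_mulVec_eq_zero_iff.2 h
  obtain ⟨l, hl⟩ := Function.ne_iff.1 hv
  have h1 := hL2 ((1 / v l) • v) (fun k => by
    rw [Matrix.mulVec_smul, hLv]
    simp) l
  have h2 : ((1 / v l) • v) l = 1 := by
    simp only [Pi.smul_apply, smul_eq_mul]
    rw [one_div, inv_mul_cancel₀ hl]
  rw [h2] at h1
  norm_num at h1

theorem grid_count {n : ℕ} (N : ℕ) (hN : 1 ≤ N) (b : Fin n → ℤ) (p : E n)
    (hp : ∀ l, (b l : ℝ) + 1 / 4 ≤ p l ∧ p l ≤ (b l : ℝ) + 3 / 4)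
    (L : Matrix (Fin n) (Fin n) ℝ) (hdet : L.det ≠ 0)
    (hL1 : ∀ x : E n, (∀ l, |x l| ≤ 1) → ∀ l, |(L *ᵥ x) l| ≤ 1 / 4)
    (hL2 : ∀ x : E n, (∀ l, |(L *ᵥ x) l| ≤ 1 / N) → ∀ l, |x l| ≤ 1 / 4)
    (G : Finset (Fin n → Fin N))
    (hG : ∀ κ : Fin n → Fin N, (∃ x : E n, (∀ l, |x l| ≤ 1 / 2) ∧
        ∀ l, (b l : ℝ) + ((κ l : ℕ) : ℝ) / N = p l + (L *ᵥ x) l) → κ ∈ G) :
    |L.det| * (1 / 2) ^ n ≤ G.card * (1 / N) ^ n := by
  have hN0 : (0 : ℝ) < N := by exact_mod_cast hN
  set Q : Set (E n) := {y : E n | ∀ l, |y l| ≤ 1 / 4} with hQ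
  have hcov : (Matrix.toLin' L) '' Q ⊆ ⋃ κ ∈ G,
      Set.Icc (fun l => (b l : ℝ) + ((κ l : ℕ) : ℝ) / N - p l)
        (fun l => (b l : ℝ) + ((κ l : ℕ) : ℝ) / N - p l + 1 / N) := by
    rintro _ ⟨x, hx, rfl⟩
    rw [Matrix.toLin'_apply]
    let k : Fin n → ℤ := fun l => ⌊(N : ℝ) * (p l + (L *ᵥ x) l)⌋
    let w : E n := fun l => (k l : ℝ) / N
    have hw1 : ∀ l, w l ≤ p l + (L *ᵥ x) l := by
      intro l
      simp only [w]
      rw [div_le_iff₀ hN0, mul_comm]
      exact Int.floor_le _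
    have hw2 : ∀ l, p l + (L *ᵥ x) l ≤ w l + 1 / N := by
      intro l
      simp only [w]
      rw [← add_div, le_div_iff₀ hN0, mul_comm]
      exact (Int.lt_floor_add_one _).le
    let x' : E n := L⁻¹ *ᵥ (fun l => w l - (p l + (L *ᵥ x) l))
    have hx' : L *ᵥ x' = fun l => w l - (p l + (L *ᵥ x) l) := by
      simp only [x']
      rw [Matrix.mulVec_mulVec, Matrix.mul_nonsing_inv _ (isUnit_iff_ne_zero.2 hdet),
        Matrix.one_mulVec]
    have hx'2 : ∀ l, |x' l| ≤ 1 / 4 := by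
      apply hL2
      intro l
      rw [hx', abs_le]
      constructor
      · linarith [hw2 l]
      · have : (0 : ℝ) ≤ 1 / N := by positivity
        linarith [hw1 l]
    have hxx : ∀ l, |(x + x') l| ≤ 1 / 2 := by
      intro l
      calc |(x + x') l| ≤ |x l| + |x' l| := abs_add_le _ _
        _ ≤ 1 / 4 + 1 / 4 := add_le_add (hx l) (hx'2 l)
        _ = 1 / 2 := by norm_num
    have hLxx : ∀ l, (L *ᵥ (x + x')) l = w l - p l := by
      intro l
      rw [Matrix.mulVec_add, hx']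
      simp only [Pi.add_apply]
      ring
    have hwp : ∀ l, |w l - p l| ≤ 1 / 8 := by
      intro l
      have h1 := hL1 ((2 : ℝ) • (x + x')) (fun l => by
        simp only [Pi.smul_apply, smul_eq_mul]
        rw [abs_mul, abs_of_pos (by norm_num : (0 : ℝ) < 2)]
        linarith [hxx l]) l
      rw [Matrix.mulVec_smul] at h1
      simp only [Pi.smul_apply, smul_eq_mul] at h1
      rw [hLxx l, abs_mul, abs_of_pos (by norm_num : (0 : ℝ) < 2)] at h1
      linarith
    have hk1 : ∀ l, (0 : ℤ) ≤ k l - N * b l := by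
      intro l
      have h1 := (abs_le.1 (hwp l)).1
      have h2 : (b l : ℝ) ≤ w l := by linarith [(hp l).1]
      simp only [w] at h2
      rw [le_div_iff₀ hN0] at h2
      have h3 : b l * N ≤ k l := by exact_mod_cast h2
      linarith
    have hk2 : ∀ l, k l - N * b l < N := by
      intro l
      have h1 := (abs_le.1 (hwp l)).2
      have h2 : w l < (b l : ℝ) + 1 := by linarith [(hp l).2]
      simp only [w] at h2
      rw [div_lt_iff₀ hN0] at h2
      have h3 : k l < (b l + 1) * N := by exact_mod_cast h2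
      linarith
    let κ : Fin n → Fin N := fun l => ⟨(k l - N * b l).toNat, by
      have h1 := hk1 l
      have h2 := hk2 l
      omega⟩
    have hκ : ∀ l, (b l : ℝ) + ((κ l : ℕ) : ℝ) / N = w l := by
      intro l
      have h1 : ((κ l : ℕ) : ℤ) = k l - N * b l := Int.toNat_of_nonneg (hk1 l)
      have h2 : ((κ l : ℕ) : ℝ) = k l - N * b l := by exact_mod_cast h1
      rw [h2]
      simp only [w]
      field_simp
      ring
    have hκG : κ ∈ G := hG κ ⟨x + x', hxx, fun l => by rw [hκ l, hLxx l]; ring⟩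
    refine mem_iUnion₂.2 ⟨κ, hκG, ?_⟩
    constructor
    · intro l
      have := hw1 l
      simp only [hκ l]
      linarith
    · intro l
      have := hw2 l
      simp only [hκ l]
      linarith
  have h1 : volume ((Matrix.toLin' L) '' Q) = ENNReal.ofReal (|L.det| * (1 / 2) ^ n) := by
    rw [Measure.addHaar_image_linearMap, LinearMap.det_toLin', grid_volume_cube,
      ENNReal.ofReal_mul (abs_nonneg _), ENNReal.ofReal_pow (by norm_num)]
    norm_num
  have h2 : volume (⋃ κ ∈ G,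
      Set.Icc (fun l => (b l : ℝ) + ((κ l : ℕ) : ℝ) / N - p l)
        (fun l => (b l : ℝ) + ((κ l : ℕ) : ℝ) / N - p l + 1 / N)) ≤
      ENNReal.ofReal (G.card * (1 / N) ^ n) := by
    refine (measure_biUnion_finset_le _ _).trans ?_
    have h3 : ∀ κ ∈ G, volume (Set.Icc (fun l => (b l : ℝ) + ((κ l : ℕ) : ℝ) / N - p l)
        (fun l => (b l : ℝ) + ((κ l : ℕ) : ℝ) / N - p l + 1 / N)) =
        ENNReal.ofReal (1 / N) ^ n := fun κ _ =>
      grid_volume_Icc (fun l => (b l : ℝ) + ((κ l : ℕ) : ℝ) / N - p l) (1 / N)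
    rw [Finset.sum_congr rfl h3, Finset.sum_const, nsmul_eq_mul,
      ENNReal.ofReal_mul (by positivity), ENNReal.ofReal_natCast,
      ENNReal.ofReal_pow (by positivity)]
  have h3 := (measure_mono hcov).trans h2
  rw [h1] at h3
  exact (ENNReal.ofReal_le_ofReal_iff (by positivity)).1 h3

/-- D4: a convex function whose averaged second differences at the scale of every
parallelepiped that is fat compared with `1/N` are bounded below. -/
theorem exists_convex_grid {n : ℕ} (hn : 1 ≤ n) (Z : Finset (Fin n → ℤ)) (hZ : Z.Nonempty)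
    (f : (Fin n → ℤ) → ℝ) (hf : ∀ b ∈ Z, 0 < f b) (N : ℕ) (hN : 1 ≤ N) :
    ∃ φ : E n → ℝ, ConvexOn ℝ univ φ ∧
      (∀ x y, |φ x - φ y| ≤ (∑ b ∈ Z, f b) ^ (1 / (n : ℝ)) * ∑ l, |x l - y l|) ∧
      ∀ b ∈ Z, ∀ p : E n, (∀ l, (b l : ℝ) + 1 / 4 ≤ p l ∧ p l ≤ (b l : ℝ) + 3 / 4) →
        ∀ L : Matrix (Fin n) (Fin n) ℝ,
          (∀ x : E n, (∀ l, |x l| ≤ 1) → ∀ l, |(L *ᵥ x) l| ≤ 1 / 4) →
          (∀ x : E n, (∀ l, |(L *ᵥ x) l| ≤ 1 / N) → ∀ l, |x l| ≤ 1 / 4) →
          1 / 2 ^ (n + 3) * (L.det ^ 2 * f b) ^ (1 / (n : ℝ)) ≤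
            ∫ x in {x : E n | ∀ l, |x l| ≤ 1},
              (φ (p + L *ᵥ x) + φ (p - L *ᵥ x) - 2 * φ p) := by
  classical
  have hN0 : (0 : ℝ) < N := by exact_mod_cast hN
  have hn0 : n ≠ 0 := by omega
  have : Nonempty (Fin N) := ⟨⟨0, hN⟩⟩
  have : Nonempty ↥Z := hZ.to_subtype
  set F : ℝ := ∑ b ∈ Z, f b with hF
  have hFpos : 0 < F := Finset.sum_pos hf hZ
  set R : ℝ := F ^ (1 / (n : ℝ)) / 2 with hR
  have hFr : 0 < F ^ (1 / (n : ℝ)) := Real.rpow_pos_of_pos hFpos _
  have hRpos : 0 < R := by positivity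
  have h2R : (2 * R) ^ n = F := by
    have : 2 * R = F ^ (1 / (n : ℝ)) := by rw [hR]; ring
    rw [this, one_div, Real.rpow_inv_natCast_pow hFpos.le hn0]
  let z : (↥Z × (Fin n → Fin N)) → E n := fun j l => (j.1.1 l : ℝ) + ((j.2 l : ℕ) : ℝ) / N
  have hz : Function.Injective z := by
    rintro ⟨⟨b, hb⟩, κ⟩ ⟨⟨b', hb'⟩, κ'⟩ h
    have h1 : ∀ l, b l = b' l ∧ κ l = κ' l := by
      intro l
      have h2 : (b l : ℝ) + ((κ l : ℕ) : ℝ) / N = (b' l : ℝ) + ((κ' l : ℕ) : ℝ) / N :=
        congrFun h l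
      have h3 : (b l : ℝ) * N + ((κ l : ℕ) : ℝ) = (b' l : ℝ) * N + ((κ' l : ℕ) : ℝ) := by
        field_simp at h2
        linarith
      have h4 : b l * N + ((κ l : ℕ) : ℤ) = b' l * N + ((κ' l : ℕ) : ℤ) := by exact_mod_cast h3
      have h5 : ((κ l : ℕ) : ℤ) < N := by exact_mod_cast (κ l).2
      have h6 : ((κ' l : ℕ) : ℤ) < N := by exact_mod_cast (κ' l).2
      have h7 : (0 : ℤ) ≤ ((κ l : ℕ) : ℤ) := by positivity
      have h8 : (0 : ℤ) ≤ ((κ' l : ℕ) : ℤ) := by positivity
      have hNz : (0 : ℤ) < N := by exact_mod_cast hN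
      have h9 : b l = b' l := by
        by_contra hne
        rcases lt_or_gt_of_ne hne with hlt | hlt
        · have : b l + 1 ≤ b' l := hlt
          nlinarith
        · have : b' l + 1 ≤ b l := hlt
          nlinarith
      refine ⟨h9, ?_⟩
      rw [h9] at h4
      have h10 : ((κ l : ℕ) : ℤ) = ((κ' l : ℕ) : ℤ) := by linarith
      apply Fin.ext
      exact_mod_cast h10
    have hbb : b = b' := funext fun l => (h1 l).1
    have hκκ : κ = κ' := funext fun l => (h1 l).2
    subst hbb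
    subst hκκ
    rfl
  let f' : (↥Z × (Fin n → Fin N)) → ℝ := fun j => f j.1.1 / N ^ n
  have hf' : ∀ j, 0 < f' j := fun j => div_pos (hf _ j.1.2) (by positivity)
  have hsum : ∑ j, f' j = (2 * R) ^ n := by
    rw [h2R, Fintype.sum_prod_type]
    simp only [f', Finset.sum_const, Finset.card_univ, Fintype.card_fun, Fintype.card_fin,
      nsmul_eq_mul]
    have h1 : ∀ b : ↥Z, ((N ^ n : ℕ) : ℝ) * (f b.1 / N ^ n) = f b.1 := by
      intro b
      push_cast
      field_simp
    simp only [h1]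
    rw [hF]
    exact Finset.sum_coe_sort Z f
  obtain ⟨φ, hφ, hlip, hsub, C, hCm, hCd, hCf, hCR, hCs⟩ :=
    ot_potential z hz f' hf' R hRpos hsum
  refine ⟨φ, hφ, ?_, ?_⟩
  · intro x y
    refine (hlip x y).trans (mul_le_mul_of_nonneg_right ?_ ?_)
    · rw [hR]
      linarith
    · exact Finset.sum_nonneg fun _ _ => abs_nonneg _
  intro b hb p hp L hL1 hL2
  have hdet := grid_det_ne_zero N L hL2
  set I : ℝ := ∫ x in {x : E n | ∀ l, |x l| ≤ 1},
    (φ (p + L *ᵥ x) + φ (p - L *ᵥ x) - 2 * φ p) with hI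
  -- the pulled back function
  let g : E n → ℝ := fun x => φ (p + L *ᵥ x)
  have hg : ConvexOn ℝ univ g := by
    refine ⟨convex_univ, ?_⟩
    intro y _ w _ a c ha hc hac
    have h1 := hφ.2 (mem_univ (p + L *ᵥ y)) (mem_univ (p + L *ᵥ w)) ha hc hac
    have h2 : a • (p + L *ᵥ y) + c • (p + L *ᵥ w) = p + L *ᵥ (a • y + c • w) := by
      rw [Matrix.mulVec_add, Matrix.mulVec_smul, Matrix.mulVec_smul, smul_add, smul_add]
      have : p = a • p + c • p := by rw [← add_smul, hac, one_smul]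
      nth_rewrite 3 [this]
      abel
    rw [h2] at h1
    exact h1
  have htr : ∀ ξ x : E n, ∑ l, (Lᵀ *ᵥ ξ) l * x l = ∑ l, ξ l * (L *ᵥ x) l := by
    intro ξ x
    have := Matrix.dotProduct_mulVec ξ L x
    simp only [dotProduct] at this
    rw [this, Matrix.mulVec_transpose]
  obtain ⟨ξ₀, hξ₀⟩ := hsub p
  set p₀ : E n := Lᵀ *ᵥ ξ₀ with hp₀
  have hgp₀ : ∀ y, g 0 + ∑ l, p₀ l * y l ≤ g y := by
    intro y
    have h1 := hξ₀ (p + L *ᵥ y)
    have h2 : ∀ l, (p + L *ᵥ y) l - p l = (L *ᵥ y) l := fun l => by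
      simp only [Pi.add_apply]
      ring
    simp only [h2] at h1
    simp only [g, Matrix.mulVec_zero, add_zero]
    rw [hp₀, htr]
    exact h1
  have hIg : ∫ y in {y : E n | ∀ l, |y l| ≤ 1}, (g y + g (-y) - 2 * g 0) = I := by
    rw [hI]
    simp only [g, Matrix.mulVec_neg, Matrix.mulVec_zero, add_zero, ← sub_eq_add_neg]
  have hI0 : 0 ≤ I := by
    have := subgrad_bound g hg p₀ 0 p₀ hgp₀ (fun l => by simp) (fun y => by
      simpa using hgp₀ y)
    rw [hIg] at this
    simp only [sub_self, abs_zero, Finset.sum_const_zero] at this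
    have h2 : (0 : ℝ) < 2 ^ (n + 1) := by positivity
    exact (mul_nonneg_iff_of_pos_left h2).1 this
  -- the good grid points
  let G : Finset (Fin n → Fin N) := Finset.univ.filter fun κ => ∃ x : E n,
    (∀ l, |x l| ≤ 1 / 2) ∧ ∀ l, (b l : ℝ) + ((κ l : ℕ) : ℝ) / N = p l + (L *ᵥ x) l
  have hcount := grid_count N hN b p hp L hdet hL1 hL2 G (fun κ hκ =>
    Finset.mem_filter.2 ⟨Finset.mem_univ _, hκ⟩)
  -- the cells
  let D : (Fin n → Fin N) → Set (E n) := fun κ => C (⟨b, hb⟩, κ)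
  have hDsub : ∀ κ ∈ G, ∀ ξ ∈ D κ, ∑ l, |(Lᵀ *ᵥ ξ) l - p₀ l| ≤ 2 ^ (n + 1) * I := by
    intro κ hκ ξ hξ
    obtain ⟨x, hx, hzx⟩ := (Finset.mem_filter.1 hκ).2
    have hz' : z (⟨b, hb⟩, κ) = p + L *ᵥ x := funext fun l => hzx l
    have h1 := hCs (⟨b, hb⟩, κ) ξ hξ
    rw [hz'] at h1
    have h2 : ∀ y, g x + ∑ l, (Lᵀ *ᵥ ξ) l * (y l - x l) ≤ g y := by
      intro y
      have h3 := h1 (p + L *ᵥ y)
      have h4 : ∀ l, (p + L *ᵥ y) l - (p + L *ᵥ x) l = (L *ᵥ (y - x)) l := fun l => by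
        rw [Matrix.mulVec_sub]
        simp only [Pi.add_apply, Pi.sub_apply]
        ring
      simp only [h4] at h3
      have h5 := htr ξ (y - x)
      simp only [Pi.sub_apply] at h5
      rw [h5]
      exact h3
    have h3 := subgrad_bound g hg p₀ x (Lᵀ *ᵥ ξ) hgp₀ hx h2
    rw [hIg] at h3
    exact h3
  have hincl : (Matrix.toLin' Lᵀ) '' (⋃ κ ∈ G, D κ) ⊆
      Set.Icc (fun l => p₀ l - 2 ^ (n + 1) * I)
        (fun l => (fun l => p₀ l - 2 ^ (n + 1) * I) l + 2 * (2 ^ (n + 1) * I)) := by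
    rintro _ ⟨ξ, hξ, rfl⟩
    obtain ⟨κ, hκ, hξκ⟩ := mem_iUnion₂.1 hξ
    rw [Matrix.toLin'_apply]
    have h1 := hDsub κ hκ ξ hξκ
    have h2 : ∀ l, |(Lᵀ *ᵥ ξ) l - p₀ l| ≤ 2 ^ (n + 1) * I := fun l =>
      (Finset.single_le_sum (f := fun l => |(Lᵀ *ᵥ ξ) l - p₀ l|)
        (fun _ _ => abs_nonneg _) (Finset.mem_univ l)).trans h1
    constructor
    · intro l
      have := (abs_le.1 (h2 l)).1
      simp only
      linarith
    · intro l
      have := (abs_le.1 (h2 l)).2
      simp only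
      linarith
  have hvol : volume (⋃ κ ∈ G, D κ) = ∑ κ ∈ G, volume (D κ) := by
    apply measure_biUnion_finset₀
    · intro κ _ κ' _ hne
      apply hCd
      intro h
      exact hne (Prod.ext_iff.1 h).2
    · intro κ _
      exact (hCm _).nullMeasurableSet
  have hvolD : ∀ κ ∈ G, ENNReal.ofReal (f b / N ^ n) ≤ volume (D κ) := fun κ _ =>
    ENNReal.ofReal_le_of_le_toReal (hCf (⟨b, hb⟩, κ))
  have hvol2 : ENNReal.ofReal (G.card * (f b / N ^ n)) ≤ volume (⋃ κ ∈ G, D κ) := by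
    rw [hvol]
    calc ENNReal.ofReal (G.card * (f b / N ^ n)) = ∑ _κ ∈ G, ENNReal.ofReal (f b / N ^ n) := by
          rw [Finset.sum_const, nsmul_eq_mul, ENNReal.ofReal_mul (by positivity),
            ENNReal.ofReal_natCast]
      _ ≤ ∑ κ ∈ G, volume (D κ) := Finset.sum_le_sum hvolD
  have hfin : ENNReal.ofReal (|L.det| * (G.card * (f b / N ^ n))) ≤
      ENNReal.ofReal ((2 * (2 ^ (n + 1) * I)) ^ n) := by
    have h1 := measure_mono (μ := volume) hincl
    rw [grid_volume_Icc, Measure.addHaar_image_linearMap, LinearMap.det_toLin',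
      Matrix.det_transpose, ← ENNReal.ofReal_pow (by positivity)] at h1
    rw [ENNReal.ofReal_mul (abs_nonneg _)]
    exact (mul_le_mul_right hvol2 _).trans h1
  have hfb := hf b hb
  have hfin2 : |L.det| * (G.card * (f b / N ^ n)) ≤ (2 * (2 ^ (n + 1) * I)) ^ n :=
    (ENNReal.ofReal_le_ofReal_iff (by positivity)).1 hfin
  have hfin3 : (L.det ^ 2 * f b) * (1 / 2) ^ n ≤ (2 * (2 ^ (n + 1) * I)) ^ n := by
    refine le_trans ?_ hfin2
    have h1 : (G.card : ℝ) * (f b / N ^ n) = f b * (G.card * (1 / N) ^ n) := by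
      rw [one_div, inv_pow]
      ring
    rw [h1, ← sq_abs]
    have h2 := mul_le_mul_of_nonneg_left hcount (mul_nonneg (abs_nonneg L.det) hfb.le)
    calc |L.det| ^ 2 * f b * (1 / 2) ^ n = |L.det| * f b * (|L.det| * (1 / 2) ^ n) := by ring
      _ ≤ |L.det| * f b * (G.card * (1 / N) ^ n) := h2
      _ = |L.det| * (f b * (G.card * (1 / N) ^ n)) := by ring
  have ha : 0 ≤ L.det ^ 2 * f b := by positivity
  set A : ℝ := (L.det ^ 2 * f b) ^ (1 / (n : ℝ)) with hA
  have hA0 : 0 ≤ A := Real.rpow_nonneg ha _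
  have hAn : A ^ n = L.det ^ 2 * f b := by
    rw [hA, one_div, Real.rpow_inv_natCast_pow ha hn0]
  rw [← hAn, ← mul_pow] at hfin3
  have hfin4 := (pow_le_pow_iff_left₀ (by positivity) (by positivity) hn0).1 hfin3
  have h2 : (2 : ℝ) ^ (n + 3) = 4 * 2 ^ (n + 1) := by ring
  rw [one_div, inv_mul_le_iff₀ (by positivity), h2]
  nlinarith
end Pool.Agent.Lib.HSys
end

section

/-!
# A smooth convex potential with a Monge-Ampère lower bound on given unit cubes
-/

set_option autoImplicit false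
open MeasureTheory Set Filter Topology
open scoped ENNReal Matrix

namespace Pool.Agent.Lib.HSys

/-! ### Moments of the cube -/

private lemma cube_eq_pi (n : ℕ) :
    {x : E n | ∀ l, |x l| ≤ 1} = Set.univ.pi fun _ => Icc (-1 : ℝ) 1 := by
  ext x
  simp only [Set.mem_ofPred_eq, Set.mem_pi, Set.mem_univ, forall_true_left, Set.mem_Icc, abs_le]

private lemma cube_compact (n : ℕ) : IsCompact {x : E n | ∀ l, |x l| ≤ 1} := by
  rw [cube_eq_pi]
  exact isCompact_univ_pi fun _ => isCompact_Icc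

private lemma moment {n : ℕ} (i j : Fin n) :
    ∫ x in {x : E n | ∀ l, |x l| ≤ 1}, x i * x j = if i = j then 2 ^ n / 3 else 0 := by
  rw [cube_eq_pi, volume_pi, Measure.restrict_pi_pi]
  have h1 : ∀ x : E n, x i * x j =
      ∏ l, (if l = i then x l else 1) * (if l = j then x l else 1) := by
    intro x
    rw [Finset.prod_mul_distrib, Finset.prod_ite_eq' , Finset.prod_ite_eq']
    simp
  have h2 : ∫ x : E n, x i * x j ∂(Measure.pi fun _ : Fin n => volume.restrict (Icc (-1 : ℝ) 1)) =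
      ∏ l, ∫ t in Icc (-1 : ℝ) 1, (if l = i then t else 1) * (if l = j then t else 1) := by
    rw [← integral_fintype_prod_eq_prod (𝕜 := ℝ)
      (f := fun l t => (if l = i then t else 1) * (if l = j then t else 1))]
    congr 1
    ext x
    exact h1 x
  rw [h2]
  have hone : ∫ t in Icc (-1 : ℝ) 1, (1 : ℝ) = 2 := by
    rw [integral_Icc_eq_integral_Ioc, ← intervalIntegral.integral_of_le (by norm_num)]
    simp; norm_num
  have hid : ∫ t in Icc (-1 : ℝ) 1, t = 0 := by
    rw [integral_Icc_eq_integral_Ioc, ← intervalIntegral.integral_of_le (by norm_num)]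
    simp
  have hsq : ∫ t in Icc (-1 : ℝ) 1, t * t = 2 / 3 := by
    rw [integral_Icc_eq_integral_Ioc, ← intervalIntegral.integral_of_le (by norm_num)]
    have : ∀ t : ℝ, t * t = t ^ 2 := fun t => by ring
    simp only [this]
    rw [integral_pow]
    norm_num
  split_ifs with hij
  · subst hij
    rw [← Finset.mul_prod_erase Finset.univ _ (Finset.mem_univ i)]
    have h3 : ∏ l ∈ Finset.univ.erase i,
        ∫ t in Icc (-1 : ℝ) 1, (if l = i then t else 1) * (if l = i then t else 1) =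
        ∏ l ∈ Finset.univ.erase i, (2 : ℝ) := by
      apply Finset.prod_congr rfl
      intro l hl
      have hne : l ≠ i := Finset.ne_of_mem_erase hl
      simp only [if_neg hne, mul_one]
      exact hone
    rw [h3, Finset.prod_const, Finset.card_erase_of_mem (Finset.mem_univ i), Finset.card_univ,
      Fintype.card_fin]
    simp only [if_true]
    rw [hsq]
    obtain ⟨m, hm⟩ : ∃ m, n = m + 1 := ⟨n - 1, by have := i.pos; omega⟩
    rw [hm, Nat.add_sub_cancel, pow_succ]
    ring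
  · apply Finset.prod_eq_zero (Finset.mem_univ i)
    simp only [if_true, if_neg hij, mul_one]
    exact hid

private lemma quad_eq {n : ℕ} (A L : Matrix (Fin n) (Fin n) ℝ) (x : E n) :
    ∑ i, ∑ j, (L *ᵥ x) i * A i j * (L *ᵥ x) j =
      ∑ k, ∑ l, (Lᵀ * A * L) k l * (x k * x l) := by
  have h1 : ∑ i, ∑ j, (L *ᵥ x) i * A i j * (L *ᵥ x) j = (L *ᵥ x) ⬝ᵥ (A *ᵥ (L *ᵥ x)) := by
    simp only [dotProduct, Matrix.mulVec, Finset.mul_sum]
    simp only [mul_assoc]
  have h2 : ∑ k, ∑ l, (Lᵀ * A * L) k l * (x k * x l) = x ⬝ᵥ ((Lᵀ * A * L) *ᵥ x) := by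
    simp only [dotProduct, Matrix.mulVec, Finset.mul_sum]
    apply Finset.sum_congr rfl
    intro k _
    apply Finset.sum_congr rfl
    intro l _
    ring
  rw [h1, h2, ← Matrix.mulVec_mulVec, ← Matrix.mulVec_mulVec, Matrix.dotProduct_mulVec x Lᵀ,
    Matrix.vecMul_transpose]

private lemma integral_quad {n : ℕ} (A L : Matrix (Fin n) (Fin n) ℝ) :
    ∫ x in {x : E n | ∀ l, |x l| ≤ 1}, ∑ i, ∑ j, (L *ᵥ x) i * A i j * (L *ᵥ x) j =
      2 ^ n / 3 * (Lᵀ * A * L).trace := by
  simp only [quad_eq]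
  have hint : ∀ k l : Fin n, IntegrableOn (fun x : E n => (Lᵀ * A * L) k l * (x k * x l))
      {x : E n | ∀ l, |x l| ≤ 1} := by
    intro k l
    apply ContinuousOn.integrableOn_compact (cube_compact n)
    fun_prop
  rw [integral_finsetSum _ fun k _ => integrable_finsetSum _ fun l _ => hint k l]
  have h1 : ∀ k : Fin n, ∫ x in {x : E n | ∀ l, |x l| ≤ 1},
      ∑ l, (Lᵀ * A * L) k l * (x k * x l) = (Lᵀ * A * L) k k * (2 ^ n / 3) := by
    intro k
    rw [integral_finsetSum _ fun l _ => hint k l]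
    simp only [integral_const_mul, moment]
    rw [Finset.sum_eq_single k]
    · simp
    · intro l _ hl
      rw [if_neg (Ne.symm hl), mul_zero]
    · intro h; exact absurd (Finset.mem_univ k) h
  simp only [h1]
  rw [Matrix.trace, ← Finset.sum_mul, mul_comm]
  rfl

private lemma box_eq_pi {n : ℕ} (b : E n) :
    {p : E n | ∀ l, b l + 1 / 4 ≤ p l ∧ p l ≤ b l + 3 / 4} =
      Set.univ.pi fun l => Icc (b l + 1 / 4) (b l + 3 / 4) := by
  ext x
  simp only [Set.mem_ofPred_eq, Set.mem_pi, Set.mem_univ, forall_true_left, Set.mem_Icc]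

private lemma box_volume {n : ℕ} (b : E n) :
    volume.real {p : E n | ∀ l, b l + 1 / 4 ≤ p l ∧ p l ≤ b l + 3 / 4} = (1 / 2) ^ n := by
  rw [box_eq_pi, measureReal_def, volume_pi_pi]
  simp only [Real.volume_Icc]
  rw [ENNReal.toReal_prod]
  have : ∀ l : Fin n, (ENNReal.ofReal (b l + 3 / 4 - (b l + 1 / 4))).toReal = 1 / 2 := by
    intro l
    rw [ENNReal.toReal_ofReal (by linarith)]
    ring
  simp only [this, Finset.prod_const, Finset.card_univ, Fintype.card_fin]

/-- D7: the potential. -/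
theorem exists_potential {n : ℕ} (hn : 1 ≤ n) : ∃ C c : ℝ, 0 < C ∧ 0 < c ∧
    ∀ (Z : Finset (Fin n → ℤ)) (f : (Fin n → ℤ) → ℝ), Z.Nonempty → (∀ b ∈ Z, 0 < f b) →
    ∀ τ : ℝ, 0 < τ → ∃ Φ : E n → ℝ, ContDiff ℝ (⊤ : ℕ∞) Φ ∧
      (∀ y j, |pd Φ j y| ≤ C * (∑ b ∈ Z, f b) ^ (1 / (n : ℝ))) ∧
      (∀ y i j, |Hess Φ y i j| ≤ C * (∑ b ∈ Z, f b) ^ (1 / (n : ℝ))) ∧
      (∀ y, (Hess Φ y).PosSemidef) ∧
      ∀ b ∈ Z, ∀ y : E n, (∀ l, ⌊y l⌋ = b l) →
        c * f b ≤ (Hess Φ y + τ • (1 : Matrix (Fin n) (Fin n) ℝ)).det := by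
  obtain ⟨Cm, hCm, hmoll⟩ := mollify_convex n
  obtain ⟨Cd, hCd, hdet⟩ := det_lower hn
  have hn0 : (0 : ℝ) < n := by exact_mod_cast hn
  set κ : ℝ := 3 / 2 ^ (3 * n + 3) with hκ
  refine ⟨Cm, (κ / n) ^ n, hCm, by positivity, ?_⟩
  intro Z f hZ hf τ hτ
  set R : ℝ := (∑ b ∈ Z, f b) ^ (1 / (n : ℝ)) with hR
  obtain ⟨N₀, hN₀⟩ := exists_nat_ge (Cd * Real.sqrt ((Cm * R + τ) / τ))
  set N : ℕ := N₀ + 1 with hNdef
  have hN1 : 1 ≤ N := by omega
  have hN : Cd * Real.sqrt ((Cm * R + τ) / τ) ≤ N := by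
    refine hN₀.trans ?_
    rw [hNdef]; push_cast; linarith
  obtain ⟨φ, hconv, hlip, hgrid⟩ := exists_convex_grid hn Z hZ f hf N hN1
  obtain ⟨Φ, hΦ, hpd, hH, hpsd, hav⟩ := hmoll φ hconv R hlip
  have hcont : Continuous φ := by
    rw [← continuousOn_univ]
    exact hconv.continuousOn isOpen_univ
  refine ⟨Φ, hΦ, hpd, hH, hpsd, ?_⟩
  intro b hb y hy
  apply hdet (Hess Φ y) (hpsd y) (Cm * R) (hH y) τ hτ N hN κ (f b) (by positivity) (hf b hb).le
  intro L hL1 hL2
  set bb : E n := fun l => (b l : ℝ) with hbb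
  have hbox : ∀ l, bb l ≤ y l ∧ y l ≤ bb l + 1 := by
    intro l
    have h1 := Int.floor_le (y l)
    have h2 := Int.lt_floor_add_one (y l)
    rw [hy l] at h1 h2
    exact ⟨h1, h2.le⟩
  set K : Set (E n) := {x : E n | ∀ l, |x l| ≤ 1} with hK
  set B : Set (E n) := {p : E n | ∀ l, bb l + 1 / 4 ≤ p l ∧ p l ≤ bb l + 3 / 4} with hB
  have hKc : IsCompact K := cube_compact n
  have hBc : IsCompact B := by
    rw [hB, box_eq_pi]
    exact isCompact_univ_pi fun _ => isCompact_Icc
  let G : E n → E n → ℝ := fun x p => φ (p + L *ᵥ x) + φ (p - L *ᵥ x) - 2 * φ p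
  have hLc : Continuous fun x : E n => L *ᵥ x := by fun_prop
  have hGc : Continuous (Function.uncurry G) := by
    have h1 : Continuous fun z : E n × E n => z.2 + L *ᵥ z.1 :=
      continuous_snd.add (hLc.comp continuous_fst)
    have h2 : Continuous fun z : E n × E n => z.2 - L *ᵥ z.1 :=
      continuous_snd.sub (hLc.comp continuous_fst)
    exact ((hcont.comp h1).add (hcont.comp h2)).sub
      ((hcont.comp continuous_snd).const_mul 2)
  have hGint : Integrable (Function.uncurry G) ((volume.restrict K).prod (volume.restrict B)) := by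
    rw [Measure.prod_restrict]
    exact hGc.continuousOn.integrableOn_compact (hKc.prod hBc)
  have hswap : ∫ x in K, ∫ p in B, G x p = ∫ p in B, ∫ x in K, G x p :=
    integral_integral_swap hGint
  -- lower bound
  have hlow : (1 / 2) ^ n * (1 / 2 ^ (n + 3) * (L.det ^ 2 * f b) ^ (1 / (n : ℝ))) ≤
      ∫ p in B, ∫ x in K, G x p := by
    have hBm : MeasurableSet B := hBc.measurableSet
    have h1 : ∫ _p in B, (1 / 2 ^ (n + 3) * (L.det ^ 2 * f b) ^ (1 / (n : ℝ))) =
        (1 / 2) ^ n * (1 / 2 ^ (n + 3) * (L.det ^ 2 * f b) ^ (1 / (n : ℝ))) := by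
      rw [setIntegral_const, box_volume, smul_eq_mul]
    rw [← h1]
    apply setIntegral_mono_on
    · exact integrableOn_const hBc.measure_lt_top.ne
    · exact hGint.integral_prod_right
    · exact hBm
    · intro p hp
      exact hgrid b hb p hp L hL1 hL2
  -- upper bound
  have hup : ∫ x in K, ∫ p in B, G x p ≤ 2 ^ n / 3 * (Lᵀ * Hess Φ y * L).trace := by
    rw [← integral_quad]
    apply setIntegral_mono_on
    · exact hGint.integral_prod_left
    · apply ContinuousOn.integrableOn_compact hKc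
      fun_prop
    · exact hKc.measurableSet
    · intro x hx
      exact hav bb y (L *ᵥ x) hbox (hL1 x hx)
  have h3 : (1 / 2) ^ n * (1 / 2 ^ (n + 3) * (L.det ^ 2 * f b) ^ (1 / (n : ℝ))) ≤
      2 ^ n / 3 * (Lᵀ * Hess Φ y * L).trace := by
    rw [← hswap] at hlow
    exact hlow.trans hup
  have h4 : (0 : ℝ) < 2 ^ n / 3 := by positivity
  rw [← mul_le_mul_iff_right₀ h4]
  refine le_trans (le_of_eq ?_) h3
  rw [hκ, show 3 * n + 3 = n + n + (n + 3) by ring, pow_add, pow_add, one_div_pow]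
  field_simp

end Pool.Agent.Lib.HSys
end

section

/-!
# The `ℓ^{n/(n-1)}` bound of the far Jacobians (`serre_sum`)
-/

set_option autoImplicit false
open MeasureTheory Set Filter Topology
open scoped ENNReal Matrix

namespace Pool.Agent.Lib.HSys


/-- the pointwise inequality behind `serre_sum` -/
theorem serreSum_pointwise {n : ℕ} (hn : 2 ≤ n) (P : Matrix (Fin (n + 1)) (Fin n) ℝ)
    (i : Fin (n + 1)) (A : Matrix (Fin n) (Fin n) ℝ) (hA : A.PosSemidef) (τ g : ℝ) (hτ : 0 < τ)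
    (hg : 0 ≤ g) (h : g ≤ (A + τ • (1 : Matrix (Fin n) (Fin n) ℝ)).det) :
    g ^ (1 / (n : ℝ)) * |mnr P i| ≤ fro P ^ (n - 2) *
      ((P.submatrix i.succAbove id)ᵀ * A * P.submatrix i.succAbove id).trace + τ * fro P ^ n := by
  set Q := P.submatrix i.succAbove id with hQ
  have hB : (A + τ • (1 : Matrix (Fin n) (Fin n) ℝ)).PosSemidef := by
    refine hA.add ?_
    exact Matrix.PosSemidef.one.smul hτ.le
  have h1 := amgm_matrix hn _ Q hB
  have h2 : g ^ (1 / (n : ℝ)) ≤ (A + τ • (1 : Matrix (Fin n) (Fin n) ℝ)).det ^ (1 / (n : ℝ)) :=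
    Real.rpow_le_rpow hg h (by positivity)
  have h3 : |mnr P i| = |Q.det| := rfl
  have htr : (Qᵀ * (A + τ • (1 : Matrix (Fin n) (Fin n) ℝ)) * Q).trace =
      (Qᵀ * A * Q).trace + τ * fro Q ^ 2 := by
    rw [Matrix.mul_add, Matrix.add_mul, Matrix.trace_add]
    congr 1
    rw [Matrix.mul_smul, Matrix.mul_one, Matrix.smul_mul, Matrix.trace_smul, smul_eq_mul, fro_sq]
    congr 1
    rw [Matrix.trace]
    simp only [Matrix.diag_apply, Matrix.mul_apply, Matrix.transpose_apply]
    rw [Finset.sum_comm]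
    refine Finset.sum_congr rfl fun a _ => Finset.sum_congr rfl fun b _ => ?_
    ring
  have hAtr : 0 ≤ (Qᵀ * A * Q).trace := by
    have : (Qᵀ * A * Q).PosSemidef := by
      have := hA.conjTranspose_mul_mul_same Q
      simpa [Matrix.conjTranspose_eq_transpose_of_trivial] using this
    exact this.trace_nonneg
  have hfro : fro Q ≤ fro P := fro_submatrix_le P i
  have hpow : fro Q ^ (n - 2) ≤ fro P ^ (n - 2) := pow_le_pow_left₀ (fro_nonneg _) hfro _
  calc g ^ (1 / (n : ℝ)) * |mnr P i|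
      ≤ (A + τ • (1 : Matrix (Fin n) (Fin n) ℝ)).det ^ (1 / (n : ℝ)) * |Q.det| := by
        rw [h3]; exact mul_le_mul_of_nonneg_right h2 (abs_nonneg _)
    _ ≤ fro Q ^ (n - 2) * ((Qᵀ * A * Q).trace + τ * fro Q ^ 2) := by rw [← htr]; exact h1
    _ = fro Q ^ (n - 2) * (Qᵀ * A * Q).trace + τ * fro Q ^ n := by
        have : fro Q ^ n = fro Q ^ (n - 2) * fro Q ^ 2 := by
          rw [← pow_add]; congr 1; omega
        rw [this]; ring
    _ ≤ fro P ^ (n - 2) * (Qᵀ * A * Q).trace + τ * fro P ^ n := by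
        gcongr
        exact fro_nonneg _

/-- SUM : the `ℓ^{n/(n-1)}` bound of the far Jacobians -/
theorem serre_sum {n : ℕ} (hn : 2 ≤ n) {K M : ℝ} (hK : 0 ≤ K) (hM : 0 ≤ M) : ∃ C₄ : ℝ, 0 < C₄ ∧
    ∀ {c C : ℝ} {α : Type} [MeasurableSpace α] {μ : Measure α}
    {v : α → E (n + 1)} {P : α → Matrix (Fin (n + 1)) (Fin n) ℝ} {T : ℝ → ℝ≥0∞} {s₁ : ℝ},
    HData n μ v P T s₁ K M c C → ∀ l : ℝ, s₁ ≤ l → 1 ≤ l → ∀ i : Fin (n + 1),
      ∑' b : Fin n → ℤ,
        (∫⁻ x in {x | (∀ j, ⌊v x (i.succAbove j)⌋ = b j) ∧ 4 * l ≤ bra (v x)},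
          ENNReal.ofReal |mnr (P x) i| ∂μ) ^ ((n : ℝ) / (n - 1)) ≤
        (ENNReal.ofReal C₄ * T l) ^ ((n : ℝ) / (n - 1)) := by
  obtain ⟨C₀, c₀, hC₀, hc₀, hpot⟩ := exists_potential (n := n) (by omega)
  obtain ⟨C₃, hC₃, hser⟩ := serre_test hn
  refine ⟨C₃ * (K + M + 1) * C₀ / c₀ ^ (1 / (n : ℝ)), by positivity, ?_⟩
  intro c C α _ μ v P T s₁ h l hl hl1 i
  have hn' : (2 : ℝ) ≤ n := by exact_mod_cast hn
  have hn1 : (0 : ℝ) < (n : ℝ) - 1 := by linarith
  set p : ℝ := (n : ℝ) / (n - 1) with hp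
  have hp0 : 0 < p := by positivity
  set A : (Fin n → ℤ) → Set α := fun b =>
    {x | (∀ j, ⌊v x (i.succAbove j)⌋ = b j) ∧ 4 * l ≤ bra (v x)} with hA
  set m : (Fin n → ℤ) → ℝ≥0∞ := fun b => ∫⁻ x in A b, ENNReal.ofReal |mnr (P x) i| ∂μ with hm
  have hmeasv : ∀ j, Measurable fun x => v x j := fun j => (measurable_pi_apply j).comp h.meas_v
  have hAmeas : ∀ b, MeasurableSet (A b) := by
    intro b
    have h1 : MeasurableSet {x | ∀ j, ⌊v x (i.succAbove j)⌋ = b j} := by
      rw [Set.ofPred_forall]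
      refine MeasurableSet.iInter fun j => ?_
      exact (Int.measurable_floor.comp (hmeasv (i.succAbove j))) (measurableSet_singleton (b j))
    have h2 : MeasurableSet {x | 4 * l ≤ bra (v x)} :=
      measurableSet_le measurable_const (measurable_bra.comp h.meas_v)
    exact h1.inter h2
  have hdisj : ∀ s : Finset (Fin n → ℤ), Set.PairwiseDisjoint (↑s) A := by
    intro s b _ b' _ hbb
    rw [Function.onFun, Set.disjoint_left]
    intro x hx hx'
    apply hbb
    ext j
    rw [← hx.1 j, ← hx'.1 j]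
  have hEfin : ∫⁻ x, ENNReal.ofReal (fro (P x) ^ n) ∂μ < ∞ := by
    have := h.int_P.lintegral_lt_top
    exact this
  have hmeasfro : Measurable fun x => fro (P x) := measurable_fro h.meas_P
  have hmnr : ∀ x, ENNReal.ofReal |mnr (P x) i| ≤ ENNReal.ofReal (fro (P x) ^ n) := fun x =>
    ENNReal.ofReal_le_ofReal (abs_mnr_le (by omega) _ _)
  have hmfin : ∀ b, m b < ∞ := by
    intro b
    refine lt_of_le_of_lt ?_ hEfin
    refine (lintegral_mono fun x => hmnr x).trans ?_
    exact setLIntegral_le_lintegral _ _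
  have hT : T l ≠ ∞ := h.T_fin l hl
  rw [ENNReal.tsum_eq_iSup_sum]
  refine iSup_le fun s => ?_
  classical
  set Z := s.filter fun b => m b ≠ 0 with hZ
  have hsum : ∑ b ∈ s, (m b) ^ p = ∑ b ∈ Z, (m b) ^ p := by
    rw [hZ, Finset.sum_filter]
    refine Finset.sum_congr rfl fun b _ => ?_
    by_cases hb : m b = 0
    · simp [hb, hp0]
    · simp [hb]
  change ∑ b ∈ s, (m b) ^ p ≤ _
  rw [hsum]
  by_cases hZe : Z.Nonempty
  swap
  · rw [Finset.not_nonempty_iff_eq_empty.1 hZe]
    simp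
  -- real quantities
  set mr : (Fin n → ℤ) → ℝ := fun b => (m b).toReal with hmr
  have hmrpos : ∀ b ∈ Z, 0 < mr b := by
    intro b hb
    have : m b ≠ 0 := (Finset.mem_filter.1 hb).2
    exact ENNReal.toReal_pos this (hmfin b).ne
  set f : (Fin n → ℤ) → ℝ := fun b => mr b ^ p with hf
  have hfpos : ∀ b ∈ Z, 0 < f b := fun b hb => Real.rpow_pos_of_pos (hmrpos b hb) _
  set F : ℝ := ∑ b ∈ Z, f b with hF
  have hFpos : 0 < F := Finset.sum_pos hfpos hZe
  set E₀ : ℝ := (∫⁻ x, ENNReal.ofReal (fro (P x) ^ n) ∂μ).toReal with hE₀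
  set t : ℝ := (T l).toReal with ht
  have ht0 : 0 ≤ t := ENNReal.toReal_nonneg
  have hmof : ∀ b, m b = ENNReal.ofReal (mr b) := fun b => (ENNReal.ofReal_toReal (hmfin b).ne).symm
  have key : ∀ τ : ℝ, 0 < τ →
      c₀ ^ (1 / (n : ℝ)) * F ≤ C₃ * (K + M) * (C₀ * F ^ (1 / (n : ℝ))) * t + τ * E₀ := by
    intro τ hτ
    obtain ⟨Φ, hΦ, hg1, hg2, hpsd, hdet⟩ := hpot Z f hZe hfpos τ hτ
    have hS := hser hK hM h l hl hl1 i Φ (C₀ * F ^ (1 / (n : ℝ))) hΦ hg1 hg2 hpsd
    have hstep : ∑ b ∈ Z, ∫⁻ x in A b, ENNReal.ofReal ((c₀ * f b) ^ (1 / (n : ℝ)) * |mnr (P x) i|) ∂μ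
        ≤ ∫⁻ x in {x | 4 * l ≤ bra (v x)}, (ENNReal.ofReal (fro (P x) ^ (n - 2) *
          (((P x).submatrix i.succAbove id)ᵀ * Hess Φ (fun j => v x (i.succAbove j)) *
            (P x).submatrix i.succAbove id).trace) +
              ENNReal.ofReal (τ * fro (P x) ^ n)) ∂μ := by
      calc ∑ b ∈ Z, ∫⁻ x in A b, ENNReal.ofReal ((c₀ * f b) ^ (1 / (n : ℝ)) * |mnr (P x) i|) ∂μ
          ≤ ∑ b ∈ Z, ∫⁻ x in A b, (ENNReal.ofReal (fro (P x) ^ (n - 2) *
          (((P x).submatrix i.succAbove id)ᵀ * Hess Φ (fun j => v x (i.succAbove j)) *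
            (P x).submatrix i.succAbove id).trace) +
              ENNReal.ofReal (τ * fro (P x) ^ n)) ∂μ := by
            refine Finset.sum_le_sum fun b hb => ?_
            refine setLIntegral_mono' (hAmeas b) fun x hx => ?_
            have hfx := hdet b hb (fun j => v x (i.succAbove j)) hx.1
            have hpw := serreSum_pointwise hn (P x) i _ (hpsd (fun j => v x (i.succAbove j))) τ
              (c₀ * f b) hτ (mul_nonneg hc₀.le (hfpos b hb).le) hfx
            refine (ENNReal.ofReal_le_ofReal hpw).trans ?_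
            exact ENNReal.ofReal_add_le
        _ = ∫⁻ x in ⋃ b ∈ Z, A b, (ENNReal.ofReal (fro (P x) ^ (n - 2) *
          (((P x).submatrix i.succAbove id)ᵀ * Hess Φ (fun j => v x (i.succAbove j)) *
            (P x).submatrix i.succAbove id).trace) +
              ENNReal.ofReal (τ * fro (P x) ^ n)) ∂μ := by
            rw [lintegral_biUnion_finset (hdisj Z) (fun b _ => hAmeas b)]
        _ ≤ _ := by
            refine lintegral_mono_set ?_
            refine Set.iUnion₂_subset fun b _ x hx => hx.2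
    have hstep2 : ∑ b ∈ Z, ∫⁻ x in A b, ENNReal.ofReal ((c₀ * f b) ^ (1 / (n : ℝ)) * |mnr (P x) i|) ∂μ
        = ENNReal.ofReal (c₀ ^ (1 / (n : ℝ)) * F) := by
      have : ∀ b ∈ Z, ∫⁻ x in A b, ENNReal.ofReal ((c₀ * f b) ^ (1 / (n : ℝ)) * |mnr (P x) i|) ∂μ
          = ENNReal.ofReal (c₀ ^ (1 / (n : ℝ)) * f b) := by
        intro b hb
        have hfb := hfpos b hb
        have hmb := hmrpos b hb
        have h1 : ∀ x, ENNReal.ofReal ((c₀ * f b) ^ (1 / (n : ℝ)) * |mnr (P x) i|) =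
            ENNReal.ofReal ((c₀ * f b) ^ (1 / (n : ℝ))) * ENNReal.ofReal |mnr (P x) i| := fun x =>
          ENNReal.ofReal_mul (by positivity)
        simp_rw [h1]
        rw [lintegral_const_mul']
        swap
        · exact ENNReal.ofReal_ne_top
        change _ * m b = _
        rw [hmof b, ← ENNReal.ofReal_mul (by positivity)]
        congr 1
        rw [Real.mul_rpow hc₀.le hfb.le, mul_assoc]
        congr 1
        rw [hf]
        simp only
        rw [← Real.rpow_mul hmb.le]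
        nth_rewrite 2 [← Real.rpow_one (mr b)]
        rw [← Real.rpow_add hmb]
        congr 1
        rw [hp]
        field_simp
        ring
      rw [Finset.sum_congr rfl this, ← ENNReal.ofReal_sum_of_nonneg, ← Finset.mul_sum]
      intro b hb
      exact mul_nonneg (by positivity) (hfpos b hb).le
    have hstep3 : ∫⁻ x in {x | 4 * l ≤ bra (v x)}, (ENNReal.ofReal (fro (P x) ^ (n - 2) *
          (((P x).submatrix i.succAbove id)ᵀ * Hess Φ (fun j => v x (i.succAbove j)) *
            (P x).submatrix i.succAbove id).trace) +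
              ENNReal.ofReal (τ * fro (P x) ^ n)) ∂μ
        ≤ ENNReal.ofReal (C₃ * (K + M) * (C₀ * F ^ (1 / (n : ℝ))) * t + τ * E₀) := by
      have hmτ : Measurable fun x => ENNReal.ofReal (τ * fro (P x) ^ n) :=
        ((hmeasfro.pow_const n).const_mul τ).ennreal_ofReal
      rw [lintegral_add_right _ hmτ]
      rw [ENNReal.ofReal_add (by positivity) (by positivity)]
      refine add_le_add ?_ ?_
      · refine hS.trans ?_
        rw [ENNReal.ofReal_mul (p := C₃ * (K + M) * (C₀ * F ^ (1 / (n : ℝ)))) (q := t) (by positivity),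
          ht, ENNReal.ofReal_toReal hT]
      · refine (setLIntegral_le_lintegral _ _).trans ?_
        have h1 : ∀ x, ENNReal.ofReal (τ * fro (P x) ^ n) =
            ENNReal.ofReal τ * ENNReal.ofReal (fro (P x) ^ n) := fun x =>
          ENNReal.ofReal_mul hτ.le
        simp_rw [h1]
        rw [lintegral_const_mul' _ _ ENNReal.ofReal_ne_top, ENNReal.ofReal_mul hτ.le, hE₀,
          ENNReal.ofReal_toReal hEfin.ne]
    have h4 : ENNReal.ofReal (c₀ ^ (1 / (n : ℝ)) * F) ≤
        ENNReal.ofReal (C₃ * (K + M) * (C₀ * F ^ (1 / (n : ℝ))) * t + τ * E₀) := by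
      rw [← hstep2]; exact hstep.trans hstep3
    exact (ENNReal.ofReal_le_ofReal_iff (by positivity)).1 h4
  -- let τ → 0
  have key2 : c₀ ^ (1 / (n : ℝ)) * F ≤ C₃ * (K + M) * (C₀ * F ^ (1 / (n : ℝ))) * t := by
    have hE0 : 0 ≤ E₀ := ENNReal.toReal_nonneg
    refine le_of_forall_pos_le_add fun ε hε => ?_
    have := key (ε / (E₀ + 1)) (by positivity)
    refine this.trans ?_
    gcongr
    rw [div_mul_eq_mul_div, div_le_iff₀ (by positivity)]
    nlinarith
  have key3 : F ^ (((n : ℝ) - 1) / n) ≤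
      C₃ * (K + M + 1) * C₀ / c₀ ^ (1 / (n : ℝ)) * t := by
    have hFn : 0 < F ^ (1 / (n : ℝ)) := Real.rpow_pos_of_pos hFpos _
    have hsplit : F = F ^ (((n : ℝ) - 1) / n) * F ^ (1 / (n : ℝ)) := by
      rw [← Real.rpow_add hFpos]
      conv_lhs => rw [← Real.rpow_one F]
      congr 1
      field_simp
      ring
    have h5 : c₀ ^ (1 / (n : ℝ)) * F ^ (((n : ℝ) - 1) / n) ≤ C₃ * (K + M) * C₀ * t := by
      have : (c₀ ^ (1 / (n : ℝ)) * F ^ (((n : ℝ) - 1) / n)) * F ^ (1 / (n : ℝ)) ≤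
          (C₃ * (K + M) * C₀ * t) * F ^ (1 / (n : ℝ)) := by
        calc (c₀ ^ (1 / (n : ℝ)) * F ^ (((n : ℝ) - 1) / n)) * F ^ (1 / (n : ℝ))
            = c₀ ^ (1 / (n : ℝ)) * F := by rw [mul_assoc, ← hsplit]
          _ ≤ _ := key2
          _ = _ := by ring
      exact le_of_mul_le_mul_right this hFn
    have hc1 : 0 < c₀ ^ (1 / (n : ℝ)) := Real.rpow_pos_of_pos hc₀ _
    rw [div_mul_eq_mul_div, le_div_iff₀ hc1]
    calc F ^ (((n : ℝ) - 1) / n) * c₀ ^ (1 / (n : ℝ)) =
        c₀ ^ (1 / (n : ℝ)) * F ^ (((n : ℝ) - 1) / n) := by ring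
      _ ≤ C₃ * (K + M) * C₀ * t := h5
      _ ≤ C₃ * (K + M + 1) * C₀ * t :=
        mul_le_mul_of_nonneg_right (mul_le_mul_of_nonneg_right
          (mul_le_mul_of_nonneg_left (by linarith) hC₃.le) hC₀.le) ht0
  have key4 : F ≤ (C₃ * (K + M + 1) * C₀ / c₀ ^ (1 / (n : ℝ)) * t) ^ p := by
    have : F = (F ^ (((n : ℝ) - 1) / n)) ^ p := by
      rw [← Real.rpow_mul hFpos.le]
      conv_lhs => rw [← Real.rpow_one F]
      congr 1
      rw [hp]
      field_simp
    rw [this]
    exact Real.rpow_le_rpow (by positivity) key3 hp0.le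
  calc ∑ b ∈ Z, (m b) ^ p = ENNReal.ofReal F := by
        rw [hF, ENNReal.ofReal_sum_of_nonneg (fun b hb => (hfpos b hb).le)]
        refine Finset.sum_congr rfl fun b hb => ?_
        rw [hmof b, ENNReal.ofReal_rpow_of_nonneg (hmrpos b hb).le hp0.le]
    _ ≤ ENNReal.ofReal ((C₃ * (K + M + 1) * C₀ / c₀ ^ (1 / (n : ℝ)) * t) ^ p) :=
        ENNReal.ofReal_le_ofReal key4
    _ = _ := by
        rw [← ENNReal.ofReal_rpow_of_nonneg (by positivity) hp0.le,
          ENNReal.ofReal_mul (by positivity), ht, ENNReal.ofReal_toReal hT]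

end Pool.Agent.Lib.HSys
end
end
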