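import Pool.Agent.Lib.MP_f44734_an.SmoothLip
import Pool.Agent.Lib.MP_f44734_an.Basic
import Pool.Agent.Lib.MP_f44734_an.Cover
import Pool.Agent.Lib.MP_f44734_an.SerreSum
import Pool.Agent.Lib.MP_f44734_an.Radial
import Pool.Agent.Lib.MP_f44734_an.Limsup2
import Pool.Agent.Lib.MP_f44734_an.LocAp

section

/-!
# The estimate of the right hand side for one smooth map
-/

set_option autoImplicit false
open MeasureTheory Set Filter Topology
open scoped ENNReal Matrix

namespace Pool.Agent.Lib.HSys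

private theorem rhs_fderiv_zero {m : ℕ} {Y : E m → E m} (hY : ContDiff ℝ 1 Y) {s : ℝ}
    (hs : 1 < s) (h0 : ∀ y, bra y ≤ s → Y y = 0) (y : E m) (hy : bra y ≤ s) :
    fderiv ℝ Y y = 0 := by
  have hc : Continuous fun t : ℝ => fderiv ℝ Y (t • y) :=
    (hY.continuous_fderiv one_ne_zero).comp (by fun_prop)
  have h1 : ∀ z, bra z < s → fderiv ℝ Y z = 0 := by
    intro z hz
    have hev : Y =ᶠ[𝓝 z] fun _ => 0 := by
      filter_upwards [(isOpen_lt continuous_bra continuous_const).mem_nhds hz] with w hw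
      exact h0 w (le_of_lt hw)
    rw [hev.fderiv_eq]
    simp
  have h2 : ∀ᶠ t in 𝓝[<] (1 : ℝ), fderiv ℝ Y (t • y) = 0 := by
    have h3 : Ioo (0 : ℝ) 1 ∈ 𝓝[<] (1 : ℝ) := Ioo_mem_nhdsLT one_pos
    filter_upwards [h3] with t ht
    apply h1
    have h4 : bra (t • y) ^ 2 < s ^ 2 := by
      rw [bra_sq]
      have h5 : bra y ^ 2 ≤ s ^ 2 := pow_le_pow_left₀ (bra_pos y).le hy 2
      rw [bra_sq] at h5
      have h6 : ∑ i, (t • y) i ^ 2 = t ^ 2 * ∑ i, y i ^ 2 := by
        rw [Finset.mul_sum]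
        apply Finset.sum_congr rfl
        intro i _
        rw [Pi.smul_apply, smul_eq_mul, mul_pow]
      rw [h6]
      have h7 : t ^ 2 < 1 := by nlinarith [ht.1, ht.2]
      have h8 : t ^ 2 * ∑ i, y i ^ 2 ≤ t ^ 2 * (s ^ 2 - 1) :=
        mul_le_mul_of_nonneg_left (by linarith) (sq_nonneg t)
      have h9 : 0 < (1 - t ^ 2) * (s ^ 2 - 1) := mul_pos (by linarith) (by nlinarith)
      nlinarith
    exact lt_of_pow_lt_pow_left₀ 2 (by linarith) h4
  have h9 : Tendsto (fun t : ℝ => fderiv ℝ Y (t • y)) (𝓝[<] (1 : ℝ)) (𝓝 (fderiv ℝ Y y)) := by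
    have := hc.tendsto 1
    rw [one_smul] at this
    exact this.mono_left nhdsWithin_le_nhds
  have h10 : Tendsto (fun t : ℝ => fderiv ℝ Y (t • y)) (𝓝[<] (1 : ℝ)) (𝓝 0) :=
    (tendsto_congr' h2).2 tendsto_const_nhds
  exact tendsto_nhds_unique h9 h10

/-- H1S : the estimate of the right hand side for one smooth map. -/
theorem rhs_bound {n : ℕ} (U : E n → E (n + 1))
    (hU : ContDiff ℝ (⊤ : ℕ∞) U) (x₀ : E n) (r : ℝ) (hr : 0 < r) (ρ : ℝ) (hρ : 0 < ρ)
    (q : E (n + 1) → ℝ) (hq : Measurable q) (hqi : Integrable q)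
    (hY : ∀ Y : E (n + 1) → E (n + 1), ContDiff ℝ 1 Y → (∀ y, bra y ≤ 1 + ρ → Y y = 0) →
        ∫ x in Metric.ball x₀ r, ∑ i, Y (U x) i * cr (Jac U x) i =
          ∫ y, q y * ∑ i, fderiv ℝ Y y (Pi.single i 1) i)
    (H : E (n + 1) → ℝ) (M : ℝ) (hM : ∀ y, |H y| ≤ M) (K : NNReal) (hK : LipschitzWith K H)
    (s b₀ b₁ : ℝ) (hs : 1 + ρ ≤ s) (X : E (n + 1) → E (n + 1)) (hX : ContDiff ℝ (⊤ : ℕ∞) X)
    (hX0 : ∀ y, bra y ≤ s → X y = 0) (hb₀ : ∀ y i, |X y i| ≤ b₀)
    (hb₁ : ∀ y, |∑ i, fderiv ℝ X y (Pi.single i 1) i| ≤ b₁) :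
    |∫ x in Metric.ball x₀ r, H (U x) * ∑ i, X (U x) i * cr (Jac U x) i| ≤
      (K * b₀ + M * b₁) * (∫⁻ y in {y : E (n + 1) | s < bra y}, ENNReal.ofReal |q y|).toReal := by
  have hb₀' : 0 ≤ b₀ := (abs_nonneg _).trans (hb₀ 0 0)
  have hb₁' : 0 ≤ b₁ := (abs_nonneg _).trans (hb₁ 0)
  have hM' : 0 ≤ M := (abs_nonneg _).trans (hM 0)
  have hX1 : ContDiff ℝ 1 X := hX.of_le (by exact_mod_cast le_top)
  have hU1 : ContDiff ℝ 1 U := hU.of_le (by exact_mod_cast le_top)
  have hs1 : 1 < s := by linarith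
  set B : Set (E n) := Metric.ball x₀ r with hB
  set S : E n → ℝ := fun x => ∑ i, X (U x) i * cr (Jac U x) i with hS
  have hcX : Continuous X := hX.continuous
  have hcU : Continuous U := hU.continuous
  have hcS : Continuous S := by
    refine continuous_finsetSum _ fun i _ => ?_
    exact ((continuous_apply i).comp (hcX.comp hcU)).mul
      ((continuous_cr i).comp (continuous_Jac hU1))
  have hintB : ∀ F : E n → ℝ, Continuous F → IntegrableOn F B := fun F hF =>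
    (hF.continuousOn.integrableOn_compact (isCompact_closedBall x₀ r)).mono_set
      Metric.ball_subset_closedBall
  set A : Set (E (n + 1)) := {y | s < bra y} with hA
  have hAm : MeasurableSet A := measurableSet_lt measurable_const measurable_bra
  set T : ℝ := (∫⁻ y in A, ENNReal.ofReal |q y|).toReal with hT
  have hT' : T = ∫ y in A, |q y| := by
    rw [hT, integral_eq_lintegral_of_nonneg_ae (Eventually.of_forall fun y => abs_nonneg _)
      hq.abs.aestronglyMeasurable]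
  set Z : ℝ := ∫ x in B, |S x| with hZ
  have hZ0 : 0 ≤ Z := integral_nonneg fun _ => abs_nonneg _
  have key : ∀ ε : ℝ, 0 < ε → |∫ x in B, H (U x) * S x| ≤ (K * b₀ + M * b₁) * T + ε * Z := by
    intro ε hε
    obtain ⟨G, hG, hGM, hGK, hGH⟩ := exists_smooth_lip H M hM K hK ε hε
    have hG1 : ContDiff ℝ 1 G := hG.of_le (by exact_mod_cast le_top)
    set Y : E (n + 1) → E (n + 1) := fun y => G y • X y with hYdef
    have hYc : ContDiff ℝ 1 Y := hG1.smul hX1
    have hY0 : ∀ y, bra y ≤ s → Y y = 0 := fun y hy => by simp [hYdef, hX0 y hy]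
    have hI := hY Y hYc fun y hy => hY0 y (hy.trans hs)
    have hdiv : ∀ y, |∑ i, fderiv ℝ Y y (Pi.single i 1) i| ≤
        A.indicator (fun _ => K * b₀ + M * b₁) y := by
      intro y
      by_cases hy : y ∈ A
      · rw [Set.indicator_of_mem hy]
        have hGd : DifferentiableAt ℝ G y := hG1.differentiable one_ne_zero y
        have hXd : DifferentiableAt ℝ X y := hX1.differentiable one_ne_zero y
        have h1 : fderiv ℝ Y y = G y • fderiv ℝ X y + (fderiv ℝ G y).smulRight (X y) :=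
          (hGd.hasFDerivAt.smul hXd.hasFDerivAt).fderiv
        have h2 : ∑ i, fderiv ℝ Y y (Pi.single i 1) i =
            G y * ∑ i, fderiv ℝ X y (Pi.single i 1) i + fderiv ℝ G y (X y) := by
          rw [fderiv_real_apply_eq, Finset.mul_sum, ← Finset.sum_add_distrib]
          apply Finset.sum_congr rfl
          intro i _
          rw [h1]
          simp [pd]
        rw [h2]
        have h3 : |fderiv ℝ G y (X y)| ≤ K * b₀ := by
          have h4 : ‖fderiv ℝ G y‖ ≤ K := norm_fderiv_le_of_lipschitz ℝ hGK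
          have h5 : ‖X y‖ ≤ b₀ := (pi_norm_le_iff_of_nonneg hb₀').2 fun i => hb₀ y i
          have h6 := (fderiv ℝ G y).le_opNorm (X y)
          rw [Real.norm_eq_abs] at h6
          exact h6.trans (mul_le_mul h4 h5 (norm_nonneg _) K.coe_nonneg)
        have h7 : |G y * ∑ i, fderiv ℝ X y (Pi.single i 1) i| ≤ M * b₁ := by
          rw [abs_mul]
          exact mul_le_mul (hGM y) (hb₁ y) (abs_nonneg _) hM'
        have h8 := abs_add_le (G y * ∑ i, fderiv ℝ X y (Pi.single i 1) i) (fderiv ℝ G y (X y))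
        linarith
      · rw [Set.indicator_of_notMem hy]
        have hy' : bra y ≤ s := not_lt.1 hy
        rw [rhs_fderiv_zero hYc hs1 hY0 y hy']
        simp
    have h10 : |∫ y, q y * ∑ i, fderiv ℝ Y y (Pi.single i 1) i| ≤ (K * b₀ + M * b₁) * T := by
      refine abs_integral_le_integral_abs.trans ?_
      rw [hT', ← integral_const_mul, ← integral_indicator hAm]
      apply integral_mono_of_nonneg (Eventually.of_forall fun _ => abs_nonneg _)
      · rw [integrable_indicator_iff hAm]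
        exact (hqi.abs.const_mul _).integrableOn
      · refine Eventually.of_forall fun y => ?_
        have h11 := hdiv y
        simp only [abs_mul]
        by_cases hy : y ∈ A
        · rw [Set.indicator_of_mem hy] at h11 ⊢
          rw [mul_comm]
          exact mul_le_mul_of_nonneg_right h11 (abs_nonneg _)
        · rw [Set.indicator_of_notMem hy] at h11 ⊢
          have : |∑ i, fderiv ℝ Y y (Pi.single i 1) i| = 0 := le_antisymm h11 (abs_nonneg _)
          rw [this, mul_zero]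
    have h12 : ∀ x, ∑ i, Y (U x) i * cr (Jac U x) i = G (U x) * S x := by
      intro x
      rw [hS, Finset.mul_sum]
      apply Finset.sum_congr rfl
      intro i _
      simp only [hYdef, Pi.smul_apply, smul_eq_mul]
      ring
    simp only [h12] at hI
    have hcG : Continuous fun x => G (U x) * S x := (hG.continuous.comp hcU).mul hcS
    have hcH : Continuous fun x => H (U x) * S x := (hK.continuous.comp hcU).mul hcS
    have h13 : ∫ x in B, H (U x) * S x = (∫ x in B, G (U x) * S x) +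
        ∫ x in B, (H (U x) - G (U x)) * S x := by
      rw [← integral_add (hintB _ hcG)]
      · congr 1
        ext x
        ring
      · apply hintB
        exact ((hK.continuous.comp hcU).sub (hG.continuous.comp hcU)).mul hcS
    have h14 : |∫ x in B, (H (U x) - G (U x)) * S x| ≤ ε * Z := by
      refine abs_integral_le_integral_abs.trans ?_
      rw [hZ, ← integral_const_mul]
      apply integral_mono_of_nonneg (Eventually.of_forall fun _ => abs_nonneg _)
      · exact (hintB _ hcS.abs).const_mul _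
      · refine Eventually.of_forall fun x => ?_
        simp only [abs_mul]
        apply mul_le_mul_of_nonneg_right _ (abs_nonneg _)
        rw [abs_sub_comm]
        exact hGH _
    rw [h13, hI]
    exact (abs_add_le _ _).trans (add_le_add h10 h14)
  apply le_of_forall_pos_le_add
  intro δ hδ
  have h15 := key (δ / (Z + 1)) (by positivity)
  have h16 : δ / (Z + 1) * Z ≤ δ := by
    rw [div_mul_eq_mul_div, div_le_iff₀ (by positivity)]
    nlinarith
  linarith

end Pool.Agent.Lib.HSys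
end

section

/-!
# The covering function of a smooth map on a cube
-/

set_option autoImplicit false
open MeasureTheory Set Filter Topology
open scoped ENNReal Matrix

namespace Pool.Agent.Lib.HSys

/-- COV : the covering function of a smooth map on the cube `ball x₀ r` whose boundary values are
in `⟨y⟩ < 1 + ρ/4`. -/
theorem exists_cover_bdry {n : ℕ} (hn : 1 ≤ n) (U : E n → E (n + 1))
    (hU : ContDiff ℝ (⊤ : ℕ∞) U) (x₀ : E n) (r : ℝ) (hr : 0 < r) (ρ : ℝ) (hρ : 0 < ρ)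
    (hb : ∀ x, ‖x - x₀‖ = r → bra (U x) < 1 + ρ / 4) :
    ∃ q : E (n + 1) → ℝ, Measurable q ∧ Integrable q ∧
      (∀ Y : E (n + 1) → E (n + 1), ContDiff ℝ 1 Y → (∀ y, bra y ≤ 1 + ρ → Y y = 0) →
        ∫ x in Metric.ball x₀ r, ∑ i, Y (U x) i * cr (Jac U x) i =
          ∫ y, q y * ∑ i, fderiv ℝ Y y (Pi.single i 1) i) ∧
      (∀ a : E (n + 1), (∀ y : E (n + 1), (∀ j, y j ∈ Icc (a j) (a j + 2)) → 1 + ρ < bra y) →
        ∫⁻ y in {y : E (n + 1) | ∀ j, y j ∈ Icc (a j) (a j + 1)}, ENNReal.ofReal |q y| ≤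
        ∏ i, ((∫⁻ x in {x | x ∈ Metric.ball x₀ r ∧ ∀ j, U x j ∈ Icc (a j) (a j + 2)},
            ENNReal.ofReal |mnr (Jac U x) i|) +
          ∫⁻ y in {y : E (n + 1) | ∀ j, y j ∈ Icc (a j) (a j + 2)},
            ENNReal.ofReal |q y|) ^ (1 / (n : ℝ))) ∧
      (∀ s : ℝ, 1 + ρ ≤ s → ∫⁻ y in {y : E (n + 1) | s < bra y}, ENNReal.ofReal |q y| ≤
        ∏ i, (∫⁻ x in {x | x ∈ Metric.ball x₀ r ∧ s < bra (U x)},
          ENNReal.ofReal |mnr (Jac U x) i|) ^ (1 / (n : ℝ))) := by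
  obtain ⟨Q, hQ, hQ0, hQ1, hQb⟩ := exists_collapse (n + 1) ρ hρ
  have hUc : Continuous U := hU.continuous
  have hbU : Continuous fun x => bra (U x) := continuous_bra.comp hUc
  set B := Metric.ball x₀ r with hB
  set g : E n → E (n + 1) := fun x => Q (U x) with hg
  set w : E n → E (n + 1) := B.indicator g with hw
  obtain ⟨hw1, hw2, -, -⟩ := cutoff_smooth g (hQ.comp hU) x₀ r hr {x | bra (U x) < 1 + ρ / 4}
    (isOpen_lt hbU continuous_const) (fun x hx => hb x hx) (fun x hx => hQ0 _ (le_of_lt hx))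
  obtain ⟨q, hqm, hqi, hqY, hqloc, hqglob⟩ := exists_cover hn w hw1 hw2
  -- the region where `w = U`
  have hout : ∀ x, x ∉ B → w x = 0 := fun x hx => indicator_of_notMem hx _
  have hin : ∀ x, x ∈ B → w x = Q (U x) := fun x hx => indicator_of_mem hx _
  have hA : ∀ x, 1 + ρ / 2 < bra (w x) → x ∈ B ∧ 1 + ρ / 2 < bra (U x) := by
    intro x hx
    by_cases hxB : x ∈ B
    · refine ⟨hxB, lt_of_lt_of_le hx ?_⟩
      rw [hin x hxB]
      exact hQb _
    · rw [hout x hxB, bra_zero] at hx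
      linarith
  have hev : ∀ x, x ∈ B → 1 + ρ / 2 < bra (U x) → w =ᶠ[𝓝 x] U := by
    intro x hx1 hx2
    have h1 : ∀ᶠ y in 𝓝 x, y ∈ B := Metric.isOpen_ball.mem_nhds hx1
    have h2 : ∀ᶠ y in 𝓝 x, 1 + ρ / 2 < bra (U y) :=
      (isOpen_lt continuous_const hbU).mem_nhds hx2
    filter_upwards [h1, h2] with y hy1 hy2
    rw [hin y hy1, hQ1 _ hy2.le]
  have hval : ∀ x, x ∈ B → 1 + ρ / 2 < bra (U x) → w x = U x :=
    fun x hx1 hx2 => (hev x hx1 hx2).eq_of_nhds
  have hjac : ∀ x, x ∈ B → 1 + ρ / 2 < bra (U x) → Jac w x = Jac U x := by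
    intro x hx1 hx2
    ext i j
    rw [Jac_apply, Jac_apply, (hev x hx1 hx2).fderiv_eq]
  refine ⟨q, hqm, hqi, ?_, ?_, ?_⟩
  · intro Y hY hY0
    rw [← hqY Y hY, ← integral_indicator measurableSet_ball]
    apply integral_congr_ae
    refine Eventually.of_forall fun x => ?_
    simp only
    by_cases hx : x ∈ B
    · rw [indicator_of_mem hx]
      by_cases hx2 : 1 + ρ / 2 < bra (U x)
      · rw [hval x hx hx2, hjac x hx hx2]
      · have h1 : Y (U x) = 0 := hY0 _ (by linarith [not_lt.1 hx2])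
        have h2 : Y (w x) = 0 := by
          apply hY0
          by_contra hcon
          exact hx2 (hA x (by linarith [not_le.1 hcon])).2
        simp [h1, h2]
    · rw [indicator_of_notMem hx, hout x hx]
      have : Y 0 = 0 := hY0 0 (by rw [bra_zero]; linarith)
      simp [this]
  · intro a ha
    have hset : {x | ∀ j, w x j ∈ Icc (a j) (a j + 2)} =
        {x | x ∈ B ∧ ∀ j, U x j ∈ Icc (a j) (a j + 2)} := by
      ext x
      constructor
      · intro hx
        have h1 := ha (w x) hx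
        obtain ⟨h2, h3⟩ := hA x (by linarith)
        refine ⟨h2, ?_⟩
        have h4 := hval x h2 h3
        intro j
        rw [← h4]
        exact hx j
      · rintro ⟨hx1, hx2⟩
        have h1 := ha (U x) hx2
        have h4 := hval x hx1 (by linarith)
        intro j
        rw [h4]
        exact hx2 j
    have hmeas : MeasurableSet {x | x ∈ B ∧ ∀ j, U x j ∈ Icc (a j) (a j + 2)} := by
      apply MeasurableSet.inter measurableSet_ball
      have : {x | ∀ j, U x j ∈ Icc (a j) (a j + 2)} = ⋂ j, {x | U x j ∈ Icc (a j) (a j + 2)} := by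
        ext x; simp
      change MeasurableSet {x | ∀ j, U x j ∈ Icc (a j) (a j + 2)}
      rw [this]
      exact MeasurableSet.iInter fun j =>
        measurableSet_Icc.preimage ((continuous_apply j).comp hUc).measurable
    refine (hqloc a).trans (le_of_eq ?_)
    apply Finset.prod_congr rfl
    intro i _
    rw [hset]
    congr 2
    apply setLIntegral_congr_fun hmeas
    intro x hx
    simp only
    rw [hjac x hx.1 (by have := ha (U x) hx.2; linarith)]
  · intro s hs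
    have hset : {x | s < bra (w x)} = {x | x ∈ B ∧ s < bra (U x)} := by
      ext x
      constructor
      · intro hx
        have hx' : s < bra (w x) := hx
        obtain ⟨h2, h3⟩ := hA x (by linarith)
        refine ⟨h2, ?_⟩
        rw [← hval x h2 h3]
        exact hx
      · rintro ⟨hx1, hx2⟩
        have h4 := hval x hx1 (by linarith)
        change s < bra (w x)
        rw [h4]
        exact hx2
    have hmeas : MeasurableSet {x | x ∈ B ∧ s < bra (U x)} :=
      measurableSet_ball.inter (isOpen_lt continuous_const hbU).measurableSet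
    refine (hqglob s).trans (le_of_eq ?_)
    apply Finset.prod_congr rfl
    intro i _
    rw [hset]
    congr 1
    apply setLIntegral_congr_fun hmeas
    intro x hx
    simp only
    rw [hjac x hx.1 (by have := hx.2; linarith)]

end Pool.Agent.Lib.HSys
end

section

/-!
# Decay of `T` and the far energy (`T_decay`, `far_energy`)
-/

set_option autoImplicit false
open MeasureTheory Set Filter Topology
open scoped ENNReal Matrix

namespace Pool.Agent.Lib.HSys


/-- `∑ xᵖ ≤ (∑ x)ᵖ` for `p ≥ 1`. -/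
theorem decay_tsum_rpow_le {ι : Type*} (x : ι → ℝ≥0∞) {p : ℝ} (hp : 1 ≤ p) :
    ∑' t, x t ^ p ≤ (∑' t, x t) ^ p := by
  have h1 : ∀ t, x t ^ p ≤ x t * (∑' t, x t) ^ (p - 1) := by
    intro t
    have : x t ^ p = x t * x t ^ (p - 1) := by
      conv_rhs => rw [← ENNReal.rpow_one (x t), ENNReal.rpow_one (x t)]
      rw [show p = 1 + (p - 1) by ring, ENNReal.rpow_add_of_nonneg _ _ zero_le_one (by linarith),
        ENNReal.rpow_one]
      ring_nf
    rw [this]
    have h2 : (0 : ℝ) ≤ p - 1 := sub_nonneg.2 hp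
    exact mul_le_mul_right (ENNReal.rpow_le_rpow (ENNReal.le_tsum t) h2) _
  calc ∑' t, x t ^ p ≤ ∑' t, x t * (∑' t, x t) ^ (p - 1) := ENNReal.tsum_le_tsum h1
    _ = (∑' t, x t) * (∑' t, x t) ^ (p - 1) := ENNReal.tsum_mul_right
    _ = (∑' t, x t) ^ p := by
      conv_rhs => rw [show p = 1 + (p - 1) by ring,
        ENNReal.rpow_add_of_nonneg _ _ zero_le_one (by linarith), ENNReal.rpow_one]

/-- Hölder for sums: `∑ x^{(n+1)/n} ≤ (∑ x^{n/(n-1)})^{(n-1)/n} (∑ x)^{1/n}`. -/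
theorem decay_holder {n : ℕ} (hn : 2 ≤ n) {ι : Type} [Countable ι] [MeasurableSpace ι]
    [MeasurableSingletonClass ι] (x : ι → ℝ≥0∞) :
    ∑' a, x a ^ (((n : ℝ) + 1) / n) ≤
      (∑' a, x a ^ ((n : ℝ) / (n - 1))) ^ (((n : ℝ) - 1) / n) * (∑' a, x a) ^ (1 / (n : ℝ)) := by
  have hn' : (2 : ℝ) ≤ n := by exact_mod_cast hn
  have hn0 : (0 : ℝ) < n := by linarith
  have hn1 : (0 : ℝ) < (n : ℝ) - 1 := by linarith
  have hpq : ((n : ℝ) / (n - 1)).HolderConjugate (n : ℝ) := by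
    rw [Real.holderConjugate_iff]
    constructor
    · rw [lt_div_iff₀ hn1]; linarith
    · field_simp; ring
  have h := ENNReal.lintegral_mul_le_Lp_mul_Lq (Measure.count : Measure ι) hpq
    (f := x) (g := fun a => x a ^ (1 / (n : ℝ))) (by measurability) (by measurability)
  rw [lintegral_count, lintegral_count, lintegral_count] at h
  have e1 : ∀ a, (x * fun a => x a ^ (1 / (n : ℝ))) a = x a ^ (((n : ℝ) + 1) / n) := by
    intro a
    have : ((n : ℝ) + 1) / n = 1 + 1 / n := by field_simp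
    rw [this, ENNReal.rpow_add_of_nonneg _ _ zero_le_one (by positivity), ENNReal.rpow_one]
    rfl
  have e2 : ∀ a, (x a ^ (1 / (n : ℝ))) ^ (n : ℝ) = x a := by
    intro a
    rw [← ENNReal.rpow_mul, one_div_mul_cancel hn0.ne', ENNReal.rpow_one]
  have e3 : 1 / ((n : ℝ) / (n - 1)) = ((n : ℝ) - 1) / n := by rw [one_div_div]
  simp only [e1, e2, e3] at h
  exact h

/-- DEC : decay of `T` -/
theorem T_decay {n : ℕ} (hn : 2 ≤ n) {K M c C : ℝ} (hK : 0 ≤ K) (hM : 0 ≤ M) (hc : 0 ≤ c)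
    (hC : 0 ≤ C) : ∃ C₅ : ℝ, 0 < C₅ ∧
    ∀ {α : Type} [MeasurableSpace α] {μ : Measure α}
    {v : α → E (n + 1)} {P : α → Matrix (Fin (n + 1)) (Fin n) ℝ} {T : ℝ → ℝ≥0∞} {s₁ : ℝ},
    HData n μ v P T s₁ K M c C → (∫⁻ x, ENNReal.ofReal (fro (P x) ^ n) ∂μ ≤ 1) →
    ∀ l : ℝ, s₁ ≤ l → 1 ≤ l → c ≤ 4 * l →
      T (8 * l) ≤ ENNReal.ofReal C₅ *
        (∫⁻ x, ENNReal.ofReal (fro (P x) ^ n) ∂μ) ^ (1 / (n : ℝ)) * T l := by
  obtain ⟨C₄, hC₄, hsum⟩ := serre_sum hn hK hM
  have hn' : (2 : ℝ) ≤ n := by exact_mod_cast hn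
  have hn0 : (0 : ℝ) < n := by linarith
  have hn1 : (0 : ℝ) < (n : ℝ) - 1 := by linarith
  set q : ℝ := ((n : ℝ) + 1) / n with hq
  have hq1 : 1 ≤ q := by rw [hq, le_div_iff₀ hn0]; linarith
  have hq0 : 0 ≤ q := by linarith
  refine ⟨C * (((n : ℝ) + 1) ^ q * C₄ + 1) + 1, by positivity, ?_⟩
  intro α _ μ v P T s₁ h hE l hl hl1 hcl
  set E₀ := ∫⁻ x, ENNReal.ofReal (fro (P x) ^ n) ∂μ with hE₀
  have hmeasv : ∀ j, Measurable fun x => v x j := fun j => (measurable_pi_apply j).comp h.meas_v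
  have hmeasB : MeasurableSet {x | 4 * l ≤ bra (v x)} :=
    measurableSet_le measurable_const (measurable_bra.comp h.meas_v)
  have hmeasm : ∀ i, Measurable fun x => ENNReal.ofReal |mnr (P x) i| := fun i =>
    (measurable_mnr h.meas_P i).abs.ennreal_ofReal
  set B : (Fin (n + 1) → ℤ) → Set α := fun a => {x | (∀ j, ⌊v x j⌋ = a j) ∧ 4 * l ≤ bra (v x)}
    with hB
  have hBmeas : ∀ a, MeasurableSet (B a) := by
    intro a
    have h1 : MeasurableSet {x | ∀ j, ⌊v x j⌋ = a j} := by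
      rw [Set.ofPred_forall]
      refine MeasurableSet.iInter fun j => ?_
      exact (Int.measurable_floor.comp (hmeasv j)) (measurableSet_singleton (a j))
    exact h1.inter hmeasB
  have hBdisj : Pairwise (Function.onFun Disjoint B) := by
    intro a a' haa
    rw [Function.onFun, Set.disjoint_left]
    intro x hx hx'
    apply haa
    ext j
    rw [← hx.1 j, ← hx'.1 j]
  set Mi : Fin (n + 1) → (Fin (n + 1) → ℤ) → ℝ≥0∞ := fun i a =>
    ∫⁻ x in B a, ENNReal.ofReal |mnr (P x) i| ∂μ with hMi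
  -- total mass
  have hmass : ∀ i, ∑' a, Mi i a ≤ E₀ := by
    intro i
    rw [hMi]
    simp only
    rw [← lintegral_iUnion hBmeas hBdisj]
    refine (setLIntegral_le_lintegral _ _).trans ?_
    exact lintegral_mono fun x => ENNReal.ofReal_le_ofReal (abs_mnr_le (by omega) _ _)
  -- l^{n/(n-1)} bound
  have hp1 : 1 ≤ (n : ℝ) / (n - 1) := by rw [le_div_iff₀ hn1]; linarith
  have hlp : ∀ i, ∑' a, Mi i a ^ ((n : ℝ) / (n - 1)) ≤
      (ENNReal.ofReal C₄ * T l) ^ ((n : ℝ) / (n - 1)) := by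
    intro i
    refine le_trans ?_ (hsum h l hl hl1 i)
    rw [← (Fin.insertNthEquiv (fun _ => ℤ) i).tsum_eq
      (fun a => Mi i a ^ ((n : ℝ) / (n - 1))),
      ENNReal.tsum_prod (f := fun (t : ℤ) (b : Fin n → ℤ) =>
        Mi i ((Fin.insertNthEquiv (fun _ => ℤ) i) (t, b)) ^ ((n : ℝ) / (n - 1))),
      ENNReal.tsum_comm]
    refine ENNReal.tsum_le_tsum fun b => ?_
    refine (decay_tsum_rpow_le _ hp1).trans ?_
    refine ENNReal.rpow_le_rpow ?_ (by positivity)
    simp only [hMi]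
    rw [← lintegral_iUnion (fun t => hBmeas _)]
    · refine lintegral_mono_set ?_
      refine Set.iUnion_subset fun t x hx => ?_
      refine ⟨fun j => ?_, hx.2⟩
      rw [hx.1 (i.succAbove j)]
      simp
    · intro t t' htt
      refine hBdisj ?_
      intro heq
      apply htt
      have := congrFun heq i
      simpa using this
  -- the sum
  have hS : ∑' a : Fin (n + 1) → ℤ,
        (∫⁻ x in {x | (∀ j, ⌊v x j⌋ = a j) ∧ 4 * l ≤ bra (v x)},
          ∑ i, ENNReal.ofReal |mnr (P x) i| ∂μ) ^ (((n : ℝ) + 1) / n) ≤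
      ((n : ℝ≥0∞) + 1) ^ q * ENNReal.ofReal C₄ * T l * E₀ ^ (1 / (n : ℝ)) := by
    have h1 : ∀ a : Fin (n + 1) → ℤ,
        (∫⁻ x in {x | (∀ j, ⌊v x j⌋ = a j) ∧ 4 * l ≤ bra (v x)},
          ∑ i, ENNReal.ofReal |mnr (P x) i| ∂μ) ^ (((n : ℝ) + 1) / n) ≤
        ((n : ℝ≥0∞) + 1) ^ (q - 1) * ∑ i, Mi i a ^ q := by
      intro a
      rw [lintegral_finsetSum _ (fun i _ => hmeasm i)]
      refine (ENNReal.rpow_sum_le_const_mul_sum_rpow _ _ hq1).trans ?_
      simp [hMi, hB, hq]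
    refine (ENNReal.tsum_le_tsum h1).trans ?_
    rw [ENNReal.tsum_mul_left, Summable.tsum_finsetSum (fun i _ => ENNReal.summable)]
    have h2 : ∀ i, ∑' a, Mi i a ^ q ≤ ENNReal.ofReal C₄ * T l * E₀ ^ (1 / (n : ℝ)) := by
      intro i
      refine (decay_holder hn (Mi i)).trans ?_
      have h3 : (∑' a, Mi i a ^ ((n : ℝ) / (n - 1))) ^ (((n : ℝ) - 1) / n) ≤
          ENNReal.ofReal C₄ * T l := by
        refine (ENNReal.rpow_le_rpow (hlp i) (by positivity)).trans ?_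
        rw [← ENNReal.rpow_mul]
        have : (n : ℝ) / (n - 1) * (((n : ℝ) - 1) / n) = 1 := by field_simp
        rw [this, ENNReal.rpow_one]
      exact mul_le_mul' h3 (ENNReal.rpow_le_rpow (hmass i) (by positivity))
    calc ((n : ℝ≥0∞) + 1) ^ (q - 1) * ∑ i, ∑' a, Mi i a ^ q
        ≤ ((n : ℝ≥0∞) + 1) ^ (q - 1) *
          ∑ i : Fin (n + 1), ENNReal.ofReal C₄ * T l * E₀ ^ (1 / (n : ℝ)) :=
          mul_le_mul' le_rfl (Finset.sum_le_sum fun i _ => h2 i)
      _ = ((n : ℝ≥0∞) + 1) ^ q * ENNReal.ofReal C₄ * T l * E₀ ^ (1 / (n : ℝ)) := by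
        rw [Finset.sum_const, Finset.card_univ, Fintype.card_fin, nsmul_eq_mul]
        have : ((n : ℝ≥0∞) + 1) ^ q = ((n : ℝ≥0∞) + 1) ^ (q - 1) * ((n : ℝ≥0∞) + 1) := by
          conv_lhs => rw [show q = (q - 1) + 1 by ring,
            ENNReal.rpow_add_of_nonneg _ _ (by linarith) zero_le_one, ENNReal.rpow_one]
        rw [this]
        push_cast
        ring
  have hl4 : l ≤ 4 * l := by linarith
  have hT4 : T (4 * l) ^ q ≤ T l * E₀ ^ (1 / (n : ℝ)) := by
    have e1 : T (4 * l) ^ q = T (4 * l) * T (4 * l) ^ (1 / (n : ℝ)) := by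
      have : q = 1 + 1 / (n : ℝ) := by rw [hq]; field_simp
      rw [this, ENNReal.rpow_add_of_nonneg _ _ zero_le_one (by positivity), ENNReal.rpow_one]
    rw [e1]
    refine mul_le_mul' (h.T_anti l (4 * l) hl hl4) ?_
    refine ENNReal.rpow_le_rpow ?_ (by positivity)
    refine (h.H2 (4 * l) (hl.trans hl4)).trans ?_
    have e2 : ∫⁻ x in {x | 4 * l ≤ bra (v x)}, ENNReal.ofReal (fro (P x) ^ n) ∂μ ≤ E₀ :=
      setLIntegral_le_lintegral _ _
    refine (ENNReal.rpow_le_rpow e2 hq0).trans ?_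
    calc E₀ ^ q ≤ E₀ ^ (1 : ℝ) := ENNReal.rpow_le_rpow_of_exponent_ge hE hq1
      _ = E₀ := ENNReal.rpow_one _
  have hfinal : T (8 * l) ≤ ENNReal.ofReal C *
      (((n : ℝ≥0∞) + 1) ^ q * ENNReal.ofReal C₄ * T l * E₀ ^ (1 / (n : ℝ)) +
        T l * E₀ ^ (1 / (n : ℝ))) := by
    refine (h.T_anti (4 * l + c) (8 * l) (by linarith) (by linarith)).trans ?_
    refine (h.H3 (4 * l) (hl.trans hl4)).trans ?_
    exact mul_le_mul' le_rfl (add_le_add hS hT4)
  refine hfinal.trans ?_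
  have e5 : ((n : ℝ≥0∞) + 1) ^ q = ENNReal.ofReal (((n : ℝ) + 1) ^ q) := by
    rw [← ENNReal.ofReal_rpow_of_nonneg (by positivity) hq0, ENNReal.ofReal_add (by positivity)
      zero_le_one, ENNReal.ofReal_one, ENNReal.ofReal_natCast]
  calc ENNReal.ofReal C *
      (((n : ℝ≥0∞) + 1) ^ q * ENNReal.ofReal C₄ * T l * E₀ ^ (1 / (n : ℝ)) +
        T l * E₀ ^ (1 / (n : ℝ)))
      = ENNReal.ofReal (C * (((n : ℝ) + 1) ^ q * C₄ + 1)) * E₀ ^ (1 / (n : ℝ)) * T l := by
        rw [e5, ENNReal.ofReal_mul hC, ENNReal.ofReal_add (by positivity) zero_le_one,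
          ENNReal.ofReal_mul (by positivity), ENNReal.ofReal_one]
        ring
    _ ≤ _ := by
        gcongr
        linarith

/-- FAR : the far energy -/
theorem far_energy {n : ℕ} (hn : 2 ≤ n) {K M c C : ℝ} (hK : 0 ≤ K) (hM : 0 ≤ M) (hc : 0 ≤ c)
    (hC : 0 ≤ C) : ∃ ε₀ C₆ : ℝ, 0 < ε₀ ∧ 0 < C₆ ∧
    ∀ {α : Type} [MeasurableSpace α] {μ : Measure α}
    {v : α → E (n + 1)} {P : α → Matrix (Fin (n + 1)) (Fin n) ℝ} {T : ℝ → ℝ≥0∞} {s₁ : ℝ},
    HData n μ v P T s₁ K M c C → s₁ ≤ 2 + c →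
    (∫⁻ x, ENNReal.ofReal (fro (P x) ^ n) ∂μ ≤ ENNReal.ofReal ε₀) →
      ∫⁻ x in {x | 2 * (2 + c) ≤ bra (v x)}, ENNReal.ofReal (fro (P x) ^ n) ∂μ ≤
        ENNReal.ofReal C₆ * T (2 + c) := by
  obtain ⟨C₁, hC₁, hrad⟩ := radial_dyadic hn
  obtain ⟨C₅, hC₅, hdec⟩ := T_decay hn hK hM hc hC
  have hn' : (2 : ℝ) ≤ n := by exact_mod_cast hn
  have hn0 : (0 : ℝ) < n := by linarith
  set δ : ℝ := 1 / (16 * C₅) with hδ
  have hδ0 : 0 < δ := by positivity
  refine ⟨min 1 (δ ^ n), 2 * (C₁ * (K + M) * (2 + c)) + 1, by positivity, by positivity, ?_⟩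
  intro α _ μ v P T s₁ h hs hE
  set E₀ := ∫⁻ x, ENNReal.ofReal (fro (P x) ^ n) ∂μ with hE₀
  have hE1 : E₀ ≤ 1 := hE.trans (by
    rw [← ENNReal.ofReal_one]
    exact ENNReal.ofReal_le_ofReal (min_le_left _ _))
  have hEn : E₀ ^ (1 / (n : ℝ)) ≤ ENNReal.ofReal δ := by
    have h1 : E₀ ≤ ENNReal.ofReal (δ ^ n) := hE.trans (ENNReal.ofReal_le_ofReal (min_le_right _ _))
    refine (ENNReal.rpow_le_rpow h1 (by positivity)).trans ?_
    rw [ENNReal.ofReal_rpow_of_nonneg (by positivity) (by positivity), ← Real.rpow_natCast,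
      ← Real.rpow_mul hδ0.le, mul_one_div_cancel hn0.ne', Real.rpow_one]
  have hfac : ENNReal.ofReal C₅ * E₀ ^ (1 / (n : ℝ)) ≤ (16 : ℝ≥0∞)⁻¹ := by
    refine (mul_le_mul' le_rfl hEn).trans ?_
    rw [← ENNReal.ofReal_mul hC₅.le, hδ]
    have : C₅ * (1 / (16 * C₅)) = (16 : ℝ)⁻¹ := by field_simp
    rw [this, ENNReal.ofReal_inv_of_pos (by norm_num)]
    norm_num
  set l₀ : ℝ := 2 + c with hl₀
  have hl₀1 : 1 ≤ l₀ := by linarith
  have hlk : ∀ k : ℕ, l₀ ≤ 8 ^ k * l₀ := by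
    intro k
    have : (1 : ℝ) ≤ 8 ^ k := one_le_pow₀ (by norm_num)
    nlinarith
  have hTk : ∀ k : ℕ, T (8 ^ k * l₀) ≤ (16 : ℝ≥0∞)⁻¹ ^ k * T l₀ := by
    intro k
    induction k with
    | zero => simp
    | succ k ih =>
      have h1 := hdec h hE1 (8 ^ k * l₀) (hs.trans (hlk k)) (hl₀1.trans (hlk k))
        (by have := hlk k; linarith)
      calc T (8 ^ (k + 1) * l₀) = T (8 * (8 ^ k * l₀)) := by ring_nf
        _ ≤ ENNReal.ofReal C₅ * E₀ ^ (1 / (n : ℝ)) * T (8 ^ k * l₀) := h1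
        _ ≤ (16 : ℝ≥0∞)⁻¹ * ((16 : ℝ≥0∞)⁻¹ ^ k * T l₀) := mul_le_mul' hfac ih
        _ = (16 : ℝ≥0∞)⁻¹ ^ (k + 1) * T l₀ := by rw [pow_succ]; ring
  have hcover : {x | 2 * l₀ ≤ bra (v x)} ⊆
      ⋃ k : ℕ, {x | 2 * (8 ^ k * l₀) ≤ bra (v x) ∧ bra (v x) ≤ 16 * (8 ^ k * l₀)} := by
    intro x hx
    have hx' : 2 * l₀ ≤ bra (v x) := hx
    have h1 : 1 ≤ bra (v x) / (2 * l₀) := by
      rw [le_div_iff₀ (by positivity)]; linarith
    obtain ⟨k, hk1, hk2⟩ := exists_nat_pow_near h1 (by norm_num : (1 : ℝ) < 8)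
    rw [le_div_iff₀ (by positivity)] at hk1
    rw [div_lt_iff₀ (by positivity)] at hk2
    refine Set.mem_iUnion.2 ⟨k, ?_, ?_⟩
    · linarith
    · rw [pow_succ] at hk2
      linarith
  refine (lintegral_mono_set hcover).trans ?_
  refine (lintegral_iUnion_le _ _).trans ?_
  have hterm : ∀ k : ℕ, ∫⁻ x in {x | 2 * (8 ^ k * l₀) ≤ bra (v x) ∧
      bra (v x) ≤ 16 * (8 ^ k * l₀)}, ENNReal.ofReal (fro (P x) ^ n) ∂μ ≤
      ENNReal.ofReal (C₁ * (K + M) * l₀) * T l₀ * (2 : ℝ≥0∞)⁻¹ ^ k := by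
    intro k
    refine (hrad hK hM h (8 ^ k * l₀) (hs.trans (hlk k)) (hl₀1.trans (hlk k))).trans ?_
    have e1 : ENNReal.ofReal (C₁ * (K + M) * (8 ^ k * l₀)) =
        ENNReal.ofReal (C₁ * (K + M) * l₀) * 8 ^ k := by
      rw [show C₁ * (K + M) * (8 ^ k * l₀) = (C₁ * (K + M) * l₀) * 8 ^ k by ring,
        ENNReal.ofReal_mul (by positivity), ENNReal.ofReal_pow (by norm_num)]
      norm_num
    have e2 : (8 : ℝ≥0∞) ^ k * (16 : ℝ≥0∞)⁻¹ ^ k = (2 : ℝ≥0∞)⁻¹ ^ k := by
      rw [← mul_pow]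
      congr 1
      rw [show (16 : ℝ≥0∞) = 8 * 2 by norm_num,
        ENNReal.mul_inv (by norm_num) (by norm_num), ← mul_assoc,
        ENNReal.mul_inv_cancel (by norm_num) (by norm_num), one_mul]
    calc ENNReal.ofReal (C₁ * (K + M) * (8 ^ k * l₀)) * T (8 ^ k * l₀)
        ≤ ENNReal.ofReal (C₁ * (K + M) * (8 ^ k * l₀)) * ((16 : ℝ≥0∞)⁻¹ ^ k * T l₀) :=
          mul_le_mul' le_rfl (hTk k)
      _ = ENNReal.ofReal (C₁ * (K + M) * l₀) * T l₀ * ((8 : ℝ≥0∞) ^ k * (16 : ℝ≥0∞)⁻¹ ^ k) := by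
          rw [e1]; ring
      _ = _ := by rw [e2]
  refine (ENNReal.tsum_le_tsum hterm).trans ?_
  rw [ENNReal.tsum_mul_left, ENNReal.tsum_geometric, ENNReal.one_sub_inv_two, inv_inv]
  calc ENNReal.ofReal (C₁ * (K + M) * l₀) * T l₀ * 2
      = ENNReal.ofReal (2 * (C₁ * (K + M) * l₀)) * T l₀ := by
        rw [ENNReal.ofReal_mul (by norm_num : (0 : ℝ) ≤ 2)]
        norm_num
        ring
    _ ≤ _ := by
        gcongr
        linarith

end Pool.Agent.Lib.HSys
end

section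

/-!
# One step of the De Giorgi iteration and Theorem Z
-/

set_option autoImplicit false
open MeasureTheory Set Filter Topology
open scoped ENNReal Matrix

namespace Pool.Agent.Lib.HSys

/-- STEP : one step of the De Giorgi iteration -/
theorem dg_step {n : ℕ} (hn : 2 ≤ n) {K M c C : ℝ} (hK : 0 ≤ K) (hM : 0 ≤ M) (hc : 0 ≤ c)
    (hC : 0 ≤ C) : ∃ ε₀ C₇ : ℝ, 0 < ε₀ ∧ 0 < C₇ ∧
    ∀ {α : Type} [MeasurableSpace α] {μ : Measure α}
    {v : α → E (n + 1)} {P : α → Matrix (Fin (n + 1)) (Fin n) ℝ} {T : ℝ → ℝ≥0∞} {s₁ : ℝ},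
    HData n μ v P T s₁ K M c C →
    (∫⁻ x, ENNReal.ofReal (fro (P x) ^ n) ∂μ ≤ ENNReal.ofReal ε₀) →
    ∀ r r' : ℝ, s₁ ≤ 1 + r → 0 < r → r < r' → r' ≤ 1 →
      ∫⁻ x in {x | 1 + r' ≤ bra (v x)}, ENNReal.ofReal (fro (P x) ^ n) ∂μ ≤
        ENNReal.ofReal (C₇ * (1 + r' / (r' - r))) *
          (∫⁻ x in {x | 1 + r ≤ bra (v x)}, ENNReal.ofReal (fro (P x) ^ n) ∂μ) ^
            (((n : ℝ) + 1) / n) := by
  obtain ⟨C₂, hC₂, h2⟩ := radial_level hn
  obtain ⟨ε₀, C₆, hε₀, hC₆, h6⟩ := far_energy hn hK hM hc hC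
  refine ⟨ε₀, (2 * (2 + c)) ^ 3 * (C₂ * (K + M)) + C₆, hε₀, by positivity, ?_⟩
  intro α _ μ v P T s₁ hD hE r r' hs hr hrr' hr'
  have hfar := h6 hD (by linarith) hE
  have hlev := h2 hK hM hD r r' hs hr hrr' hr'
  have hH2 := hD.H2 (1 + r) hs
  have hT : T (2 + c) ≤ T (1 + r) := hD.T_anti _ _ hs (by linarith)
  set f : α → ℝ≥0∞ := fun x => ENNReal.ofReal (fro (P x) ^ n) with hf
  set g : α → ℝ≥0∞ := fun x => ENNReal.ofReal (fro (P x) ^ n / bra (v x) ^ 3) with hg
  have hmf : Measurable f := ((measurable_fro hD.meas_P).pow_const n).ennreal_ofReal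
  have hmb : Measurable fun x => bra (v x) := measurable_bra.comp hD.meas_v
  have hmg : Measurable g :=
    (((measurable_fro hD.meas_P).pow_const n).div (hmb.pow_const 3)).ennreal_ofReal
  set D : Set α := {x | 2 * (2 + c) ≤ bra (v x)} with hDdef
  have hmD : MeasurableSet D := measurableSet_le measurable_const hmb
  have hpt : ∀ x, f x ≤ ENNReal.ofReal ((2 * (2 + c)) ^ 3) * g x + D.indicator f x := by
    intro x
    by_cases hx : x ∈ D
    · rw [indicator_of_mem hx]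
      exact le_add_self
    · rw [indicator_of_notMem hx, add_zero, hf, hg]
      simp only
      rw [← ENNReal.ofReal_mul (by positivity)]
      apply ENNReal.ofReal_le_ofReal
      have hb : bra (v x) < 2 * (2 + c) := by
        simpa [hDdef] using hx
      have hb0 := bra_pos (v x)
      have hfr := fro_nonneg (P x)
      have h3 : bra (v x) ^ 3 ≤ (2 * (2 + c)) ^ 3 := pow_le_pow_left₀ hb0.le hb.le 3
      rw [mul_div_assoc', le_div_iff₀ (by positivity), mul_comm]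
      exact mul_le_mul_of_nonneg_right h3 (by positivity)
  calc ∫⁻ x in {x | 1 + r' ≤ bra (v x)}, f x ∂μ
      ≤ ∫⁻ x in {x | 1 + r' ≤ bra (v x)},
          (ENNReal.ofReal ((2 * (2 + c)) ^ 3) * g x + D.indicator f x) ∂μ :=
        lintegral_mono hpt
    _ = ENNReal.ofReal ((2 * (2 + c)) ^ 3) * ∫⁻ x in {x | 1 + r' ≤ bra (v x)}, g x ∂μ +
          ∫⁻ x in {x | 1 + r' ≤ bra (v x)}, D.indicator f x ∂μ := by
        rw [lintegral_add_left (hmg.const_mul _), lintegral_const_mul _ hmg]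
    _ ≤ ENNReal.ofReal ((2 * (2 + c)) ^ 3) *
          (ENNReal.ofReal (C₂ * (K + M) * (1 + r' / (r' - r))) * T (1 + r)) +
          ENNReal.ofReal C₆ * T (1 + r) := by
        refine add_le_add (mul_le_mul_right hlev _) ?_
        calc ∫⁻ x in {x | 1 + r' ≤ bra (v x)}, D.indicator f x ∂μ
            ≤ ∫⁻ x, D.indicator f x ∂μ := setLIntegral_le_lintegral _ _
          _ = ∫⁻ x in D, f x ∂μ := lintegral_indicator hmD _
          _ ≤ ENNReal.ofReal C₆ * T (2 + c) := hfar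
          _ ≤ ENNReal.ofReal C₆ * T (1 + r) := mul_le_mul_right hT _
    _ ≤ ENNReal.ofReal (((2 * (2 + c)) ^ 3 * (C₂ * (K + M)) + C₆) * (1 + r' / (r' - r))) *
          T (1 + r) := by
        rw [← mul_assoc, ← add_mul, ← ENNReal.ofReal_mul (by positivity),
          ← ENNReal.ofReal_add (by
            have : 0 ≤ r' / (r' - r) := div_nonneg (by linarith) (by linarith)
            positivity) hC₆.le]
        refine mul_le_mul_left (ENNReal.ofReal_le_ofReal ?_) _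
        have h0 : 0 ≤ r' / (r' - r) := div_nonneg (by linarith) (by linarith)
        have : C₆ ≤ C₆ * (1 + r' / (r' - r)) := by nlinarith
        nlinarith
    _ ≤ _ := mul_le_mul_right hH2 _

/-- Theorem Z -/
theorem theoremZ {n : ℕ} (hn : 2 ≤ n) {K M c C : ℝ} (hK : 0 ≤ K) (hM : 0 ≤ M) (hc : 0 ≤ c)
    (hC : 0 ≤ C) : ∃ ε₀ : ℝ, 0 < ε₀ ∧
    ∀ {α : Type} [MeasurableSpace α] {μ : Measure α}
    {v : α → E (n + 1)} {P : α → Matrix (Fin (n + 1)) (Fin n) ℝ} {T : ℝ → ℝ≥0∞} {r₀ : ℝ},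
    0 < r₀ → r₀ ≤ 1 / 4 → HData n μ v P T (1 + r₀) K M c C →
    (∫⁻ x, ENNReal.ofReal (fro (P x) ^ n) ∂μ ≤ ENNReal.ofReal ε₀) →
      ∀ᵐ x ∂μ, 1 + 2 * r₀ ≤ bra (v x) → P x = 0 := by
  obtain ⟨ε₁, C₇, hε₁, hC₇, h7⟩ := dg_step hn hK hM hc hC
  obtain ⟨ε₂, hε₂, hdg⟩ := de_giorgi (n := n) (by omega) C₇ hC₇
  refine ⟨min ε₁ ε₂, lt_min hε₁ hε₂, ?_⟩
  intro α _ μ v P T r₀ hr₀ hr₀' hD hE
  have hE1 : ∫⁻ x, ENNReal.ofReal (fro (P x) ^ n) ∂μ ≤ ENNReal.ofReal ε₁ :=
    hE.trans (ENNReal.ofReal_le_ofReal (min_le_left _ _))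
  have hE2 : ∫⁻ x, ENNReal.ofReal (fro (P x) ^ n) ∂μ ≤ ENNReal.ofReal ε₂ :=
    hE.trans (ENNReal.ofReal_le_ofReal (min_le_right _ _))
  have hmb : Measurable fun x => bra (v x) := measurable_bra.comp hD.meas_v
  have hmf : Measurable fun x => ENNReal.ofReal (fro (P x) ^ n) :=
    ((measurable_fro hD.meas_P).pow_const n).ennreal_ofReal
  have hz := hdg (fun r => ∫⁻ x in {x | 1 + r ≤ bra (v x)}, ENNReal.ofReal (fro (P x) ^ n) ∂μ) r₀
    hr₀ ((setLIntegral_le_lintegral _ _).trans hE2)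
    (fun r r' h1 h2 h3 => h7 hD hE1 r r' (by linarith) (by linarith) h2 (by linarith))
    (fun r r' _ h => lintegral_mono_set (fun x (hx : 1 + r' ≤ bra (v x)) =>
      show 1 + r ≤ bra (v x) by linarith))
  have hms : MeasurableSet {x | 1 + 2 * r₀ ≤ bra (v x)} := measurableSet_le measurable_const hmb
  rw [lintegral_eq_zero_iff hmf, Filter.EventuallyEq, ae_restrict_iff' hms] at hz
  filter_upwards [hz] with x hx h
  have h1 := hx h
  simp only [Pi.zero_apply, ENNReal.ofReal_eq_zero] at h1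
  have h2 := fro_nonneg (P x)
  have h3 : fro (P x) ^ n = 0 := le_antisymm h1 (by positivity)
  exact (fro_eq_zero_iff _).1 (pow_eq_zero_iff (by omega) |>.1 h3)

end Pool.Agent.Lib.HSys
end

section

/-!
# The abstract data `HData` of a local approximation
-/

set_option autoImplicit false
open MeasureTheory Set Filter Topology
open scoped ENNReal Matrix

namespace Pool.Agent.Lib.HSys

/-! ### `bra` is 1-Lipschitz for the `ℓ¹` norm -/

theorem bra_le_add {m : ℕ} (y z : E m) : bra y ≤ bra z + ∑ i, |y i - z i| := by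
  have h1 : bra y ^ 2 ≤ (bra z + ∑ i, |y i - z i|) ^ 2 := by
    have h0 : 0 ≤ ∑ i, |y i - z i| := by positivity
    have hz := one_le_bra z
    have h2 : bra y ^ 2 = bra z ^ 2 + 2 * ∑ i, z i * (y i - z i) + ∑ i, (y i - z i) ^ 2 := by
      rw [bra_sq, bra_sq, Finset.mul_sum, add_assoc, add_assoc, ← Finset.sum_add_distrib,
        ← Finset.sum_add_distrib]
      congr 1
      apply Finset.sum_congr rfl
      intro i _
      ring
    have h3 : ∑ i, z i * (y i - z i) ≤ bra z * ∑ i, |y i - z i| := by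
      rw [Finset.mul_sum]
      apply Finset.sum_le_sum
      intro i _
      calc z i * (y i - z i) ≤ |z i * (y i - z i)| := le_abs_self _
        _ = |z i| * |y i - z i| := abs_mul _ _
        _ ≤ bra z * |y i - z i| := mul_le_mul_of_nonneg_right (abs_le_bra z i) (abs_nonneg _)
    have h4 : ∑ i, (y i - z i) ^ 2 ≤ (∑ i, |y i - z i|) ^ 2 := by
      rw [← Finset.sum_congr rfl fun i _ => sq_abs (y i - z i)]
      exact Finset.sum_sq_le_sq_sum_of_nonneg fun i _ => abs_nonneg _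
    nlinarith
  have h0 : 0 ≤ ∑ i, |y i - z i| := by positivity
  have hz := one_le_bra z
  exact le_of_sq_le_sq h1 (by positivity)

/-! ### counting overlaps -/

theorem tsum_indicator_cube_le {m : ℕ} (y : E m) :
    ∑' b : Fin m → ℤ, ({y : E m | ∀ j, y j ∈ Icc (b j : ℝ) ((b j : ℝ) + 2)}).indicator
      (fun _ => (1 : ℝ≥0∞)) y ≤ 3 ^ m := by
  classical
  set S : Finset (Fin m → ℤ) :=
    Finset.image (fun e : Fin m → Fin 3 => fun j => ⌊y j⌋ - ((e j : ℕ) : ℤ)) Finset.univ with hS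
  have h1 : ∀ b ∉ S, ({y : E m | ∀ j, y j ∈ Icc (b j : ℝ) ((b j : ℝ) + 2)}).indicator
      (fun _ => (1 : ℝ≥0∞)) y = 0 := by
    intro b hb
    apply indicator_of_notMem
    intro hy
    apply hb
    rw [hS, Finset.mem_image]
    have hj : ∀ j, 0 ≤ ⌊y j⌋ - b j ∧ ⌊y j⌋ - b j ≤ 2 := by
      intro j
      have h := hy j
      have h2 : b j ≤ ⌊y j⌋ := Int.le_floor.2 h.1
      have h3 : ⌊y j⌋ ≤ b j + 2 := by
        have : (⌊y j⌋ : ℝ) ≤ (b j : ℝ) + 2 := (Int.floor_le _).trans h.2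
        exact_mod_cast this
      constructor <;> linarith
    refine ⟨fun j => ⟨(⌊y j⌋ - b j).toNat, by have := hj j; omega⟩, Finset.mem_univ _, ?_⟩
    ext j
    have := hj j
    simp only
    rw [Int.toNat_of_nonneg this.1]
    ring
  rw [tsum_eq_sum h1]
  calc (∑ b ∈ S, ({y : E m | ∀ j, y j ∈ Icc (b j : ℝ) ((b j : ℝ) + 2)}).indicator
      (fun _ => (1 : ℝ≥0∞)) y) ≤ ∑ b ∈ S, (1 : ℝ≥0∞) := by
        apply Finset.sum_le_sum
        intro b _
        by_cases hy : y ∈ {y : E m | ∀ j, y j ∈ Icc (b j : ℝ) ((b j : ℝ) + 2)}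
        · rw [indicator_of_mem hy]
        · rw [indicator_of_notMem hy]; exact bot_le
    _ = (S.card : ℝ≥0∞) := by simp
    _ ≤ ((3 ^ m : ℕ) : ℝ≥0∞) := by
        apply Nat.cast_le.2
        calc S.card ≤ (Finset.univ : Finset (Fin m → Fin 3)).card := Finset.card_image_le
          _ = 3 ^ m := by simp
    _ = 3 ^ m := by push_cast; rfl

theorem measurableSet_cube2 {m : ℕ} (b : Fin m → ℤ) :
    MeasurableSet {y : E m | ∀ j, y j ∈ Icc (b j : ℝ) ((b j : ℝ) + 2)} := by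
  have : {y : E m | ∀ j, y j ∈ Icc (b j : ℝ) ((b j : ℝ) + 2)} =
      Set.pi univ fun j => Icc (b j : ℝ) ((b j : ℝ) + 2) := by
    ext y; rw [Set.mem_univ_pi]; rfl
  rw [this]
  exact MeasurableSet.univ_pi fun j => measurableSet_Icc

theorem tsum_lintegral_cube_le {m : ℕ} (f : E m → ℝ≥0∞) (hf : Measurable f) (A : Set (E m)) :
    ∑' b : Fin m → ℤ, ∫⁻ y in {y : E m | ∀ j, y j ∈ Icc (b j : ℝ) ((b j : ℝ) + 2)} ∩ A, f y ≤
      3 ^ m * ∫⁻ y in A, f y := by
  have h1 : ∀ b : Fin m → ℤ,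
      ∫⁻ y in {y : E m | ∀ j, y j ∈ Icc (b j : ℝ) ((b j : ℝ) + 2)} ∩ A, f y =
      ∫⁻ y in A, ({y : E m | ∀ j, y j ∈ Icc (b j : ℝ) ((b j : ℝ) + 2)}).indicator
        (fun _ => (1 : ℝ≥0∞)) y * f y := by
    intro b
    rw [← Measure.restrict_restrict (measurableSet_cube2 b), ← lintegral_indicator
      (measurableSet_cube2 b)]
    apply lintegral_congr
    intro y
    by_cases hy : y ∈ {y : E m | ∀ j, y j ∈ Icc (b j : ℝ) ((b j : ℝ) + 2)}
    · rw [indicator_of_mem hy, indicator_of_mem hy, one_mul]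
    · rw [indicator_of_notMem hy, indicator_of_notMem hy, zero_mul]
  simp_rw [h1]
  have hm1 : ∀ b : Fin m → ℤ, Measurable fun y : E m =>
      ({y : E m | ∀ j, y j ∈ Icc (b j : ℝ) ((b j : ℝ) + 2)}).indicator
        (fun _ => (1 : ℝ≥0∞)) y * f y := fun b =>
    (measurable_const.indicator (measurableSet_cube2 b)).mul hf
  rw [← lintegral_tsum fun b => (hm1 b).aemeasurable]
  calc ∫⁻ y in A, ∑' b : Fin m → ℤ,
        ({y : E m | ∀ j, y j ∈ Icc (b j : ℝ) ((b j : ℝ) + 2)}).indicator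
        (fun _ => (1 : ℝ≥0∞)) y * f y ≤ ∫⁻ y in A, 3 ^ m * f y := by
        apply lintegral_mono
        intro y
        simp only
        rw [ENNReal.tsum_mul_right]
        exact mul_le_mul_left (tsum_indicator_cube_le y) _
    _ = 3 ^ m * ∫⁻ y in A, f y := lintegral_const_mul _ hf

/-! ### one map: the summed local isoperimetric inequality -/

theorem rpow_add_le_two {p : ℝ} (hp : 1 ≤ p) (hp2 : p ≤ 2) (x y : ℝ≥0∞) :
    (x + y) ^ p ≤ 2 * (x ^ p + y ^ p) := by
  have h1 := ENNReal.rpow_add_le_mul_rpow_add_rpow x y hp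
  refine h1.trans (mul_le_mul_left ?_ _)
  calc (2 : ℝ≥0∞) ^ (p - 1) ≤ (2 : ℝ≥0∞) ^ (1 : ℝ) :=
        ENNReal.rpow_le_rpow_of_exponent_le (by norm_num) (by linarith)
    _ = 2 := ENNReal.rpow_one _

theorem cover_le {n : ℕ} (hn : 1 ≤ n) (q : E (n + 1) → ℝ) (hq : Measurable q)
    (V : E n → E (n + 1)) (J : E n → Fin (n + 1) → ℝ≥0∞) (x₀ : E n) (r ρ s : ℝ) (hs : 1 + ρ ≤ s)
    (hloc : ∀ a : E (n + 1), (∀ y : E (n + 1), (∀ j, y j ∈ Icc (a j) (a j + 2)) → 1 + ρ < bra y) →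
        ∫⁻ y in {y : E (n + 1) | ∀ j, y j ∈ Icc (a j) (a j + 1)}, ENNReal.ofReal |q y| ≤
        ∏ i, ((∫⁻ x in {x | x ∈ Metric.ball x₀ r ∧ ∀ j, V x j ∈ Icc (a j) (a j + 2)}, J x i) +
          ∫⁻ y in {y : E (n + 1) | ∀ j, y j ∈ Icc (a j) (a j + 2)},
            ENNReal.ofReal |q y|) ^ (1 / (n : ℝ))) :
    ∫⁻ y in {y : E (n + 1) | s + 2 * (n + 1) < bra y}, ENNReal.ofReal |q y| ≤
      2 * (∑' b : Fin (n + 1) → ℤ,
        (∫⁻ x in {x | x ∈ Metric.ball x₀ r ∧ s < bra (V x) ∧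
            ∀ j, V x j ∈ Icc (b j : ℝ) ((b j : ℝ) + 2)}, ∑ i, J x i) ^ (((n : ℝ) + 1) / n)) +
      2 * 3 ^ (n + 1) *
        (∫⁻ y in {y : E (n + 1) | s < bra y}, ENNReal.ofReal |q y|) ^ (((n : ℝ) + 1) / n) := by
  classical
  have hn0 : (0 : ℝ) < n := by exact_mod_cast hn
  have hn1 : (1 : ℝ) ≤ n := by exact_mod_cast hn
  have hp1 : 1 ≤ ((n : ℝ) + 1) / n := by rw [le_div_iff₀ hn0]; linarith
  have hp2 : ((n : ℝ) + 1) / n ≤ 2 := by rw [div_le_iff₀ hn0]; linarith
  set p : ℝ := ((n : ℝ) + 1) / n with hp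
  set f : E (n + 1) → ℝ≥0∞ := fun y => ENNReal.ofReal |q y| with hf
  have hmf : Measurable f := hq.abs.ennreal_ofReal
  set A : Set (E (n + 1)) := {y | s < bra y} with hA
  set Θ : ℝ≥0∞ := ∫⁻ y in A, f y with hΘ
  set c2 : (Fin (n + 1) → ℤ) → Set (E (n + 1)) :=
    fun b => {y : E (n + 1) | ∀ j, y j ∈ Icc (b j : ℝ) ((b j : ℝ) + 2)} with hc2
  set M : (Fin (n + 1) → ℤ) → ℝ≥0∞ := fun b => ∫⁻ x in {x | x ∈ Metric.ball x₀ r ∧
    s < bra (V x) ∧ ∀ j, V x j ∈ Icc (b j : ℝ) ((b j : ℝ) + 2)}, ∑ i, J x i with hM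
  set θ : (Fin (n + 1) → ℤ) → ℝ≥0∞ := fun b => ∫⁻ y in c2 b ∩ A, f y with hθ
  -- the contribution of one cube
  have hcube : ∀ b : Fin (n + 1) → ℤ,
      ∫⁻ y in {y : E (n + 1) | s + 2 * (n + 1) < bra y ∧
        ∀ j, y j ∈ Icc (b j : ℝ) ((b j : ℝ) + 1)}, f y ≤ 2 * (M b ^ p + θ b ^ p) := by
    intro b
    by_cases hne : ∃ y : E (n + 1), s + 2 * (n + 1) < bra y ∧
        ∀ j, y j ∈ Icc (b j : ℝ) ((b j : ℝ) + 1)
    · obtain ⟨y₀, hy₀, hy₀'⟩ := hne
      have hfar : ∀ y : E (n + 1), (∀ j, y j ∈ Icc (b j : ℝ) ((b j : ℝ) + 2)) → s < bra y := by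
        intro y hy
        have h1 := bra_le_add y₀ y
        have h2 : ∑ i, |y₀ i - y i| ≤ ∑ _i : Fin (n + 1), (2 : ℝ) := by
          apply Finset.sum_le_sum
          intro i _
          have h3 := hy i
          have h4 := hy₀' i
          rw [mem_Icc] at h3 h4
          rw [abs_le]
          constructor <;> linarith
        rw [Finset.sum_const, Finset.card_univ, Fintype.card_fin, nsmul_eq_mul] at h2
        push_cast at h2
        linarith
      have h1 := hloc (fun j => (b j : ℝ)) (fun y hy => lt_of_le_of_lt hs (hfar y hy))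
      calc ∫⁻ y in {y : E (n + 1) | s + 2 * (n + 1) < bra y ∧
            ∀ j, y j ∈ Icc (b j : ℝ) ((b j : ℝ) + 1)}, f y
          ≤ ∫⁻ y in {y : E (n + 1) | ∀ j, y j ∈ Icc (b j : ℝ) ((b j : ℝ) + 1)}, f y :=
            lintegral_mono_set fun y hy => hy.2
        _ ≤ ∏ i, ((∫⁻ x in {x | x ∈ Metric.ball x₀ r ∧
              ∀ j, V x j ∈ Icc (b j : ℝ) ((b j : ℝ) + 2)}, J x i) +
              ∫⁻ y in c2 b, f y) ^ (1 / (n : ℝ)) := h1
        _ ≤ ∏ _i : Fin (n + 1), (M b + θ b) ^ (1 / (n : ℝ)) := by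
            apply Finset.prod_le_prod'
            intro i _
            apply ENNReal.rpow_le_rpow _ (by positivity)
            apply add_le_add
            · calc ∫⁻ x in {x | x ∈ Metric.ball x₀ r ∧
                  ∀ j, V x j ∈ Icc (b j : ℝ) ((b j : ℝ) + 2)}, J x i
                  ≤ ∫⁻ x in {x | x ∈ Metric.ball x₀ r ∧ s < bra (V x) ∧
                    ∀ j, V x j ∈ Icc (b j : ℝ) ((b j : ℝ) + 2)}, J x i :=
                    lintegral_mono_set fun x hx => ⟨hx.1, hfar _ hx.2, hx.2⟩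
                _ ≤ M b := by
                    apply lintegral_mono
                    intro x
                    exact Finset.single_le_sum (f := fun i => J x i) (fun _ _ => bot_le)
                      (Finset.mem_univ i)
            · exact lintegral_mono_set fun y hy => ⟨hy, hfar y hy⟩
        _ = (M b + θ b) ^ p := by
            rw [Finset.prod_const, Finset.card_univ, Fintype.card_fin, ← ENNReal.rpow_natCast,
              ← ENNReal.rpow_mul]
            congr 1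
            push_cast
            rw [hp]
            ring
        _ ≤ 2 * (M b ^ p + θ b ^ p) := rpow_add_le_two hp1 hp2 _ _
    · have : {y : E (n + 1) | s + 2 * (n + 1) < bra y ∧
        ∀ j, y j ∈ Icc (b j : ℝ) ((b j : ℝ) + 1)} = ∅ := by
        ext y
        simp only [Set.mem_ofPred_eq, mem_empty_iff_false, iff_false]
        intro hy
        exact hne ⟨y, hy⟩
      rw [this]
      simp
  have hcov : {y : E (n + 1) | s + 2 * (n + 1) < bra y} ⊆
      ⋃ b : Fin (n + 1) → ℤ, {y : E (n + 1) | s + 2 * (n + 1) < bra y ∧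
        ∀ j, y j ∈ Icc (b j : ℝ) ((b j : ℝ) + 1)} := by
    intro y hy
    rw [mem_iUnion]
    refine ⟨fun j => ⌊y j⌋, hy, fun j => ⟨Int.floor_le _, (Int.lt_floor_add_one _).le⟩⟩
  have hθsum : ∑' b, θ b ^ p ≤ 3 ^ (n + 1) * Θ ^ p := by
    calc ∑' b, θ b ^ p ≤ ∑' b, θ b * Θ ^ (1 / (n : ℝ)) := by
          apply ENNReal.tsum_le_tsum
          intro b
          have h1 : θ b ≤ Θ := lintegral_mono_set inter_subset_right
          calc θ b ^ p = θ b * θ b ^ (1 / (n : ℝ)) := by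
                have : p = 1 + 1 / (n : ℝ) := by rw [hp]; field_simp
                rw [this, ENNReal.rpow_add_of_nonneg _ _ zero_le_one (by positivity),
                  ENNReal.rpow_one]
            _ ≤ θ b * Θ ^ (1 / (n : ℝ)) :=
                mul_le_mul_right (ENNReal.rpow_le_rpow h1 (by positivity)) _
      _ = (∑' b, θ b) * Θ ^ (1 / (n : ℝ)) := ENNReal.tsum_mul_right
      _ ≤ (3 ^ (n + 1) * Θ) * Θ ^ (1 / (n : ℝ)) :=
          mul_le_mul_left (tsum_lintegral_cube_le f hmf A) _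
      _ = 3 ^ (n + 1) * Θ ^ p := by
          have : p = 1 + 1 / (n : ℝ) := by rw [hp]; field_simp
          rw [this, ENNReal.rpow_add_of_nonneg _ _ zero_le_one (by positivity),
            ENNReal.rpow_one, mul_assoc]
  calc ∫⁻ y in {y : E (n + 1) | s + 2 * (n + 1) < bra y}, f y
      ≤ ∫⁻ y in ⋃ b : Fin (n + 1) → ℤ, {y : E (n + 1) | s + 2 * (n + 1) < bra y ∧
          ∀ j, y j ∈ Icc (b j : ℝ) ((b j : ℝ) + 1)}, f y := lintegral_mono_set hcov
    _ ≤ ∑' b : Fin (n + 1) → ℤ, ∫⁻ y in {y : E (n + 1) | s + 2 * (n + 1) < bra y ∧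
          ∀ j, y j ∈ Icc (b j : ℝ) ((b j : ℝ) + 1)}, f y := lintegral_iUnion_le _ _
    _ ≤ ∑' b, 2 * (M b ^ p + θ b ^ p) := ENNReal.tsum_le_tsum hcube
    _ = 2 * (∑' b, M b ^ p + ∑' b, θ b ^ p) := by
        rw [ENNReal.tsum_mul_left, ENNReal.tsum_add]
    _ ≤ 2 * (∑' b, M b ^ p + 3 ^ (n + 1) * Θ ^ p) := by gcongr
    _ = 2 * (∑' b, M b ^ p) + 2 * 3 ^ (n + 1) * Θ ^ p := by ring

/-! ### integrability of `fro ^ n` -/

theorem memLp_fro {n m : ℕ} {α : Type*} [MeasurableSpace α] {μ : Measure α} {p : ℝ≥0∞}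
    {P : α → Matrix (Fin m) (Fin n) ℝ} (h : ∀ i j, MemLp (fun x => P x i j) p μ) :
    MemLp (fun x => fro (P x)) p μ := by
  have hs : MemLp (fun x => ∑ i, ∑ j, |P x i j|) p μ :=
    memLp_finsetSum _ fun i _ => memLp_finsetSum _ fun j _ => (h i j).abs
  refine hs.mono' ?_ (Eventually.of_forall fun x => ?_)
  · have h1 : AEStronglyMeasurable (fun x => ∑ i, ∑ j, P x i j ^ 2) μ :=
      Finset.aestronglyMeasurable_fun_sum _ fun i _ =>
        Finset.aestronglyMeasurable_fun_sum _ fun j _ => (h i j).1.pow 2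
    exact Real.continuous_sqrt.comp_aestronglyMeasurable h1
  · rw [Real.norm_eq_abs, abs_of_nonneg (fro_nonneg _), fro]
    refine Real.sqrt_le_iff.2 ⟨Finset.sum_nonneg fun _ _ => Finset.sum_nonneg fun _ _ =>
      abs_nonneg _, ?_⟩
    calc ∑ i, ∑ j, P x i j ^ 2 = ∑ i, ∑ j, |P x i j| ^ 2 := by simp
      _ ≤ ∑ i, (∑ j, |P x i j|) ^ 2 :=
        Finset.sum_le_sum fun i _ => Finset.sum_sq_le_sq_sum_of_nonneg fun _ _ => abs_nonneg _
      _ ≤ (∑ i, ∑ j, |P x i j|) ^ 2 := Finset.sum_sq_le_sq_sum_of_nonneg fun _ _ =>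
        Finset.sum_nonneg fun _ _ => abs_nonneg _

theorem integrable_fro_pow {n m : ℕ} (hn : n ≠ 0) {α : Type*} [MeasurableSpace α] {μ : Measure α}
    {P : α → Matrix (Fin m) (Fin n) ℝ} (h : ∀ i j, MemLp (fun x => P x i j) (n : ℝ≥0∞) μ) :
    Integrable (fun x => fro (P x) ^ n) μ := by
  have h1 := (memLp_fro h).integrable_norm_pow hn
  refine h1.congr (Eventually.of_forall fun x => ?_)
  simp only [Real.norm_eq_abs, abs_of_nonneg (fro_nonneg _)]

/-- subadditivity of the limsup -/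
theorem ennreal_limsup_add_le (u v : ℕ → ℝ≥0∞) :
    limsup (fun k => u k + v k) atTop ≤ limsup u atTop + limsup v atTop := by
  refine ENNReal.le_of_forall_pos_le_add fun ε hε hlt => ?_
  have hut : limsup u atTop ≠ ∞ := (ENNReal.add_lt_top.1 hlt).1.ne
  have hvt : limsup v atTop ≠ ∞ := (ENNReal.add_lt_top.1 hlt).2.ne
  have hε2 : (ε : ℝ≥0∞) / 2 ≠ 0 := by
    simp [hε.ne']
  have h1 := eventually_lt_of_limsup_lt (ENNReal.lt_add_right hut hε2)
  have h2 := eventually_lt_of_limsup_lt (ENNReal.lt_add_right hvt hε2)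
  refine limsup_le_of_le (by isBoundedDefault) ?_
  filter_upwards [h1, h2] with k ha hb
  calc u k + v k ≤ (limsup u atTop + ε / 2) + (limsup v atTop + ε / 2) := add_le_add ha.le hb.le
    _ = limsup u atTop + limsup v atTop + (ε / 2 + ε / 2) := by ring
    _ = limsup u atTop + limsup v atTop + ε := by rw [ENNReal.add_halves]

/-- limsup of powers -/
theorem limsup_rpow_le {x : ℕ → ℝ≥0∞} {p : ℝ} (hp : 0 ≤ p) {y : ℝ≥0∞}
    (h : limsup x atTop ≤ y) : limsup (fun k => x k ^ p) atTop ≤ y ^ p := by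
  have hmono : Monotone fun t : ℝ≥0∞ => t ^ p := ENNReal.monotone_rpow_of_nonneg hp
  have h1 := hmono.map_limsup_of_continuousAt (F := atTop) (a := x)
    (ENNReal.continuous_rpow_const.continuousAt)
  calc limsup (fun k => x k ^ p) atTop = (limsup x atTop) ^ p := h1.symm
    _ ≤ y ^ p := hmono h

/-- HD : the abstract data of a local approximation. -/
theorem exists_HData {n : ℕ} (hn : 2 ≤ n) : ∃ c C : ℝ, 0 ≤ c ∧ 0 ≤ C ∧
    ∀ {Ω : Set (E n)}, IsOpen Ω →
    ∀ {H : E (n + 1) → ℝ} {M : ℝ}, (∀ y, |H y| ≤ M) → ∀ {K : NNReal}, LipschitzWith K H →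
    ∀ {u : E n → E (n + 1)} {Du : E n → Matrix (Fin (n + 1)) (Fin n) ℝ},
    IsWeakSol n Ω H u Du → ∀ {x₀ : E n} {r : ℝ}, Metric.ball x₀ r ⊆ Ω →
    ∀ {a : E (n + 1)} {δ : ℝ} {U : ℕ → E n → E (n + 1)}, LocApprox n x₀ r u Du a δ U →
    ∀ ρ : ℝ, 0 < ρ → (∀ y : E (n + 1), (∀ i, |y i| ≤ δ) → bra y < 1 + ρ / 4) →
    Measurable u → (∀ i j, Measurable fun x => Du x i j) →
    ∃ T : ℝ → ℝ≥0∞, HData n (volume.restrict (Metric.ball x₀ r)) (fun x => u x - a) Du T
      (1 + ρ) K M c C := by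
  obtain ⟨C₁, hC₁, hcl⟩ := cubes_limsup (n := n) (by omega)
  refine ⟨2 * (n + 1), 2 * C₁ + 2 * 3 ^ (n + 1), by positivity, by positivity, ?_⟩
  intro Ω hΩ H M hM K hK u Du hw x₀ r hsub a δ U hL ρ hρ hδ hmu hmDu
  have hn0 : (0 : ℝ) < n := by have : 0 < n := by omega
                               exact_mod_cast this
  have hp0 : 0 ≤ ((n : ℝ) + 1) / n := by positivity
  have hM0 : 0 ≤ M := (abs_nonneg _).trans (hM 0)
  have hbd : ∀ k x, ‖x - x₀‖ = r → bra (U k x - a) < 1 + ρ / 4 := fun k x hx =>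
    hδ _ fun i => by simpa using hL.bdry k x hx i
  have hcov := fun k => exists_cover_bdry (n := n) (by omega) (fun x => U k x - a)
    ((hL.smooth k).sub contDiff_const) x₀ r hL.rpos ρ hρ (hbd k)
  simp only [Jac_sub_const] at hcov
  choose q hqm hqi hqY hqloc hqglob using hcov
  set Θ : ℕ → ℝ → ℝ≥0∞ := fun k s => ∫⁻ y in {y : E (n + 1) | s < bra y},
    ENNReal.ofReal |q k y| with hΘ
  have hmv : Measurable fun x => u x - a := hmu.sub_const a
  have hmb : Measurable fun x => bra (u x - a) := measurable_bra.comp hmv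
  have hfin : ∫⁻ x in Metric.ball x₀ r, ENNReal.ofReal (fro (Du x) ^ n) ≠ ∞ := by
    have h1 := (integrable_fro_pow (by omega) hL.memDu).lintegral_lt_top
    exact h1.ne
  -- the energy bound
  have hE : ∀ s : ℝ, 1 + ρ ≤ s → limsup (fun k => Θ k s) atTop ≤
      (∫⁻ x in {x | x ∈ Metric.ball x₀ r ∧ s ≤ bra (u x - a)},
        ENNReal.ofReal (fro (Du x) ^ n)) ^ (((n : ℝ) + 1) / n) := by
    intro s hs
    have h1 : ∀ k, Θ k s ≤ (∫⁻ x in {x | x ∈ Metric.ball x₀ r ∧ s < bra (U k x - a)},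
        ENNReal.ofReal (fro (Jac (U k) x) ^ n)) ^ (((n : ℝ) + 1) / n) := by
      intro k
      calc Θ k s ≤ ∏ i, (∫⁻ x in {x | x ∈ Metric.ball x₀ r ∧ s < bra (U k x - a)},
            ENNReal.ofReal |mnr (Jac (U k) x) i|) ^ (1 / (n : ℝ)) := hqglob k s hs
        _ ≤ ∏ _i : Fin (n + 1), (∫⁻ x in {x | x ∈ Metric.ball x₀ r ∧ s < bra (U k x - a)},
            ENNReal.ofReal (fro (Jac (U k) x) ^ n)) ^ (1 / (n : ℝ)) := by
            apply Finset.prod_le_prod'
            intro i _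
            apply ENNReal.rpow_le_rpow _ (by positivity)
            exact lintegral_mono fun x => ENNReal.ofReal_le_ofReal
              (abs_mnr_le (by omega) _ _)
        _ = _ := by
            rw [Finset.prod_const, Finset.card_univ, Fintype.card_fin, ← ENNReal.rpow_natCast,
              ← ENNReal.rpow_mul]
            congr 1
            push_cast
            ring
    calc limsup (fun k => Θ k s) atTop ≤ limsup (fun k =>
          (∫⁻ x in {x | x ∈ Metric.ball x₀ r ∧ s < bra (U k x - a)},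
            ENNReal.ofReal (fro (Jac (U k) x) ^ n)) ^ (((n : ℝ) + 1) / n)) atTop :=
          limsup_le_limsup (Eventually.of_forall h1)
      _ ≤ _ := limsup_rpow_le hp0 (energy_limsup (by omega) hL s)
  have hTfin : ∀ s : ℝ, 1 + ρ ≤ s → limsup (fun k => Θ k s) atTop ≠ ∞ := by
    intro s hs
    refine ne_top_of_le_ne_top ?_ (hE s hs)
    apply ENNReal.rpow_ne_top_of_nonneg hp0
    refine ne_top_of_le_ne_top hfin (lintegral_mono_set fun x hx => hx.1)
  refine ⟨fun s => limsup (fun k => Θ k s) atTop, ?_⟩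
  refine { meas_v := hmv, meas_P := hmDu, int_P := integrable_fro_pow (by omega) hL.memDu,
           T_anti := ?_, T_fin := hTfin, H1 := ?_, H2 := ?_, H3 := ?_ }
  · intro s s' _ hss'
    apply limsup_le_limsup (Eventually.of_forall fun k => ?_)
    exact lintegral_mono_set fun y (hy : s' < bra y) => lt_of_le_of_lt hss' hy
  · intro s b₀ b₁ hs X hX hX0 hb₀ hb₁ hD
    have hδs : ∀ y : E (n + 1), (∀ i, |y i| ≤ δ) → bra y < s := fun y hy =>
      lt_of_lt_of_le (hδ y hy) (by linarith)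
    obtain ⟨ht1, ht2⟩ := tested_equation hn hΩ hM hK.continuous hw hsub hL hδs X hX hX0
      ⟨b₀, hb₀⟩ hD
    have hA0 : 0 ≤ (K : ℝ) * b₀ + M * b₁ := by
      have h1 : 0 ≤ b₀ := (abs_nonneg _).trans (hb₀ 0 0)
      have h2 : 0 ≤ b₁ := (abs_nonneg _).trans (hb₁ 0)
      positivity
    rw [ht1]
    set A : ℝ := (K : ℝ) * b₀ + M * b₁ with hAdef
    set F : ℕ → ℝ := fun k => ∫ x in Metric.ball x₀ r,
        H (U k x) * ∑ i, X (U k x - a) i * cr (Jac (U k) x) i with hF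
    have hbound : ∀ k, |F k| ≤ A * (Θ k s).toReal := by
      intro k
      have hHs : LipschitzWith K fun y => H (y + a) := by
        refine LipschitzWith.of_dist_le_mul fun y z => ?_
        have := hK.dist_le_mul (y + a) (z + a)
        rwa [dist_add_right] at this
      have h3 := rhs_bound (fun x => U k x - a) ((hL.smooth k).sub contDiff_const) x₀ r hL.rpos ρ
        hρ (q k) (hqm k) (hqi k) (by simpa only [Jac_sub_const] using hqY k)
        (fun y => H (y + a)) M (fun y => hM _) K hHs s b₀ b₁ hs X hX hX0 hb₀ hb₁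
      simp only [Jac_sub_const, sub_add_cancel] at h3
      exact h3
    have hΘfin : ∀ k, Θ k s ≠ ∞ := by
      intro k
      have h4 : ∫⁻ y, ENNReal.ofReal |q k y| ≠ ∞ := by
        have h5 := (hqi k).abs.lintegral_lt_top
        exact h5.ne
      exact ne_top_of_le_ne_top h4 (setLIntegral_le_lintegral _ _)
    have hb2 : ∀ k, ENNReal.ofReal (F k) ≤ ENNReal.ofReal A * Θ k s := by
      intro k
      calc ENNReal.ofReal (F k) ≤ ENNReal.ofReal (A * (Θ k s).toReal) :=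
            ENNReal.ofReal_le_ofReal ((le_abs_self _).trans (hbound k))
        _ = ENNReal.ofReal A * Θ k s := by
            rw [ENNReal.ofReal_mul hA0, ENNReal.ofReal_toReal (hΘfin k)]
    have hlim := (ENNReal.continuous_ofReal.tendsto _).comp ht2
    have h6 : ENNReal.ofReal (∫ x in Metric.ball x₀ r,
        H (u x) * ∑ i, X (u x - a) i * cr (Du x) i) ≤
        ENNReal.ofReal A * limsup (fun k => Θ k s) atTop := by
      rw [← ENNReal.limsup_const_mul_of_ne_top ENNReal.ofReal_ne_top, ← hlim.limsup_eq]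
      exact limsup_le_limsup (Eventually.of_forall hb2)
    have h7 : ENNReal.ofReal A * limsup (fun k => Θ k s) atTop ≠ ∞ :=
      ENNReal.mul_ne_top ENNReal.ofReal_ne_top (hTfin s hs)
    have h8 := ENNReal.ofReal_le_iff_le_toReal h7 |>.1 h6
    rw [ENNReal.toReal_mul, ENNReal.toReal_ofReal hA0] at h8
    exact h8
  · intro s hs
    refine (hE s hs).trans (le_of_eq ?_)
    congr 1
    rw [Measure.restrict_restrict (measurableSet_le measurable_const hmb), inter_comm]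
    rfl
  · intro s hs
    have h1 : ∀ k, Θ k (s + 2 * (n + 1)) ≤
        2 * (∑' b : Fin (n + 1) → ℤ,
          (∫⁻ x in {x | x ∈ Metric.ball x₀ r ∧ s < bra (U k x - a) ∧
            ∀ j, U k x j - a j ∈ Icc (b j : ℝ) ((b j : ℝ) + 2)},
            ∑ i, ENNReal.ofReal |mnr (Jac (U k) x) i|) ^ (((n : ℝ) + 1) / n)) +
        2 * 3 ^ (n + 1) * Θ k s ^ (((n : ℝ) + 1) / n) := fun k =>
      cover_le (n := n) (by omega) (q k) (hqm k) (fun x => U k x - a)
        (fun x i => ENNReal.ofReal |mnr (Jac (U k) x) i|) x₀ r ρ s hs (hqloc k)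
    have h2 := hcl hL s
    set Sk : ℕ → ℝ≥0∞ := fun k => ∑' b : Fin (n + 1) → ℤ,
          (∫⁻ x in {x | x ∈ Metric.ball x₀ r ∧ s < bra (U k x - a) ∧
            ∀ j, U k x j - a j ∈ Icc (b j : ℝ) ((b j : ℝ) + 2)},
            ∑ i, ENNReal.ofReal |mnr (Jac (U k) x) i|) ^ (((n : ℝ) + 1) / n) with hSk
    set S : ℝ≥0∞ := ∑' b : Fin (n + 1) → ℤ,
        (∫⁻ x in {x | x ∈ Metric.ball x₀ r ∧ (∀ j, ⌊u x j - a j⌋ = b j) ∧ s ≤ bra (u x - a)},
          ∑ i, ENNReal.ofReal |mnr (Du x) i|) ^ (((n : ℝ) + 1) / n) with hS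
    have h3 : S = ∑' b : Fin (n + 1) → ℤ,
        (∫⁻ x in {x | (∀ j, ⌊(u x - a) j⌋ = b j) ∧ s ≤ bra (u x - a)},
          ∑ i, ENNReal.ofReal |mnr (Du x) i| ∂(volume.restrict (Metric.ball x₀ r))) ^
            (((n : ℝ) + 1) / n) := by
      rw [hS]
      apply tsum_congr
      intro b
      congr 1
      have hms : MeasurableSet {x | (∀ j, ⌊(u x - a) j⌋ = b j) ∧ s ≤ bra (u x - a)} := by
        refine MeasurableSet.inter ?_ (measurableSet_le measurable_const hmb)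
        have : {x | ∀ j, ⌊(u x - a) j⌋ = b j} = ⋂ j, {x | ⌊(u x - a) j⌋ = b j} := by
          ext x; simp
        change MeasurableSet {x | ∀ j, ⌊(u x - a) j⌋ = b j}
        rw [this]
        exact MeasurableSet.iInter fun j =>
          (Int.measurable_floor.comp ((measurable_pi_apply j).comp hmv)) (measurableSet_singleton _)
      rw [Measure.restrict_restrict hms, inter_comm]
      rfl
    calc limsup (fun k => Θ k (s + 2 * (n + 1))) atTop
        ≤ limsup (fun k => 2 * Sk k + 2 * 3 ^ (n + 1) * Θ k s ^ (((n : ℝ) + 1) / n)) atTop :=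
          limsup_le_limsup (Eventually.of_forall h1)
      _ ≤ limsup (fun k => 2 * Sk k) atTop +
          limsup (fun k => 2 * 3 ^ (n + 1) * Θ k s ^ (((n : ℝ) + 1) / n)) atTop :=
          ennreal_limsup_add_le _ _
      _ = 2 * limsup Sk atTop +
          2 * 3 ^ (n + 1) * limsup (fun k => Θ k s ^ (((n : ℝ) + 1) / n)) atTop := by
          rw [ENNReal.limsup_const_mul_of_ne_top (by norm_num),
            ENNReal.limsup_const_mul_of_ne_top (by
              exact ENNReal.mul_ne_top (by norm_num) (ENNReal.pow_ne_top (by norm_num)))]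
      _ ≤ 2 * (ENNReal.ofReal C₁ * S) +
          2 * 3 ^ (n + 1) * limsup (fun k => Θ k s) atTop ^ (((n : ℝ) + 1) / n) := by
          gcongr
          exact limsup_rpow_le hp0 le_rfl
      _ ≤ ENNReal.ofReal (2 * C₁ + 2 * 3 ^ (n + 1)) *
          (S + limsup (fun k => Θ k s) atTop ^ (((n : ℝ) + 1) / n)) := by
          have h4 : ENNReal.ofReal (2 * C₁ + 2 * 3 ^ (n + 1)) =
              2 * ENNReal.ofReal C₁ + 2 * 3 ^ (n + 1) := by
            rw [ENNReal.ofReal_add (by positivity) (by positivity),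
              ENNReal.ofReal_mul (by norm_num), ENNReal.ofReal_mul (by norm_num),
              ENNReal.ofReal_pow (by norm_num)]
            simp
          rw [h4, add_mul, mul_add, mul_add, ← mul_assoc]
          refine add_le_add ?_ ?_
          · exact le_self_add
          · exact le_add_self
      _ = _ := by rw [h3]

end Pool.Agent.Lib.HSys
end

section

/-!
# Continuity of weak solutions of the `H`-system
-/

set_option autoImplicit false
open MeasureTheory Set Filter Topology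
open scoped ENNReal Matrix

namespace Pool.Agent.Lib.HSys

/-- small balls carry small energy -/
theorem exists_small_ball {n : ℕ} (hn : 1 ≤ n) {Ω : Set (E n)} (hΩ : IsOpen Ω) (f : E n → ℝ≥0∞)
    (hf : ∫⁻ x in Ω, f x ≠ ∞) {x₀ : E n} (hx₀ : x₀ ∈ Ω) {ε : ℝ} (hε : 0 < ε) :
    ∃ R : ℝ, 0 < R ∧ Metric.closedBall x₀ R ⊆ Ω ∧
      ∫⁻ x in Metric.ball x₀ R, f x ≤ ENNReal.ofReal ε := by
  obtain ⟨R₀, hR₀, hsub⟩ := Metric.nhds_basis_closedBall.mem_iff.1 (hΩ.mem_nhds hx₀)
  have hfin : ∫⁻ x in Metric.closedBall x₀ R₀, f x ≠ ∞ :=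
    ne_top_of_le_ne_top hf (lintegral_mono_set hsub)
  obtain ⟨δ, hδ, h⟩ := exists_pos_setLIntegral_lt_of_measure_lt
    (μ := volume.restrict (Metric.closedBall x₀ R₀)) hfin
    (ENNReal.ofReal_pos.2 hε).ne'
  have hlim : Tendsto (fun R : ℝ => volume (Metric.ball x₀ R)) (𝓝[>] 0) (𝓝 0) := by
    have h1 : ∀ R : ℝ, 0 < R → volume (Metric.ball x₀ R) = ENNReal.ofReal ((2 * R) ^ n) := by
      intro R hR
      rw [Real.volume_pi_ball _ hR, Fintype.card_fin]
    have h2 : Tendsto (fun R : ℝ => ENNReal.ofReal ((2 * R) ^ n)) (𝓝[>] 0) (𝓝 0) := by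
      have h3 : Tendsto (fun R : ℝ => ENNReal.ofReal ((2 * R) ^ n)) (𝓝 0) (𝓝 0) := by
        have : Continuous fun R : ℝ => ENNReal.ofReal ((2 * R) ^ n) :=
          ENNReal.continuous_ofReal.comp (by fun_prop)
        have h4 := this.tendsto 0
        simpa [zero_pow (by omega : n ≠ 0)] using h4
      exact h3.mono_left nhdsWithin_le_nhds
    refine h2.congr' ?_
    filter_upwards [self_mem_nhdsWithin] with R hR
    exact (h1 R hR).symm
  have hev : ∀ᶠ R : ℝ in 𝓝[>] 0, volume (Metric.ball x₀ R) < δ :=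
    hlim.eventually_lt_const hδ
  have hev2 : ∀ᶠ R : ℝ in 𝓝[>] 0, R < R₀ := by
    exact mem_nhdsWithin_of_mem_nhds (Iio_mem_nhds hR₀)
  obtain ⟨R, ⟨hR1, hR2⟩, hR3⟩ := ((hev.and hev2).and self_mem_nhdsWithin).exists
  have hR3' : 0 < R := hR3
  refine ⟨R, hR3', (Metric.closedBall_subset_closedBall hR2.le).trans hsub, ?_⟩
  have h5 := h (Metric.ball x₀ R) (lt_of_le_of_lt (Measure.restrict_apply_le _ _) hR1)
  rw [Measure.restrict_restrict Metric.isOpen_ball.measurableSet, inter_eq_self_of_subset_left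
    (Metric.ball_subset_closedBall.trans (Metric.closedBall_subset_closedBall hR2.le))] at h5
  exact h5.le

/-- the case of measurable `u`, `Du`: small oscillation -/
theorem small_osc {n : ℕ} (hn : 2 ≤ n) {Ω : Set (E n)} (hΩ : IsOpen Ω)
    {H : E (n + 1) → ℝ} {M : ℝ} (hM : ∀ y, |H y| ≤ M) {K : NNReal} (hK : LipschitzWith K H)
    {u : E n → E (n + 1)} {Du : E n → Matrix (Fin (n + 1)) (Fin n) ℝ} (hu : IsSob n Ω u Du)
    (hw : IsWeakSol n Ω H u Du) (hmu : Measurable u) (hmDu : ∀ i j, Measurable fun x => Du x i j)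
    {x₀ : E n} (hx₀ : x₀ ∈ Ω) {ε : ℝ} (hε : 0 < ε) :
    ∃ r : ℝ, 0 < r ∧ ∃ a : E (n + 1),
      ∀ᵐ y ∂(volume.restrict (Metric.ball x₀ r ∩ Ω)), ‖u y - a‖ ≤ ε := by
  have hM0 : 0 ≤ M := (abs_nonneg _).trans (hM 0)
  obtain ⟨c, C, hc, hC, hHD⟩ := exists_HData hn
  obtain ⟨ε₀, hε₀, hZ⟩ := theoremZ hn (K := K) (M := M) (c := c) (C := C) K.coe_nonneg hM0 hc hC
  obtain ⟨CL, hCL, hLA⟩ := exists_locApprox hn
  set ρ : ℝ := min (1 / 4) (ε ^ 2 / 8) with hρdef
  have hρ : 0 < ρ := lt_min (by norm_num) (by positivity)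
  have hρ4 : ρ ≤ 1 / 4 := min_le_left _ _
  have hρε : ρ ≤ ε ^ 2 / 8 := min_le_right _ _
  have hn0 : (0 : ℝ) < n := by
    have : 0 < n := by omega
    exact_mod_cast this
  set t : ℝ := ρ / (8 * (n + 1) * CL) with ht
  have ht0 : 0 < t := by positivity
  set ε₁ : ℝ := min ε₀ (t ^ n) with hε₁def
  have hε₁ : 0 < ε₁ := lt_min hε₀ (by positivity)
  have hε₁t : ε₁ ^ (1 / (n : ℝ)) ≤ t := by
    calc ε₁ ^ (1 / (n : ℝ)) ≤ (t ^ n) ^ (1 / (n : ℝ)) :=
          Real.rpow_le_rpow hε₁.le (min_le_right _ _) (by positivity)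
      _ = t := by
          rw [← Real.rpow_natCast, ← Real.rpow_mul ht0.le]
          rw [mul_one_div_cancel hn0.ne', Real.rpow_one]
  have hfin : ∫⁻ x in Ω, ENNReal.ofReal (fro (Du x) ^ n) ≠ ∞ :=
    ((integrable_fro_pow (by omega) hu.memDu).lintegral_lt_top).ne
  obtain ⟨R, hR, hRsub, hRE⟩ := exists_small_ball (by omega) hΩ _ hfin hx₀ hε₁
  obtain ⟨r, hr1, hr2, a, U, hL⟩ := hLA hΩ hu x₀ R hR hRsub ε₁ hε₁ hRE
  have hballsub : Metric.ball x₀ r ⊆ Ω :=
    (Metric.ball_subset_ball hr2.le).trans (Metric.ball_subset_closedBall.trans hRsub)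
  have hδ : ∀ y : E (n + 1), (∀ i, |y i| ≤ CL * ε₁ ^ (1 / (n : ℝ))) → bra y < 1 + ρ / 4 := by
    intro y hy
    have h1 := bra_le_add y 0
    rw [bra_zero] at h1
    have h2 : ∑ i, |y i - (0 : E (n + 1)) i| ≤ ∑ _i : Fin (n + 1), CL * t := by
      apply Finset.sum_le_sum
      intro i _
      rw [Pi.zero_apply, sub_zero]
      exact (hy i).trans (mul_le_mul_of_nonneg_left hε₁t hCL.le)
    rw [Finset.sum_const, Finset.card_univ, Fintype.card_fin, nsmul_eq_mul] at h2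
    have h3 : ((n + 1 : ℕ) : ℝ) * (CL * t) = ρ / 8 := by
      rw [ht]
      push_cast
      field_simp
    rw [h3] at h2
    linarith
  obtain ⟨T, hT⟩ := hHD hΩ hM hK hw hballsub hL ρ hρ hδ hmu hmDu
  have hE0 : ∫⁻ x in Metric.ball x₀ r, ENNReal.ofReal (fro (Du x) ^ n) ≤ ENNReal.ofReal ε₀ :=
    (lintegral_mono_set (Metric.ball_subset_ball hr2.le)).trans
      (hRE.trans (ENNReal.ofReal_le_ofReal (min_le_left _ _)))
  have hgrad := hZ hρ hρ4 hT hE0
  have hbd := bounded_of_grad_zero (s := 1 + 2 * ρ) (by omega) hL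
    (fun y hy => lt_of_lt_of_le (hδ y hy) (by linarith)) hgrad
  refine ⟨r, hL.rpos, a, ?_⟩
  have hbd2 : ∀ᵐ x ∂(volume.restrict (Metric.ball x₀ r ∩ Ω)), bra (u x - a) ≤ 1 + 2 * ρ :=
    ae_restrict_of_ae_restrict_of_subset inter_subset_left hbd
  filter_upwards [hbd2] with x hx
  rw [pi_norm_le_iff_of_nonneg hε.le]
  intro i
  rw [Real.norm_eq_abs]
  apply abs_le_of_sq_le_sq _ hε.le
  have h1 := bra_sq (u x - a)
  have h2 : (u x - a) i ^ 2 ≤ ∑ i, (u x - a) i ^ 2 :=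
    Finset.single_le_sum (f := fun i => (u x - a) i ^ 2) (fun j _ => sq_nonneg _)
      (Finset.mem_univ i)
  have h3 : bra (u x - a) ^ 2 ≤ (1 + 2 * ρ) ^ 2 := pow_le_pow_left₀ (bra_pos _).le hx 2
  nlinarith

/-- MAIN -/
theorem continuous_of_weakSol {n : ℕ} (hn : 2 ≤ n) {Ω : Set (E n)} (hΩ : IsOpen Ω)
    {H : E (n + 1) → ℝ} {M : ℝ} (hM : ∀ y, |H y| ≤ M) {K : NNReal} (hK : LipschitzWith K H)
    {u : E n → E (n + 1)} {Du : E n → Matrix (Fin (n + 1)) (Fin n) ℝ} (hu : IsSob n Ω u Du)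
    (hw : IsWeakSol n Ω H u Du) :
    ∃ v : E n → E (n + 1), ContinuousOn v Ω ∧ u =ᵐ[volume.restrict Ω] v := by
  set u' : E n → E (n + 1) := hu.memu.1.mk u with hu'
  set Du' : E n → Matrix (Fin (n + 1)) (Fin n) ℝ :=
    fun x => Matrix.of fun i j => (hu.memDu i j).1.mk _ x with hDu'
  have hmu : Measurable u' := hu.memu.1.stronglyMeasurable_mk.measurable
  have hmDu : ∀ i j, Measurable fun x => Du' x i j := fun i j =>
    (hu.memDu i j).1.stronglyMeasurable_mk.measurable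
  have hae : u =ᵐ[volume.restrict Ω] u' := hu.memu.1.ae_eq_mk
  have haeD' : ∀ i j, (fun x => Du x i j) =ᵐ[volume.restrict Ω] fun x => Du' x i j := fun i j =>
    (hu.memDu i j).1.ae_eq_mk
  have haeD : Du =ᵐ[volume.restrict Ω] Du' := by
    have : ∀ᵐ x ∂(volume.restrict Ω), ∀ i j, Du x i j = Du' x i j := by
      rw [ae_all_iff]; intro i; rw [ae_all_iff]; intro j; exact haeD' i j
    filter_upwards [this] with x hx
    ext i j
    exact hx i j
  have hSob : IsSob n Ω u' Du' := by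
    refine ⟨hu.memu.ae_eq hae, fun i j => (hu.memDu i j).ae_eq (haeD' i j), ?_⟩
    intro φ h1 h2 h3 i j
    have h := hu.weak φ h1 h2 h3 i j
    have e1 : ∫ x in Ω, u' x i * fderiv ℝ φ x (Pi.single j 1) =
        ∫ x in Ω, u x i * fderiv ℝ φ x (Pi.single j 1) := by
      apply integral_congr_ae
      filter_upwards [hae] with x hx
      rw [hx]
    have e2 : ∫ x in Ω, Du' x i j * φ x = ∫ x in Ω, Du x i j * φ x := by
      apply integral_congr_ae
      filter_upwards [haeD] with x hx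
      rw [hx]
    rw [e1, e2]
    exact h
  have hW : IsWeakSol n Ω H u' Du' := by
    intro φ h1 h2 h3 i
    have h := hw φ h1 h2 h3 i
    have e1 : ∫ x in Ω, Real.sqrt (∑ a, ∑ b, Du' x a b ^ 2) ^ (n - 2)
          * ∑ j, Du' x i j * fderiv ℝ φ x (Pi.single j 1) =
        ∫ x in Ω, Real.sqrt (∑ a, ∑ b, Du x a b ^ 2) ^ (n - 2)
          * ∑ j, Du x i j * fderiv ℝ φ x (Pi.single j 1) := by
      apply integral_congr_ae
      filter_upwards [haeD] with x hx
      rw [hx]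
    have e2 : ∫ x in Ω, H (u' x) * ((-1 : ℝ) ^ (i : ℕ) *
            ((Du' x).submatrix i.succAbove id).det) * φ x =
        ∫ x in Ω, H (u x) * ((-1 : ℝ) ^ (i : ℕ) *
            ((Du x).submatrix i.succAbove id).det) * φ x := by
      apply integral_congr_ae
      filter_upwards [haeD, hae] with x hx hx'
      rw [hx, hx']
    rw [e1, e2]
    exact h
  obtain ⟨v, hv, hv'⟩ := exists_continuous_rep hΩ u' fun x hx ε hε =>
    small_osc hn hΩ hM hK hSob hW hmu hmDu hx hε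
  exact ⟨v, hv, hae.trans hv'⟩

end Pool.Agent.Lib.HSys
end
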