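import Pool.Agent.Lib.MP_f44734_an.Basic
import Pool.Agent.Lib.MP_f44734_an.Limsup2

section

/-!
# Cutoff and collapse lemmas
-/

set_option autoImplicit false
open MeasureTheory Set Filter Topology
open scoped ENNReal Matrix

namespace Pool.Agent.Lib.HSys

/-- The indicator of a ball applied to `g` vanishes on an open set where `g` vanishes. -/
theorem cutoff_zero_on {n m : ℕ} (g : E n → E m) (x₀ : E n) (r : ℝ) (V : Set (E n))
    (hgV : ∀ x ∈ V, g x = 0) : ∀ x ∈ V, (Metric.ball x₀ r).indicator g x = 0 := by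
  intro x hx
  by_cases h : x ∈ Metric.ball x₀ r
  · rw [indicator_of_mem h, hgV x hx]
  · rw [indicator_of_notMem h]

/-- CUT -/
theorem cutoff_smooth {n m : ℕ} (g : E n → E m) (hg : ContDiff ℝ (⊤ : ℕ∞) g) (x₀ : E n) (r : ℝ)
    (hr : 0 < r) (V : Set (E n)) (hV : IsOpen V) (hbV : ∀ x, ‖x - x₀‖ = r → x ∈ V)
    (hgV : ∀ x ∈ V, g x = 0) :
    ContDiff ℝ (⊤ : ℕ∞) ((Metric.ball x₀ r).indicator g) ∧
      HasCompactSupport ((Metric.ball x₀ r).indicator g) ∧
      tsupport ((Metric.ball x₀ r).indicator g) ⊆ Metric.ball x₀ r ∧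
      ∀ x ∈ Metric.ball x₀ r, fderiv ℝ ((Metric.ball x₀ r).indicator g) x = fderiv ℝ g x := by
  have h0 := cutoff_zero_on g x₀ r V hgV
  have hball : ∀ x ∈ Metric.ball x₀ r, (Metric.ball x₀ r).indicator g =ᶠ[𝓝 x] g := by
    intro x hx
    filter_upwards [Metric.isOpen_ball.mem_nhds hx] with y hy
    rw [indicator_of_mem hy]
  have hsub : tsupport ((Metric.ball x₀ r).indicator g) ⊆ Metric.closedBall x₀ r ∩ Vᶜ := by
    apply closure_minimal
    · intro x hx
      refine ⟨?_, ?_⟩
      · by_contra hc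
        apply hx
        have : x ∉ Metric.ball x₀ r := fun h => hc (Metric.ball_subset_closedBall h)
        rw [indicator_of_notMem this]
      · intro hxV
        exact hx (h0 x hxV)
    · exact Metric.isClosed_closedBall.inter hV.isClosed_compl
  have hsub2 : tsupport ((Metric.ball x₀ r).indicator g) ⊆ Metric.ball x₀ r := by
    intro x hx
    obtain ⟨h1, h2⟩ := hsub hx
    rw [Metric.mem_closedBall, dist_eq_norm] at h1
    rw [Metric.mem_ball, dist_eq_norm]
    rcases h1.lt_or_eq with h | h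
    · exact h
    · exact absurd (hbV x h) h2
  refine ⟨?_, ?_, hsub2, ?_⟩
  · rw [contDiff_iff_contDiffAt]
    intro x
    by_cases hx : x ∈ Metric.ball x₀ r
    · exact hg.contDiffAt.congr_of_eventuallyEq (hball x hx)
    · have hx' : x ∉ tsupport ((Metric.ball x₀ r).indicator g) := fun h => hx (hsub2 h)
      have hz : (Metric.ball x₀ r).indicator g =ᶠ[𝓝 x] (fun _ => (0 : E m)) :=
        notMem_tsupport_iff_eventuallyEq.1 hx'
      exact contDiffAt_const.congr_of_eventuallyEq hz
  · exact (isCompact_closedBall x₀ r).of_isClosed_subset (isClosed_tsupport _)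
      (fun x hx => (hsub hx).1)
  · intro x hx
    exact (hball x hx).fderiv_eq

/-- Scaling by a factor in `[0,1]` does not increase `bra`. -/
theorem bra_smul_le {m : ℕ} (t : ℝ) (h0 : 0 ≤ t) (h1 : t ≤ 1) (y : E m) : bra (t • y) ≤ bra y := by
  unfold bra
  apply Real.sqrt_le_sqrt
  have : ∀ i ∈ (Finset.univ : Finset (Fin m)), (t • y) i ^ 2 ≤ y i ^ 2 := by
    intro i _
    rw [Pi.smul_apply, smul_eq_mul, mul_pow]
    have h2 : t ^ 2 ≤ 1 := pow_le_one₀ h0 h1
    have h3 : 0 ≤ y i ^ 2 := sq_nonneg _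
    calc t ^ 2 * y i ^ 2 ≤ 1 * y i ^ 2 := mul_le_mul_of_nonneg_right h2 h3
      _ = y i ^ 2 := one_mul _
  linarith [Finset.sum_le_sum this]

/-- PI -/
theorem exists_collapse (m : ℕ) (ρ : ℝ) (hρ : 0 < ρ) : ∃ Q : E m → E m,
    ContDiff ℝ (⊤ : ℕ∞) Q ∧ (∀ y, bra y ≤ 1 + ρ / 4 → Q y = 0) ∧
    (∀ y, 1 + ρ / 2 ≤ bra y → Q y = y) ∧ (∀ y, bra (Q y) ≤ bra y) := by
  refine ⟨fun y => Real.smoothTransition ((bra y - 1 - ρ / 4) / (ρ / 4)) • y, ?_, ?_, ?_, ?_⟩
  · have h1 : ContDiff ℝ (⊤ : ℕ∞) (fun y : E m => (bra y - 1 - ρ / 4) / (ρ / 4)) :=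
      ((contDiff_bra.sub contDiff_const).sub contDiff_const).div_const _
    exact (Real.smoothTransition.contDiff.comp h1).smul contDiff_id
  · intro y hy
    have : (bra y - 1 - ρ / 4) / (ρ / 4) ≤ 0 :=
      div_nonpos_of_nonpos_of_nonneg (by linarith) (by positivity)
    simp only [Real.smoothTransition.zero_of_nonpos this, zero_smul]
  · intro y hy
    have : 1 ≤ (bra y - 1 - ρ / 4) / (ρ / 4) := by
      rw [le_div_iff₀ (by positivity)]
      linarith
    simp only [Real.smoothTransition.one_of_one_le this, one_smul]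
  · intro y
    exact bra_smul_le _ (Real.smoothTransition.nonneg _) (Real.smoothTransition.le_one _) y

end Pool.Agent.Lib.HSys
end

section

section

set_option autoImplicit false
open MeasureTheory Set Filter Topology
open scoped ENNReal Matrix

namespace Pool.Agent.Lib.HSys

private theorem contRep_close {n m : ℕ} {Ω : Set (E n)} (hΩ : IsOpen Ω) (u : E n → E m)
    {x y : E n} {r r' ε ε' : ℝ} {a a' : E m}
    (h₁ : ∀ᵐ z ∂(volume.restrict (Metric.ball x r ∩ Ω)), ‖u z - a‖ ≤ ε)
    (h₂ : ∀ᵐ z ∂(volume.restrict (Metric.ball y r' ∩ Ω)), ‖u z - a'‖ ≤ ε')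
    (hne : (Metric.ball x r ∩ Metric.ball y r' ∩ Ω).Nonempty) : ‖a - a'‖ ≤ ε + ε' := by
  have hopen : IsOpen (Metric.ball x r ∩ Metric.ball y r' ∩ Ω) :=
    (Metric.isOpen_ball.inter Metric.isOpen_ball).inter hΩ
  have hpos : volume (Metric.ball x r ∩ Metric.ball y r' ∩ Ω) ≠ 0 :=
    (hopen.measure_pos volume hne).ne'
  have e₁ : ∀ᵐ z ∂(volume.restrict (Metric.ball x r ∩ Metric.ball y r' ∩ Ω)), ‖u z - a‖ ≤ ε :=
    ae_restrict_of_ae_restrict_of_subset (t := Metric.ball x r ∩ Ω)
      (fun z hz => ⟨hz.1.1, hz.2⟩) h₁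
  have e₂ : ∀ᵐ z ∂(volume.restrict (Metric.ball x r ∩ Metric.ball y r' ∩ Ω)), ‖u z - a'‖ ≤ ε' :=
    ae_restrict_of_ae_restrict_of_subset (t := Metric.ball y r' ∩ Ω)
      (fun z hz => ⟨hz.1.2, hz.2⟩) h₂
  have : NeBot (ae (volume.restrict (Metric.ball x r ∩ Metric.ball y r' ∩ Ω))) := by
    rw [ae_neBot, Ne, Measure.restrict_eq_zero]
    exact hpos
  obtain ⟨z, hz₁, hz₂⟩ := (e₁.and e₂).exists
  calc ‖a - a'‖ = ‖(u z - a') - (u z - a)‖ := by congr 1; abel
    _ ≤ ‖u z - a'‖ + ‖u z - a‖ := norm_sub_le _ _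
    _ ≤ ε + ε' := by linarith

/-- REP : a function of vanishing essential oscillation has a continuous representative. -/
theorem exists_continuous_rep {n m : ℕ} {Ω : Set (E n)} (hΩ : IsOpen Ω) (u : E n → E m)
    (h : ∀ x ∈ Ω, ∀ ε : ℝ, 0 < ε → ∃ r : ℝ, 0 < r ∧ ∃ a : E m,
      ∀ᵐ y ∂(volume.restrict (Metric.ball x r ∩ Ω)), ‖u y - a‖ ≤ ε) :
    ∃ v : E n → E m, ContinuousOn v Ω ∧ u =ᵐ[volume.restrict Ω] v := by
  classical
  -- the reciprocals
  set δ : ℕ → ℝ := fun k => 1 / ((k : ℝ) + 1) with hδ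
  have hδpos : ∀ k, 0 < δ k := fun k => by
    simp only [hδ]; positivity
  have hδlim : Tendsto δ atTop (𝓝 0) := tendsto_one_div_add_atTop_nhds_zero_nat
  have hδanti : ∀ N k : ℕ, N ≤ k → δ k ≤ δ N := fun N k hNk => by
    simp only [hδ]
    exact one_div_le_one_div_of_le (by positivity) (by
      have : (N : ℝ) ≤ k := by exact_mod_cast hNk
      linarith)
  have h' : ∀ x : E n, ∃ (r : ℕ → ℝ) (a : ℕ → E m), x ∈ Ω → ∀ k, 0 < r k ∧
      ∀ᵐ y ∂(volume.restrict (Metric.ball x (r k) ∩ Ω)), ‖u y - a k‖ ≤ δ k := by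
    intro x
    by_cases hx : x ∈ Ω
    · choose r hr a ha using fun k => h x hx (δ k) (hδpos k)
      exact ⟨r, a, fun _ k => ⟨hr k, ha k⟩⟩
    · exact ⟨fun _ => 0, fun _ => 0, fun hx' => absurd hx' hx⟩
  choose r a hra using h'
  have hlim : ∀ x : E n, ∃ l : E m, x ∈ Ω → Tendsto (a x) atTop (𝓝 l) := by
    intro x
    by_cases hx : x ∈ Ω
    · have hc : CauchySeq (a x) := by
        refine cauchySeq_of_le_tendsto_0 (fun N => δ N + δ N) ?_ (by simpa using hδlim.add hδlim)
        intro k l N hk hl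
        rw [dist_eq_norm]
        refine (contRep_close hΩ u (hra x hx k).2 (hra x hx l).2
          ⟨x, ⟨Metric.mem_ball_self (hra x hx k).1, Metric.mem_ball_self (hra x hx l).1⟩,
            hx⟩).trans ?_
        exact add_le_add (hδanti _ _ hk) (hδanti _ _ hl)
      obtain ⟨l, hl⟩ := cauchySeq_tendsto_of_complete hc
      exact ⟨l, fun _ => hl⟩
    · exact ⟨0, fun hx' => absurd hx' hx⟩
  choose v hv using hlim
  -- key estimate
  have key : ∀ (x y : E n) (ρ ε : ℝ) (b : E m), x ∈ Ω → x ∈ Metric.ball y ρ →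
      (∀ᵐ z ∂(volume.restrict (Metric.ball y ρ ∩ Ω)), ‖u z - b‖ ≤ ε) → ‖v x - b‖ ≤ ε := by
    intro x y ρ ε b hx hxy hb
    have h1 : ∀ k, ‖a x k - b‖ ≤ δ k + ε := fun k =>
      contRep_close hΩ u (hra x hx k).2 hb
        ⟨x, ⟨Metric.mem_ball_self (hra x hx k).1, hxy⟩, hx⟩
    have h2 : Tendsto (fun k => ‖a x k - b‖) atTop (𝓝 ‖v x - b‖) :=
      ((hv x hx).sub_const b).norm
    have h3 : Tendsto (fun k => δ k + ε) atTop (𝓝 (0 + ε)) := hδlim.add_const ε
    rw [zero_add] at h3
    exact le_of_tendsto_of_tendsto' h2 h3 h1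
  refine ⟨v, ?_, ?_⟩
  · intro x hx
    rw [Metric.continuousWithinAt_iff]
    intro ε hε
    obtain ⟨ρ, hρ, b, hb⟩ := h x hx (ε / 3) (by positivity)
    refine ⟨ρ, hρ, fun {y} hy hyx => ?_⟩
    have h1 := key y x ρ (ε / 3) b hy (by simpa [Metric.mem_ball] using hyx) hb
    have h2 := key x x ρ (ε / 3) b hx (Metric.mem_ball_self hρ) hb
    rw [dist_eq_norm]
    calc ‖v y - v x‖ = ‖(v y - b) - (v x - b)‖ := by congr 1; abel
      _ ≤ ‖v y - b‖ + ‖v x - b‖ := norm_sub_le _ _
      _ < ε := by linarith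
  · have hk : ∀ k : ℕ, ∀ᵐ y ∂(volume.restrict Ω), ‖u y - v y‖ ≤ δ k + δ k := by
      intro k
      rw [ae_restrict_iff' hΩ.measurableSet, ae_iff]
      refine measure_null_of_locally_null _ fun x hx => ?_
      have hxΩ : x ∈ Ω := by
        by_contra hc
        exact hx fun h' => absurd h' hc
      refine ⟨{y | ¬(y ∈ Ω → ‖u y - v y‖ ≤ δ k + δ k)} ∩ Metric.ball x (r x k), ?_, ?_⟩
      · exact Filter.inter_mem self_mem_nhdsWithin
          (mem_nhdsWithin_of_mem_nhds (Metric.ball_mem_nhds x (hra x hxΩ k).1))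
      · have h1 := (hra x hxΩ k).2
        rw [ae_restrict_iff' (Metric.isOpen_ball.inter hΩ).measurableSet, ae_iff] at h1
        refine measure_mono_null ?_ h1
        rintro y ⟨hy, hyb⟩
        simp only [mem_ofPred_eq, Classical.not_imp, not_le] at hy ⊢
        refine ⟨⟨hyb, hy.1⟩, ?_⟩
        by_contra hcon
        push Not at hcon
        have h2 := key y x (r x k) (δ k) (a x k) hy.1 hyb (hra x hxΩ k).2
        have h3 : ‖u y - v y‖ ≤ δ k + δ k :=
          calc ‖u y - v y‖ = ‖(u y - a x k) - (v y - a x k)‖ := by congr 1; abel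
            _ ≤ ‖u y - a x k‖ + ‖v y - a x k‖ := norm_sub_le _ _
            _ ≤ δ k + δ k := add_le_add hcon h2
        linarith [hy.2]
    have hall : ∀ᵐ y ∂(volume.restrict Ω), ∀ k : ℕ, ‖u y - v y‖ ≤ δ k + δ k := ae_all_iff.2 hk
    filter_upwards [hall] with y hy
    have h1 : Tendsto (fun k => δ k + δ k) atTop (𝓝 (0 + 0)) := hδlim.add hδlim
    rw [add_zero] at h1
    have h2 : ‖u y - v y‖ ≤ 0 := ge_of_tendsto' h1 hy
    have h3 : u y - v y = 0 := norm_le_zero_iff.1 h2
    exact sub_eq_zero.1 h3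

end Pool.Agent.Lib.HSys
end

section

/-!
# The De Giorgi iteration lemma
-/

set_option autoImplicit false
open MeasureTheory Set Filter Topology
open scoped ENNReal Matrix

namespace Pool.Agent.Lib.HSys

private lemma DG_rpow (x : ℝ) (hx : 0 ≤ x) {n : ℕ} (hn : 1 ≤ n) :
    (x ^ n) ^ (((n : ℝ) + 1) / n) = x ^ (n + 1) := by
  have hn' : (n : ℝ) ≠ 0 := by
    have : (1 : ℝ) ≤ (n : ℝ) := by exact_mod_cast hn
    linarith
  rw [← Real.rpow_natCast x n, ← Real.rpow_mul hx, ← Real.rpow_natCast x (n + 1)]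
  congr 1
  push_cast
  field_simp

/-- DG : the De Giorgi iteration lemma -/
theorem de_giorgi {n : ℕ} (hn : 1 ≤ n) (C : ℝ) (hC : 0 < C) : ∃ ε : ℝ, 0 < ε ∧
    ∀ (F : ℝ → ℝ≥0∞) (r₀ : ℝ), 0 < r₀ → F r₀ ≤ ENNReal.ofReal ε →
      (∀ r r', r₀ ≤ r → r < r' → r' ≤ 2 * r₀ →
        F r' ≤ ENNReal.ofReal (C * (1 + r' / (r' - r))) * F r ^ (((n : ℝ) + 1) / n)) →
      (∀ r r', r₀ ≤ r → r ≤ r' → F r' ≤ F r) → F (2 * r₀) = 0 := by
  set δ : ℝ := 1 / (5 * C * 2 ^ n) with hδ
  have hδpos : 0 < δ := by positivity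
  refine ⟨δ ^ n, by positivity, ?_⟩
  intro F r₀ hr₀ h0 hstep hmono
  set rr : ℕ → ℝ := fun j => r₀ * (2 - 1 / 2 ^ j) with hrr
  have hrr_ge : ∀ j, r₀ ≤ rr j := by
    intro j
    have h1 : (1 : ℝ) / 2 ^ j ≤ 1 := by
      rw [div_le_one (by positivity)]
      exact one_le_pow₀ (by norm_num)
    simp only [hrr]
    nlinarith
  have hrr_le : ∀ j, rr j ≤ 2 * r₀ := by
    intro j
    have h1 : (0 : ℝ) ≤ 1 / 2 ^ j := by positivity
    simp only [hrr]
    nlinarith
  have hdiff : ∀ j, rr (j + 1) - rr j = r₀ * (1 / 2 ^ (j + 1)) := by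
    intro j
    simp only [hrr]
    have : (2 : ℝ) ^ (j + 1) = 2 * 2 ^ j := by ring
    rw [this]
    have h2 : (2 : ℝ) ^ j ≠ 0 := by positivity
    field_simp
    ring
  have hlt : ∀ j, rr j < rr (j + 1) := by
    intro j
    have h1 := hdiff j
    have h2 : 0 < r₀ * (1 / 2 ^ (j + 1)) := by positivity
    linarith
  have hcoef : ∀ j, C * (1 + rr (j + 1) / (rr (j + 1) - rr j)) ≤ 5 * C * 2 ^ j := by
    intro j
    have h1 : rr (j + 1) / (rr (j + 1) - rr j) ≤ 4 * 2 ^ j := by
      rw [hdiff, div_le_iff₀ (by positivity)]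
      have h2 : (4 : ℝ) * 2 ^ j * (r₀ * (1 / 2 ^ (j + 1))) = 2 * r₀ := by
        have : (2 : ℝ) ^ (j + 1) = 2 * 2 ^ j := by ring
        rw [this]
        have h2 : (2 : ℝ) ^ j ≠ 0 := by positivity
        field_simp
        ring
      rw [h2]
      exact hrr_le _
    have h3 : (1 : ℝ) ≤ 2 ^ j := one_le_pow₀ (by norm_num)
    have h4 : 1 + rr (j + 1) / (rr (j + 1) - rr j) ≤ 5 * 2 ^ j := by linarith
    calc C * (1 + rr (j + 1) / (rr (j + 1) - rr j)) ≤ C * (5 * 2 ^ j) :=
          mul_le_mul_of_nonneg_left h4 hC.le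
      _ = 5 * C * 2 ^ j := by ring
  have hclaim : ∀ j : ℕ, F (rr j) ≤ ENNReal.ofReal ((δ / 2 ^ j) ^ n) := by
    intro j
    induction j with
    | zero =>
      simp only [hrr, pow_zero, div_one]
      have : r₀ * (2 - 1) = r₀ := by ring
      rw [this]
      exact h0
    | succ j ih =>
      have hx : 0 ≤ δ / 2 ^ j := by positivity
      calc F (rr (j + 1))
          ≤ ENNReal.ofReal (C * (1 + rr (j + 1) / (rr (j + 1) - rr j)))
              * F (rr j) ^ (((n : ℝ) + 1) / n) := hstep _ _ (hrr_ge j) (hlt j) (hrr_le _)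
        _ ≤ ENNReal.ofReal (5 * C * 2 ^ j)
              * (ENNReal.ofReal ((δ / 2 ^ j) ^ n)) ^ (((n : ℝ) + 1) / n) := by
            apply mul_le_mul' (ENNReal.ofReal_le_ofReal (hcoef j))
            exact ENNReal.rpow_le_rpow ih (by positivity)
        _ = ENNReal.ofReal ((δ / 2 ^ (j + 1)) ^ n) := by
            rw [ENNReal.ofReal_rpow_of_nonneg (by positivity) (by positivity), DG_rpow _ hx hn,
              ← ENNReal.ofReal_mul (by positivity)]
            congr 1
            have e1 : δ / 2 ^ (j + 1) = (δ / 2 ^ j) / 2 := by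
              rw [pow_succ]; field_simp
            rw [e1, div_pow (δ / 2 ^ j) 2 n, pow_succ (δ / 2 ^ j) n]
            have e2 : 5 * C * 2 ^ j * ((δ / 2 ^ j) ^ n * (δ / 2 ^ j))
                = (δ / 2 ^ j) ^ n * (5 * C * δ) := by
              have h2 : (2 : ℝ) ^ j ≠ 0 := by positivity
              field_simp
            rw [e2]
            have e3 : 5 * C * δ = 1 / 2 ^ n := by
              rw [hδ]; field_simp
            rw [e3]
            ring
  have hlim : Tendsto (fun j : ℕ => ENNReal.ofReal ((δ / 2 ^ j) ^ n)) atTop (𝓝 0) := by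
    have h1 : Tendsto (fun j : ℕ => (δ / 2 ^ j) ^ n) atTop (𝓝 0) := by
      have h2 : Tendsto (fun j : ℕ => δ * (1 / 2 : ℝ) ^ j) atTop (𝓝 0) := by
        have := (tendsto_pow_atTop_nhds_zero_of_lt_one (r := (1 / 2 : ℝ)) (by norm_num)
          (by norm_num)).const_mul δ
        simpa using this
      have h3 := h2.pow n
      rw [zero_pow (by omega)] at h3
      refine h3.congr (fun j => ?_)
      congr 1
      rw [one_div, inv_pow]
      rfl
    have h4 := ENNReal.tendsto_ofReal h1
    simpa using h4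
  have hle : ∀ j, F (2 * r₀) ≤ ENNReal.ofReal ((δ / 2 ^ j) ^ n) := fun j =>
    le_trans (hmono _ _ (hrr_ge j) (hrr_le j)) (hclaim j)
  exact le_antisymm (ge_of_tendsto' hlim hle) (by simp)

end Pool.Agent.Lib.HSys
end

section

/-!
# MP_f44734_an: generalised dominated convergence

General tools: `tendsto_L1_of_gen_dom` (generalised dominated convergence) and
`LocApprox.tendsto_L1` (the same for functions dominated by `fro (Jac (U k)) ^ n + fro Du ^ n`).
-/

set_option autoImplicit false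
open MeasureTheory Set Filter Topology
open scoped ENNReal Matrix

namespace Pool.Agent.Lib.HSys

/-- generalised dominated convergence: the dominating functions are a fixed integrable function
plus functions tending to `0` in `L¹`. -/
theorem tendsto_L1_of_gen_dom {α : Type*} [MeasurableSpace α] {μ : Measure α} {F : ℕ → α → ℝ}
    {f : α → ℝ} {g : ℕ → α → ℝ≥0∞} {G : α → ℝ≥0∞}
    (hF : ∀ k, AEStronglyMeasurable (F k) μ) (hf : AEStronglyMeasurable f μ)
    (hg : ∀ k, AEMeasurable (g k) μ)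
    (hgt : Tendsto (fun k => ∫⁻ x, g k x ∂μ) atTop (𝓝 0)) (hG : ∫⁻ x, G x ∂μ ≠ ∞)
    (hb : ∀ k, ∀ᵐ x ∂μ, ‖F k x - f x‖ₑ ≤ g k x + G x)
    (hlim : ∀ᵐ x ∂μ, Tendsto (fun k => F k x) atTop (𝓝 (f x))) :
    Tendsto (fun k => ∫⁻ x, ‖F k x - f x‖ₑ ∂μ) atTop (𝓝 0) := by
  have hm : ∀ k, AEMeasurable (fun x => ‖F k x - f x‖ₑ) μ := fun k => ((hF k).sub hf).enorm
  have h1 : Tendsto (fun k => ∫⁻ x, (‖F k x - f x‖ₑ - g k x) ∂μ) atTop (𝓝 (∫⁻ _, 0 ∂μ)) := by
    refine tendsto_lintegral_of_dominated_convergence' G (fun k => (hm k).sub (hg k)) ?_ hG ?_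
    · intro k
      filter_upwards [hb k] with x hx
      exact tsub_le_iff_left.2 hx
    · filter_upwards [hlim] with x hx
      have h2 : Tendsto (fun k => ‖F k x - f x‖ₑ) atTop (𝓝 0) := by
        have := (hx.sub_const (f x)).enorm
        simpa using this
      exact tendsto_of_tendsto_of_tendsto_of_le_of_le tendsto_const_nhds h2
        (fun _ => zero_le) (fun _ => tsub_le_self)
  rw [lintegral_zero] at h1
  have h3 := h1.add hgt
  rw [add_zero] at h3
  refine tendsto_of_tendsto_of_tendsto_of_le_of_le tendsto_const_nhds h3 (fun _ => zero_le) ?_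
  intro k
  simp only []
  rw [← lintegral_add_right' _ (hg k)]
  exact lintegral_mono fun x => le_tsub_add

/-- sum of the absolute values of the entries -/
noncomputable def sabs {m n : ℕ} (P : Matrix (Fin m) (Fin n) ℝ) : ℝ := ∑ i, ∑ j, |P i j|

theorem sabs_nonneg {m n : ℕ} (P : Matrix (Fin m) (Fin n) ℝ) : 0 ≤ sabs P :=
  Finset.sum_nonneg fun _ _ => Finset.sum_nonneg fun _ _ => abs_nonneg _

theorem fro_le_sabs {m n : ℕ} (P : Matrix (Fin m) (Fin n) ℝ) : fro P ≤ sabs P := by
  unfold fro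
  apply Real.sqrt_le_iff.2
  refine ⟨sabs_nonneg P, ?_⟩
  calc ∑ a, ∑ b, P a b ^ 2 = ∑ a, ∑ b, |P a b| ^ 2 := by simp only [sq_abs]
    _ ≤ ∑ a, (∑ b, |P a b|) ^ 2 := Finset.sum_le_sum fun a _ =>
        Finset.sum_sq_le_sq_sum_of_nonneg fun b _ => abs_nonneg _
    _ ≤ (∑ a, ∑ b, |P a b|) ^ 2 :=
        Finset.sum_sq_le_sq_sum_of_nonneg fun a _ => Finset.sum_nonneg fun b _ => abs_nonneg _

theorem sabs_add_le {m n : ℕ} (P Q : Matrix (Fin m) (Fin n) ℝ) :
    sabs (P + Q) ≤ sabs P + sabs Q := by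
  unfold sabs
  rw [← Finset.sum_add_distrib]
  apply Finset.sum_le_sum
  intro i _
  rw [← Finset.sum_add_distrib]
  apply Finset.sum_le_sum
  intro j _
  exact abs_add_le _ _

/-- `fro P ^ n` in terms of `sabs (P - Q)` and `sabs Q`. -/
theorem fro_pow_le {m n : ℕ} (P Q : Matrix (Fin m) (Fin n) ℝ) (p : ℕ) :
    fro P ^ p ≤ 2 ^ (p - 1) * (sabs (P - Q) ^ p + sabs Q ^ p) := by
  calc fro P ^ p ≤ (sabs (P - Q) + sabs Q) ^ p := by
        apply pow_le_pow_left₀ (fro_nonneg P)
        refine (fro_le_sabs P).trans ?_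
        have := sabs_add_le (P - Q) Q
        rwa [sub_add_cancel] at this
    _ ≤ _ := add_pow_le (sabs_nonneg _) (sabs_nonneg _) p

section LocApprox

variable {n : ℕ} {x₀ : E n} {r : ℝ} {u : E n → E (n + 1)}
  {Du : E n → Matrix (Fin (n + 1)) (Fin n) ℝ} {a : E (n + 1)} {δ : ℝ} {U : ℕ → E n → E (n + 1)}

theorem LocApprox.memLp_sabs (hL : LocApprox n x₀ r u Du a δ U) :
    MemLp (fun x => sabs (Du x)) (n : ℝ≥0∞) (volume.restrict (Metric.ball x₀ r)) := by
  unfold sabs
  exact memLp_finsetSum _ fun i _ => memLp_finsetSum _ fun j _ => (hL.memDu i j).abs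

theorem LocApprox.continuous_Jac (hL : LocApprox n x₀ r u Du a δ U) (k : ℕ) (i : Fin (n + 1))
    (j : Fin n) : Continuous fun x => Jac (U k) x i j :=
  continuous_Jac_apply ((hL.smooth k).of_le (by exact_mod_cast le_top)) i j

theorem LocApprox.aesm_sabs_sub (hL : LocApprox n x₀ r u Du a δ U) (k : ℕ) :
    AEStronglyMeasurable (fun x => sabs (Jac (U k) x - Du x))
      (volume.restrict (Metric.ball x₀ r)) := by
  unfold sabs
  refine Finset.aestronglyMeasurable_fun_sum _ fun i _ =>
    Finset.aestronglyMeasurable_fun_sum _ fun j _ => ?_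
  exact ((hL.continuous_Jac k i j).aestronglyMeasurable.sub (hL.memDu i j).1).norm

theorem LocApprox.tendsto_sabs (hn : 1 ≤ n) (hL : LocApprox n x₀ r u Du a δ U) :
    Tendsto (fun k => eLpNorm (fun x => sabs (Jac (U k) x - Du x)) (n : ℝ≥0∞)
      (volume.restrict (Metric.ball x₀ r))) atTop (𝓝 0) := by
  have h1 : Tendsto (fun k => ∑ i : Fin (n + 1), ∑ j : Fin n,
      eLpNorm (fun x => Jac (U k) x i j - Du x i j) (n : ENNReal)
        (volume.restrict (Metric.ball x₀ r))) atTop (𝓝 (∑ _i : Fin (n + 1), ∑ _j : Fin n, 0)) :=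
    tendsto_finsetSum _ fun i _ => tendsto_finsetSum _ fun j _ => hL.Ln i j
  simp only [Finset.sum_const_zero] at h1
  refine tendsto_of_tendsto_of_tendsto_of_le_of_le tendsto_const_nhds h1 (fun _ => zero_le) ?_
  intro k
  have hn1 : (1 : ℝ≥0∞) ≤ (n : ℝ≥0∞) := by exact_mod_cast hn
  have hm : ∀ i j, AEStronglyMeasurable (fun x => |Jac (U k) x i j - Du x i j|)
      (volume.restrict (Metric.ball x₀ r)) := fun i j =>
    ((hL.continuous_Jac k i j).aestronglyMeasurable.sub (hL.memDu i j).1).norm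
  have h2 : eLpNorm (∑ i : Fin (n + 1), ∑ j : Fin n, fun x => |Jac (U k) x i j - Du x i j|)
      (n : ℝ≥0∞) (volume.restrict (Metric.ball x₀ r)) ≤ ∑ i : Fin (n + 1), ∑ j : Fin n,
        eLpNorm (fun x => |Jac (U k) x i j - Du x i j|) (n : ENNReal)
          (volume.restrict (Metric.ball x₀ r)) := by
    refine (eLpNorm_sum_le (fun i _ => ?_) hn1).trans ?_
    · exact Finset.aestronglyMeasurable_sum _ fun j _ => hm i j
    · exact Finset.sum_le_sum fun i _ => eLpNorm_sum_le (fun j _ => hm i j) hn1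
  have h3 : (fun x => sabs (Jac (U k) x - Du x)) =
      ∑ i : Fin (n + 1), ∑ j : Fin n, fun x => |Jac (U k) x i j - Du x i j| := by
    funext x
    simp [sabs, Finset.sum_apply]
  simp only []
  rw [h3]
  refine h2.trans (Finset.sum_le_sum fun i _ => Finset.sum_le_sum fun j _ => ?_)
  exact le_of_eq (eLpNorm_norm (fun x => Jac (U k) x i j - Du x i j))

theorem LocApprox.tendsto_lintegral_sabs (hn : 1 ≤ n) (hL : LocApprox n x₀ r u Du a δ U) :
    Tendsto (fun k => ∫⁻ x in Metric.ball x₀ r,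
      ENNReal.ofReal (sabs (Jac (U k) x - Du x) ^ n)) atTop (𝓝 0) := by
  have h1 := hL.tendsto_sabs hn
  have h2 : ∀ k, ∫⁻ x in Metric.ball x₀ r, ENNReal.ofReal (sabs (Jac (U k) x - Du x) ^ n) =
      eLpNorm (fun x => sabs (Jac (U k) x - Du x)) (n : ℝ≥0∞)
        (volume.restrict (Metric.ball x₀ r)) ^ (n : ℝ) := by
    intro k
    have h3 := eLpNorm_nnreal_pow_eq_lintegral (μ := volume.restrict (Metric.ball x₀ r))
      (f := fun x => sabs (Jac (U k) x - Du x)) (p := (n : NNReal))
      (by exact_mod_cast (by omega : n ≠ 0))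
    have h4 : ((n : NNReal) : ℝ≥0∞) = (n : ℝ≥0∞) := by simp
    have h5 : ((n : NNReal) : ℝ) = (n : ℝ) := by simp
    rw [h4, h5] at h3
    rw [h3]
    apply lintegral_congr
    intro x
    rw [Real.enorm_eq_ofReal (sabs_nonneg _), ENNReal.rpow_natCast,
      ENNReal.ofReal_pow (sabs_nonneg _)]
  simp_rw [h2]
  have h6 : (0 : ℝ≥0∞) = 0 ^ (n : ℝ) := by
    rw [ENNReal.zero_rpow_of_pos]
    exact_mod_cast (by omega : 0 < n)
  rw [h6]
  exact ((ENNReal.continuous_rpow_const (y := (n : ℝ))).tendsto 0).comp h1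

/-- Functions dominated by `fro (Jac (U k)) ^ n + fro Du ^ n` and converging almost everywhere
converge in `L¹`. -/
theorem LocApprox.tendsto_L1 (hn : 1 ≤ n) (hL : LocApprox n x₀ r u Du a δ U)
    {F : ℕ → E n → ℝ} {f : E n → ℝ}
    (hF : ∀ k, AEStronglyMeasurable (F k) (volume.restrict (Metric.ball x₀ r)))
    {C : ℝ} (hC : 0 ≤ C)
    (hb : ∀ k, ∀ᵐ x ∂(volume.restrict (Metric.ball x₀ r)),
      |F k x| ≤ C * (fro (Jac (U k) x) ^ n + fro (Du x) ^ n))
    (hlim : ∀ᵐ x ∂(volume.restrict (Metric.ball x₀ r)),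
      Tendsto (fun k => F k x) atTop (𝓝 (f x))) :
    (∀ k, Integrable (F k) (volume.restrict (Metric.ball x₀ r))) ∧
    Integrable f (volume.restrict (Metric.ball x₀ r)) ∧
    Tendsto (fun k => ∫⁻ x in Metric.ball x₀ r, ‖F k x - f x‖ₑ) atTop (𝓝 0) := by
  have : IsFiniteMeasure (volume.restrict (Metric.ball x₀ r)) :=
    ⟨by rw [Measure.restrict_apply_univ]; exact measure_ball_lt_top⟩
  have hS : Integrable (fun x => sabs (Du x) ^ n) (volume.restrict (Metric.ball x₀ r)) := by
    have := hL.memLp_sabs.integrable_norm_pow (by omega : n ≠ 0)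
    refine this.congr (Eventually.of_forall fun x => ?_)
    simp only []
    rw [Real.norm_of_nonneg (sabs_nonneg _)]
  have hfD : ∀ x, fro (Du x) ^ n ≤ sabs (Du x) ^ n := fun x =>
    pow_le_pow_left₀ (fro_nonneg _) (fro_le_sabs _) n
  have hfm : AEStronglyMeasurable f (volume.restrict (Metric.ball x₀ r)) :=
    aestronglyMeasurable_of_tendsto_ae atTop hF hlim
  -- bound of the limit
  have hfb : ∀ᵐ x ∂(volume.restrict (Metric.ball x₀ r)), |f x| ≤ 2 * C * fro (Du x) ^ n := by
    filter_upwards [hlim, ae_all_iff.2 hb, hL.ae_Du] with x h1 h2 h3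
    have h4 : Tendsto (fun k => Jac (U k) x) atTop (𝓝 (Du x)) := by
      refine tendsto_pi_nhds.2 fun i => tendsto_pi_nhds.2 fun j => h3 i j
    have h5 : Tendsto (fun k => C * (fro (Jac (U k) x) ^ n + fro (Du x) ^ n)) atTop
        (𝓝 (C * (fro (Du x) ^ n + fro (Du x) ^ n))) :=
      ((((continuous_fro.tendsto _).comp h4).pow n).add_const _).const_mul C
    have h6 := le_of_tendsto_of_tendsto h1.abs h5 (Eventually.of_forall h2)
    linarith
  have hfint : Integrable f (volume.restrict (Metric.ball x₀ r)) := by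
    refine Integrable.mono' (hS.const_mul (2 * C)) hfm ?_
    filter_upwards [hfb] with x hx
    rw [Real.norm_eq_abs]
    exact hx.trans (mul_le_mul_of_nonneg_left (hfD x) (by positivity))
  have hFint : ∀ k, Integrable (F k) (volume.restrict (Metric.ball x₀ r)) := by
    intro k
    have hJ : Integrable (fun x => fro (Jac (U k) x) ^ n)
        (volume.restrict (Metric.ball x₀ r)) := by
      have hc : Continuous (fun x => fro (Jac (U k) x) ^ n) :=
        (continuous_fro.comp (Pool.Agent.Lib.HSys.continuous_Jac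
          ((hL.smooth k).of_le (by exact_mod_cast le_top)))).pow n
      have h1 : IntegrableOn (fun x => fro (Jac (U k) x) ^ n) (Metric.closedBall x₀ r) :=
        hc.continuousOn.integrableOn_compact (isCompact_closedBall x₀ r)
      exact h1.mono_set Metric.ball_subset_closedBall
    refine Integrable.mono' ((hJ.add hS).const_mul C) (hF k) ?_
    filter_upwards [hb k] with x hx
    rw [Real.norm_eq_abs]
    exact hx.trans (mul_le_mul_of_nonneg_left (by simpa using hfD x) hC)
  refine ⟨hFint, hfint, ?_⟩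
  refine tendsto_L1_of_gen_dom (g := fun k x => ENNReal.ofReal (C * 2 ^ (n - 1)) *
      ENNReal.ofReal (sabs (Jac (U k) x - Du x) ^ n))
    (G := fun x => ENNReal.ofReal ((C * 2 ^ (n - 1) + 3 * C) * sabs (Du x) ^ n)) hF hfm ?_ ?_ ?_
    ?_ hlim
  · intro k
    exact (((hL.aesm_sabs_sub k).aemeasurable.pow_const n).ennreal_ofReal).const_mul _
  · have h1 : ∀ k, ∫⁻ x in Metric.ball x₀ r, ENNReal.ofReal (C * 2 ^ (n - 1)) *
        ENNReal.ofReal (sabs (Jac (U k) x - Du x) ^ n) = ENNReal.ofReal (C * 2 ^ (n - 1)) *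
        ∫⁻ x in Metric.ball x₀ r, ENNReal.ofReal (sabs (Jac (U k) x - Du x) ^ n) := fun k =>
      lintegral_const_mul' _ _ ENNReal.ofReal_ne_top
    simp_rw [h1]
    have h2 := ENNReal.Tendsto.const_mul (a := ENNReal.ofReal (C * 2 ^ (n - 1)))
      (hL.tendsto_lintegral_sabs hn) (Or.inr ENNReal.ofReal_ne_top)
    rwa [mul_zero] at h2
  · have h1 := (hS.const_mul (C * 2 ^ (n - 1) + 3 * C)).lintegral_lt_top
    exact h1.ne
  · intro k
    filter_upwards [hb k, hfb] with x h1 h2
    rw [← ENNReal.ofReal_mul (by positivity), ← ENNReal.ofReal_add]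
    rotate_left
    · have := sabs_nonneg (Jac (U k) x - Du x)
      positivity
    · have := sabs_nonneg (Du x)
      positivity
    rw [Real.enorm_eq_ofReal_abs]
    apply ENNReal.ofReal_le_ofReal
    have h3 := fro_pow_le (Jac (U k) x) (Du x) n
    have h4 := hfD x
    have h5 : |F k x - f x| ≤ |F k x| + |f x| := abs_sub _ _
    have h6 : C * (fro (Jac (U k) x) ^ n) ≤
        C * (2 ^ (n - 1) * (sabs (Jac (U k) x - Du x) ^ n + sabs (Du x) ^ n)) :=
      mul_le_mul_of_nonneg_left h3 hC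
    have h7 : C * fro (Du x) ^ n ≤ C * sabs (Du x) ^ n := mul_le_mul_of_nonneg_left h4 hC
    nlinarith [h1, h2, h5, h6, h7]

end LocApprox

end Pool.Agent.Lib.HSys
end

section

/-!
# Vanishing gradient in the far region implies boundedness
-/

set_option autoImplicit false
open MeasureTheory Set Filter Topology
open scoped ENNReal Matrix

namespace Pool.Agent.Lib.HSys

/-! ### a Poincaré inequality on cubes -/

theorem Vanish_cons_mem_ball {m : ℕ} {x₀ : E (m + 1)} {r : ℝ} (hr : 0 < r) (t : ℝ) (z : E m) :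
    (Fin.cons t z : E (m + 1)) ∈ Metric.ball x₀ r ↔
      t ∈ Metric.ball (x₀ 0) r ∧ z ∈ Metric.ball (fun j : Fin m => x₀ j.succ) r := by
  rw [Metric.mem_ball, Metric.mem_ball, Metric.mem_ball, dist_pi_lt_iff hr, dist_pi_lt_iff hr,
    Fin.forall_fin_succ]
  simp

theorem Vanish_setLIntegral_cons {m : ℕ} {x₀ : E (m + 1)} {r : ℝ} (hr : 0 < r)
    (F : E (m + 1) → ℝ≥0∞) (hF : Measurable F) :
    ∫⁻ x in Metric.ball x₀ r, F x = ∫⁻ t in Metric.ball (x₀ 0) r,
      ∫⁻ z in Metric.ball (fun j : Fin m => x₀ j.succ) r, F (Fin.cons t z : E (m + 1)) := by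
  rw [← lintegral_indicator Metric.isOpen_ball.measurableSet,
    LW_lintegral_cons _ (hF.indicator Metric.isOpen_ball.measurableSet),
    ← lintegral_indicator Metric.isOpen_ball.measurableSet]
  refine lintegral_congr fun t => ?_
  by_cases ht : t ∈ Metric.ball (x₀ 0) r
  · rw [indicator_of_mem ht, ← lintegral_indicator Metric.isOpen_ball.measurableSet]
    refine lintegral_congr fun z => ?_
    by_cases hz : z ∈ Metric.ball (fun j : Fin m => x₀ j.succ) r
    · rw [indicator_of_mem hz, indicator_of_mem ((Vanish_cons_mem_ball hr t z).mpr ⟨ht, hz⟩)]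
    · rw [indicator_of_notMem hz, indicator_of_notMem]
      exact fun h => hz ((Vanish_cons_mem_ball hr t z).mp h).2
  · rw [indicator_of_notMem ht]
    refine (lintegral_congr fun z => ?_).trans lintegral_zero
    rw [indicator_of_notMem]
    exact fun h => ht ((Vanish_cons_mem_ball hr t z).mp h).1

theorem Vanish_hasDerivAt {m : ℕ} (g : E (m + 1) → ℝ) (hg : ContDiff ℝ 1 g) (z : E m) (t : ℝ) :
    HasDerivAt (fun τ : ℝ => g (Fin.cons τ z : E (m + 1)))
      (pd g 0 (Fin.cons t z : E (m + 1))) t := by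
  have h1 : HasFDerivAt g (fderiv ℝ g (Fin.cons t z : E (m + 1))) (Fin.cons t z : E (m + 1)) :=
    (hg.differentiable one_ne_zero _).hasFDerivAt
  have h2 : HasDerivAt (fun τ : ℝ => (Fin.cons τ z : E (m + 1))) (Pi.single 0 1) t := by
    rw [hasDerivAt_pi]
    intro i
    refine Fin.cases ?_ (fun j => ?_) i
    · simp only [Fin.cons_zero, Pi.single_eq_same]
      exact hasDerivAt_id' t
    · simpa using hasDerivAt_const t (z j)
  exact h1.comp_hasDerivAt t h2

theorem Vanish_poincare {m : ℕ} (g : E (m + 1) → ℝ) (hg : ContDiff ℝ 1 g) (x₀ : E (m + 1))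
    {r : ℝ} (hr : 0 < r) (h0 : ∀ x, ‖x - x₀‖ = r → g x = 0) :
    ∫⁻ x in Metric.ball x₀ r, ‖g x‖ₑ ≤
      ENNReal.ofReal (2 * r) * ∫⁻ x in Metric.ball x₀ r, ‖pd g 0 x‖ₑ := by
  have hgc : Continuous g := hg.continuous
  have hpc : Continuous (pd g 0) := (hg.continuous_fderiv one_ne_zero).clm_apply continuous_const
  have hcons : Continuous (fun p : ℝ × E m => (Fin.cons p.1 p.2 : E (m + 1))) := by
    refine continuous_pi fun i => ?_
    refine Fin.cases ?_ (fun j => ?_) i
    · simpa using continuous_fst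
    · simp only [Fin.cons_succ]
      exact (continuous_apply j).comp continuous_snd
  rw [Vanish_setLIntegral_cons hr _ hgc.measurable.enorm,
    Vanish_setLIntegral_cons hr _ hpc.measurable.enorm]
  set B := Metric.ball (fun j : Fin m => x₀ j.succ) r with hB
  have hline : ∀ t ∈ Metric.ball (x₀ 0) r, ∀ z ∈ B, ‖g (Fin.cons t z : E (m + 1))‖ₑ ≤
      ∫⁻ τ in Metric.ball (x₀ 0) r, ‖pd g 0 (Fin.cons τ z : E (m + 1))‖ₑ := by
    intro t ht z hz
    have hb : g (Fin.cons (x₀ 0 - r) z : E (m + 1)) = 0 := by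
      apply h0
      apply le_antisymm
      · rw [pi_norm_le_iff_of_nonneg hr.le]
        intro i
        refine Fin.cases ?_ (fun j => ?_) i
        · simp [abs_of_pos hr]
        · have h1 := (dist_pi_lt_iff hr).mp (Metric.mem_ball.mp hz) j
          rw [Real.dist_eq] at h1
          simpa using h1.le
      · have h1 := norm_le_pi_norm ((Fin.cons (x₀ 0 - r) z : E (m + 1)) - x₀) 0
        simpa [abs_of_pos hr] using h1
    rw [Real.ball_eq_Ioo] at ht ⊢
    have hle : x₀ 0 - r ≤ t := ht.1.le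
    have hcont : Continuous (fun τ : ℝ => pd g 0 (Fin.cons τ z : E (m + 1))) :=
      hpc.comp (hcons.comp (continuous_id.prodMk continuous_const))
    have hint := intervalIntegral.integral_eq_sub_of_hasDerivAt
      (fun τ _ => Vanish_hasDerivAt g hg z τ) (hcont.intervalIntegrable (x₀ 0 - r) t)
    rw [hb, sub_zero, intervalIntegral.integral_of_le hle] at hint
    rw [← hint]
    refine (enorm_integral_le_lintegral_enorm _).trans ?_
    refine lintegral_mono_set ?_
    intro τ hτ
    exact ⟨hτ.1, lt_of_le_of_lt hτ.2 ht.2⟩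
  calc ∫⁻ t in Metric.ball (x₀ 0) r, ∫⁻ z in B, ‖g (Fin.cons t z : E (m + 1))‖ₑ
      ≤ ∫⁻ t in Metric.ball (x₀ 0) r, ∫⁻ z in B, ∫⁻ τ in Metric.ball (x₀ 0) r,
          ‖pd g 0 (Fin.cons τ z : E (m + 1))‖ₑ := by
        refine setLIntegral_mono' Metric.isOpen_ball.measurableSet fun t ht => ?_
        exact setLIntegral_mono' Metric.isOpen_ball.measurableSet fun z hz => hline t ht z hz
    _ = ENNReal.ofReal (2 * r) * ∫⁻ z in B, ∫⁻ τ in Metric.ball (x₀ 0) r,
          ‖pd g 0 (Fin.cons τ z : E (m + 1))‖ₑ := by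
        rw [lintegral_const, Measure.restrict_apply_univ, Real.volume_ball, mul_comm]
    _ = ENNReal.ofReal (2 * r) * ∫⁻ τ in Metric.ball (x₀ 0) r, ∫⁻ z in B,
          ‖pd g 0 (Fin.cons τ z : E (m + 1))‖ₑ := by
        congr 1
        refine lintegral_lintegral_swap ?_
        refine Measurable.aemeasurable ?_
        exact ((hpc.comp (hcons.comp continuous_swap)).measurable).enorm

/-! ### the cut-off function -/

theorem Vanish_deriv_zero {t : ℝ} (ht : t ≤ 0) : deriv Real.smoothTransition t = 0 := by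
  apply IsLocalMin.deriv_eq_zero
  refine Filter.Eventually.of_forall fun x => ?_
  rw [Real.smoothTransition.zero_of_nonpos ht]
  exact Real.smoothTransition.nonneg x

theorem Vanish_deriv_bound : ∃ D : ℝ, ∀ t, |deriv Real.smoothTransition t| ≤ D := by
  have hc : Continuous (deriv Real.smoothTransition) :=
    (Real.smoothTransition.contDiff (n := 1)).continuous_deriv le_rfl
  have hs : HasCompactSupport (deriv Real.smoothTransition) := by
    refine HasCompactSupport.intro (isCompact_Icc (a := (0 : ℝ)) (b := 1)) fun t ht => ?_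
    rcases le_or_gt t 0 with h | h
    · exact Vanish_deriv_zero h
    · have h1 : 1 < t := by
        by_contra hcon
        exact ht ⟨h.le, not_lt.mp hcon⟩
      have h2 : Real.smoothTransition =ᶠ[𝓝 t] fun _ => (1 : ℝ) := by
        filter_upwards [Ioi_mem_nhds h1] with x hx
        exact Real.smoothTransition.one_of_one_le (le_of_lt hx)
      rw [h2.deriv_eq, deriv_const]
  obtain ⟨D, hD⟩ := hc.bounded_above_of_compact_support hs
  exact ⟨D, fun t => by simpa [Real.norm_eq_abs] using hD t⟩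

theorem Vanish_pd {m : ℕ} (s : ℝ) (y : E m) (l : Fin m) :
    pd (fun y => Real.smoothTransition (bra y - s)) l y =
      deriv Real.smoothTransition (bra y - s) * (y l / bra y) := by
  have h1 : HasDerivAt Real.smoothTransition (deriv Real.smoothTransition (bra y - s))
      (bra y - s) :=
    ((Real.smoothTransition.contDiff (n := 1)).differentiable one_ne_zero _).hasDerivAt
  have h2 : HasFDerivAt (fun y : E m => bra y - s) (fderiv ℝ (bra : E m → ℝ) y) y := by
    have := (hasFDerivAt_bra y).sub_const s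
    rwa [← (hasFDerivAt_bra y).fderiv] at this
  have h3 := h1.comp_hasFDerivAt y h2
  rw [pd]
  have h4 : fderiv ℝ (fun y => Real.smoothTransition (bra y - s)) y =
      deriv Real.smoothTransition (bra y - s) • fderiv ℝ (bra : E m → ℝ) y := h3.fderiv
  rw [h4, smul_apply, fderiv_bra, smul_eq_mul]

/-- VAN : vanishing gradient in the far region implies boundedness. -/
theorem bounded_of_grad_zero {n : ℕ} (hn : 1 ≤ n) {u : E n → E (n + 1)}
    {Du : E n → Matrix (Fin (n + 1)) (Fin n) ℝ} {x₀ : E n} {r : ℝ}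
    {a : E (n + 1)} {δ : ℝ} {U : ℕ → E n → E (n + 1)} (hL : LocApprox n x₀ r u Du a δ U)
    {s : ℝ} (hδ : ∀ y : E (n + 1), (∀ i, |y i| ≤ δ) → bra y < s)
    (hz : ∀ᵐ x ∂(volume.restrict (Metric.ball x₀ r)), s ≤ bra (u x - a) → Du x = 0) :
    ∀ᵐ x ∂(volume.restrict (Metric.ball x₀ r)), bra (u x - a) ≤ s := by
  obtain ⟨m, rfl⟩ : ∃ m, n = m + 1 := ⟨n - 1, by omega⟩
  obtain ⟨D, hD⟩ := Vanish_deriv_bound
  have hD0 : 0 ≤ D := (abs_nonneg _).trans (hD 0)
  set μ : Measure (E (m + 1)) := volume.restrict (Metric.ball x₀ r) with hμ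
  have hfin : IsFiniteMeasure μ := by
    refine ⟨?_⟩
    rw [hμ, Measure.restrict_apply_univ]
    exact Metric.isBounded_ball.measure_lt_top
  set G : E (m + 2) → ℝ := fun y => Real.smoothTransition (bra y - s) with hG
  have hGsm : ContDiff ℝ 1 G :=
    Real.smoothTransition.contDiff.comp (contDiff_bra.sub contDiff_const)
  have hGpd : ∀ y l, |pd G l y| ≤ D := by
    intro y l
    rw [hG, Vanish_pd, abs_mul]
    have h1 : |y l / bra y| ≤ 1 := by
      rw [abs_div, abs_of_pos (bra_pos y), div_le_one (bra_pos y)]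
      exact abs_le_bra y l
    calc |deriv Real.smoothTransition (bra y - s)| * |y l / bra y| ≤ D * 1 :=
          mul_le_mul (hD _) h1 (abs_nonneg _) hD0
      _ = D := mul_one D
  have hGpd0 : ∀ y l, bra y ≤ s → pd G l y = 0 := by
    intro y l hy
    rw [hG, Vanish_pd, Vanish_deriv_zero (by linarith), zero_mul]
  have hpdc : ∀ l, Continuous (pd G l) := fun l =>
    (hGsm.continuous_fderiv one_ne_zero).clm_apply continuous_const
  -- the approximating functions
  have hUsm : ∀ k, ContDiff ℝ 1 (U k) := fun k => (hL.smooth k).of_le (by exact_mod_cast le_top)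
  set g : ℕ → E (m + 1) → ℝ := fun k x => G (U k x - a) with hg
  have hgsm : ∀ k, ContDiff ℝ 1 (g k) := fun k => hGsm.comp ((hUsm k).sub contDiff_const)
  have hgb : ∀ k x, ‖x - x₀‖ = r → g k x = 0 := by
    intro k x hx
    apply Real.smoothTransition.zero_of_nonpos
    have := hδ (U k x - a) (fun i => hL.bdry k x hx i)
    linarith
  have hP := fun k => Vanish_poincare (g k) (hgsm k) x₀ hL.rpos (hgb k)
  -- the derivative of `g k`
  have hgpd : ∀ k x, pd (g k) 0 x = ∑ l, pd G l (U k x - a) * Jac (U k) x l 0 := by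
    intro k x
    have h1 := pd_comp (w := fun x => U k x - a) (ψ := G) (x := x)
      (hGsm.differentiable one_ne_zero _)
      (((hUsm k).sub contDiff_const).differentiable one_ne_zero _) 0
    rw [Jac_sub_const] at h1
    exact h1
  -- measurability of the limits
  have hum : AEStronglyMeasurable u μ := hL.aesm_u
  have hDum : ∀ l j, AEStronglyMeasurable (fun x => Du x l j) μ := fun l j =>
    (hL.memDu l j).aestronglyMeasurable
  have hJc : ∀ k l, Continuous fun x => Jac (U k) x l 0 := fun k l =>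
    continuous_Jac_apply (hUsm k) l 0
  have h1n : (1 : ℝ≥0∞) ≤ ((m + 1 : ℕ) : ℝ≥0∞) := by
    exact_mod_cast Nat.succ_le_succ (Nat.zero_le m)
  have hDuint : ∀ l, ∫⁻ x, ‖Du x l 0‖ₑ ∂μ ≠ ∞ := by
    intro l
    have h1 : MemLp (fun x => Du x l 0) 1 μ := (hL.memDu l 0).mono_exponent h1n
    rw [← eLpNorm_one_eq_lintegral_enorm]
    exact h1.eLpNorm_ne_top
  -- first term
  have hT1 : ∀ l, Tendsto (fun k => ENNReal.ofReal D * ∫⁻ x, ‖Jac (U k) x l 0 - Du x l 0‖ₑ ∂μ)
      atTop (𝓝 0) := by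
    intro l
    have hc : μ Set.univ ^ (1 / (1 : ℝ≥0∞).toReal - 1 / ((m + 1 : ℕ) : ℝ≥0∞).toReal) ≠ ∞ := by
      apply ENNReal.rpow_ne_top_of_nonneg
      · rw [ENNReal.toReal_one, ENNReal.toReal_natCast, sub_nonneg]
        apply one_div_le_one_div_of_le one_pos
        exact_mod_cast Nat.succ_le_succ (Nat.zero_le m)
      · exact measure_ne_top μ _
    have h1 : Tendsto (fun k => eLpNorm (fun x => Jac (U k) x l 0 - Du x l 0)
        ((m + 1 : ℕ) : ℝ≥0∞) μ *
        μ Set.univ ^ (1 / (1 : ℝ≥0∞).toReal - 1 / ((m + 1 : ℕ) : ℝ≥0∞).toReal)) atTop (𝓝 0) := by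
      have := ENNReal.Tendsto.mul_const (hL.Ln l 0) (Or.inr hc)
      rwa [zero_mul] at this
    have h2 : Tendsto (fun k => ∫⁻ x, ‖Jac (U k) x l 0 - Du x l 0‖ₑ ∂μ) atTop (𝓝 0) := by
      refine tendsto_of_tendsto_of_tendsto_of_le_of_le tendsto_const_nhds h1
        (fun k => zero_le) (fun k => ?_)
      simp only
      rw [← eLpNorm_one_eq_lintegral_enorm]
      exact eLpNorm_le_eLpNorm_mul_rpow_measure_univ h1n
        ((hJc k l).aestronglyMeasurable.sub (hDum l 0))
    have := ENNReal.Tendsto.const_mul (a := ENNReal.ofReal D) h2 (Or.inr ENNReal.ofReal_ne_top)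
    rwa [mul_zero] at this
  -- second term
  have hT2 : ∀ l, Tendsto (fun k => ∫⁻ x, ‖pd G l (U k x - a)‖ₑ * ‖Du x l 0‖ₑ ∂μ)
      atTop (𝓝 0) := by
    intro l
    have hlim : ∫⁻ x, ‖pd G l (u x - a)‖ₑ * ‖Du x l 0‖ₑ ∂μ = 0 := by
      rw [lintegral_eq_zero_iff']
      · filter_upwards [hz] with x hx
        rcases le_total (bra (u x - a)) s with h | h
        · rw [hGpd0 _ l h, enorm_zero, zero_mul]; rfl
        · rw [hx h, Matrix.zero_apply, enorm_zero, mul_zero]; rfl
      · refine AEMeasurable.mul ?_ (hDum l 0).enorm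
        exact ((hpdc l).comp_aestronglyMeasurable (hum.sub aestronglyMeasurable_const)).enorm
    rw [← hlim]
    refine tendsto_lintegral_of_dominated_convergence' (fun x => ENNReal.ofReal D * ‖Du x l 0‖ₑ)
      (fun k => ?_) (fun k => ?_) ?_ ?_
    · refine AEMeasurable.mul ?_ (hDum l 0).enorm
      exact ((hpdc l).comp ((hUsm k).continuous.sub continuous_const)).measurable.enorm.aemeasurable
    · refine Filter.Eventually.of_forall fun x => ?_
      refine mul_le_mul_left ?_ _
      rw [Real.enorm_eq_ofReal_abs]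
      exact ENNReal.ofReal_le_ofReal (hGpd _ l)
    · rw [lintegral_const_mul'' _ (hDum l 0).enorm]
      exact ENNReal.mul_ne_top ENNReal.ofReal_ne_top (hDuint l)
    · filter_upwards [hL.ae_u] with x hx
      refine ENNReal.Tendsto.mul_const ?_ (Or.inr enorm_ne_top)
      exact ((continuous_enorm.comp (hpdc l)).tendsto _).comp (hx.sub_const a)
  have hT : Tendsto (fun k => ENNReal.ofReal (2 * r) *
      ∑ l, (ENNReal.ofReal D * ∫⁻ x, ‖Jac (U k) x l 0 - Du x l 0‖ₑ ∂μ +
        ∫⁻ x, ‖pd G l (U k x - a)‖ₑ * ‖Du x l 0‖ₑ ∂μ)) atTop (𝓝 0) := by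
    have h1 : Tendsto (fun k => ∑ l, (ENNReal.ofReal D *
        ∫⁻ x, ‖Jac (U k) x l 0 - Du x l 0‖ₑ ∂μ +
        ∫⁻ x, ‖pd G l (U k x - a)‖ₑ * ‖Du x l 0‖ₑ ∂μ)) atTop
        (𝓝 (∑ _l : Fin (m + 2), (0 + 0))) :=
      tendsto_finsetSum _ fun l _ => (hT1 l).add (hT2 l)
    simp only [add_zero, Finset.sum_const_zero] at h1
    have := ENNReal.Tendsto.const_mul (a := ENNReal.ofReal (2 * r)) h1
      (Or.inr ENNReal.ofReal_ne_top)
    rwa [mul_zero] at this
  have hgT : Tendsto (fun k => ∫⁻ x, ‖g k x‖ₑ ∂μ) atTop (𝓝 0) := by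
    refine tendsto_of_tendsto_of_tendsto_of_le_of_le tendsto_const_nhds hT
      (fun k => zero_le) (fun k => ?_)
    refine (hP k).trans ?_
    refine mul_le_mul_right ?_ _
    calc ∫⁻ x in Metric.ball x₀ r, ‖pd (g k) 0 x‖ₑ
        ≤ ∫⁻ x, ∑ l, (ENNReal.ofReal D * ‖Jac (U k) x l 0 - Du x l 0‖ₑ +
            ‖pd G l (U k x - a)‖ₑ * ‖Du x l 0‖ₑ) ∂μ := by
          refine lintegral_mono fun x => ?_
          simp only
          rw [hgpd k x]
          refine (enorm_sum_le _ _).trans (Finset.sum_le_sum fun l _ => ?_)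
          rw [enorm_mul]
          have h1 : ‖Jac (U k) x l 0‖ₑ ≤ ‖Jac (U k) x l 0 - Du x l 0‖ₑ + ‖Du x l 0‖ₑ := by
            calc ‖Jac (U k) x l 0‖ₑ = ‖(Jac (U k) x l 0 - Du x l 0) + Du x l 0‖ₑ := by
                  rw [sub_add_cancel]
              _ ≤ _ := enorm_add_le _ _
          have h2 : ‖pd G l (U k x - a)‖ₑ ≤ ENNReal.ofReal D := by
            rw [Real.enorm_eq_ofReal_abs]
            exact ENNReal.ofReal_le_ofReal (hGpd _ l)
          calc ‖pd G l (U k x - a)‖ₑ * ‖Jac (U k) x l 0‖ₑ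
              ≤ ‖pd G l (U k x - a)‖ₑ * (‖Jac (U k) x l 0 - Du x l 0‖ₑ + ‖Du x l 0‖ₑ) :=
                mul_le_mul_right h1 _
            _ = ‖pd G l (U k x - a)‖ₑ * ‖Jac (U k) x l 0 - Du x l 0‖ₑ +
                ‖pd G l (U k x - a)‖ₑ * ‖Du x l 0‖ₑ := mul_add _ _ _
            _ ≤ _ := by
                refine add_le_add_left (mul_le_mul_left h2 _) _
      _ = ∑ l, (ENNReal.ofReal D * ∫⁻ x, ‖Jac (U k) x l 0 - Du x l 0‖ₑ ∂μ +
            ∫⁻ x, ‖pd G l (U k x - a)‖ₑ * ‖Du x l 0‖ₑ ∂μ) := by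
          have hm1 : ∀ l, AEMeasurable (fun x => ‖Jac (U k) x l 0 - Du x l 0‖ₑ) μ := fun l =>
            ((hJc k l).aestronglyMeasurable.sub (hDum l 0)).enorm
          have hm2 : ∀ l, AEMeasurable (fun x => ‖pd G l (U k x - a)‖ₑ * ‖Du x l 0‖ₑ) μ := fun l =>
            ((hpdc l).comp ((hUsm k).continuous.sub
              continuous_const)).measurable.enorm.aemeasurable.mul (hDum l 0).enorm
          have hm3 : ∀ l ∈ Finset.univ, AEMeasurable (fun x =>
              ENNReal.ofReal D * ‖Jac (U k) x l 0 - Du x l 0‖ₑ +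
              ‖pd G l (U k x - a)‖ₑ * ‖Du x l 0‖ₑ) μ := fun l _ =>
            ((hm1 l).const_mul _).add (hm2 l)
          rw [lintegral_finsetSum' _ hm3]
          refine Finset.sum_congr rfl fun l _ => ?_
          rw [lintegral_add_left' ((hm1 l).const_mul _), lintegral_const_mul'' _ (hm1 l)]
  -- Fatou
  have hF : ∫⁻ x, ‖G (u x - a)‖ₑ ∂μ = 0 := by
    have h1 : ∫⁻ x, ‖G (u x - a)‖ₑ ∂μ ≤ ∫⁻ x, liminf (fun k => ‖g k x‖ₑ) atTop ∂μ := by
      refine lintegral_mono_ae ?_
      filter_upwards [hL.ae_u] with x hx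
      have h2 : Tendsto (fun k => ‖g k x‖ₑ) atTop (𝓝 ‖G (u x - a)‖ₑ) :=
        ((continuous_enorm.comp hGsm.continuous).tendsto _).comp (hx.sub_const a)
      rw [h2.liminf_eq]
    have h2 : ∫⁻ x, liminf (fun k => ‖g k x‖ₑ) atTop ∂μ ≤
        liminf (fun k => ∫⁻ x, ‖g k x‖ₑ ∂μ) atTop :=
      lintegral_liminf_le fun k => (hgsm k).continuous.measurable.enorm
    rw [hgT.liminf_eq] at h2
    exact le_antisymm (h1.trans h2) zero_le
  rw [lintegral_eq_zero_iff'] at hF
  · filter_upwards [hF] with x hx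
    have h1 : G (u x - a) = 0 := by simpa using hx
    have h2 := Real.smoothTransition.zero_iff_nonpos.mp h1
    linarith
  · exact (hGsm.continuous.comp_aestronglyMeasurable (hum.sub aestronglyMeasurable_const)).enorm

end Pool.Agent.Lib.HSys
end

section

/-!
# MP_f44734_an: the tested equation in the limit
-/

set_option autoImplicit false
open MeasureTheory Set Filter Topology
open scoped ENNReal Matrix

namespace Pool.Agent.Lib.HSys

theorem tested_abs_mnr_le {n : ℕ} (P : Matrix (Fin (n + 1)) (Fin n) ℝ) (i : Fin (n + 1)) :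
    |mnr P i| ≤ n.factorial * fro P ^ n := by
  have h := Matrix.det_le (A := P.submatrix i.succAbove id) (abv := AbsoluteValue.abs)
    (x := fro P) (fun a b => abs_entry_le_fro P _ _)
  simpa [mnr] using h

theorem tested_pow_mul_le {a b : ℝ} (ha : 0 ≤ a) (hb : 0 ≤ b) {n : ℕ} (hn : 1 ≤ n) :
    a ^ (n - 1) * b ≤ a ^ n + b ^ n := by
  obtain ⟨m, rfl⟩ : ∃ m, n = m + 1 := ⟨n - 1, by omega⟩
  rw [Nat.add_sub_cancel]
  rcases le_total a b with h | h
  · have : a ^ m * b ≤ b ^ m * b := mul_le_mul_of_nonneg_right (pow_le_pow_left₀ ha h m) hb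
    have h2 : 0 ≤ a ^ (m + 1) := by positivity
    rw [pow_succ b]
    linarith
  · have : a ^ m * b ≤ a ^ m * a := mul_le_mul_of_nonneg_left h (by positivity)
    have h2 : 0 ≤ b ^ (m + 1) := by positivity
    rw [pow_succ a]
    linarith

section

variable {n : ℕ} {x₀ : E n} {r : ℝ} {u : E n → E (n + 1)}
  {Du : E n → Matrix (Fin (n + 1)) (Fin n) ℝ} {a : E (n + 1)} {δ : ℝ} {U : ℕ → E n → E (n + 1)}

theorem LocApprox.contDiff_one (hL : LocApprox n x₀ r u Du a δ U) (k : ℕ) :
    ContDiff ℝ 1 (U k) := (hL.smooth k).of_le (by exact_mod_cast le_top)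

theorem LocApprox.ae_mat (hL : LocApprox n x₀ r u Du a δ U) :
    ∀ᵐ x ∂(volume.restrict (Metric.ball x₀ r)),
      Tendsto (fun k => Jac (U k) x) atTop (𝓝 (Du x)) := by
  filter_upwards [hL.ae_Du] with x h3
  exact tendsto_pi_nhds.2 fun i => tendsto_pi_nhds.2 fun j => h3 i j

theorem LocApprox.aesm_fro (hL : LocApprox n x₀ r u Du a δ U) :
    AEStronglyMeasurable (fun x => fro (Du x)) (volume.restrict (Metric.ball x₀ r)) := by
  refine aestronglyMeasurable_of_tendsto_ae atTop (f := fun k x => fro (Jac (U k) x))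
    (fun k => (continuous_fro.comp
      (Pool.Agent.Lib.HSys.continuous_Jac (hL.contDiff_one k))).aestronglyMeasurable) ?_
  filter_upwards [hL.ae_mat] with x hx
  exact (continuous_fro.tendsto _).comp hx

theorem LocApprox.aesm_cr (hL : LocApprox n x₀ r u Du a δ U) (i : Fin (n + 1)) :
    AEStronglyMeasurable (fun x => cr (Du x) i) (volume.restrict (Metric.ball x₀ r)) := by
  refine aestronglyMeasurable_of_tendsto_ae atTop (f := fun k x => cr (Jac (U k) x) i)
    (fun k => ((continuous_cr i).comp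
      (Pool.Agent.Lib.HSys.continuous_Jac (hL.contDiff_one k))).aestronglyMeasurable) ?_
  filter_upwards [hL.ae_mat] with x hx
  exact ((continuous_cr i).tendsto _).comp hx

/-- `L¹` convergence of the minors. -/
theorem mnr_L1 (hn : 1 ≤ n) (hL : LocApprox n x₀ r u Du a δ U) (i : Fin (n + 1)) :
    Tendsto (fun k => ∫⁻ x in Metric.ball x₀ r,
      ENNReal.ofReal |mnr (Jac (U k) x) i - mnr (Du x) i|) atTop (𝓝 0) := by
  have h := (hL.tendsto_L1 hn (F := fun k x => mnr (Jac (U k) x) i) (f := fun x => mnr (Du x) i)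
    (fun k => ((continuous_mnr i).comp
      (Pool.Agent.Lib.HSys.continuous_Jac (hL.contDiff_one k))).aestronglyMeasurable)
    (C := n.factorial) (by positivity) (fun k => Eventually.of_forall fun x => ?_) ?_).2.2
  · simpa only [Real.enorm_eq_ofReal_abs] using h
  · refine (tested_abs_mnr_le _ i).trans ?_
    have h1 : 0 ≤ fro (Du x) ^ n := pow_nonneg (fro_nonneg _) _
    exact mul_le_mul_of_nonneg_left (by linarith) (by positivity)
  · filter_upwards [hL.ae_mat] with x hx
    exact ((continuous_mnr i).tendsto _).comp hx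

/-- H1L : the tested equation in the limit. -/
theorem tested_equation {n : ℕ} (hn : 2 ≤ n) {Ω : Set (E n)} (hΩ : IsOpen Ω)
    {H : E (n + 1) → ℝ} {M : ℝ} (hM : ∀ y, |H y| ≤ M) (hH : Continuous H)
    {u : E n → E (n + 1)} {Du : E n → Matrix (Fin (n + 1)) (Fin n) ℝ}
    (hw : IsWeakSol n Ω H u Du) {x₀ : E n} {r : ℝ} (hsub : Metric.ball x₀ r ⊆ Ω)
    {a : E (n + 1)} {δ : ℝ} {U : ℕ → E n → E (n + 1)} (hL : LocApprox n x₀ r u Du a δ U)
    {s : ℝ} (hδ : ∀ y : E (n + 1), (∀ i, |y i| ≤ δ) → bra y < s)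
    (X : E (n + 1) → E (n + 1)) (hX : ContDiff ℝ (⊤ : ℕ∞) X)
    (hX0 : ∀ y, bra y ≤ s → X y = 0) (hb₀ : ∃ b, ∀ y i, |X y i| ≤ b)
    (hD : ∃ D : ℝ, ∀ y i j, |fderiv ℝ X y (Pi.single j 1) i| ≤ D) :
    (∫ x in Metric.ball x₀ r, fro (Du x) ^ (n - 2) *
        ∑ b, ∑ i, ∑ j, Du x i b * fderiv ℝ X (u x - a) (Pi.single j 1) i * Du x j b =
      ∫ x in Metric.ball x₀ r, H (u x) * ∑ i, X (u x - a) i * cr (Du x) i) ∧
    Tendsto (fun k => ∫ x in Metric.ball x₀ r,
        H (U k x) * ∑ i, X (U k x - a) i * cr (Jac (U k) x) i) atTop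
      (𝓝 (∫ x in Metric.ball x₀ r, H (u x) * ∑ i, X (u x - a) i * cr (Du x) i)) := by
  obtain ⟨b, hb⟩ := hb₀
  obtain ⟨D, hD⟩ := hD
  have hn1 : 1 ≤ n := by omega
  have hM0 : 0 ≤ M := (abs_nonneg _).trans (hM 0)
  have hb0 : 0 ≤ b := (abs_nonneg _).trans (hb 0 0)
  have hD0 : 0 ≤ D := (abs_nonneg _).trans (hD 0 0 0)
  have hX1 : ContDiff ℝ 1 X := hX.of_le (by exact_mod_cast le_top)
  have hXc : Continuous X := hX.continuous
  have hUc : ∀ k, Continuous (U k) := fun k => (hL.smooth k).continuous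
  have hcx : ∀ k i, Continuous fun x => X (U k x - a) i := fun k i =>
    (continuous_apply i).comp (hXc.comp ((hUc k).sub continuous_const))
  have hdX : ∀ (l i : Fin (n + 1)), Continuous fun y => fderiv ℝ X y (Pi.single l 1) i := by
    intro l i
    exact (continuous_apply i).comp ((hX1.continuous_fderiv one_ne_zero).clm_apply
      continuous_const)
  have hJc : ∀ k i j, Continuous fun x => Jac (U k) x i j := fun k i j => hL.continuous_Jac k i j
  have haX : ∀ i, ∀ᵐ x ∂(volume.restrict (Metric.ball x₀ r)),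
      Tendsto (fun k => X (U k x - a) i) atTop (𝓝 (X (u x - a) i)) := by
    intro i
    filter_upwards [hL.ae_u] with x hx
    exact (((continuous_apply i).comp hXc).tendsto _).comp (hx.sub_const a)
  have had : ∀ l i, ∀ᵐ x ∂(volume.restrict (Metric.ball x₀ r)),
      Tendsto (fun k => fderiv ℝ X (U k x - a) (Pi.single l 1) i) atTop
        (𝓝 (fderiv ℝ X (u x - a) (Pi.single l 1) i)) := by
    intro l i
    filter_upwards [hL.ae_u] with x hx
    exact ((hdX l i).tendsto _).comp (hx.sub_const a)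
  -- second claim
  have claim2 := hL.tendsto_L1 hn1
    (F := fun k x => H (U k x) * ∑ i, X (U k x - a) i * cr (Jac (U k) x) i)
    (f := fun x => H (u x) * ∑ i, X (u x - a) i * cr (Du x) i)
    (fun k => ((hH.comp (hUc k)).mul (continuous_finsetSum _ fun i _ => (hcx k i).mul
      ((continuous_cr i).comp
        (Pool.Agent.Lib.HSys.continuous_Jac (hL.contDiff_one k))))).aestronglyMeasurable)
    (C := M * ((n + 1 : ℕ) * (b * n.factorial))) (by positivity)
    (fun k => Eventually.of_forall fun x => by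
      have h1 : |∑ i, X (U k x - a) i * cr (Jac (U k) x) i| ≤
          (n + 1 : ℕ) * (b * (n.factorial * fro (Jac (U k) x) ^ n)) := by
        refine (Finset.abs_sum_le_sum_abs _ _).trans ?_
        refine (Finset.sum_le_card_nsmul _ _ (b * (n.factorial * fro (Jac (U k) x) ^ n))
          fun i _ => ?_).trans ?_
        · rw [abs_mul, abs_cr]
          exact mul_le_mul (hb _ _) (tested_abs_mnr_le _ i) (abs_nonneg _) hb0
        · rw [Finset.card_univ, Fintype.card_fin, nsmul_eq_mul]
      rw [abs_mul]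
      have h2 : 0 ≤ fro (Du x) ^ n := pow_nonneg (fro_nonneg _) _
      calc |H (U k x)| * |∑ i, X (U k x - a) i * cr (Jac (U k) x) i| ≤
          M * ((n + 1 : ℕ) * (b * (n.factorial * fro (Jac (U k) x) ^ n))) :=
            mul_le_mul (hM _) h1 (abs_nonneg _) hM0
        _ = M * ((n + 1 : ℕ) * (b * n.factorial)) * fro (Jac (U k) x) ^ n := by ring
        _ ≤ _ := mul_le_mul_of_nonneg_left (by linarith) (by positivity))
    (by
      have h3 : ∀ᵐ x ∂(volume.restrict (Metric.ball x₀ r)), ∀ i,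
        Tendsto (fun k => X (U k x - a) i) atTop (𝓝 (X (u x - a) i)) := ae_all_iff.2 haX
      filter_upwards [hL.ae_u, hL.ae_mat, h3] with x h1 h2 h3
      refine ((hH.tendsto _).comp h1).mul (tendsto_finsetSum _ fun i _ => (h3 i).mul ?_)
      exact ((continuous_cr i).tendsto _).comp h2)
  refine ⟨?_, tendsto_integral_of_L1 _ claim2.2.1.aestronglyMeasurable
    (Eventually.of_forall claim2.1) claim2.2.2⟩
  -- left hand side, for each i
  have left := fun i : Fin (n + 1) => hL.tendsto_L1 hn1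
    (F := fun k x => fro (Du x) ^ (n - 2) * ∑ j, Du x i j *
      ∑ l, fderiv ℝ X (U k x - a) (Pi.single l 1) i * Jac (U k) x l j)
    (f := fun x => fro (Du x) ^ (n - 2) * ∑ j, Du x i j *
      ∑ l, fderiv ℝ X (u x - a) (Pi.single l 1) i * Du x l j)
    (fun k => (hL.aesm_fro.pow (n - 2)).mul (Finset.aestronglyMeasurable_fun_sum _ fun j _ =>
      (hL.memDu i j).1.mul (Continuous.aestronglyMeasurable (continuous_finsetSum _ fun l _ =>
        ((hdX l i).comp ((hUc k).sub continuous_const)).mul (hJc k l j)))))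
    (C := (n : ℕ) * ((n + 1 : ℕ) * D)) (by positivity)
    (fun k => Eventually.of_forall fun x => by
      have hf0 := fro_nonneg (Du x)
      have hJ0 := fro_nonneg (Jac (U k) x)
      have h1 : ∀ j, |∑ l, fderiv ℝ X (U k x - a) (Pi.single l 1) i * Jac (U k) x l j| ≤
          (n + 1 : ℕ) * (D * fro (Jac (U k) x)) := by
        intro j
        refine (Finset.abs_sum_le_sum_abs _ _).trans ?_
        refine (Finset.sum_le_card_nsmul _ _ (D * fro (Jac (U k) x)) fun l _ => ?_).trans ?_
        · rw [abs_mul]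
          exact mul_le_mul (hD _ _ _) (abs_entry_le_fro _ _ _) (abs_nonneg _) hD0
        · rw [Finset.card_univ, Fintype.card_fin, nsmul_eq_mul]
      have h2 : |∑ j, Du x i j * ∑ l, fderiv ℝ X (U k x - a) (Pi.single l 1) i *
          Jac (U k) x l j| ≤ n * (fro (Du x) * ((n + 1 : ℕ) * (D * fro (Jac (U k) x)))) := by
        refine (Finset.abs_sum_le_sum_abs _ _).trans ?_
        refine (Finset.sum_le_card_nsmul _ _
          (fro (Du x) * ((n + 1 : ℕ) * (D * fro (Jac (U k) x)))) fun j _ => ?_).trans ?_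
        · rw [abs_mul]
          exact mul_le_mul (abs_entry_le_fro _ _ _) (h1 j) (abs_nonneg _) hf0
        · rw [Finset.card_univ, Fintype.card_fin, nsmul_eq_mul]
      rw [abs_mul, abs_of_nonneg (pow_nonneg hf0 _)]
      have h3 := tested_pow_mul_le hf0 hJ0 hn1
      have h4 : fro (Du x) ^ (n - 1) = fro (Du x) ^ (n - 2) * fro (Du x) := by
        rw [← pow_succ]
        congr 1
        omega
      calc fro (Du x) ^ (n - 2) * |∑ j, Du x i j * ∑ l,
            fderiv ℝ X (U k x - a) (Pi.single l 1) i * Jac (U k) x l j|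
          ≤ fro (Du x) ^ (n - 2) *
            (n * (fro (Du x) * ((n + 1 : ℕ) * (D * fro (Jac (U k) x))))) :=
            mul_le_mul_of_nonneg_left h2 (pow_nonneg hf0 _)
        _ = n * ((n + 1 : ℕ) * D) * (fro (Du x) ^ (n - 1) * fro (Jac (U k) x)) := by
            rw [h4]; ring
        _ ≤ n * ((n + 1 : ℕ) * D) * (fro (Jac (U k) x) ^ n + fro (Du x) ^ n) :=
            mul_le_mul_of_nonneg_left (by linarith) (by positivity))
    (by
      have h3 : ∀ᵐ x ∂(volume.restrict (Metric.ball x₀ r)), ∀ l,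
        Tendsto (fun k => fderiv ℝ X (U k x - a) (Pi.single l 1) i) atTop
        (𝓝 (fderiv ℝ X (u x - a) (Pi.single l 1) i)) := ae_all_iff.2 fun l => had l i
      filter_upwards [hL.ae_Du, h3] with x h2 h3
      exact (tendsto_finsetSum _ fun j _ => (tendsto_finsetSum _ fun l _ =>
        (h3 l).mul (h2 l j)).const_mul _).const_mul _)
  -- right hand side, for each i
  have right := fun i : Fin (n + 1) => hL.tendsto_L1 hn1
    (F := fun k x => H (u x) * cr (Du x) i * X (U k x - a) i)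
    (f := fun x => H (u x) * cr (Du x) i * X (u x - a) i)
    (fun k => ((hH.comp_aestronglyMeasurable hL.aesm_u).mul (hL.aesm_cr i)).mul
      (hcx k i).aestronglyMeasurable)
    (C := M * n.factorial * b) (by positivity)
    (fun k => Eventually.of_forall fun x => by
      have hf0 := fro_nonneg (Du x)
      have hJ0 := fro_nonneg (Jac (U k) x)
      rw [abs_mul, abs_mul, abs_cr]
      calc |H (u x)| * |mnr (Du x) i| * |X (U k x - a) i| ≤
          M * (n.factorial * fro (Du x) ^ n) * b :=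
            mul_le_mul (mul_le_mul (hM _) (tested_abs_mnr_le _ i) (abs_nonneg _) hM0) (hb _ _)
              (abs_nonneg _) (by positivity)
        _ = M * n.factorial * b * fro (Du x) ^ n := by ring
        _ ≤ _ := mul_le_mul_of_nonneg_left (by
            have : 0 ≤ fro (Jac (U k) x) ^ n := pow_nonneg hJ0 _
            linarith) (by positivity))
    (by
      filter_upwards [haX i] with x h2
      exact h2.const_mul _)
  -- the equation for each k and i
  have eqn : ∀ (k : ℕ) (i : Fin (n + 1)),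
      ∫ x in Metric.ball x₀ r, fro (Du x) ^ (n - 2) * ∑ j, Du x i j *
        ∑ l, fderiv ℝ X (U k x - a) (Pi.single l 1) i * Jac (U k) x l j =
      ∫ x in Metric.ball x₀ r, H (u x) * cr (Du x) i * X (U k x - a) i := by
    intro k i
    have hsm : ContDiff ℝ (⊤ : ℕ∞) (fun x => X (U k x - a)) :=
      hX.comp ((hL.smooth k).sub contDiff_const)
    obtain ⟨c1, c2, c3, c4⟩ := cutoff_smooth (fun x => X (U k x - a)) hsm x₀ r hL.rpos
      {x | bra (U k x - a) < s}
      (isOpen_lt (continuous_bra.comp ((hUc k).sub continuous_const)) continuous_const)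
      (fun x hx => hδ _ fun i => hL.bdry k x hx i) (fun x hx => hX0 _ (le_of_lt hx))
    set G : E n → E (n + 1) := (Metric.ball x₀ r).indicator (fun x => X (U k x - a)) with hG
    have hts : tsupport (fun x => G x i) ⊆ Metric.ball x₀ r := by
      refine Subset.trans ?_ c3
      apply closure_mono
      intro x hx
      rw [Function.mem_support] at hx ⊢
      intro h
      exact hx (by rw [h]; rfl)
    have hcs : HasCompactSupport (fun x => G x i) := by
      refine HasCompactSupport.of_support_subset_isCompact c2 ?_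
      intro x hx
      apply subset_closure
      rw [Function.mem_support] at hx ⊢
      intro h
      exact hx (by rw [h]; rfl)
    have h := hw (fun x => G x i) (contDiff_pi.1 c1 i) hcs (hts.trans hsub) i
    rw [setIntegral_eq_of_subset_of_forall_sdiff_eq_zero hΩ.measurableSet hsub,
      setIntegral_eq_of_subset_of_forall_sdiff_eq_zero hΩ.measurableSet hsub] at h
    rotate_left
    · intro x hx
      have : G x = 0 := indicator_of_notMem hx.2 _
      simp [this]
    · intro x hx
      have h0 : fderiv ℝ (fun x => G x i) x = 0 := by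
        apply image_eq_zero_of_notMem_tsupport
        intro h2
        exact hx.2 (hts (tsupport_fderiv_subset ℝ h2))
      simp [h0]
    have e1 : ∫ x in Metric.ball x₀ r, Real.sqrt (∑ a, ∑ b, Du x a b ^ 2) ^ (n - 2)
          * ∑ j, Du x i j * fderiv ℝ (fun x => G x i) x (Pi.single j 1) =
        ∫ x in Metric.ball x₀ r, fro (Du x) ^ (n - 2) * ∑ j, Du x i j *
        ∑ l, fderiv ℝ X (U k x - a) (Pi.single l 1) i * Jac (U k) x l j := by
      apply setIntegral_congr_fun measurableSet_ball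
      intro x hx
      simp only []
      congr 1
      apply Finset.sum_congr rfl
      intro j _
      congr 1
      have h1 : fderiv ℝ (fun x => G x i) x (Pi.single j 1) = Jac G x i j :=
        pd_component ((c1.differentiable (by simp)) x) i j
      have h2 : Jac G x i j = Jac (fun x => X (U k x - a)) x i j := by
        rw [Jac_apply, Jac_apply, c4 x hx]
      have h3 : Jac (fun x => X (U k x - a)) x i j =
          ∑ l, Jac X (U k x - a) i l * Jac (fun x => U k x - a) x l j :=
        Jac_comp (w := fun x => U k x - a) (F := X) (hX1.differentiable one_ne_zero _)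
          (((hL.contDiff_one k).sub contDiff_const).differentiable one_ne_zero _) i j
      rw [h1, h2, h3, Jac_sub_const]
      rfl
    have e2 : ∫ x in Metric.ball x₀ r, H (u x) * ((-1 : ℝ) ^ (i : ℕ) *
            ((Du x).submatrix i.succAbove id).det) * G x i =
        ∫ x in Metric.ball x₀ r, H (u x) * cr (Du x) i * X (U k x - a) i := by
      apply setIntegral_congr_fun measurableSet_ball
      intro x hx
      have : G x = X (U k x - a) := indicator_of_mem hx _
      simp only [this]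
      rfl
    rw [← e1, ← e2]
    exact h
  -- pass to the limit
  have lim : ∀ i : Fin (n + 1),
      ∫ x in Metric.ball x₀ r, fro (Du x) ^ (n - 2) * ∑ j, Du x i j *
        ∑ l, fderiv ℝ X (u x - a) (Pi.single l 1) i * Du x l j =
      ∫ x in Metric.ball x₀ r, H (u x) * cr (Du x) i * X (u x - a) i := by
    intro i
    have t1 := tendsto_integral_of_L1 _ (left i).2.1.aestronglyMeasurable
      (Eventually.of_forall (left i).1) (left i).2.2
    have t2 := tendsto_integral_of_L1 _ (right i).2.1.aestronglyMeasurable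
      (Eventually.of_forall (right i).1) (right i).2.2
    refine tendsto_nhds_unique t1 (t2.congr fun k => (eqn k i).symm)
  have s1 : ∫ x in Metric.ball x₀ r, fro (Du x) ^ (n - 2) *
        ∑ b, ∑ i, ∑ j, Du x i b * fderiv ℝ X (u x - a) (Pi.single j 1) i * Du x j b =
      ∑ i, ∫ x in Metric.ball x₀ r, fro (Du x) ^ (n - 2) * ∑ j, Du x i j *
        ∑ l, fderiv ℝ X (u x - a) (Pi.single l 1) i * Du x l j := by
    rw [← integral_finsetSum _ fun i _ => (left i).2.1]
    apply integral_congr_ae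
    refine Eventually.of_forall fun x => ?_
    simp only []
    rw [← Finset.mul_sum, Finset.sum_comm]
    congr 1
    apply Finset.sum_congr rfl
    intro i _
    apply Finset.sum_congr rfl
    intro j _
    rw [Finset.mul_sum]
    apply Finset.sum_congr rfl
    intro l _
    ring
  have s2 : ∫ x in Metric.ball x₀ r, H (u x) * ∑ i, X (u x - a) i * cr (Du x) i =
      ∑ i, ∫ x in Metric.ball x₀ r, H (u x) * cr (Du x) i * X (u x - a) i := by
    rw [← integral_finsetSum _ fun i _ => (right i).2.1]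
    apply integral_congr_ae
    refine Eventually.of_forall fun x => ?_
    simp only []
    rw [Finset.mul_sum]
    apply Finset.sum_congr rfl
    intro i _
    ring
  rw [s1, s2]
  exact Finset.sum_congr rfl fun i _ => lim i

end

end Pool.Agent.Lib.HSys
end

section

/-!
# Smoothing of bounded Lipschitz functions
-/

set_option autoImplicit false
open MeasureTheory Set Filter Topology
open scoped ENNReal Matrix

namespace Pool.Agent.Lib.HSys

open scoped Convolution in
/-- HSM : smoothing of a bounded Lipschitz function. -/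
theorem exists_smooth_lip {m : ℕ} (H : E m → ℝ) (M : ℝ) (hM : ∀ y, |H y| ≤ M) (K : NNReal)
    (hK : LipschitzWith K H) (ε : ℝ) (hε : 0 < ε) : ∃ G : E m → ℝ, ContDiff ℝ (⊤ : ℕ∞) G ∧
      (∀ y, |G y| ≤ M) ∧ LipschitzWith K G ∧ ∀ y, |G y - H y| ≤ ε := by
  set d : ℝ := ε / ((K : ℝ) + 1) with hd
  have hK1 : (0 : ℝ) < (K : ℝ) + 1 := by positivity
  have hdpos : 0 < d := by positivity
  let φ : ContDiffBump (0 : E m) := ⟨d / 2, d, half_pos hdpos, half_lt_self hdpos⟩
  have hφc : Continuous (φ.normed volume) :=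
    (φ.contDiff_normed (n := 0) (μ := volume)).continuous
  have hφi : Integrable (φ.normed volume) :=
    hφc.integrable_of_hasCompactSupport φ.hasCompactSupport_normed
  have hφnn : ∀ t, 0 ≤ φ.normed volume t := fun t => φ.nonneg_normed t
  have hφ1 : ∫ t, φ.normed volume t = 1 := φ.integral_normed
  have hHc : Continuous H := hK.continuous
  -- the integrand
  have hint : ∀ y : E m, Integrable (fun t => φ.normed volume t * H (y - t)) := by
    intro y
    refine (hφi.mul_const M).mono' ?_ ?_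
    · exact (hφc.mul (hHc.comp (continuous_const.sub continuous_id))).aestronglyMeasurable
    · refine Filter.Eventually.of_forall (fun t => ?_)
      rw [norm_mul, Real.norm_eq_abs, Real.norm_eq_abs, abs_of_nonneg (hφnn t)]
      exact mul_le_mul_of_nonneg_left (hM _) (hφnn t)
  set G : E m → ℝ := (φ.normed volume ⋆[ContinuousLinearMap.lsmul ℝ ℝ, volume] H) with hG
  have hGx : ∀ y, G y = ∫ t, φ.normed volume t * H (y - t) := fun y => rfl
  refine ⟨G, ?_, ?_, ?_, ?_⟩
  · exact φ.hasCompactSupport_normed.contDiff_convolution_left _ φ.contDiff_normed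
      hHc.locallyIntegrable
  · intro y
    rw [hGx, ← Real.norm_eq_abs]
    calc ‖∫ t, φ.normed volume t * H (y - t)‖ ≤ ∫ t, φ.normed volume t * M := by
          apply norm_integral_le_of_norm_le (hφi.mul_const M)
          refine Filter.Eventually.of_forall (fun t => ?_)
          rw [norm_mul, Real.norm_eq_abs, Real.norm_eq_abs, abs_of_nonneg (hφnn t)]
          exact mul_le_mul_of_nonneg_left (hM _) (hφnn t)
      _ = M := by rw [integral_mul_const, hφ1, one_mul]
  · apply LipschitzWith.of_dist_le_mul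
    intro y z
    rw [Real.dist_eq, hGx, hGx, ← integral_sub (hint y) (hint z), ← Real.norm_eq_abs]
    calc ‖∫ t, (φ.normed volume t * H (y - t) - φ.normed volume t * H (z - t))‖
        ≤ ∫ t, φ.normed volume t * ((K : ℝ) * dist y z) := by
          apply norm_integral_le_of_norm_le (hφi.mul_const _)
          refine Filter.Eventually.of_forall (fun t => ?_)
          rw [← mul_sub, norm_mul, Real.norm_eq_abs, abs_of_nonneg (hφnn t)]
          apply mul_le_mul_of_nonneg_left _ (hφnn t)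
          have h := hK.dist_le_mul (y - t) (z - t)
          rw [dist_sub_right] at h
          rwa [dist_eq_norm] at h
      _ = (K : ℝ) * dist y z := by rw [integral_mul_const, hφ1, one_mul]
  · intro y
    rw [← Real.dist_eq]
    apply φ.dist_normed_convolution_le hHc.aestronglyMeasurable
    intro x hx
    rw [Metric.mem_ball] at hx
    have hx' : dist x y ≤ d := hx.le
    calc dist (H x) (H y) ≤ K * dist x y := hK.dist_le_mul x y
      _ ≤ K * d := mul_le_mul_of_nonneg_left hx' K.coe_nonneg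
      _ ≤ ((K : ℝ) + 1) * d := by nlinarith
      _ = ε := by rw [hd]; field_simp

end Pool.Agent.Lib.HSys
end
end
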